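import Mathlib

/-!
# MP_ede373, points algebraic over `ℚ(t)`, row A0: the polynomial of an algebraic point over `ℤ[x]`

`K = IntermediateField.adjoin ℚ (range x)`, `p = minpoly K y` (irreducible, `y` is integral over `K`), `d = natDegree p ≥ 1`. Characteristic `0`: `p` is separable, `aeval y p.derivative ≠ 0`
(`Irreducible.separable`, `Polynomial.Separable.aeval_derivative_ne_zero`).
(a) Every `a ∈ K` is a quotient: there are `P, Q : MvPolynomial (Fin m) ℤ` with `aeval x Q ≠ 0` and `a * aeval x Q = aeval x P` (`IntermediateField.adjoin_induction`, as in the proof of `AO.mem_field` in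
`Pool/Agent/H32/AO/Ob.lean`, with `≠ 0` instead of `0 <`; for rationals `P = C num`, `Q = C den`; inverse of `a ≠ 0`: exchange `P` and `Q`).
(b) choose `P j, Q j` for the coefficients `p.coeff j`, `j ≤ d`, and put `G j = P j * ∏_{i ∈ range (d+1) \ {j}} Q i`: `aeval x (G j) = c * p.coeff j`, `c = ∏_i aeval x (Q i) ≠ 0`. So `∑ aeval x (G j) y^j = c * aeval y p = 0`,
`aeval x (G d) = c * 1 ≠ 0`, `∑ j aeval x (G j) y^(j-1) = c * aeval y p.derivative ≠ 0` (`Polynomial.aeval_eq_sum_range`, `Polynomial.derivative` as a sum: `Polynomial.derivative_eval`/`sum_over_range`).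
-/

set_option autoImplicit false

namespace AK

open MvPolynomial

private theorem A0_quot {m : ℕ} (x : Fin m → ℂ) (a : ℂ)
    (ha : a ∈ IntermediateField.adjoin ℚ (Set.range x)) :
    ∃ P Q : MvPolynomial (Fin m) ℤ, aeval x Q ≠ 0 ∧ a * aeval x Q = aeval x P := by
  induction ha using IntermediateField.adjoin_induction with
  | mem y hy =>
    obtain ⟨i, rfl⟩ := hy
    exact ⟨X i, 1, by simp, by simp⟩
  | algebraMap r =>
    refine ⟨C r.num, C (r.den : ℤ), ?_, ?_⟩
    · rw [aeval_C]
      simp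
    · rw [aeval_C, aeval_C]
      have h1 : (r : ℂ) * (r.den : ℂ) = (r.num : ℂ) := by
        have h2 : (r : ℚ) * (r.den : ℚ) = (r.num : ℚ) := Rat.mul_den_eq_num r
        exact_mod_cast h2
      simpa using h1
  | add y z hy hz h1 h2 =>
    obtain ⟨P, Q, hQ, hP⟩ := h1
    obtain ⟨P', Q', hQ', hP'⟩ := h2
    refine ⟨P * Q' + P' * Q, Q * Q', by rw [map_mul]; exact mul_ne_zero hQ hQ', ?_⟩
    rw [map_mul, map_add, map_mul, map_mul, ← hP, ← hP']
    ring
  | inv y hy h1 =>
    obtain ⟨P, Q, hQ, hP⟩ := h1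
    by_cases h0 : y = 0
    · exact ⟨0, 1, by simp, by simp [h0]⟩
    · refine ⟨Q, P, ?_, ?_⟩
      · rw [← hP]
        exact mul_ne_zero h0 hQ
      · rw [← hP, ← mul_assoc, inv_mul_cancel₀ h0, one_mul]
  | mul y z hy hz h1 h2 =>
    obtain ⟨P, Q, hQ, hP⟩ := h1
    obtain ⟨P', Q', hQ', hP'⟩ := h2
    refine ⟨P * P', Q * Q', by rw [map_mul]; exact mul_ne_zero hQ hQ', ?_⟩
    rw [map_mul, map_mul, ← hP, ← hP']
    ring

theorem alg_data {m : ℕ} (x : Fin m → ℂ) (y : ℂ)
    (h : IsAlgebraic (IntermediateField.adjoin ℚ (Set.range x)) y) :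
    ∃ (d : ℕ) (G : ℕ → MvPolynomial (Fin m) ℤ),
      ∑ j ∈ Finset.range (d + 1), aeval x (G j) * y ^ j = 0 ∧ aeval x (G d) ≠ 0 ∧
      ∑ j ∈ Finset.range (d + 1), (j : ℂ) * aeval x (G j) * y ^ (j - 1) ≠ 0 := by
  classical
  obtain ⟨p, hp⟩ : ∃ p, p = minpoly (IntermediateField.adjoin ℚ (Set.range x)) y := ⟨_, rfl⟩
  have hint : IsIntegral (IntermediateField.adjoin ℚ (Set.range x)) y := h.isIntegral
  have hp0 : Polynomial.aeval y p = 0 := by rw [hp]; exact minpoly.aeval _ _
  have hmon : p.Monic := by rw [hp]; exact minpoly.monic hint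
  have hsep : p.Separable := by rw [hp]; exact (minpoly.irreducible hint).separable
  have hder : Polynomial.aeval y p.derivative ≠ 0 := hsep.aeval_derivative_ne_zero hp0
  clear hp
  obtain ⟨d, hd⟩ : ∃ d, d = p.natDegree := ⟨_, rfl⟩
  choose P Q hQ hP using fun j : ℕ => A0_quot x ((p.coeff j : IntermediateField.adjoin ℚ (Set.range x)) : ℂ)
    (p.coeff j).2
  obtain ⟨c, hc⟩ : ∃ c : ℂ, c = ∏ i ∈ Finset.range (d + 1), aeval x (Q i) := ⟨_, rfl⟩
  have hc0 : c ≠ 0 := by
    rw [hc]
    exact Finset.prod_ne_zero_iff.2 fun i _ => hQ i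
  have hG : ∀ j ∈ Finset.range (d + 1), aeval x (P j * ∏ i ∈ (Finset.range (d + 1)).erase j, Q i) =
      c * ((p.coeff j : IntermediateField.adjoin ℚ (Set.range x)) : ℂ) := by
    intro j hj
    rw [map_mul, ← hP, map_prod, hc, ← Finset.mul_prod_erase _ _ hj]
    ring
  refine ⟨d, fun j => P j * ∏ i ∈ (Finset.range (d + 1)).erase j, Q i, ?_, ?_, ?_⟩
  · have h1 : ∑ j ∈ Finset.range (d + 1), aeval x (P j * ∏ i ∈ (Finset.range (d + 1)).erase j, Q i) * y ^ j =
        c * Polynomial.aeval y p := by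
      rw [Polynomial.aeval_eq_sum_range, Finset.mul_sum, ← hd]
      refine Finset.sum_congr rfl fun j hj => ?_
      rw [hG j hj, Algebra.smul_def, mul_assoc]
      rfl
    rw [h1, hp0, mul_zero]
  · rw [hG d (Finset.self_mem_range_succ d), hd, hmon.coeff_natDegree]
    simpa using hc0
  · have h1 : ∑ j ∈ Finset.range (d + 1), (j : ℂ) * aeval x (P j * ∏ i ∈ (Finset.range (d + 1)).erase j, Q i) *
        y ^ (j - 1) = c * Polynomial.aeval y p.derivative := by
      rw [Polynomial.aeval_def, ← Polynomial.eval_map, ← Polynomial.derivative_map, Polynomial.derivative_eval,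
        Polynomial.sum_over_range' _ _ (d + 1), Finset.mul_sum]
      · refine Finset.sum_congr rfl fun j hj => ?_
        rw [hG j hj, Polynomial.coeff_map]
        have e : (algebraMap (IntermediateField.adjoin ℚ (Set.range x)) ℂ) (p.coeff j) =
          ((p.coeff j : IntermediateField.adjoin ℚ (Set.range x)) : ℂ) := rfl
        rw [e]
        ring
      · rw [Polynomial.natDegree_map, ← hd]
        exact Nat.lt_succ_self d
      · intro n
        ring
    rw [h1]
    exact mul_ne_zero hc0 hder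

end AK
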