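import Mathlib

/-!
# MP_ede373, points algebraic over `ℚ(t)`, row A1: the algebraic function

`f : (Fin m → ℂ) × ℂ → ℂ`, `f (s, w) = ∑_{j ≤ d} aeval s (G j) * w^j` is analytic (each `aeval s (G j)` is analytic in `s`: induction on the polynomial, or `AnalyticAt.aeval_mvPolynomial`, compare `AO.an_aeval` in
`Pool/Agent/H32/AO/Ob.lean`; composition with `Prod.fst`, `Prod.snd`), so `ContDiffAt ℂ ω f (x, y)` (`AnalyticAt.contDiffAt`). The map `fderiv ℂ f (x, y) ∘L ContinuousLinearMap.inr` is multiplication by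
`c = ∑ j aeval x (G j) y^(j-1)` (it is the derivative of `w ↦ f (x, w)` at `y`: `HasFDerivAt.comp` with `w ↦ (x, w)`, and `HasDerivAt` of the polynomial in `w`), `c ≠ 0`, so it is invertible
(`ContinuousLinearMap.IsInvertible`, `ContinuousLinearEquiv.smulLeft`/`toSpanSingleton` with a unit, or `ContinuousLinearMap.isInvertible_of..`). Then `Y = ContDiffAt.implicitFunction` (file
`Mathlib/Analysis/Calculus/ImplicitContDiff.lean`): `implicitFunction_apply_self : Y x = y`, `eventually_apply_implicitFunction : ∀ᶠ s in 𝓝 x, f (s, Y s) = f (x, y) = 0`, `contDiffAt_implicitFunction : ContDiffAt ℂ ω Y x`, which is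
analyticity (`contDiffAt_omega_iff_analyticAt` or `ContDiffAt.analyticAt`).
-/

set_option autoImplicit false

open scoped Topology ContDiff

namespace AK

open MvPolynomial

private lemma A1_an {m : ℕ} (p : MvPolynomial (Fin m) ℤ) (s : Fin m → ℂ) :
    AnalyticAt ℂ (fun s : Fin m → ℂ ↦ aeval s p) s :=
  AnalyticAt.aeval_mvPolynomial (𝕜 := ℂ) (f := fun s : Fin m → ℂ ↦ s)
    (fun i ↦ (ContinuousLinearMap.proj (R := ℂ) (φ := fun _ : Fin m ↦ ℂ) i).analyticAt s) p

theorem implicit_alg {m : ℕ} (x : Fin m → ℂ) (y : ℂ) (d : ℕ) (G : ℕ → MvPolynomial (Fin m) ℤ)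
    (h0 : ∑ j ∈ Finset.range (d + 1), aeval x (G j) * y ^ j = 0)
    (h1 : ∑ j ∈ Finset.range (d + 1), (j : ℂ) * aeval x (G j) * y ^ (j - 1) ≠ 0) :
    ∃ Y : (Fin m → ℂ) → ℂ, AnalyticAt ℂ Y x ∧ Y x = y ∧
      ∀ᶠ s in 𝓝 x, ∑ j ∈ Finset.range (d + 1), aeval s (G j) * Y s ^ j = 0 := by
  classical
  obtain ⟨f, hf⟩ : ∃ f : (Fin m → ℂ) × ℂ → ℂ, f = fun p =>
    ∑ j ∈ Finset.range (d + 1), aeval p.1 (G j) * p.2 ^ j := ⟨_, rfl⟩
  have han : AnalyticAt ℂ f (x, y) := by
    rw [hf]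
    apply Finset.analyticAt_fun_sum
    intro j _
    apply AnalyticAt.fun_mul
    · exact AnalyticAt.fun_comp (g := fun s : Fin m → ℂ => aeval s (G j)) (A1_an (G j) x)
        analyticAt_fst
    · exact analyticAt_snd.pow j
  have hcd : ContDiffAt ℂ ω f (x, y) := han.contDiffAt
  have hfd : HasFDerivAt f (fderiv ℂ f (x, y)) (x, y) := han.differentiableAt.hasFDerivAt
  have hin : HasFDerivAt (fun w : ℂ => ((x, w) : (Fin m → ℂ) × ℂ))
      (ContinuousLinearMap.inr ℂ (Fin m → ℂ) ℂ) y := hasFDerivAt_prodMk_right x y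
  have hcomp : HasFDerivAt (fun w => f (x, w))
      (fderiv ℂ f (x, y) ∘L ContinuousLinearMap.inr ℂ (Fin m → ℂ) ℂ) y :=
    HasFDerivAt.comp (g := f) y hfd hin
  have hder : HasDerivAt (fun w => f (x, w))
      (∑ j ∈ Finset.range (d + 1), (j : ℂ) * aeval x (G j) * y ^ (j - 1)) y := by
    rw [hf]
    apply HasDerivAt.fun_sum
    intro j _
    have h := (hasDerivAt_pow j y).const_mul (aeval x (G j))
    have e : aeval x (G j) * ((j : ℂ) * y ^ (j - 1)) = (j : ℂ) * aeval x (G j) * y ^ (j - 1) := by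
      ring
    rw [e] at h
    exact h
  have heq := hcomp.unique hder.hasFDerivAt
  have hinv : (fderiv ℂ f (x, y) ∘L ContinuousLinearMap.inr ℂ (Fin m → ℂ) ℂ).IsInvertible := by
    rw [heq]
    refine ⟨ContinuousLinearEquiv.unitsEquivAut ℂ (Units.mk0 _ h1), ?_⟩
    ext
    simp
  have hω : (ω : WithTop ℕ∞) ≠ 0 := by simp
  refine ⟨hcd.implicitFunction hω hinv, (hcd.contDiffAt_implicitFunction hω hinv).analyticAt,
    hcd.implicitFunction_apply_self hω hinv, ?_⟩
  have hev := hcd.eventually_apply_implicitFunction hω hinv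
  have hfz : f (x, y) = 0 := by
    rw [hf]
    exact h0
  have hfe : ∀ s w, f (s, w) = ∑ j ∈ Finset.range (d + 1), aeval s (G j) * w ^ j := by
    intro s w
    rw [hf]
  filter_upwards [hev] with s hs
  rw [hfz, hfe] at hs
  exact hs

end AK
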