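import Pool.Agent.H32.AK.MO

/-!
# MP_ede373, points algebraic over `ℚ(t)`, row A2: the functions are algebraic along lines

`alg_germ`: `F = mk (fun ζ ↦ f (line x v ζ))`, `g j = mk (fun ζ ↦ aeval (line x v ζ) (G j)) ∈ EX` (`AO.mem_EX`). The relation holds near `0` on the line (`line x v ζ → x`), so `∑ g j * F^j = 0` in `MG` (`mk_mul, mk_add, mk_eq_mk`; use the ring structure of the
germs: `mk` of a sum / product / power, by induction on `d`, or compare with how `AO.Orb.alg_φ` computes). `g d ≠ 0`: if it were zero, `aeval (line x v ζ) (G d) = 0` for small `ζ ≠ 0`, so by continuity `aeval x (G d) = 0` (as for `h0` in `AO.Orb.alg_φ`). So the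
polynomial `∑ C ⟨g j, _⟩ X^j ∈ EX[X]` is nonzero and has the root `F`.

`alg_ψ`: for `i = 0` this is `alg_germ` for `f = S.Y` (`S.ψ 0 = S.Y`). For `i.succ`: `φ_i = (A Y + B) / (C Y + D)`; with `T = mk (Y along the line)` algebraic over `EX` and `a, b, c, d ∈ EX`: `mk φ_i = (a T + b) (c T + d)⁻¹`, where `c T + d = mk (den i (line ..)) ≠ 0` since
`den i x ≠ 0`; algebraic elements form a field (`IsAlgebraic.add, mul, inv`). Follow `AO.Orb.alg_φ` in `Pool/Agent/H32/AO/Ob.lean`.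
-/

set_option autoImplicit false

open UpperHalfPlane hiding I
open Complex EisensteinSeries ModularForm MatrixGroups Manifold
open scoped Real Topology
open MvPolynomial Filter

namespace AK

open H32 H32.T3 H32.T4 AO

private lemma A2_pow {f : ℂ → ℂ} (hf : MeromorphicAt f 0) (j : ℕ) :
    mk f hf ^ j = mk (fun ζ ↦ f ζ ^ j) (hf.fun_pow j) := by
  induction j with
  | zero =>
    rw [pow_zero, ← mk_one, mk_eq_mk]
    exact Eventually.of_forall fun ζ ↦ by simp
  | succ j ih =>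
    rw [pow_succ, ih, mk_mul, mk_eq_mk]
    exact Eventually.of_forall fun ζ ↦ by simp [pow_succ]

private lemma A2_sum (n : ℕ) (g : ℕ → ℂ → ℂ) (hg : ∀ j, MeromorphicAt (g j) 0)
    (h0 : ∀ᶠ ζ in NE, ∑ j ∈ Finset.range n, g j ζ = 0) :
    ∑ j ∈ Finset.range n, mk (g j) (hg j) = 0 := by
  have hs : ∀ n : ℕ, MeromorphicAt (fun ζ ↦ ∑ j ∈ Finset.range n, g j ζ) 0 := fun n ↦
    MeromorphicAt.fun_sum fun j _ ↦ hg j
  have key : ∀ n : ℕ, ∑ j ∈ Finset.range n, mk (g j) (hg j) = mk _ (hs n) := by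
    intro n
    induction n with
    | zero =>
      rw [Finset.sum_range_zero, ← mk_zero, mk_eq_mk]
      exact Eventually.of_forall fun ζ ↦ by simp
    | succ n ih =>
      rw [Finset.sum_range_succ, ih, mk_add, mk_eq_mk]
      exact Eventually.of_forall fun ζ ↦ by
        change _ = ∑ j ∈ Finset.range (n + 1), g j ζ
        rw [Finset.sum_range_succ]
  rw [key, mk_eq_zero]
  exact h0

theorem alg_germ {M : ℕ} (x : Fin M → ℂ) (f : (Fin M → ℂ) → ℂ) (d : ℕ)
    (G : ℕ → MvPolynomial (Fin M) ℤ) (hd : aeval x (G d) ≠ 0)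
    (hG : ∀ᶠ s in 𝓝 x, ∑ j ∈ Finset.range (d + 1), aeval s (G j) * f s ^ j = 0)
    (v : Fin M → ℂ) (h : AnalyticAt ℂ (fun ζ : ℂ ↦ f (line x v ζ)) 0) :
    IsAlgebraic EX (mk (fun ζ : ℂ ↦ f (line x v ζ)) h.meromorphicAt) := by
  have hp : ∀ p : MvPolynomial (Fin M) ℤ, MeromorphicAt (fun ζ ↦ aeval (line x v ζ) p) 0 :=
    fun p ↦ (an_line (an_aeval p x)).meromorphicAt
  have hline : Tendsto (line x v) NE (𝓝 x) := by
    have h1 : ContinuousAt (line x v) 0 := (line_an x v 0).continuousAt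
    have h2 := h1.tendsto.mono_left (nhdsWithin_le_nhds (s := {(0 : ℂ)}ᶜ))
    rwa [line_zero] at h2
  have hg0 : mk _ (hp (G d)) ≠ 0 := by
    intro h0
    rw [mk_eq_zero] at h0
    have h2 : Tendsto (fun ζ ↦ aeval (line x v ζ) (G d)) NE (𝓝 (aeval x (G d))) :=
      (an_aeval (G d) x).continuousAt.tendsto.comp hline
    have h3 : Tendsto (fun ζ ↦ aeval (line x v ζ) (G d)) NE (𝓝 0) := by
      refine tendsto_const_nhds.congr' ?_
      filter_upwards [h0] with ζ hζ using hζ.symm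
    exact hd (tendsto_nhds_unique h2 h3)
  refine ⟨∑ j ∈ Finset.range (d + 1), Polynomial.C (⟨mk _ (hp (G j)), mem_EX _ _ _ _⟩ : EX) *
    Polynomial.X ^ j, ?_, ?_⟩
  · intro h0
    have h1 := congrArg (fun q : Polynomial EX ↦ q.coeff d) h0
    simp only [Polynomial.finsetSum_coeff, Polynomial.coeff_C_mul, Polynomial.coeff_X_pow,
      Polynomial.coeff_zero, mul_ite, mul_one, mul_zero] at h1
    rw [Finset.sum_ite_eq (Finset.range (d + 1)) d] at h1
    rw [if_pos (Finset.mem_range.mpr (Nat.lt_succ_self d))] at h1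
    exact hg0 (congrArg Subtype.val h1)
  · rw [map_sum]
    have h1 : ∀ j : ℕ, Polynomial.aeval (mk (fun ζ : ℂ ↦ f (line x v ζ)) h.meromorphicAt)
        (Polynomial.C (⟨mk _ (hp (G j)), mem_EX _ _ _ _⟩ : EX) * Polynomial.X ^ j) =
        mk (fun ζ ↦ aeval (line x v ζ) (G j) * f (line x v ζ) ^ j)
          ((hp (G j)).fun_mul (h.meromorphicAt.fun_pow j)) := by
      intro j
      rw [map_mul, map_pow, Polynomial.aeval_C, Polynomial.aeval_X, A2_pow]
      exact mk_mul (hp (G j)) (h.meromorphicAt.fun_pow j)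
    simp only [h1]
    exact A2_sum (d + 1) _ _ (hline.eventually hG)

theorem alg_ψ {M n : ℕ} (S : MO M n) (d : ℕ) (G : ℕ → MvPolynomial (Fin M) ℤ)
    (hd : aeval S.x (G d) ≠ 0)
    (hG : ∀ᶠ s in 𝓝 S.x, ∑ j ∈ Finset.range (d + 1), aeval s (G j) * S.Y s ^ j = 0)
    (i : Fin (n + 1)) (v : Fin M → ℂ) (h : AnalyticAt ℂ (fun ζ : ℂ ↦ S.ψ i (line S.x v ζ)) 0) :
    IsAlgebraic EX (mk (fun ζ : ℂ ↦ S.ψ i (line S.x v ζ)) h.meromorphicAt) := by
  revert h
  refine Fin.cases ?_ (fun i ↦ ?_) i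
  · intro h
    exact alg_germ S.x S.Y d G hd hG v h
  · intro h
    change IsAlgebraic EX (mk (fun ζ : ℂ ↦ S.φ i (line S.x v ζ)) h.meromorphicAt)
    have hYa : AnalyticAt ℂ (fun ζ : ℂ ↦ S.Y (line S.x v ζ)) 0 := an_line S.an
    have hYalg : IsAlgebraic EX (mk (fun ζ : ℂ ↦ S.Y (line S.x v ζ)) hYa.meromorphicAt) :=
      alg_germ S.x S.Y d G hd hG v hYa
    have hp : ∀ p : MvPolynomial (Fin M) ℤ, MeromorphicAt (fun ζ ↦ aeval (line S.x v ζ) p) 0 :=
      fun p ↦ (an_line (an_aeval p S.x)).meromorphicAt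
    have hq : ∀ p q : MvPolynomial (Fin M) ℤ,
        MeromorphicAt (fun ζ ↦ aeval (line S.x v ζ) p * S.Y (line S.x v ζ) +
          aeval (line S.x v ζ) q) 0 :=
      fun p q ↦ (an_line (((an_aeval p S.x).fun_mul S.an).fun_add (an_aeval q S.x))).meromorphicAt
    have hqe : ∀ p q : MvPolynomial (Fin M) ℤ, mk _ (hq p q) =
        mk _ (hp p) * mk (fun ζ : ℂ ↦ S.Y (line S.x v ζ)) hYa.meromorphicAt + mk _ (hp q) := by
      intro p q
      rw [mk_mul, mk_add]
    have hqm : ∀ p q : MvPolynomial (Fin M) ℤ, IsAlgebraic EX (mk _ (hq p q)) := by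
      intro p q
      rw [hqe]
      exact ((alg_EX (mem_EX _ _ _ _)).mul hYalg).add (alg_EX (mem_EX _ _ _ _))
    have h0 : mk _ (hq (S.pC i) (S.pD i)) ≠ 0 := by
      intro h0
      rw [mk_eq_zero] at h0
      have h1 : ContinuousAt (fun ζ ↦ S.den i (line S.x v ζ)) 0 :=
        (an_line (S.an_den i)).continuousAt
      have h2 : Tendsto (fun ζ ↦ S.den i (line S.x v ζ)) NE (𝓝 (S.den i (line S.x v 0))) :=
        h1.tendsto.mono_left nhdsWithin_le_nhds
      rw [line_zero] at h2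
      have h3 : Tendsto (fun ζ ↦ S.den i (line S.x v ζ)) NE (𝓝 0) := by
        refine tendsto_const_nhds.congr' ?_
        filter_upwards [h0] with ζ hζ using hζ.symm
      exact S.den_x i (tendsto_nhds_unique h2 h3)
    have e : mk (fun ζ : ℂ ↦ S.φ i (line S.x v ζ)) h.meromorphicAt =
        mk _ (hq (S.pA i) (S.pB i)) * (mk _ (hq (S.pC i) (S.pD i)))⁻¹ := by
      rw [eq_mul_inv_iff_mul_eq₀ h0, mk_mul, mk_eq_mk]
      have hne : ∀ᶠ ζ in NE, S.den i (line S.x v ζ) ≠ 0 := by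
        rcases (hq (S.pC i) (S.pD i)).eventually_eq_zero_or_eventually_ne_zero with h1 | h1
        · exact absurd (mk_eq_zero.mpr h1) h0
        · exact h1
      filter_upwards [hne] with ζ hζ
      exact div_mul_cancel₀ _ hζ
    rw [e]
    exact (hqm _ _).mul (hqm _ _).inv

end AK
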