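import Pool.Agent.H32.AK.MO

/-!
# MP_ede373, points algebraic over `ℚ(t)`, row A3: the functions are not constant

`i = 0` (`ψ 0 = Y`, `y = Y x` transcendental): `p = ∑_j C (y^j) * (G j)_ℂ ∈ ℂ[s]` (`MvPolynomial.map (Int.castRingHom ℂ)`), `eval s p = ∑_j aeval s (G j) y^j`. If `Y (line x v ζ) = y` for small `ζ ≠ 0` then `eval (line x v ζ) p = 0` for small `ζ ≠ 0` (by `hG`), so
`eval (line x v 1) p = 0` by the identity theorem for the entire function `ζ ↦ eval (line x v ζ) p` (copy this argument from `AO.Orb.nc_φ` in `Pool/Agent/H32/AO/Ob.lean`). `p ≠ 0`: otherwise for every monomial `μ`: `∑_j (coeff μ (G j)) y^j = 0`, an integer polynomial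
in `y`, so `coeff μ (G d) = 0` for all `μ` by transcendence, `G d = 0`, contradicting `hd`.

`i.succ` (`w = φ_i x` transcendental), with `A, B, C', D` the polynomials `pA i, ..`: `p = ∑_{j ≤ d} (G j) (w D - B)^j (A - w C')^(d-j) ∈ ℂ[s]`. Suppose `φ_i (line x v ζ) = w` for small `ζ ≠ 0`. There `den ≠ 0`, so `A Y + B = w (C' Y + D)`, `(A - w C') Y = w D - B` at `s = line x v ζ`, hence
`eval s p = (A - w C')^d ∑_j aeval s (G j) Y^j = 0`. So `eval (line x v 1) p = 0` as before. `p ≠ 0`: suppose `p = 0`. Take a point `u ∈ ℤ^M` (or `ℂ^M`) with `G d (u) ≠ 0` and `dt i (u) ≠ 0` (the product `G d * dt i` is a nonzero polynomial: both factors do not vanish at `x`; choose an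
integral point, `MvPolynomial.funext` as in `AO.Orb.pP_ne`). Evaluate at `u`: `∑_j G_j(u) (w D(u) - B(u))^j (A(u) - w C'(u))^(d-j) = 0`, all numbers but `w` integers. So the integer polynomial `R(W) = ∑_j G_j(u) (W D(u) - B(u))^j (A(u) - W C'(u))^(d-j) ∈ ℤ[W]` has the
transcendental root `w`, hence `R = 0`. For every complex `T` with `C'(u) T + D(u) ≠ 0` put `W = (A(u) T + B(u)) / (C'(u) T + D(u))`: `W D - B = dt(u) T / (C' T + D)`, `A - W C' = dt(u) / (C' T + D)`, so `0 = R(W) = (dt(u)/(C' T + D))^d ∑_j G_j(u) T^j`, `∑_j G_j(u) T^j = 0`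
for all but one `T`: a polynomial with infinitely many roots, so `G_d(u) = 0`, contradiction.
-/

set_option autoImplicit false

open UpperHalfPlane hiding I
open Complex EisensteinSeries ModularForm MatrixGroups Manifold
open scoped Real Topology
open MvPolynomial Filter

namespace AK

open H32 H32.T3 H32.T4 AO

/-- the identity theorem along a line -/
private lemma A3_ident {M : ℕ} (x v : Fin M → ℂ) (p : MvPolynomial (Fin M) ℂ)
    (h : ∀ᶠ ζ in NE, eval (line x v ζ) p = 0) : eval (line x v 1) p = 0 := by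
  have han : AnalyticOnNhd ℂ (fun ζ ↦ eval (line x v ζ) p) Set.univ := by
    intro ζ _
    have h1 : AnalyticAt ℂ (fun s : Fin M → ℂ ↦ aeval s p) (line x v ζ) :=
      AnalyticAt.aeval_mvPolynomial (𝕜 := ℂ) (f := fun s : Fin M → ℂ ↦ s)
        (fun i ↦ (ContinuousLinearMap.proj (R := ℂ) (φ := fun _ : Fin M ↦ ℂ) i).analyticAt _) _
    have h2 := AnalyticAt.fun_comp (g := fun s : Fin M → ℂ ↦ aeval s p) (f := line x v)
      h1 (line_an _ _ _)
    exact h2
  have hev : ∃ᶠ ζ in 𝓝[≠] (0 : ℂ), eval (line x v ζ) p = 0 := h.frequently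
  exact han.eqOn_zero_of_preconnected_of_frequently_eq_zero isPreconnected_univ
    (Set.mem_univ 0) hev (Set.mem_univ 1)

private lemma A3_map {M : ℕ} (s : Fin M → ℂ) (p : MvPolynomial (Fin M) ℤ) :
    eval s (MvPolynomial.map (Int.castRingHom ℂ) p) = aeval s p := by
  rw [eval_map, aeval_def]
  rfl

private lemma A3_cast {M : ℕ} (u : Fin M → ℤ) (p : MvPolynomial (Fin M) ℤ) :
    aeval (fun s ↦ ((u s : ℤ) : ℂ)) p = ((eval u p : ℤ) : ℂ) := by
  have h := MvPolynomial.comp_aeval_apply (R := ℤ) u ((Int.castRingHom ℂ).toIntAlgHom) p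
  exact h.symm

private lemma A3_tr {y : ℂ} (hy : Transcendental ℚ y) (R : Polynomial ℤ)
    (h : Polynomial.aeval y R = 0) : R = 0 := by
  have h1 : Polynomial.aeval y (R.map (algebraMap ℤ ℚ)) = 0 := by
    rw [Polynomial.aeval_map_algebraMap]
    exact h
  have h2 : R.map (algebraMap ℤ ℚ) = 0 := transcendental_iff.mp hy _ h1
  exact (Polynomial.map_eq_zero_iff (RingHom.injective_int (algebraMap ℤ ℚ))).mp h2

private lemma A3_pt {M : ℕ} (p : MvPolynomial (Fin M) ℤ) (hp : p ≠ 0) :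
    ∃ u : Fin M → ℤ, eval u p ≠ 0 := by
  by_contra hcon
  push Not at hcon
  exact hp (MvPolynomial.funext fun y ↦ by rw [hcon y, map_zero])

private lemma A3_top {y : ℂ} (hy : Transcendental ℚ y) (d : ℕ) (g : ℕ → ℤ)
    (h : ∑ j ∈ Finset.range (d + 1), (g j : ℂ) * y ^ j = 0) : g d = 0 := by
  have h1 := A3_tr hy (∑ j ∈ Finset.range (d + 1), Polynomial.C (g j) * Polynomial.X ^ j) (by
    rw [map_sum, ← h]
    refine Finset.sum_congr rfl fun j _ ↦ ?_
    rw [map_mul, map_pow, Polynomial.aeval_C, Polynomial.aeval_X]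
    rfl)
  have h2 := congrArg (fun q ↦ Polynomial.coeff q d) h1
  simp only [Polynomial.finsetSum_coeff, Polynomial.coeff_C_mul, Polynomial.coeff_X_pow,
    Polynomial.coeff_zero] at h2
  rw [Finset.sum_eq_single d (fun j _ hj ↦ by rw [if_neg (Ne.symm hj), mul_zero])
    (fun hn ↦ absurd (Finset.mem_range.mpr (Nat.lt_succ_self d)) hn), if_pos rfl, mul_one] at h2
  exact h2

private lemma A3_tend {M : ℕ} (x v : Fin M → ℂ) : Tendsto (line x v) NE (𝓝 x) := by
  have h4 : Tendsto (line x v) (𝓝 0) (𝓝 (line x v 0)) := (line_an x v 0).continuousAt.tendsto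
  rw [line_zero] at h4
  exact h4.mono_left nhdsWithin_le_nhds

theorem nc_Y {M n : ℕ} (S : MO M n) (d : ℕ) (G : ℕ → MvPolynomial (Fin M) ℤ)
    (hd : aeval S.x (G d) ≠ 0)
    (hG : ∀ᶠ s in 𝓝 S.x, ∑ j ∈ Finset.range (d + 1), aeval s (G j) * S.Y s ^ j = 0)
    (htr : Transcendental ℚ (S.Y S.x)) :
    ∃ p : MvPolynomial (Fin M) ℂ, p ≠ 0 ∧ ∀ v, eval (line S.x v 1) p ≠ 0 →
      ¬ ∀ᶠ ζ in NE, S.Y (line S.x v ζ) = S.Y S.x := by
  set y := S.Y S.x with hy
  have hev : ∀ s, eval s (∑ j ∈ Finset.range (d + 1),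
      MvPolynomial.map (Int.castRingHom ℂ) (G j) * C (y ^ j)) =
      ∑ j ∈ Finset.range (d + 1), aeval s (G j) * y ^ j := by
    intro s
    rw [map_sum]
    refine Finset.sum_congr rfl fun j _ ↦ ?_
    rw [map_mul, eval_C, A3_map]
  refine ⟨∑ j ∈ Finset.range (d + 1), MvPolynomial.map (Int.castRingHom ℂ) (G j) * C (y ^ j),
    fun h0 ↦ ?_, fun v hv hcon ↦ hv (A3_ident _ _ _ ?_)⟩
  · have hGd : G d ≠ 0 := fun h ↦ hd (by rw [h, map_zero])
    obtain ⟨u, hu⟩ := A3_pt (G d) hGd
    have h1 := hev (fun s ↦ ((u s : ℤ) : ℂ))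
    rw [h0, map_zero] at h1
    refine hu (A3_top htr d (fun j ↦ eval u (G j)) ?_)
    rw [h1]
    refine Finset.sum_congr rfl fun j _ ↦ ?_
    rw [A3_cast]
  · filter_upwards [hcon, (A3_tend S.x v).eventually hG] with ζ h1 h2
    rw [hev, ← h1]
    exact h2

theorem nc_φ {M n : ℕ} (S : MO M n) (d : ℕ) (G : ℕ → MvPolynomial (Fin M) ℤ)
    (hd : aeval S.x (G d) ≠ 0)
    (hG : ∀ᶠ s in 𝓝 S.x, ∑ j ∈ Finset.range (d + 1), aeval s (G j) * S.Y s ^ j = 0)
    (i : Fin n) (htr : Transcendental ℚ (S.φ i S.x)) :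
    ∃ p : MvPolynomial (Fin M) ℂ, p ≠ 0 ∧ ∀ v, eval (line S.x v 1) p ≠ 0 →
      ¬ ∀ᶠ ζ in NE, S.φ i (line S.x v ζ) = S.φ i S.x := by
  set w := S.φ i S.x with hw
  have hev : ∀ s, eval s (∑ j ∈ Finset.range (d + 1), MvPolynomial.map (Int.castRingHom ℂ) (G j) *
      (C w * MvPolynomial.map (Int.castRingHom ℂ) (S.pD i) -
        MvPolynomial.map (Int.castRingHom ℂ) (S.pB i)) ^ j *
      (MvPolynomial.map (Int.castRingHom ℂ) (S.pA i) -
        C w * MvPolynomial.map (Int.castRingHom ℂ) (S.pC i)) ^ (d - j)) =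
      ∑ j ∈ Finset.range (d + 1), aeval s (G j) *
        (w * aeval s (S.pD i) - aeval s (S.pB i)) ^ j *
        (aeval s (S.pA i) - w * aeval s (S.pC i)) ^ (d - j) := by
    intro s
    rw [map_sum]
    refine Finset.sum_congr rfl fun j _ ↦ ?_
    simp only [map_mul, map_pow, map_sub, eval_C, A3_map]
  refine ⟨∑ j ∈ Finset.range (d + 1), MvPolynomial.map (Int.castRingHom ℂ) (G j) *
      (C w * MvPolynomial.map (Int.castRingHom ℂ) (S.pD i) -
        MvPolynomial.map (Int.castRingHom ℂ) (S.pB i)) ^ j *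
      (MvPolynomial.map (Int.castRingHom ℂ) (S.pA i) -
        C w * MvPolynomial.map (Int.castRingHom ℂ) (S.pC i)) ^ (d - j),
    fun h0 ↦ ?_, fun v hv hcon ↦ hv (A3_ident _ _ _ ?_)⟩
  · have hGd : G d ≠ 0 := fun h ↦ hd (by rw [h, map_zero])
    have hdt : S.dt i ≠ 0 := fun h ↦ S.dt_x i (by rw [h, map_zero])
    obtain ⟨u, hu⟩ := A3_pt (G d * S.dt i) (mul_ne_zero hGd hdt)
    rw [map_mul] at hu
    have hu1 := left_ne_zero_of_mul hu
    have hu2 := right_ne_zero_of_mul hu
    have hu3 : eval u (S.dt i) = eval u (S.pA i) * eval u (S.pD i) -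
        eval u (S.pB i) * eval u (S.pC i) := by
      rw [MO.dt, map_sub, map_mul, map_mul]
    rw [hu3] at hu2
    have h1 := hev (fun s ↦ ((u s : ℤ) : ℂ))
    rw [h0, map_zero] at h1
    simp only [A3_cast] at h1
    generalize eval u (S.pA i) = a at *
    generalize eval u (S.pB i) = b at *
    generalize eval u (S.pC i) = c at *
    generalize eval u (S.pD i) = e at *
    -- the integer polynomial
    have hR := A3_tr htr (∑ j ∈ Finset.range (d + 1), Polynomial.C (eval u (G j)) *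
        (Polynomial.X * Polynomial.C e - Polynomial.C b) ^ j *
        (Polynomial.C a - Polynomial.X * Polynomial.C c) ^ (d - j)) (by
      rw [map_sum, h1]
      refine Finset.sum_congr rfl fun j _ ↦ ?_
      simp only [map_mul, map_pow, map_sub, Polynomial.aeval_C, Polynomial.aeval_X]
      rfl)
    have hRW : ∀ W : ℂ, ∑ j ∈ Finset.range (d + 1), ((eval u (G j) : ℤ) : ℂ) *
        (W * (e : ℂ) - (b : ℂ)) ^ j * ((a : ℂ) - W * (c : ℂ)) ^ (d - j) = 0 := by
      intro W
      have h2 := congrArg (fun q ↦ Polynomial.aeval W q) hR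
      simp only [map_zero] at h2
      rw [← h2, map_sum]
      refine Finset.sum_congr rfl fun j _ ↦ ?_
      simp only [map_mul, map_pow, map_sub, Polynomial.aeval_C, Polynomial.aeval_X]
      rfl
    have hden : (c : ℂ) * w + (e : ℂ) ≠ 0 := by
      intro h2
      have h3 := A3_tr htr (Polynomial.C c * Polynomial.X + Polynomial.C e) (by
        rw [map_add, map_mul, Polynomial.aeval_C, Polynomial.aeval_C, Polynomial.aeval_X]
        exact h2)
      have h4 := congrArg (fun q ↦ Polynomial.coeff q 0) h3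
      have h5 := congrArg (fun q ↦ Polynomial.coeff q 1) h3
      simp at h4
      rw [h4] at h5
      simp at h5
      rw [h4, h5] at hu2
      simp at hu2
    have hδ : ((a : ℂ) * e - b * c) / ((c : ℂ) * w + (e : ℂ)) ≠ 0 := by
      refine div_ne_zero ?_ hden
      exact_mod_cast hu2
    have h3 := hRW (((a : ℂ) * w + b) / ((c : ℂ) * w + (e : ℂ)))
    have e1 : ((a : ℂ) * w + b) / ((c : ℂ) * w + (e : ℂ)) * e - b =
        ((a : ℂ) * e - b * c) / ((c : ℂ) * w + (e : ℂ)) * w := by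
      have e3 := div_mul_cancel₀ ((a : ℂ) * w + b) hden
      have e4 := div_mul_cancel₀ ((a : ℂ) * e - b * c) hden
      refine mul_right_cancel₀ hden ?_
      linear_combination (e : ℂ) * e3 - w * e4
    have e2 : (a : ℂ) - ((a : ℂ) * w + b) / ((c : ℂ) * w + (e : ℂ)) * c =
        ((a : ℂ) * e - b * c) / ((c : ℂ) * w + (e : ℂ)) := by
      rw [eq_div_iff hden]
      have e3 : ((a : ℂ) * w + b) / ((c : ℂ) * w + (e : ℂ)) * c * ((c : ℂ) * w + (e : ℂ)) =
          ((a : ℂ) * w + b) * c := by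
        rw [mul_right_comm, div_mul_cancel₀ _ hden]
      linear_combination -e3
    rw [e1, e2] at h3
    refine hu1 (A3_top htr d (fun j ↦ eval u (G j)) ?_)
    refine (mul_eq_zero.mp (?_ : (((a : ℂ) * e - b * c) / ((c : ℂ) * w + (e : ℂ))) ^ d *
      _ = 0)).resolve_left (pow_ne_zero _ hδ)
    rw [← h3, Finset.mul_sum]
    refine Finset.sum_congr rfl fun j hj ↦ ?_
    have hjd : j ≤ d := Nat.lt_succ_iff.mp (Finset.mem_range.mp hj)
    generalize ((a : ℂ) * e - b * c) / ((c : ℂ) * w + (e : ℂ)) = r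
    have h6 : r ^ d = r ^ j * r ^ (d - j) := by rw [← pow_add, Nat.add_sub_cancel' hjd]
    rw [h6, mul_pow]
    ring
  · have hpW : ∀ᶠ ζ in NE, S.den i (line S.x v ζ) ≠ 0 := by
      have h1 : ContinuousAt (fun ζ ↦ S.den i (line S.x v ζ)) 0 :=
        (an_line (S.an_den i)).continuousAt
      have h2 : S.den i (line S.x v 0) ≠ 0 := by
        rw [line_zero]
        exact S.den_x i
      exact (h1.eventually_ne h2).filter_mono nhdsWithin_le_nhds
    filter_upwards [hcon, hpW, (A3_tend S.x v).eventually hG] with ζ h1 h2 h3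
    rw [hev]
    have h4 : S.den i (line S.x v ζ) * w = aeval (line S.x v ζ) (S.pA i) * S.Y (line S.x v ζ) +
        aeval (line S.x v ζ) (S.pB i) := by
      rw [← h1]
      exact mul_div_cancel₀ _ h2
    rw [MO.den] at h4
    have h5 : w * aeval (line S.x v ζ) (S.pD i) - aeval (line S.x v ζ) (S.pB i) =
        (aeval (line S.x v ζ) (S.pA i) - w * aeval (line S.x v ζ) (S.pC i)) *
          S.Y (line S.x v ζ) := by
      linear_combination h4
    rw [h5]
    generalize aeval (line S.x v ζ) (S.pA i) - w * aeval (line S.x v ζ) (S.pC i) = r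
    have h6 : ∑ j ∈ Finset.range (d + 1), aeval (line S.x v ζ) (G j) *
        (r * S.Y (line S.x v ζ)) ^ j * r ^ (d - j) =
        r ^ d * ∑ j ∈ Finset.range (d + 1), aeval (line S.x v ζ) (G j) *
          S.Y (line S.x v ζ) ^ j := by
      rw [Finset.mul_sum]
      refine Finset.sum_congr rfl fun j hj ↦ ?_
      have hjd : j ≤ d := Nat.lt_succ_iff.mp (Finset.mem_range.mp hj)
      have h6 : r ^ d = r ^ j * r ^ (d - j) := by rw [← pow_add, Nat.add_sub_cancel' hjd]
      rw [h6, mul_pow]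
      ring
    rw [h6, h3, mul_zero]

end AK
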