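import Pool.Agent.H32.AK.A2
import Pool.Agent.H32.AK.A3

/-!
# MP_ede373, points algebraic over `ℚ(t)`, row A4: functional independence
-/

set_option autoImplicit false

open UpperHalfPlane hiding I
open Complex EisensteinSeries ModularForm MatrixGroups Manifold
open scoped Real Topology
open MvPolynomial Filter

namespace AK

open H32 H32.T3 H32.T4 AO

theorem nonvan_MO {M n : ℕ} (S : MO M n) (d : ℕ) (G : ℕ → MvPolynomial (Fin M) ℤ)
    (hd : aeval S.x (G d) ≠ 0)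
    (hG : ∀ᶠ s in 𝓝 S.x, ∑ j ∈ Finset.range (d + 1), aeval s (G j) * S.Y s ^ j = 0)
    (htr : ∀ i, Transcendental ℚ (S.ψ i S.x))
    (hrel : ∀ i j, i ≠ j → ¬ ∃ a b c d : ℚ, 0 < a * d - b * c ∧
      S.ψ j S.x = ((a : ℂ) * S.ψ i S.x + b) / ((c : ℂ) * S.ψ i S.x + d))
    (P : MvPolynomial ((Fin (n + 1) × Fin 3) ⊕ Fin M) ℂ)
    (h : ∀ᶠ s in 𝓝 S.x, aeval (Sum.elim (fun p ↦ ee (S.ψ p.1 s) p.2) s) P = 0) : P = 0 := by
  refine nonvan S.x S.ψ S.an_ψ S.im_ψ (alg_ψ S d G hd hG) (fun i ↦ ?_) hrel P h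
  refine Fin.cases ?_ (fun i ↦ ?_) i
  · exact nc_Y S d G hd hG (htr 0)
  · exact nc_φ S d G hd hG i (htr i.succ)

end AK
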