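import Pool.Agent.H32.AK.MO

/-!
# MP_ede373, points algebraic over `ℚ(t)`, row A5: rational parameters are good
-/

set_option autoImplicit false

open UpperHalfPlane hiding I
open Complex EisensteinSeries ModularForm MatrixGroups Manifold
open scoped Real Topology
open MvPolynomial Filter

namespace AK

open H32 H32.T3 H32.T4 AO

/-- the linear polynomial -/
private lemma A5_lin {A q : ℕ} (hA : 2 ≤ A) {C : ℕ} (hq : C + 1 ≤ q) (p : ℤ) (hp : |(p : ℝ)| ≤ C * q) :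
    AlgB A ((q : ℝ) ^ A) ((p : ℂ) / q) := by
  have hq0 : (q : ℤ) ≠ 0 := by
    have : q ≠ 0 := by omega
    exact_mod_cast this
  have hqC : (q : ℂ) ≠ 0 := by exact_mod_cast hq0
  obtain ⟨F, hF⟩ : ∃ F : Polynomial ℤ, F = Polynomial.C (q : ℤ) * Polynomial.X + Polynomial.C (-p) := ⟨_, rfl⟩
  have hdeg : F.natDegree ≤ 1 := by
    rw [hF]
    exact Polynomial.natDegree_linear_le
  have hc0 : F.coeff 0 = -p := by
    rw [hF]
    simp
  have hc1 : F.coeff 1 = q := by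
    rw [hF, Polynomial.coeff_add, Polynomial.coeff_C_mul, Polynomial.coeff_X_one, Polynomial.coeff_C]
    simp
  refine ⟨F, ?_, hdeg.trans (by omega), ?_, ?_⟩
  · intro h0
    rw [h0, Polynomial.coeff_zero] at hc1
    exact hq0 hc1.symm
  · unfold CZ.nr
    rw [Polynomial.sum_over_range' F (fun n => by simp) 2 (by omega), Finset.sum_range_succ,
      Finset.sum_range_succ, Finset.sum_range_zero, hc0, hc1]
    push_cast
    rw [abs_neg, zero_add, abs_of_nonneg (Nat.cast_nonneg q : (0 : ℝ) ≤ q)]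
    have h1 : ((C : ℝ) + 1) ≤ q := by exact_mod_cast hq
    have hq1 : (1 : ℝ) ≤ q := by
      have : (0 : ℝ) ≤ C := Nat.cast_nonneg _
      linarith
    calc |(p : ℝ)| + q ≤ C * q + q := by linarith
      _ = (C + 1) * q := by ring
      _ ≤ q * q := by
          apply mul_le_mul_of_nonneg_right h1
          linarith
      _ = (q : ℝ) ^ 2 := by ring
      _ ≤ (q : ℝ) ^ A := pow_le_pow_right₀ hq1 hA
  · rw [hF]
    simp only [map_add, map_mul, Polynomial.aeval_C, Polynomial.aeval_X, map_neg]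
    rw [algebraMap_int_eq]
    simp only [eq_intCast, Int.cast_natCast]
    field_simp
    ring

/-- the polynomial of the base point -/
private lemma A5_pol {A q D d C : ℕ} (hA : d + D + 1 ≤ A) (hq : (d + 1) * C + 1 ≤ q) (g : ℕ → ℤ)
    (hg : ∀ j ≤ d, |g j| ≤ ((C * q ^ D : ℕ) : ℤ)) (hd : g d ≠ 0) {w : ℂ}
    (hw : ∑ j ∈ Finset.range (d + 1), (g j : ℂ) * w ^ j = 0) :
    AlgB A ((q : ℝ) ^ A) w := by
  obtain ⟨F, hF⟩ : ∃ F : Polynomial ℤ, F = ∑ j ∈ Finset.range (d + 1),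
    Polynomial.C (g j) * Polynomial.X ^ j := ⟨_, rfl⟩
  have hco : ∀ j ≤ d, F.coeff j = g j := by
    intro j hj
    rw [hF, Polynomial.finsetSum_coeff, Finset.sum_eq_single j]
    · rw [Polynomial.coeff_C_mul_X_pow, if_pos rfl]
    · intro i _ hij
      rw [Polynomial.coeff_C_mul_X_pow, if_neg (Ne.symm hij)]
    · intro h
      exact absurd (Finset.mem_range.2 (by omega)) h
  have hdeg : F.natDegree ≤ d := by
    rw [hF]
    apply Polynomial.natDegree_sum_le_of_forall_le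
    intro j hj
    have := Finset.mem_range.1 hj
    exact (Polynomial.natDegree_C_mul_X_pow_le _ _).trans (by omega)
  refine ⟨F, ?_, hdeg.trans (by omega), ?_, ?_⟩
  · intro h0
    have h1 := hco d le_rfl
    rw [h0, Polynomial.coeff_zero] at h1
    exact hd h1.symm
  · unfold CZ.nr
    rw [Polynomial.sum_over_range' F (fun n => by simp) (d + 1) (by omega)]
    have hq1 : (1 : ℝ) ≤ q := by
      have : 1 ≤ q := by omega
      exact_mod_cast this
    have h2 : ∀ j ∈ Finset.range (d + 1), |((F.coeff j : ℤ) : ℝ)| ≤ C * (q : ℝ) ^ D := by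
      intro j hj
      have hj' : j ≤ d := by
        have := Finset.mem_range.1 hj
        omega
      rw [hco j hj']
      have := hg j hj'
      exact_mod_cast this
    have h4 : (((d + 1) * C : ℕ) : ℝ) ≤ q := by
      have : (d + 1) * C ≤ q := by omega
      exact_mod_cast this
    push_cast at h4
    calc ∑ j ∈ Finset.range (d + 1), |((F.coeff j : ℤ) : ℝ)| ≤
          ∑ _j ∈ Finset.range (d + 1), C * (q : ℝ) ^ D := Finset.sum_le_sum h2
      _ = ((d + 1) * C) * (q : ℝ) ^ D := by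
          rw [Finset.sum_const, Finset.card_range, nsmul_eq_mul]
          push_cast
          ring
      _ ≤ q * (q : ℝ) ^ D := by
          apply mul_le_mul_of_nonneg_right h4
          positivity
      _ = (q : ℝ) ^ (D + 1) := by ring
      _ ≤ (q : ℝ) ^ A := pow_le_pow_right₀ hq1 (by omega)
  · rw [hF, map_sum, ← hw]
    apply Finset.sum_congr rfl
    intro j _
    rw [map_mul, map_pow, Polynomial.aeval_C, Polynomial.aeval_X, algebraMap_int_eq, eq_intCast]

theorem good_MO {M n : ℕ} (S : MO M n) (t : Fin M → ℝ) (hx : S.x = fun s ↦ (t s : ℂ))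
    (hdet : ∀ i, 0 < (aeval t (S.dt i) : ℝ)) (d : ℕ) (G : ℕ → MvPolynomial (Fin M) ℤ)
    (hd : aeval S.x (G d) ≠ 0)
    (hG : ∀ᶠ s in 𝓝 S.x, ∑ j ∈ Finset.range (d + 1), aeval s (G j) * S.Y s ^ j = 0) :
    ∃ (A Q0 : ℕ) (ε : ℝ), 0 < ε ∧ ∀ (q : ℕ) (p : Fin M → ℤ), Q0 ≤ q →
      (∀ s, |t s - p s / q| < ε) → S.Good A q (fun s ↦ (p s : ℂ) / q) := by
  obtain ⟨C1, h1⟩ := bound_near t S.pA
  obtain ⟨C2, h2⟩ := bound_near t S.pB
  obtain ⟨C3, h3⟩ := bound_near t S.pC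
  obtain ⟨C4, h4⟩ := bound_near t S.pD
  obtain ⟨C5, h5⟩ := bound_near t (fun s : Fin M ↦ (X s : MvPolynomial (Fin M) ℤ))
  obtain ⟨C6, h6⟩ := bound_near t (fun j : Fin (d + 1) ↦ G j)
  have h7 : ∀ᶠ u in 𝓝 t, ∀ i, 0 < (aeval u (S.dt i) : ℝ) := by
    rw [eventually_all]
    intro i
    exact (aeval_cont (S.dt i)).continuousAt.eventually (lt_mem_nhds (hdet i))
  have hκ : Tendsto (fun (u : Fin M → ℝ) (s : Fin M) ↦ (u s : ℂ)) (𝓝 t) (𝓝 S.x) := by
    rw [hx, tendsto_pi_nhds]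
    intro s
    exact (Complex.continuous_ofReal.comp (continuous_apply s)).tendsto t
  have h8 : ∀ᶠ u in 𝓝 t, aeval (fun s : Fin M ↦ ((u s : ℝ) : ℂ)) (G d) ≠ 0 := by
    have h81 : ContinuousAt (fun s : Fin M → ℂ ↦ aeval s (G d)) S.x := (an_aeval (G d) S.x).continuousAt
    have h82 : ∀ᶠ s in 𝓝 S.x, aeval s (G d) ≠ 0 := h81.eventually_ne hd
    exact hκ.eventually h82
  have h9 : ∀ᶠ u in 𝓝 t, ∑ j ∈ Finset.range (d + 1), aeval (fun s : Fin M ↦ ((u s : ℝ) : ℂ)) (G j) *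
      S.Y (fun s : Fin M ↦ ((u s : ℝ) : ℂ)) ^ j = 0 := hκ.eventually hG
  have h10 : ∀ᶠ u in 𝓝 t, 0 < (S.Y (fun s : Fin M ↦ ((u s : ℝ) : ℂ))).im := by
    have h101 : ContinuousAt (fun s : Fin M → ℂ ↦ (S.Y s).im) S.x :=
      Complex.continuous_im.continuousAt.comp S.an.continuousAt
    have h102 : ∀ᶠ s in 𝓝 S.x, 0 < (S.Y s).im := h101.eventually (lt_mem_nhds S.im0)
    exact hκ.eventually h102
  obtain ⟨ε, hε, hb⟩ := Metric.eventually_nhds_iff_ball.mp
    (h1.and (h2.and (h3.and (h4.and (h5.and (h6.and (h7.and (h8.and (h9.and h10)))))))))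
  obtain ⟨C, hC⟩ : ∃ C : ℕ, C = C1 + C2 + C3 + C4 + C5 + C6 + 2 := ⟨_, rfl⟩
  obtain ⟨D, hD⟩ : ∃ D : ℕ, D = ∑ i, (S.pA i).totalDegree + ∑ i, (S.pB i).totalDegree +
    ∑ i, (S.pC i).totalDegree + ∑ i, (S.pD i).totalDegree +
    ∑ j ∈ Finset.range (d + 1), (G j).totalDegree := ⟨_, rfl⟩
  have hDA : ∀ i, (S.pA i).totalDegree ≤ D := fun i => by
    have := Finset.single_le_sum (f := fun i => (S.pA i).totalDegree) (fun _ _ ↦ Nat.zero_le _)
      (Finset.mem_univ i)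
    omega
  have hDB : ∀ i, (S.pB i).totalDegree ≤ D := fun i => by
    have := Finset.single_le_sum (f := fun i => (S.pB i).totalDegree) (fun _ _ ↦ Nat.zero_le _)
      (Finset.mem_univ i)
    omega
  have hDC : ∀ i, (S.pC i).totalDegree ≤ D := fun i => by
    have := Finset.single_le_sum (f := fun i => (S.pC i).totalDegree) (fun _ _ ↦ Nat.zero_le _)
      (Finset.mem_univ i)
    omega
  have hDD : ∀ i, (S.pD i).totalDegree ≤ D := fun i => by
    have := Finset.single_le_sum (f := fun i => (S.pD i).totalDegree) (fun _ _ ↦ Nat.zero_le _)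
      (Finset.mem_univ i)
    omega
  have hDG : ∀ j ≤ d, (G j).totalDegree ≤ D := fun j hj => by
    have := Finset.single_le_sum (f := fun j => (G j).totalDegree) (fun _ _ ↦ Nat.zero_le _)
      (Finset.mem_range.2 (Nat.lt_succ_of_le hj))
    rw [Nat.succ_eq_add_one] at this
    omega
  refine ⟨D + d + 2, 2 * C + 2 + (d + 1) * C, ε, hε, fun q p hq hp ↦ ?_⟩
  obtain ⟨u, hu⟩ : ∃ u : Fin M → ℝ, u = fun s ↦ (p s : ℝ) / q := ⟨_, rfl⟩
  have hub : u ∈ Metric.ball t ε := by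
    rw [Metric.mem_ball, dist_pi_lt_iff hε]
    intro s
    rw [dist_comm, Real.dist_eq, hu]
    exact hp s
  obtain ⟨k1, k2, k3, k4, k5, k6, k7, k8, k9, k10⟩ := hb u hub
  have hr : (fun s : Fin M ↦ ((u s : ℝ) : ℂ)) = fun s ↦ (p s : ℂ) / q := by
    funext s
    rw [hu]
    push_cast
    rfl
  rw [hr] at k8 k9 k10
  have hq1 : 1 ≤ q := by omega
  have hqR : (1 : ℝ) ≤ q := by exact_mod_cast hq1
  have hCq : C ≤ q := by omega
  have p1 : (0 : ℝ) ≤ C1 := Nat.cast_nonneg _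
  have p2 : (0 : ℝ) ≤ C2 := Nat.cast_nonneg _
  have p3 : (0 : ℝ) ≤ C3 := Nat.cast_nonneg _
  have p4 : (0 : ℝ) ≤ C4 := Nat.cast_nonneg _
  have p5 : (0 : ℝ) ≤ C5 := Nat.cast_nonneg _
  have p6 : (0 : ℝ) ≤ C6 := Nat.cast_nonneg _
  have hCR : (C : ℝ) = C1 + C2 + C3 + C4 + C5 + C6 + 2 := by
    rw [hC]
    push_cast
    ring
  have ent : ∀ P : MvPolynomial (Fin M) ℤ, P.totalDegree ≤ D → |(aeval u P : ℝ)| ≤ C →
      ∃ a : ℤ, |(a : ℝ)| ≤ (q : ℝ) ^ (D + d + 2 + 1) ∧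
        (a : ℝ) = (q : ℝ) ^ (D + d + 2) * aeval u P ∧
        (a : ℂ) = (q : ℂ) ^ (D + d + 2) * aeval (fun s ↦ (p s : ℂ) / q) P := by
    intro P hP hPC
    rw [hu] at hPC
    obtain ⟨a, ha1, ha2, ha3⟩ := Orb.entries hq1 p P (D := D + d + 2) (hP.trans (by omega)) hPC
    rw [← hu] at ha2
    refine ⟨a, ?_, ha2, ha3⟩
    have e1 : |(a : ℝ)| ≤ C * (q : ℝ) ^ (D + d + 2) := by exact_mod_cast ha1
    refine e1.trans ?_
    rw [pow_succ, mul_comm]
    apply mul_le_mul_of_nonneg_left _ (by positivity)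
    exact_mod_cast hCq
  refine ⟨k10, fun s ↦ ?_, ?_, fun i ↦ ?_⟩
  · apply A5_lin (C := C) (by omega) (by omega)
    have e1 := k5 s
    rw [aeval_X, hu] at e1
    simp only at e1
    rw [abs_div, div_le_iff₀ (by positivity), abs_of_nonneg (by positivity : (0 : ℝ) ≤ q)] at e1
    refine e1.trans ?_
    apply mul_le_mul_of_nonneg_right _ (by positivity)
    linarith
  · have hg : ∀ j, ∃ a : ℤ, j ≤ d → |a| ≤ ((C * q ^ D : ℕ) : ℤ) ∧
        (a : ℂ) = (q : ℂ) ^ D * aeval (fun s ↦ (p s : ℂ) / q) (G j) := by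
      intro j
      by_cases hj : j ≤ d
      · have e1 := k6 ⟨j, Nat.lt_succ_of_le hj⟩
        simp only at e1
        rw [hu] at e1
        obtain ⟨a, ha1, ha2, ha3⟩ := Orb.entries hq1 p (G j) (D := D) (hDG j hj)
          (C := C) (e1.trans (by linarith))
        exact ⟨a, fun _ ↦ ⟨ha1, ha3⟩⟩
      · exact ⟨0, fun h ↦ absurd h hj⟩
    choose g hg using hg
    refine A5_pol (D := D) (d := d) (C := C) (by omega) (by omega) g (fun j hj ↦ (hg j hj).1) ?_ ?_
    · intro h0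
      have e1 := (hg d le_rfl).2
      rw [h0, Int.cast_zero] at e1
      have hq0 : (q : ℂ) ≠ 0 := by
        have : q ≠ 0 := by omega
        exact_mod_cast this
      rcases mul_eq_zero.1 e1.symm with e2 | e2
      · exact pow_ne_zero _ hq0 e2
      · exact k8 e2
    · rw [← mul_zero ((q : ℂ) ^ D), ← k9, Finset.mul_sum]
      apply Finset.sum_congr rfl
      intro j hj
      have hj' : j ≤ d := by
        have := Finset.mem_range.1 hj
        omega
      rw [(hg j hj').2, mul_assoc]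
  · obtain ⟨a, ha1, ha2, ha3⟩ := ent (S.pA i) (hDA i) ((k1 i).trans (by linarith))
    obtain ⟨b, hb1, hb2, hb3⟩ := ent (S.pB i) (hDB i) ((k2 i).trans (by linarith))
    obtain ⟨c, hc1, hc2, hc3⟩ := ent (S.pC i) (hDC i) ((k3 i).trans (by linarith))
    obtain ⟨e, he1, he2, he3⟩ := ent (S.pD i) (hDD i) ((k4 i).trans (by linarith))
    refine ⟨a, b, c, e, ?_, ⟨ha1, hb1, hc1, he1⟩, ha3, hb3, hc3, he3⟩
    have e1 : (0 : ℝ) < (a : ℝ) * e - b * c := by
      rw [ha2, hb2, hc2, he2]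
      have e2 := k7 i
      unfold MO.dt at e2
      rw [map_sub, map_mul, map_mul] at e2
      have e3 : (q : ℝ) ^ (D + d + 2) * aeval u (S.pA i) * ((q : ℝ) ^ (D + d + 2) * aeval u (S.pD i)) -
          (q : ℝ) ^ (D + d + 2) * aeval u (S.pB i) * ((q : ℝ) ^ (D + d + 2) * aeval u (S.pC i)) =
          ((q : ℝ) ^ (D + d + 2)) ^ 2 * (aeval u (S.pA i) * aeval u (S.pD i) -
            aeval u (S.pB i) * aeval u (S.pC i)) := by ring
      rw [e3]
      positivity
    exact_mod_cast e1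

end AK
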