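import Pool.Agent.H32.AO.Ob

/-!
# MP_ede373, points algebraic over `ℚ(t)`, row A6: dichotomy for hierarchical sequences

`SHierP t P`: as `AO.SHier t`, the approximations have in addition the property `P`.

Suppose `¬ SHierP t P`: there is `κ1` such that for every `σ` there is `K0 σ` such that every `q ≥ K0 σ`, `p` with the conditions for `κ1, σ, K0 σ` has `¬ P q p`. Let `κ` be given. `σ` from `hS (max κ κ1)`. Given `K` take `q ≥ max K (K0 σ)`, `p` from `hS` for `K' = max (max K (K0 σ)) 1`. The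
conditions for `max κ κ1` and `K'` imply those for `κ, K` and for `κ1, K0 σ`: `exp (-q^(max κ κ1)) ≤ exp (-q^κ)` (`q ≥ 1`), and `|..|^K' ≤ |..|^K` as the distances are `≤ 1` (they are `< exp (-..) ≤ 1`). So `¬ P q p`.
-/

set_option autoImplicit false

namespace AK

open AO

/-- Sorted approximations with a property. -/
def SHierP {m : ℕ} (t : Fin m → ℝ) (P : ℕ → (Fin m → ℤ) → Prop) : Prop :=
  ∀ κ : ℕ, ∃ σ : Equiv.Perm (Fin m), ∀ K : ℕ, ∃ q : ℕ, K ≤ q ∧ ∃ p : Fin m → ℤ,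
    (∀ s, 0 < |t s - p s / q| ∧ |t s - p s / q| < Real.exp (-(q : ℝ) ^ κ)) ∧
    (∀ a b, a < b → |t (σ a) - p (σ a) / q| < |t (σ b) - p (σ b) / q| ^ K) ∧ P q p

theorem dich {m : ℕ} {t : Fin m → ℝ} (hS : SHier t) (P : ℕ → (Fin m → ℤ) → Prop) :
    SHierP t P ∨ SHierP t (fun q p ↦ ¬ P q p) := by
  by_cases hP : SHierP t P
  · exact Or.inl hP
  right
  unfold SHierP at hP
  push Not at hP
  obtain ⟨κ1, h1⟩ := hP
  choose K0 hK0 using h1
  intro κ
  obtain ⟨σ, hσ⟩ := hS (max κ κ1)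
  refine ⟨σ, fun K => ?_⟩
  obtain ⟨q, hq, p, ha, hb⟩ := hσ (max (max K (K0 σ)) 1)
  have hK : K ≤ max (max K (K0 σ)) 1 := (le_max_left _ _).trans (le_max_left _ _)
  have hK' : K0 σ ≤ max (max K (K0 σ)) 1 := (le_max_right _ _).trans (le_max_left _ _)
  have hq1 : (1 : ℝ) ≤ q := by
    exact_mod_cast (le_max_right _ _).trans hq
  have hexp : ∀ e : ℕ, e ≤ max κ κ1 → Real.exp (-(q : ℝ) ^ (max κ κ1)) ≤ Real.exp (-(q : ℝ) ^ e) := by
    intro e he
    exact Real.exp_le_exp.2 (neg_le_neg (pow_le_pow_right₀ hq1 he))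
  have hlt1 : ∀ s, |t s - p s / q| ≤ 1 := by
    intro s
    refine (ha s).2.le.trans (Real.exp_le_one_iff.2 ?_)
    have : (0 : ℝ) ≤ (q : ℝ) ^ (max κ κ1) := by positivity
    linarith
  have hpow : ∀ e : ℕ, e ≤ max (max K (K0 σ)) 1 → ∀ s,
      |t s - p s / q| ^ (max (max K (K0 σ)) 1) ≤ |t s - p s / q| ^ e := by
    intro e he s
    exact pow_le_pow_of_le_one (abs_nonneg _) (hlt1 s) he
  refine ⟨q, hK.trans hq, p, fun s => ⟨(ha s).1, (ha s).2.trans_le (hexp κ (le_max_left _ _))⟩,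
    fun a b hab => (hb a b hab).trans_le (hpow K hK _), ?_⟩
  exact hK0 σ q (hK'.trans hq) p (fun s => ⟨(ha s).1, (ha s).2.trans_le (hexp κ1 (le_max_right _ _))⟩)
    fun a b hab => (hb a b hab).trans_le (hpow (K0 σ) hK' _)

end AK
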