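import Pool.Agent.H32.AK.A4
import Pool.Agent.H32.AK.A5
import Pool.Agent.H32.AK.A6

/-!
# MP_ede373, points algebraic over `ℚ(t)`, row A7: the sequences

As the proof of `AO.appr_WF` (file `Pool/Agent/H32/AO/C4.lean`). `A, Q0, ε` from `good_MO`. Given `κ`: `σ` from `hP (κ + 1)`; for `k : ℕ` take `q k ≥ Q0 + k + 2 + ⌈|log ε|⌉₊ + 1` and `p k` (`K = Q0 + k + 2 + ⌈|log ε|⌉₊ + 1`); `r k s = p k s / q k`. `|t s - p/q| < exp (-q^(κ+1)) < ε`, so `Good`, and
`NCM (S.Y (r k))` is the property `P`. `‖r k - x‖ ≤ exp (-q^κ)`, limit as there. `mkU (Y (r k))` is algebraic over `Algebra.adjoin ℂ (range mkU (r · s))`: the polynomial with coefficients `mkU (aeval (r k) (G j))` (which are in the adjoined algebra: induction on the polynomial, or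
`AO.aeval_mkUZ'`: `mkU (aeval (r k) (G j)) = aeval (fun s ↦ mkU (r · s)) (G j)`), leading coefficient `≠ 0` (it tends to `aeval x (G d) ≠ 0`), vanishes at `mkU (Y (r k))` since the relation `hG` holds at `r k` for large `k` (`mkU_zero_of_ev`). Independence: `AO.ult_ind S.x S.ψ S.an_ψ S.im_ψ
(nonvan_MO S d G hd hG htr hrel) r _ σ` exactly as in `AO.appr_WF`.
-/

set_option autoImplicit false

open UpperHalfPlane hiding I
open Complex EisensteinSeries ModularForm MatrixGroups Manifold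
open scoped Real Topology
open MvPolynomial Filter

namespace AK

open H32 H32.T3 H32.T4 AO

private lemma A7_mem {M : ℕ} (r : ℕ → Fin M → ℂ) (P : MvPolynomial (Fin M) ℤ) :
    aeval (fun s ↦ mkU (fun k ↦ r k s)) P ∈
      Algebra.adjoin ℂ (Set.range fun s : Fin M ↦ mkU (fun k ↦ r k s)) := by
  induction P using MvPolynomial.induction_on with
  | C c =>
    rw [MvPolynomial.aeval_C, algebraMap_int_eq, eq_intCast]
    exact intCast_mem _ c
  | add p q hp hq =>
    rw [map_add]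
    exact add_mem hp hq
  | mul_X p i hp =>
    rw [map_mul, MvPolynomial.aeval_X]
    exact mul_mem hp (Algebra.subset_adjoin ⟨i, rfl⟩)

private lemma A7_alg {M : ℕ} (x : Fin M → ℂ) (Y : (Fin M → ℂ) → ℂ) (d : ℕ)
    (G : ℕ → MvPolynomial (Fin M) ℤ) (hd : aeval x (G d) ≠ 0)
    (hG : ∀ᶠ s in 𝓝 x, ∑ j ∈ Finset.range (d + 1), aeval s (G j) * Y s ^ j = 0)
    (r : ℕ → Fin M → ℂ) (htend : Tendsto r atTop (𝓝 x)) :
    IsAlgebraic (Algebra.adjoin ℂ (Set.range fun s : Fin M ↦ mkU (fun k ↦ r k s)))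
      (mkU (fun k ↦ Y (r k))) := by
  set B := Algebra.adjoin ℂ (Set.range fun s : Fin M ↦ mkU (fun k ↦ r k s)) with hB
  let g : ℕ → B := fun j ↦ ⟨aeval (fun s ↦ mkU (fun k ↦ r k s)) (G j), A7_mem r (G j)⟩
  have hgd : g d ≠ 0 := by
    intro h0
    have h1 : aeval (fun s ↦ mkU (fun k ↦ r k s)) (G d) = 0 := congrArg Subtype.val h0
    rw [aeval_mkUZ'] at h1
    have h2 := freq_of_mkU_zero h1
    have h3 : Tendsto (fun k ↦ aeval (r k) (G d)) atTop (𝓝 (aeval x (G d))) :=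
      (an_aeval (G d) x).continuousAt.tendsto.comp htend
    have h4 := h3.eventually_ne hd
    exact h2 (h4.mono fun k hk ↦ hk)
  refine ⟨∑ j ∈ Finset.range (d + 1), Polynomial.C (g j) * Polynomial.X ^ j, ?_, ?_⟩
  · intro h0
    have h1 := congrArg (fun F : Polynomial B ↦ F.coeff d) h0
    simp only [Polynomial.finsetSum_coeff, Polynomial.coeff_C_mul, Polynomial.coeff_X_pow,
      Polynomial.coeff_zero, mul_ite, mul_one, mul_zero] at h1
    rw [Finset.sum_ite_eq, if_pos (Finset.mem_range.mpr (Nat.lt_succ_self d))] at h1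
    exact hgd h1
  · rw [map_sum]
    have h1 : ∀ j ∈ Finset.range (d + 1),
        Polynomial.aeval (mkU (fun k ↦ Y (r k))) (Polynomial.C (g j) * Polynomial.X ^ j) =
        mkU (fun k ↦ aeval (r k) (G j) * Y (r k) ^ j) := by
      intro j _
      rw [map_mul, Polynomial.aeval_C, map_pow, Polynomial.aeval_X]
      have h2 : algebraMap B Ult (g j) = mkU (fun k ↦ aeval (r k) (G j)) :=
        aeval_mkUZ' (fun s k ↦ r k s) (G j)
      rw [h2, ← map_pow, ← map_mul]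
      rfl
    rw [Finset.sum_congr rfl h1, ← map_sum]
    refine mkU_zero_of_ev ((htend.eventually hG).mono fun k hk ↦ ?_)
    rw [Finset.sum_apply]
    exact hk

theorem seq_MO {M n : ℕ} (S : MO M n) (t : Fin M → ℝ) (hx : S.x = fun s ↦ (t s : ℂ))
    (hdet : ∀ i, 0 < (aeval t (S.dt i) : ℝ)) (d : ℕ) (G : ℕ → MvPolynomial (Fin M) ℤ)
    (hd : aeval S.x (G d) ≠ 0)
    (hG : ∀ᶠ s in 𝓝 S.x, ∑ j ∈ Finset.range (d + 1), aeval s (G j) * S.Y s ^ j = 0)
    (htr : ∀ i, Transcendental ℚ (S.ψ i S.x))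
    (hrel : ∀ i j, i ≠ j → ¬ ∃ a b c d : ℚ, 0 < a * d - b * c ∧
      S.ψ j S.x = ((a : ℂ) * S.ψ i S.x + b) / ((c : ℂ) * S.ψ i S.x + d))
    (hP : SHierP t (fun q p ↦ NCM (S.Y (fun s ↦ (p s : ℂ) / q)))) : ∃ A : ℕ, S.Seq A := by
  obtain ⟨A, Q0, ε, hε, hA⟩ := good_MO S t hx hdet d G hd hG
  refine ⟨A, fun κ ↦ ?_⟩
  obtain ⟨σ, hσ⟩ := hP (κ + 1)
  obtain ⟨B, hB⟩ : ∃ B : ℕ, |Real.log ε| < B := exists_nat_gt _
  choose q hq p hp1 hp2 hp3 using fun k : ℕ ↦ hσ (Q0 + k + 2 + B)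
  set r : ℕ → Fin M → ℂ := fun k s ↦ (p k s : ℂ) / q k with hr
  have hrn : ∀ k s, ‖r k s - S.x s‖ = |t s - p k s / q k| := fun k s ↦ by
    have e : r k s - S.x s = (((p k s : ℝ) / q k - t s : ℝ) : ℂ) := by
      rw [hr, hx]
      push_cast
      rfl
    rw [e, Complex.norm_real, Real.norm_eq_abs, abs_sub_comm]
  have hHk : ∀ k, k + 2 ≤ q k := fun k ↦ le_trans (by omega) (hq k)
  have hH1 : ∀ k, (1 : ℝ) ≤ q k := fun k ↦ by
    have := hHk k
    exact_mod_cast (by omega : 1 ≤ q k)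
  have hle1 : ∀ k s, |t s - p k s / q k| ≤ 1 := fun k s ↦ by
    refine ((hp1 k s).2.le).trans (Real.exp_le_one_iff.mpr ?_)
    have : (0 : ℝ) ≤ (q k : ℝ) ^ (κ + 1) := by positivity
    linarith
  have hlt : ∀ k s, |t s - p k s / q k| < ε := fun k s ↦ by
    refine (hp1 k s).2.trans ?_
    rw [← Real.lt_log_iff_exp_lt hε]
    have h1 : (q k : ℝ) ≤ (q k : ℝ) ^ (κ + 1) := le_self_pow₀ (hH1 k) (by omega)
    have h2 : (B : ℝ) ≤ q k := by
      have := hq k
      exact_mod_cast (by omega : B ≤ q k)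
    have h3 := neg_abs_le (Real.log ε)
    linarith
  have hbd : ∀ k, ‖r k - S.x‖ ≤ Real.exp (-(q k : ℝ) ^ (κ + 1)) := fun k ↦ by
    rw [pi_norm_le_iff_of_nonneg (Real.exp_pos _).le]
    intro s
    have h1 := hrn k s
    rw [Pi.sub_apply, h1]
    exact (hp1 k s).2.le
  have htend : Tendsto r atTop (𝓝 S.x) := by
    rw [tendsto_iff_norm_sub_tendsto_zero]
    have h1 : Tendsto (fun n : ℕ ↦ Real.exp (-(n : ℝ))) atTop (𝓝 0) :=
      Real.tendsto_exp_neg_atTop_nhds_zero.comp tendsto_natCast_atTop_atTop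
    refine squeeze_zero (fun _ ↦ norm_nonneg _) (fun k ↦ ?_) h1
    refine (hbd k).trans (Real.exp_le_exp.mpr (neg_le_neg ?_))
    have h2 : (k : ℝ) ≤ q k := by
      have := hHk k
      exact_mod_cast (by omega : k ≤ q k)
    exact h2.trans (le_self_pow₀ (hH1 k) (by omega))
  refine ⟨q, r, hHk, fun k ↦ ⟨?_, hp3 k⟩,
    fun k ↦ (hbd k).trans (Real.exp_le_exp.mpr (neg_le_neg ?_)), htend,
    A7_alg S.x S.Y d G hd hG r htend, ?_⟩
  · exact hA (q k) (p k) (le_trans (by omega) (hq k)) (hlt k)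
  · exact pow_le_pow_right₀ (hH1 k) (by omega)
  · exact ult_ind S.x S.ψ S.an_ψ S.im_ψ (nonvan_MO S d G hd hG htr hrel) r htend σ
      (Eventually.of_forall fun k s ↦ by
        rw [hrn]
        exact (hp1 k s).1) (fun C ↦ by
        filter_upwards [eventually_ge_atTop C] with k hk a b hab
        rw [hrn, hrn]
        refine (hp2 k a b hab).le.trans ?_
        exact pow_le_pow_of_le_one (abs_nonneg _) (hle1 k _) (by omega))

end AK
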