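import Pool.Agent.H32.AK.MO
import Pool.Agent.H32.AK.A0
import Pool.Agent.H32.AK.A1

/-!
# MP_ede373, points algebraic over `ℚ(t)`, row A8: the data of a tuple

`AO.exists_orb` (file `Pool/Agent/H32/AO/Ob.lean`) with `b = 1`, the base point `⟨y, hy⟩`, classes `0`, gives `S0 : Orb m n 1` with `S0.t = t`, `S0.φ i S0.x = z i`, and `S0.hdet : 0 < aeval t (pA i * pD i - pB i * pC i)`. `x = fun s ↦ (t s : ℂ)`. `alg_data x y hya` gives `d, G`, `implicit_alg` gives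
`Y`. Put `S = MO.of x S0.pA S0.pB S0.pC S0.pD Y ..`: `im0` is `hy` (`Y x = y`), `dn` is `S0.den_x i`, `dt0` is `S0.dt_x i`, `imφ` is `S0.im_φ i`, after rewriting `Y x = y` and `S0.y (S0.c i) = ⟨y, hy⟩`. `S.φ i S.x = z i`.
-/

set_option autoImplicit false

open UpperHalfPlane hiding I
open Complex EisensteinSeries ModularForm MatrixGroups Manifold
open scoped Real Topology
open MvPolynomial Filter

namespace AK

open H32 H32.T3 H32.T4 AO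

theorem exists_MO {m n : ℕ} (t : Fin m → ℝ) (y : ℂ) (hy : 0 < y.im)
    (hya : IsAlgebraic (IntermediateField.adjoin ℚ (Set.range fun s ↦ (t s : ℂ))) y)
    (z : Fin n → ℂ) (hz : ∀ i, ∃ A ∈ IntermediateField.adjoin ℚ (Set.range t),
      ∃ B ∈ IntermediateField.adjoin ℚ (Set.range t),
      ∃ C ∈ IntermediateField.adjoin ℚ (Set.range t),
      ∃ D ∈ IntermediateField.adjoin ℚ (Set.range t), 0 < A * D - B * C ∧
        z i = ((A : ℂ) * y + (B : ℂ)) / ((C : ℂ) * y + (D : ℂ))) :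
    ∃ (S : MO m n) (d : ℕ) (G : ℕ → MvPolynomial (Fin m) ℤ), (S.x = fun s ↦ (t s : ℂ)) ∧
      S.Y S.x = y ∧ (∀ i, S.φ i S.x = z i) ∧ (∀ i, 0 < (aeval t (S.dt i) : ℝ)) ∧
      aeval S.x (G d) ≠ 0 ∧
      ∀ᶠ s in 𝓝 S.x, ∑ j ∈ Finset.range (d + 1), aeval s (G j) * S.Y s ^ j = 0 := by
  obtain ⟨S0, hSt, hSy, hSc, hSφ⟩ := exists_orb (b := 1) (t := t) (fun _ ↦ (⟨y, hy⟩ : ℍ))
    (fun _ ↦ 0) z hz
  obtain ⟨d, G, hG0, hGd, hG1⟩ := alg_data (fun s ↦ (t s : ℂ)) y hya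
  obtain ⟨Y, hYan, hYx, hY⟩ := implicit_alg _ y d G hG0 hG1
  have hx : S0.x = fun s ↦ (t s : ℂ) := by
    unfold Orb.x
    rw [hSt]
  have hyc : ∀ i, (S0.y (S0.c i) : ℂ) = y := by
    intro i
    rw [hSy]
  have hden : ∀ i, aeval (fun s ↦ (t s : ℂ)) (S0.pC i) * Y (fun s ↦ (t s : ℂ)) +
      aeval (fun s ↦ (t s : ℂ)) (S0.pD i) ≠ 0 := by
    intro i
    have h := S0.den_x i
    rw [Orb.den, hx, hyc] at h
    rw [hYx]
    exact h
  have hdt : ∀ i, aeval (fun s ↦ (t s : ℂ)) (S0.pA i * S0.pD i - S0.pB i * S0.pC i) ≠ 0 := by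
    intro i
    have h := S0.dt_x i
    rw [hx] at h
    exact h
  have him : ∀ i, 0 < (mob (aeval (fun s ↦ (t s : ℂ)) (S0.pA i))
      (aeval (fun s ↦ (t s : ℂ)) (S0.pB i)) (aeval (fun s ↦ (t s : ℂ)) (S0.pC i))
      (aeval (fun s ↦ (t s : ℂ)) (S0.pD i)) (Y (fun s ↦ (t s : ℂ)))).im := by
    intro i
    have h := S0.im_φ i
    rw [Orb.φ, hx, hyc] at h
    rw [hYx]
    exact h
  refine ⟨MO.of (fun s ↦ (t s : ℂ)) S0.pA S0.pB S0.pC S0.pD Y hYan (by rw [hYx]; exact hy) hden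
    hdt him, d, G, rfl, hYx, fun i ↦ ?_, fun i ↦ ?_, hGd, hY⟩
  · have h := hSφ i
    rw [Orb.φ, hx, hyc] at h
    rw [← h]
    exact congrArg (mob (aeval (fun s ↦ (t s : ℂ)) (S0.pA i))
      (aeval (fun s ↦ (t s : ℂ)) (S0.pB i)) (aeval (fun s ↦ (t s : ℂ)) (S0.pC i))
      (aeval (fun s ↦ (t s : ℂ)) (S0.pD i))) hYx
  · have h := S0.hdet i
    rw [hSt] at h
    exact h

end AK
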