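import Pool.Agent.H32.AK.D0
import Pool.Agent.H32.CZ.Pj

/-!
# MP_ede373, points algebraic over `ℚ(t)`, row B1: the irreducible factor

`F ≠ 0` factors in `ℤ[X]`; `Polynomial.aeval w F = 0`, so one irreducible factor `r` has the root `w`
(`UniqueFactorizationMonoid.factors`, `Polynomial.aeval` of the product, a unit of `ℤ[X]` is `±1`: see the proof of
`CZ.good_factor` in `Pool/Agent/H32/CZ/Pj.lean`). `r` is not constant (a nonzero constant has no root). `F = r * g`, `g ≠ 0`:
`natDegree r ≤ natDegree F`, `mah r ≤ mah r * mah g = mah F ≤ nr F` (`one_le_mah`, `pj_mah_mul`, `mah_le_nr`).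
-/

set_option autoImplicit false

namespace AK

open CZ Polynomial

theorem min_factor {d : ℕ} {X : ℝ} {w : ℂ} (h : AlgB d X w) :
    ∃ r : ℤ[X], Irreducible r ∧ 0 < r.natDegree ∧ r.natDegree ≤ d ∧ mah r ≤ X ∧ aeval w r = 0 := by
  obtain ⟨F, hF0, hFd, hFn, hFw⟩ := h
  set s := UniqueFactorizationMonoid.factors F with hs
  have hP : (RingHom.ker (aeval w : ℤ[X] →ₐ[ℤ] ℂ)).IsPrime := RingHom.ker_isPrime _
  have hassoc := UniqueFactorizationMonoid.factors_prod hF0
  have hmem : s.prod ∈ RingHom.ker (aeval w : ℤ[X] →ₐ[ℤ] ℂ) := by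
    obtain ⟨c, hc⟩ := hassoc.symm
    rw [hs, ← hc]
    exact Ideal.mul_mem_right _ _ (RingHom.mem_ker.2 hFw)
  obtain ⟨r, hr, hrw⟩ := (hP.multiset_prod_mem_iff_exists_mem s).1 hmem
  have hirr : Irreducible r := UniqueFactorizationMonoid.irreducible_of_factor r hr
  have hrw' : aeval w r = 0 := RingHom.mem_ker.1 hrw
  have hdvd : r ∣ F := UniqueFactorizationMonoid.dvd_of_mem_factors hr
  refine ⟨r, hirr, ?_, (natDegree_le_of_dvd hdvd hF0).trans hFd, ?_, hrw'⟩
  · rw [Nat.pos_iff_ne_zero]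
    intro h0
    rw [eq_C_of_natDegree_eq_zero h0, aeval_C, eq_intCast, Int.cast_eq_zero] at hrw'
    apply hirr.ne_zero
    rw [eq_C_of_natDegree_eq_zero h0, hrw', C_0]
  · obtain ⟨g, hg⟩ := hdvd
    have hg0 : g ≠ 0 := by
      rintro rfl
      exact hF0 (by rw [hg, mul_zero])
    have h1 := one_le_mah hirr.ne_zero
    have h2 := one_le_mah hg0
    have h3 : mah F = mah r * mah g := by rw [hg, pj_mah_mul]
    have h4 := mah_le_nr F
    nlinarith

end AK
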