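import Pool.Agent.H32.AK.B1

/-!
# MP_ede373, points algebraic over `ℚ(t)`, row B2: a uniform Liouville inequality

`r` from `min_factor` (irreducible in `ℤ[X]`, `n = natDegree r ≤ d`, `mah r ≤ X`, `r(w) = 0`). `P = C a X^2 + C b X + C c`, `P(w) ≠ 0`, so
`r ∤ P`, and as `r` is irreducible of positive degree (so primitive), `r` and `P` are coprime over `ℚ` (Gauss:
`Polynomial.IsPrimitive.Int.irreducible_iff_irreducible_map_cast`), so the map `r_ℂ` and `P_ℂ` have no common root. Let `l` be the leading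
coefficient of `r`, `w_1, .., w_n` its complex roots with multiplicity. The number `R = l^2 ∏_i P(w_i)` is the integer
`± resultant r P` for `P` of formal degree `2` (`Polynomial.resultant` with explicit degrees; Mathlib has
`Polynomial.resultant_eq_prod_roots..`-type lemmas; look at `Pool/Agent/H32/CZ/Na.lean` and `Pool/Agent/H32/CZ/Pk.lean` for existing uses), and
it is not zero. So `1 ≤ |R|`. With `‖P(w_i)‖ ≤ 3 H max(1, ‖w_i‖)^2` and `|l| ∏_i max(1, ‖w_i‖) = mah r ≤ X`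
(`Polynomial.mahlerMeasure_eq_leadingCoeff_mul_prod_roots`): `w = w_1` for one index,
`1 ≤ ‖P(w)‖ |l|^2 ∏_{i ≠ 1} 3 H max(1, ‖w_i‖)^2 ≤ ‖P(w)‖ (3 H)^(n-1) X^2` (`max(1, ‖w_1‖)^2 ≥ 1`). Take `C = 3 d + 2`, say:
`(3 H)^(n-1) X^2 ≤ (C X H)^C` (`X ≥ mah r ≥ 1`, `H ≥ 1`).
(Alternative without resultants: the number field `E = ℚ(w)` and `Algebra.norm` of `l^2 P(w)`, as in row `MJ/J8`, but uniform in the
polynomial `r`: `l^2 ∏ P(w_i)` is a symmetric integral expression. Any correct proof is fine. Possibly the shortest: `hE` and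
`CZ.liouville` (`Pool/Agent/H32/CZ`), with `E = AdjoinRoot` of `r` over `ℚ` and `hE (root) ≤ log (mah r)` as used in the proof of
`AZ.line_local` in `Pool/Agent/H32/AZ/L.lean`; then `x = root`, `D = C a * X 0 ^ 2 + C b * X 0 + C c` (one variable), the
embedding with `root ↦ w`.)
-/

set_option autoImplicit false

namespace AK

open CZ Polynomial

private theorem B2_prod (f : ℂ → ℂ) (K : ℝ) (hK : 0 ≤ K)
    (hf : ∀ z, ‖f z‖ ≤ K * (max 1 ‖z‖) ^ 2) (s : Multiset ℂ) :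
    ‖(s.map f).prod‖ ≤ K ^ (Multiset.card s) * ((s.map (fun a => max 1 ‖a‖)).prod) ^ 2 := by
  induction s using Multiset.induction_on with
  | empty => simp
  | cons z s ih =>
    rw [Multiset.map_cons, Multiset.prod_cons, Multiset.map_cons, Multiset.prod_cons,
      Multiset.card_cons, norm_mul, pow_succ]
    calc ‖f z‖ * ‖(s.map f).prod‖ ≤ (K * (max 1 ‖z‖) ^ 2) *
        (K ^ (Multiset.card s) * ((s.map (fun a => max 1 ‖a‖)).prod) ^ 2) :=
          mul_le_mul (hf z) ih (norm_nonneg _) (by positivity)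
      _ = K ^ (Multiset.card s) * K * (max 1 ‖z‖ * (s.map (fun a => max 1 ‖a‖)).prod) ^ 2 := by
          ring

private theorem B2_one (s : Multiset ℂ) : 1 ≤ (s.map (fun a : ℂ => max 1 ‖a‖)).prod := by
  induction s using Multiset.induction_on with
  | empty => simp
  | cons z s ih =>
    rw [Multiset.map_cons, Multiset.prod_cons]
    exact one_le_mul_of_one_le_of_one_le (le_max_left _ _) ih

private theorem B2_root (r P : ℤ[X]) (hr : Irreducible r) (hd : 0 < r.natDegree) (w z : ℂ)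
    (hw : aeval w r = 0) (hz : aeval z r = 0) (hPz : aeval z P = 0) : aeval w P = 0 := by
  have hirr : Irreducible (r.map (Int.castRingHom ℚ)) :=
    (Polynomial.IsPrimitive.Int.irreducible_iff_irreducible_map_cast
      (hr.isPrimitive hd.ne')).1 hr
  have hQ : ∀ (x : ℂ) (p : ℤ[X]), aeval x (p.map (Int.castRingHom ℚ)) = aeval x p := by
    intro x p
    rw [Polynomial.aeval_def, Polynomial.eval₂_map, Polynomial.aeval_def]
    congr 1
  have h1 := minpoly.eq_of_irreducible hirr (x := w) (by rw [hQ]; exact hw)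
  have h2 := minpoly.eq_of_irreducible hirr (x := z) (by rw [hQ]; exact hz)
  have h3 : minpoly ℚ z ∣ P.map (Int.castRingHom ℚ) := minpoly.dvd ℚ z (by rw [hQ]; exact hPz)
  rw [← h2, h1] at h3
  obtain ⟨g, hg⟩ := h3
  rw [← hQ, hg, map_mul, minpoly.aeval, zero_mul]

private theorem B2_key (r P : ℤ[X]) (hr : Irreducible r) (hd : 0 < r.natDegree) (w : ℂ)
    (hw : aeval w r = 0) (hPd : P.natDegree ≤ 2) (hPw : aeval w P ≠ 0) (K : ℝ) (hK : 0 ≤ K)
    (hf : ∀ z : ℂ, ‖aeval z P‖ ≤ K * (max 1 ‖z‖) ^ 2) :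
    1 ≤ K ^ (r.natDegree - 1) * (mah r) ^ 2 * ‖aeval w P‖ := by
  obtain ⟨rc, hrc⟩ : ∃ rc, rc = r.map (Int.castRingHom ℂ) := ⟨_, rfl⟩
  obtain ⟨Pc, hPc⟩ : ∃ Pc, Pc = P.map (Int.castRingHom ℂ) := ⟨_, rfl⟩
  have hinj : Function.Injective (Int.castRingHom ℂ) := Int.cast_injective
  have hrd : rc.natDegree = r.natDegree := by
    rw [hrc]
    exact Polynomial.natDegree_map_eq_of_injective hinj r
  have hPcd : Pc.natDegree ≤ 2 := by
    rw [hPc]
    exact Polynomial.natDegree_map_le.trans hPd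
  have hr0 : r ≠ 0 := hr.ne_zero
  have hrc0 : rc ≠ 0 := by
    rw [hrc]
    exact (Polynomial.map_ne_zero_iff hinj).2 hr0
  have hev : ∀ (z : ℂ) (p : ℤ[X]), (p.map (Int.castRingHom ℂ)).eval z = aeval z p := by
    intro z p
    rw [Polynomial.eval_map, Polynomial.aeval_def]
    rfl
  have hs : rc.Splits := IsAlgClosed.splits rc
  have hres := Polynomial.resultant_eq_prod_eval rc Pc 2 hPcd hs
  rw [hrd] at hres
  have hres2 : Polynomial.resultant rc Pc r.natDegree 2 =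
      ((Polynomial.resultant r P r.natDegree 2 : ℤ) : ℂ) := by
    rw [hrc, hPc, Polynomial.resultant_map_map]
    rfl
  rw [hres2] at hres
  have hl0 : rc.leadingCoeff ≠ 0 := Polynomial.leadingCoeff_ne_zero.2 hrc0
  have hne : ((Polynomial.resultant r P r.natDegree 2 : ℤ) : ℂ) ≠ 0 := by
    rw [hres]
    refine mul_ne_zero (pow_ne_zero _ hl0) ?_
    rw [Ne, Multiset.prod_eq_zero_iff]
    intro h
    rw [Multiset.mem_map] at h
    obtain ⟨z, hz, hz2⟩ := h
    have h1 : aeval z r = 0 := by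
      rw [← hev, ← hrc]
      exact (Polynomial.mem_roots hrc0).1 hz
    apply hPw
    apply B2_root r P hr hd w z hw h1
    rw [← hev, ← hPc]
    exact hz2
  have hR1 : 1 ≤ ‖((Polynomial.resultant r P r.natDegree 2 : ℤ) : ℂ)‖ := by
    rw [Complex.norm_intCast]
    have h1 : Polynomial.resultant r P r.natDegree 2 ≠ 0 := by
      intro h
      apply hne
      rw [h, Int.cast_zero]
    have h2 := Int.one_le_abs h1
    exact_mod_cast h2
  have hmem : w ∈ rc.roots := by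
    rw [Polynomial.mem_roots hrc0]
    change rc.eval w = 0
    rw [hrc, hev]
    exact hw
  have hcons := Multiset.cons_erase hmem
  have hcard : Multiset.card (rc.roots.erase w) = r.natDegree - 1 := by
    rw [Multiset.card_erase_of_mem hmem, ← hs.natDegree_eq_card_roots, hrd]
    rfl
  have hmah : mah r = ‖rc.leadingCoeff‖ *
      (max 1 ‖w‖ * ((rc.roots.erase w).map (fun a => max 1 ‖a‖)).prod) := by
    unfold mah
    rw [← hrc, Polynomial.mahlerMeasure_eq_leadingCoeff_mul_prod_roots]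
    congr 1
    conv_lhs => rw [← hcons]
    rw [Multiset.map_cons, Multiset.prod_cons]
  rw [hres, ← hcons, Multiset.map_cons, Multiset.prod_cons, norm_mul, norm_mul, norm_pow] at hR1
  have hPe : Pc.eval = fun z => aeval z P := by
    funext z
    rw [hPc, hev]
  have hp := B2_prod (fun z => aeval z P) K hK hf (rc.roots.erase w)
  rw [← hPe, hcard] at hp
  have hPew : Pc.eval w = aeval w P := by rw [hPc, hev]
  rw [hPew] at hR1
  obtain ⟨M, hM⟩ : ∃ M : ℝ, M = ((rc.roots.erase w).map (fun a => max 1 ‖a‖)).prod := ⟨_, rfl⟩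
  obtain ⟨Q, hQ⟩ : ∃ Q : ℝ, Q = ‖((rc.roots.erase w).map Pc.eval).prod‖ := ⟨_, rfl⟩
  rw [← hM] at hp hmah
  rw [← hQ] at hp hR1
  have hM1 : 1 ≤ M := by
    rw [hM]
    exact B2_one _
  have hmw : 1 ≤ max 1 ‖w‖ := le_max_left _ _
  have h5 : ‖rc.leadingCoeff‖ ^ 2 * (‖aeval w P‖ * Q) ≤
      ‖rc.leadingCoeff‖ ^ 2 * (‖aeval w P‖ * (K ^ (r.natDegree - 1) * M ^ 2)) :=
    mul_le_mul_of_nonneg_left (mul_le_mul_of_nonneg_left hp (norm_nonneg _)) (by positivity)
  have h6 : M ^ 2 ≤ (max 1 ‖w‖ * M) ^ 2 := by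
    apply pow_le_pow_left₀ (by linarith)
    exact le_mul_of_one_le_left (by linarith) hmw
  have h7 : ‖rc.leadingCoeff‖ ^ 2 * (‖aeval w P‖ * (K ^ (r.natDegree - 1) * M ^ 2)) ≤
      ‖rc.leadingCoeff‖ ^ 2 * (‖aeval w P‖ * (K ^ (r.natDegree - 1) * (max 1 ‖w‖ * M) ^ 2)) := by
    apply mul_le_mul_of_nonneg_left _ (by positivity)
    apply mul_le_mul_of_nonneg_left _ (norm_nonneg _)
    exact mul_le_mul_of_nonneg_left h6 (pow_nonneg hK _)
  calc (1 : ℝ) ≤ ‖rc.leadingCoeff‖ ^ 2 * (‖aeval w P‖ * Q) := hR1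
    _ ≤ _ := h5
    _ ≤ _ := h7
    _ = K ^ (r.natDegree - 1) * (mah r) ^ 2 * ‖aeval w P‖ := by
        rw [hmah]
        ring

private theorem B2_mah {r : ℤ[X]} (hr : r ≠ 0) : 1 ≤ mah r := by
  have hinj : Function.Injective (Int.castRingHom ℂ) := Int.cast_injective
  unfold mah
  refine le_trans ?_ (Polynomial.leadingCoeff_le_mahlerMeasure _)
  rw [Polynomial.leadingCoeff_map_of_injective hinj]
  change 1 ≤ ‖((r.leadingCoeff : ℤ) : ℂ)‖
  rw [Complex.norm_intCast]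
  have h2 := Int.one_le_abs (Polynomial.leadingCoeff_ne_zero.2 hr)
  exact_mod_cast h2

theorem liou_unif (d : ℕ) : ∃ C : ℕ, 1 ≤ C ∧ ∀ (w : ℂ) (X : ℝ) (H : ℕ) (a b c : ℤ), 1 ≤ H →
    AlgB d X w → |a| ≤ (H : ℤ) → |b| ≤ (H : ℤ) → |c| ≤ (H : ℤ) → (a : ℂ) * w ^ 2 + b * w + c ≠ 0 →
    1 ≤ ((C : ℝ) * X * H) ^ C * ‖(a : ℂ) * w ^ 2 + b * w + c‖ := by
  refine ⟨d + 3, by omega, ?_⟩
  intro w Y H a b c hH hA ha hb hc hne
  obtain ⟨r, hr, hd0, hdd, hmX, hrw⟩ := min_factor hA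
  have hH1 : (1 : ℝ) ≤ H := by exact_mod_cast hH
  have hY1 : 1 ≤ Y := (B2_mah hr.ne_zero).trans hmX
  have hPe : ∀ z : ℂ, aeval z (C a * X ^ 2 + C b * X + C c : ℤ[X]) =
      (a : ℂ) * z ^ 2 + b * z + c := by
    intro z
    simp
  have hPd : (C a * X ^ 2 + C b * X + C c : ℤ[X]).natDegree ≤ 2 := natDegree_quadratic_le
  have hcoef : ∀ e : ℤ, |e| ≤ (H : ℤ) → ‖(e : ℂ)‖ ≤ (H : ℝ) := by
    intro e he
    rw [Complex.norm_intCast]
    exact_mod_cast he
  have hf : ∀ z : ℂ, ‖aeval z (C a * X ^ 2 + C b * X + C c : ℤ[X])‖ ≤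
      (3 * H) * (max 1 ‖z‖) ^ 2 := by
    intro z
    rw [hPe]
    have hm1 : 1 ≤ max 1 ‖z‖ := le_max_left _ _
    have hmz : ‖z‖ ≤ max 1 ‖z‖ := le_max_right _ _
    obtain ⟨m, hm⟩ : ∃ m : ℝ, m = max 1 ‖z‖ := ⟨_, rfl⟩
    rw [← hm] at hm1 hmz ⊢
    have e1 : ‖(a : ℂ) * z ^ 2‖ ≤ H * m ^ 2 := by
      rw [norm_mul, norm_pow]
      exact mul_le_mul (hcoef a ha) (pow_le_pow_left₀ (norm_nonneg _) hmz 2) (by positivity)
        (by positivity)
    have e2 : ‖(b : ℂ) * z‖ ≤ H * m ^ 2 := by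
      rw [norm_mul]
      have h1 : m ≤ m ^ 2 := by nlinarith
      exact mul_le_mul (hcoef b hb) (hmz.trans h1) (norm_nonneg _) (by positivity)
    have e3 : ‖(c : ℂ)‖ ≤ H * m ^ 2 := by
      have h1 : 1 ≤ m ^ 2 := by nlinarith
      exact (hcoef c hc).trans (le_mul_of_one_le_right (by positivity) h1)
    have e4 := norm_add_le ((a : ℂ) * z ^ 2 + b * z) c
    have e5 := norm_add_le ((a : ℂ) * z ^ 2) (b * z)
    linarith
  have hkey := B2_key r _ hr hd0 w hrw hPd (by rw [hPe]; exact hne) (3 * H) (by positivity) hf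
  rw [hPe] at hkey
  refine hkey.trans (mul_le_mul_of_nonneg_right ?_ (norm_nonneg _))
  have hC3 : (3 : ℝ) ≤ ((d + 3 : ℕ) : ℝ) := by
    push_cast
    have : (0 : ℝ) ≤ d := Nat.cast_nonneg _
    linarith
  have hb1 : 3 * (H : ℝ) ≤ ((d + 3 : ℕ) : ℝ) * Y * H := by
    have h1 : (3 : ℝ) ≤ ((d + 3 : ℕ) : ℝ) * Y := by
      calc (3 : ℝ) = 3 * 1 := by ring
        _ ≤ ((d + 3 : ℕ) : ℝ) * Y := mul_le_mul hC3 hY1 (by norm_num) (by positivity)
    exact mul_le_mul_of_nonneg_right h1 (by linarith)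
  have hb2 : Y ≤ ((d + 3 : ℕ) : ℝ) * Y * H := by
    have h1 : Y ≤ ((d + 3 : ℕ) : ℝ) * Y := le_mul_of_one_le_left (by linarith) (by linarith)
    exact h1.trans (le_mul_of_one_le_right (by positivity) hH1)
  obtain ⟨B, hB⟩ : ∃ B : ℝ, B = ((d + 3 : ℕ) : ℝ) * Y * H := ⟨_, rfl⟩
  rw [← hB] at hb1 hb2 ⊢
  have hB1 : 1 ≤ B := hY1.trans hb2
  have hm0 : 0 ≤ mah r := le_trans zero_le_one (B2_mah hr.ne_zero)
  calc (3 * (H : ℝ)) ^ (r.natDegree - 1) * mah r ^ 2 ≤ B ^ (r.natDegree - 1) * B ^ 2 :=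
        mul_le_mul (pow_le_pow_left₀ (by positivity) hb1 _)
          (pow_le_pow_left₀ hm0 (hmX.trans hb2) 2) (by positivity) (by positivity)
    _ = B ^ (r.natDegree - 1 + 2) := by rw [← pow_add]
    _ ≤ B ^ (d + 3) := pow_le_pow_right₀ hB1 (by omega)

end AK
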