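import Pool.Agent.H32.AK.B2

/-!
# MP_ede373, points algebraic over `ℚ(t)`, row B3: the window

`C0` from `liou_unif d`. Let `q ≥ Q0`, `w` as stated, `q ≤ D ≤ q^κ`, `(a, b, c) ≠ 0` of absolute value `≤ D`. `P(w) ≠ 0` as `w` is `NCM`, so with
`X = q^A ≤ D^A`, `H = D`: `‖P(w)‖ ≥ (C0 D^(A+1))^(-C0)`. `‖P(y) - P(w)‖ ≤ (|a| ‖y + w‖ + |b|) ‖y - w‖ ≤ D (2 ‖y‖ + 2) exp (-q^(κ+1))`
(`‖w‖ ≤ ‖y‖ + 1`). As `D ≤ q^κ` and `log q ≤ q`: `(C0 D^(A+1))^(C0) D (2 ‖y‖ + 2) ≤ exp (q^(κ+1)) / 2` for `q ≥ Q0 (κ)`: the logarithm of the left side is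
`≤ C0 log C0 + (C0 (A+1) + 1) κ log q + log (2 ‖y‖ + 2)`. So `‖P(y)‖ ≥ (C0 D^(A+1))^(-C0) / 2 ≥ D^(-C)` with
`C = C0 (A + 1) + C0 + 1` if `D ≥ max 2 C0`.
-/

set_option autoImplicit false

namespace AK

open CZ Polynomial

theorem win_of_near (y : ℂ) (d A : ℕ) : ∃ C : ℕ, 1 ≤ C ∧ ∀ κ : ℕ, ∃ Q0 : ℕ, ∀ (q : ℕ) (w : ℂ),
    Q0 ≤ q → NCM w → AlgB d ((q : ℝ) ^ A) w → ‖w - y‖ ≤ Real.exp (-(q : ℝ) ^ (κ + 1)) →
    Win y C q ((q : ℝ) ^ κ) := by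
  obtain ⟨C0, hC0, hl⟩ := liou_unif d
  obtain ⟨C, hC⟩ : ∃ C, C = (A + 2) * C0 + 1 := ⟨_, rfl⟩
  refine ⟨C, by omega, ?_⟩
  intro κ
  obtain ⟨x0, hx0⟩ := Filter.eventually_atTop.mp
    (Filter.tendsto_atTop.mp (Real.tendsto_exp_div_pow_atTop (κ * C)) (4 * ‖y‖ + 4))
  refine ⟨max (max 2 C0) ⌈x0⌉₊, ?_⟩
  intro q w hq hw hA hwy D hqD hDL a b c ha hb hc habc
  have hq2 : 2 ≤ q := (le_max_left 2 C0).trans ((le_max_left _ _).trans hq)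
  have hqC : C0 ≤ q := (le_max_right 2 C0).trans ((le_max_left _ _).trans hq)
  have hqx : x0 ≤ (q : ℝ) := (Nat.le_ceil x0).trans (by exact_mod_cast (le_max_right _ _).trans hq)
  have hD2 : 2 ≤ D := hq2.trans hqD
  have hDC : C0 ≤ D := hqC.trans hqD
  have hq1R : (1 : ℝ) ≤ q := by exact_mod_cast (by omega : 1 ≤ q)
  have hD2R : (2 : ℝ) ≤ D := by exact_mod_cast hD2
  have hD1R : (1 : ℝ) ≤ D := by linarith
  have hDCR : (C0 : ℝ) ≤ D := by exact_mod_cast hDC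
  have hqDR : (q : ℝ) ≤ D := by exact_mod_cast hqD
  -- the value at `w`
  have hPw : (a : ℂ) * w ^ 2 + b * w + c ≠ 0 := fun h => hw ⟨a, b, c, habc, h⟩
  have h1 := hl w ((q : ℝ) ^ A) D a b c (by omega) hA ha hb hc hPw
  obtain ⟨M, hM⟩ : ∃ M : ℝ, M = (D : ℝ) ^ ((A + 2) * C0) := ⟨_, rfl⟩
  have hM0 : 0 ≤ M := by rw [hM]; positivity
  have h2 : ((C0 : ℝ) * (q : ℝ) ^ A * D) ^ C0 ≤ M := by
    rw [hM, pow_mul]
    apply pow_le_pow_left₀ (by positivity)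
    calc (C0 : ℝ) * (q : ℝ) ^ A * D ≤ D * (D : ℝ) ^ A * D := by gcongr
      _ = (D : ℝ) ^ (A + 2) := by ring
  have h3 : 1 ≤ M * ‖(a : ℂ) * w ^ 2 + b * w + c‖ :=
    h1.trans (mul_le_mul_of_nonneg_right h2 (norm_nonneg _))
  -- the difference
  have hexp1 : Real.exp (-(q : ℝ) ^ (κ + 1)) ≤ 1 := by
    rw [Real.exp_le_one_iff]
    have : 0 ≤ (q : ℝ) ^ (κ + 1) := by positivity
    linarith
  have hwn : ‖w‖ ≤ ‖y‖ + 1 := by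
    have h4 : w = y + (w - y) := by ring
    calc ‖w‖ = ‖y + (w - y)‖ := by rw [← h4]
      _ ≤ ‖y‖ + ‖w - y‖ := norm_add_le _ _
      _ ≤ ‖y‖ + 1 := by linarith
  have haR : ‖(a : ℂ)‖ ≤ D := by
    rw [Complex.norm_intCast]
    exact_mod_cast ha
  have hbR : ‖(b : ℂ)‖ ≤ D := by
    rw [Complex.norm_intCast]
    exact_mod_cast hb
  have h5 : ‖((a : ℂ) * w ^ 2 + b * w + c) - ((a : ℂ) * y ^ 2 + b * y + c)‖ ≤
      ((D : ℝ) * (2 * ‖y‖ + 2)) * Real.exp (-(q : ℝ) ^ (κ + 1)) := by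
    have h6 : ((a : ℂ) * w ^ 2 + b * w + c) - ((a : ℂ) * y ^ 2 + b * y + c) =
        ((a : ℂ) * (w + y) + b) * (w - y) := by ring
    rw [h6, norm_mul]
    apply mul_le_mul _ hwy (norm_nonneg _) (by positivity)
    calc ‖(a : ℂ) * (w + y) + b‖ ≤ ‖(a : ℂ) * (w + y)‖ + ‖(b : ℂ)‖ := norm_add_le _ _
      _ ≤ D * (2 * ‖y‖ + 1) + D := by
        rw [norm_mul]
        have h7 : ‖w + y‖ ≤ 2 * ‖y‖ + 1 := (norm_add_le _ _).trans (by linarith)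
        have h8 : ‖(a : ℂ)‖ * ‖w + y‖ ≤ D * (2 * ‖y‖ + 1) :=
          mul_le_mul haR h7 (norm_nonneg _) (by positivity)
        linarith
      _ = D * (2 * ‖y‖ + 2) := by ring
  -- the exponential is large
  have h9 : (M * ((D : ℝ) * (2 * ‖y‖ + 2))) * Real.exp (-(q : ℝ) ^ (κ + 1)) ≤ 1 / 2 := by
    have h10 : M * (D : ℝ) ≤ (q : ℝ) ^ (κ * C) := by
      calc M * (D : ℝ) = (D : ℝ) ^ C := by rw [hM, hC, pow_succ]
        _ ≤ ((q : ℝ) ^ κ) ^ C := by gcongr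
        _ = (q : ℝ) ^ (κ * C) := by rw [pow_mul]
    have h11 := hx0 q hqx
    have h12 : (0 : ℝ) < (q : ℝ) ^ (κ * C) := by positivity
    rw [le_div_iff₀ h12] at h11
    have h13 : Real.exp (q : ℝ) ≤ Real.exp ((q : ℝ) ^ (κ + 1)) := by
      rw [Real.exp_le_exp]
      calc (q : ℝ) = (q : ℝ) ^ 1 := (pow_one _).symm
        _ ≤ (q : ℝ) ^ (κ + 1) := pow_le_pow_right₀ hq1R (by omega)
    rw [Real.exp_neg, ← div_eq_mul_inv, div_le_iff₀ (Real.exp_pos _)]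
    have h14 : M * ((D : ℝ) * (2 * ‖y‖ + 2)) ≤ (q : ℝ) ^ (κ * C) * (2 * ‖y‖ + 2) := by
      rw [← mul_assoc]
      exact mul_le_mul_of_nonneg_right h10 (by positivity)
    nlinarith
  have h15 : M * ‖((a : ℂ) * w ^ 2 + b * w + c) - ((a : ℂ) * y ^ 2 + b * y + c)‖ ≤ 1 / 2 := by
    calc M * ‖((a : ℂ) * w ^ 2 + b * w + c) - ((a : ℂ) * y ^ 2 + b * y + c)‖
        ≤ M * (((D : ℝ) * (2 * ‖y‖ + 2)) * Real.exp (-(q : ℝ) ^ (κ + 1))) :=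
          mul_le_mul_of_nonneg_left h5 hM0
      _ = (M * ((D : ℝ) * (2 * ‖y‖ + 2))) * Real.exp (-(q : ℝ) ^ (κ + 1)) := by ring
      _ ≤ 1 / 2 := h9
  have h16 : ‖(a : ℂ) * w ^ 2 + b * w + c‖ ≤ ‖(a : ℂ) * y ^ 2 + b * y + c‖ +
      ‖((a : ℂ) * w ^ 2 + b * w + c) - ((a : ℂ) * y ^ 2 + b * y + c)‖ := by
    have h17 := norm_sub_norm_le ((a : ℂ) * w ^ 2 + b * w + c) ((a : ℂ) * y ^ 2 + b * y + c)
    linarith
  have h18 : M * ‖(a : ℂ) * w ^ 2 + b * w + c‖ ≤ M * ‖(a : ℂ) * y ^ 2 + b * y + c‖ +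
      M * ‖((a : ℂ) * w ^ 2 + b * w + c) - ((a : ℂ) * y ^ 2 + b * y + c)‖ := by
    rw [← mul_add]
    exact mul_le_mul_of_nonneg_left h16 hM0
  have h19 : 1 ≤ 2 * M * ‖(a : ℂ) * y ^ 2 + b * y + c‖ := by linarith
  have h20 : 2 * M ≤ (D : ℝ) ^ C := by
    rw [hC, pow_succ, ← hM, mul_comm]
    exact mul_le_mul_of_nonneg_left hD2R hM0
  exact h19.trans (mul_le_mul_of_nonneg_right h20 (norm_nonneg _))

end AK
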