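import Pool.Agent.H32.AK.B1

/-!
# MP_ede373, points algebraic over `ℚ(t)`, row B4: the quadratic polynomial of a CM point

`r` from `min_factor h` (irreducible in `ℤ[X]`, positive degree, `r(w) = 0`, `mah r ≤ X`). As `w` is not `NCM` there is
`P = a0 X^2 + b0 X + c0 ≠ 0` with `P(w) = 0`. `r ∣ P` in `ℤ[X]` (`r` is primitive and irreducible over `ℚ`, hence associated to the minimal
polynomial of `w` over `ℚ`, which divides `P`; `Polynomial.IsPrimitive.Int.dvd_iff_map_cast_dvd_map_cast`), so `natDegree r ≤ 2`; it is not `1`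
because `w` is not real (a root of a polynomial of degree `1` with integral coefficients is rational). So `r = a X^2 + b X + c`, `a ≠ 0`; replace `r` by `-r` if
`a < 0`. The coefficients: `|coeff i r| ≤ choose 2 i * mah r ≤ 2 X` (Mathlib: `Polynomial.norm_coeff_le_choose_mul_mahlerMeasure` or
`Polynomial.norm_coeff_le..mahlerMeasure`; `mah r` is the Mahler measure of the map to `ℂ`).
-/

set_option autoImplicit false

namespace AK

open CZ Polynomial

theorem B4_coeff {r : ℤ[X]} (h2 : r.natDegree = 2) (i : ℕ) (hi : i ≤ 2) :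
    |((r.coeff i : ℤ) : ℝ)| ≤ 2 * mah r := by
  have h := norm_coeff_le_choose_mul_mahlerMeasure i (r.map (Int.castRingHom ℂ))
  rw [coeff_map, natDegree_map_eq_of_injective (Int.castRingHom ℂ).injective_int, h2] at h
  have h3 : ‖(Int.castRingHom ℂ) (r.coeff i)‖ = |((r.coeff i : ℤ) : ℝ)| := by
    rw [eq_intCast, Complex.norm_intCast]
  rw [h3] at h
  refine h.trans ?_
  have h4 : (((2 : ℕ).choose i : ℕ) : ℝ) ≤ 2 := by
    interval_cases i <;> norm_num [Nat.choose]
  exact mul_le_mul_of_nonneg_right h4 (mahlerMeasure_nonneg _)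

theorem quad_of_cm {d : ℕ} {X : ℝ} {w : ℂ} (h : AlgB d X w) (him : w.im ≠ 0) (hcm : ¬ NCM w) :
    ∃ a b c : ℤ, 0 < a ∧ (|(a : ℝ)| ≤ 2 * X ∧ |(b : ℝ)| ≤ 2 * X ∧ |(c : ℝ)| ≤ 2 * X) ∧
      (a : ℂ) * w ^ 2 + b * w + c = 0 := by
  obtain ⟨r, hirr, hpos, -, hmah, hr⟩ := min_factor h
  obtain ⟨a0, b0, c0, hne, hP⟩ := not_not.1 hcm
  set P : ℤ[X] := C a0 * Polynomial.X ^ 2 + C b0 * Polynomial.X + C c0 with hPdef
  have hPe : aeval w P = 0 := by
    rw [hPdef]
    rw [map_add, map_add, map_mul, map_mul, aeval_C, aeval_C, aeval_C, map_pow, aeval_X]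
    exact hP
  have hP0 : P ≠ 0 := by
    intro h0
    have e2 : P.coeff 2 = a0 := by
      rw [hPdef, coeff_add, coeff_add, coeff_C_mul, coeff_C_mul, coeff_X_pow, coeff_X, coeff_C]
      norm_num
    have e1 : P.coeff 1 = b0 := by
      rw [hPdef, coeff_add, coeff_add, coeff_C_mul, coeff_C_mul, coeff_X_pow, coeff_X, coeff_C]
      norm_num
    have e0 : P.coeff 0 = c0 := by
      rw [hPdef, coeff_add, coeff_add, coeff_C_mul, coeff_C_mul, coeff_X_pow, coeff_X, coeff_C]
      norm_num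
    rw [h0, coeff_zero] at e2 e1 e0
    rcases hne with hne | hne | hne
    · exact hne e2.symm
    · exact hne e1.symm
    · exact hne e0.symm
  have hPd : P.natDegree ≤ 2 := by
    rw [hPdef]
    exact natDegree_quadratic_le
  have hinj : Function.Injective (Int.castRingHom ℚ) := (Int.castRingHom ℚ).injective_int
  have hprim : r.IsPrimitive := hirr.isPrimitive hpos.ne'
  have hirrQ : Irreducible (r.map (Int.castRingHom ℚ)) :=
    (IsPrimitive.Int.irreducible_iff_irreducible_map_cast hprim).1 hirr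
  have haQ : ∀ f : ℤ[X], aeval w (f.map (Int.castRingHom ℚ)) = aeval w f := fun f => by
    have := aeval_map_algebraMap ℚ w f
    exact this
  have hrQ : aeval w (r.map (Int.castRingHom ℚ)) = 0 := by rw [haQ, hr]
  have hPQ : aeval w (P.map (Int.castRingHom ℚ)) = 0 := by rw [haQ, hPe]
  have hint : IsIntegral ℚ w := by
    apply IsAlgebraic.isIntegral
    exact ⟨_, hirrQ.ne_zero, hrQ⟩
  have hdvd : r.map (Int.castRingHom ℚ) ∣ P.map (Int.castRingHom ℚ) :=
    ((minpoly.irreducible hint).dvd_symm hirrQ (minpoly.dvd ℚ w hrQ)).trans (minpoly.dvd ℚ w hPQ)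
  have hP0Q : P.map (Int.castRingHom ℚ) ≠ 0 := (Polynomial.map_ne_zero_iff hinj).2 hP0
  have hle : r.natDegree ≤ 2 := by
    have h1 := natDegree_le_of_dvd hdvd hP0Q
    rw [natDegree_map_eq_of_injective hinj, natDegree_map_eq_of_injective hinj] at h1
    exact h1.trans hPd
  have hne1 : r.natDegree ≠ 1 := by
    intro h1
    have h2 := hr
    rw [aeval_eq_sum_range, h1, Finset.sum_range_succ, Finset.sum_range_one] at h2
    have h3 := congrArg Complex.im h2
    simp only [zsmul_eq_mul, pow_zero, mul_one, pow_one, Complex.add_im, Complex.intCast_im,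
      Complex.mul_im, Complex.intCast_re, zero_mul, add_zero, zero_add, Complex.zero_im] at h3
    rcases mul_eq_zero.1 h3 with h4 | h4
    · have h5 : r.coeff 1 = 0 := by exact_mod_cast h4
      have h6 : r.leadingCoeff = 0 := by rw [leadingCoeff, h1, h5]
      rw [leadingCoeff_eq_zero] at h6
      exact hirr.ne_zero h6
    · exact him h4
  have h2 : r.natDegree = 2 := by omega
  have hB : ∀ i, i ≤ 2 → |((r.coeff i : ℤ) : ℝ)| ≤ 2 * X := fun i hi =>
    (B4_coeff h2 i hi).trans (by linarith)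
  have ha : r.coeff 2 ≠ 0 := by
    intro h5
    have h6 : r.leadingCoeff = 0 := by rw [leadingCoeff, h2, h5]
    rw [leadingCoeff_eq_zero] at h6
    exact hirr.ne_zero h6
  have hsum : ((r.coeff 2 : ℤ) : ℂ) * w ^ 2 + ((r.coeff 1 : ℤ) : ℂ) * w + ((r.coeff 0 : ℤ) : ℂ) = 0 := by
    have h3 := hr
    rw [aeval_eq_sum_range, h2, Finset.sum_range_succ, Finset.sum_range_succ,
      Finset.sum_range_one] at h3
    simp only [zsmul_eq_mul, pow_zero, mul_one, pow_one] at h3
    rw [← h3]
    ring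
  rcases lt_or_gt_of_ne ha with hneg | hpos'
  · refine ⟨-r.coeff 2, -r.coeff 1, -r.coeff 0, by omega, ⟨?_, ?_, ?_⟩, ?_⟩
    · rw [Int.cast_neg, abs_neg]; exact hB 2 le_rfl
    · rw [Int.cast_neg, abs_neg]; exact hB 1 (by norm_num)
    · rw [Int.cast_neg, abs_neg]; exact hB 0 (by norm_num)
    · push_cast
      linear_combination -hsum
  · exact ⟨r.coeff 2, r.coeff 1, r.coeff 0, hpos', ⟨hB 2 le_rfl, hB 1 (by norm_num),
      hB 0 (by norm_num)⟩, hsum⟩

end AK
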