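import Pool.Agent.H32.CZ.N0

/-!
# MP_ede373, points algebraic over `ℚ(t)`: definitions

* `NCM y`: `y` satisfies no quadratic relation over `ℤ`.
* `AlgB d X w`: `w` is a root of a nonzero integer polynomial of degree at most `d` and norm at most `X`.
* `WL y C D`: the lower bound `D^(-C)` for the values at `y` of the integer polynomials of degree at most `2` and
  height at most `D`.
* `Win y C q L`: the lower bound holds for all heights in the window `q ≤ D ≤ L`.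
-/

set_option autoImplicit false

namespace AK

open CZ

/-- No quadratic relation. -/
def NCM (y : ℂ) : Prop :=
  ¬ ∃ a b c : ℤ, (a ≠ 0 ∨ b ≠ 0 ∨ c ≠ 0) ∧ (a : ℂ) * y ^ 2 + b * y + c = 0

/-- A root of an integer polynomial of degree at most `d` and norm at most `X`. -/
def AlgB (d : ℕ) (X : ℝ) (w : ℂ) : Prop :=
  ∃ F : Polynomial ℤ, F ≠ 0 ∧ F.natDegree ≤ d ∧ nr F ≤ X ∧ Polynomial.aeval w F = 0

/-- A lower bound for quadratic polynomials of height at most `D`. -/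
def WL (y : ℂ) (C D : ℕ) : Prop :=
  ∀ a b c : ℤ, |a| ≤ (D : ℤ) → |b| ≤ (D : ℤ) → |c| ≤ (D : ℤ) → (a ≠ 0 ∨ b ≠ 0 ∨ c ≠ 0) →
    1 ≤ (D : ℝ) ^ C * ‖(a : ℂ) * y ^ 2 + b * y + c‖

/-- The window. -/
def Win (y : ℂ) (C q : ℕ) (L : ℝ) : Prop :=
  ∀ D : ℕ, q ≤ D → (D : ℝ) ≤ L → WL y C D

end AK
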