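import Pool.Agent.H32.AK.D0

/-!
# MP_ede373, points algebraic over `ℚ(t)`, row C2: normalised approximations

From `ApprAt P t V` take `E, x, S, d`, `W = ∑ d φ ≥ V > 0`. Replace `d φ` by `d' φ = d φ * (V / W)` (`0 ≤ d' φ ≤ d φ`, so the closeness
`exp (-d' φ) ≥ exp (-d φ)` still bounds); then `∑ d' φ = V`. `S` is nonempty as `V > 0`; `φ0 ∈ S` with maximal `d'`
(`Finset.exists_max_image`); `V = ∑ d' ≤ S.card * d' φ0 ≤ t * d' φ0` (`S.card ≤ card of embeddings = finrank ≤ t`: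
`NumberField.Embeddings.card`), `d' φ0 ≤ V` (`Finset.single_le_sum`).
-/

set_option autoImplicit false

namespace AK

open CZ

theorem appr_scale {k : ℕ} {P : Fin k → ℂ} {t V : ℝ} (hV : 0 < V) (h : ApprAt P t V) :
    ∃ (E : Type) (_ : Field E) (_ : NumberField E) (x : Fin k → E)
      (S : Finset (E →+* ℂ)) (d : (E →+* ℂ) → ℝ),
      (Module.finrank ℚ E : ℝ) ≤ t ∧ (∀ i, hE (x i) ≤ t) ∧
      (∀ φ ∈ S, 0 ≤ d φ ∧ ∀ i, ‖φ (x i) - P i‖ ≤ Real.exp (-d φ)) ∧ ∑ φ ∈ S, d φ = V ∧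
      ∃ φ0 ∈ S, V ≤ t * d φ0 ∧ (∀ φ ∈ S, d φ ≤ d φ0) ∧ d φ0 ≤ V := by
  classical
  obtain ⟨E, hF, hN, x, S, d, hfin, hx, hS, hW⟩ := h
  set W : ℝ := ∑ φ ∈ S, d φ with hWdef
  have hWpos : 0 < W := lt_of_lt_of_le hV hW
  have hr0 : 0 ≤ V / W := (div_pos hV hWpos).le
  have hr1 : V / W ≤ 1 := (div_le_one hWpos).2 hW
  have hsum : ∑ φ ∈ S, d φ * (V / W) = V := by
    rw [← Finset.sum_mul, ← hWdef]
    field_simp
  have hne : S.Nonempty := by
    rcases S.eq_empty_or_nonempty with h0 | h0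
    · rw [h0] at hsum
      simp at hsum
      exact absurd hsum.symm hV.ne'
    · exact h0
  have hd0 : ∀ φ ∈ S, 0 ≤ d φ * (V / W) := fun φ hφ => mul_nonneg (hS φ hφ).1 hr0
  obtain ⟨φ0, hφ0, hmax⟩ := Finset.exists_max_image S (fun φ => d φ * (V / W)) hne
  have hcard : (S.card : ℝ) ≤ t := by
    refine le_trans ?_ hfin
    have h1 : S.card ≤ Fintype.card (E →+* ℂ) := Finset.card_le_univ S
    rw [NumberField.Embeddings.card E ℂ] at h1
    exact_mod_cast h1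
  refine ⟨E, hF, hN, x, S, fun φ => d φ * (V / W), hfin, hx, ?_, hsum, φ0, hφ0, ?_, hmax, ?_⟩
  · intro φ hφ
    refine ⟨hd0 φ hφ, fun i => le_trans ((hS φ hφ).2 i) ?_⟩
    apply Real.exp_le_exp.2
    have := mul_le_of_le_one_right (hS φ hφ).1 hr1
    linarith
  · have h1 : ∑ φ ∈ S, d φ * (V / W) ≤ S.card • (d φ0 * (V / W)) :=
      Finset.sum_le_card_nsmul S _ _ hmax
    rw [hsum, nsmul_eq_mul] at h1
    exact le_trans h1 (mul_le_mul_of_nonneg_right hcard (hd0 φ0 hφ0))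
  · calc d φ0 * (V / W) ≤ ∑ φ ∈ S, d φ * (V / W) :=
          Finset.single_le_sum (f := fun φ => d φ * (V / W)) hd0 hφ0
      _ = V := hsum

end AK
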