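import Pool.Agent.H32.AK.C1
import Pool.Agent.H32.AK.C2
import Pool.Agent.H32.MJ.J1
import Pool.Agent.H32.MJ.J10
import Pool.Agent.H22.U2.Co

/-!
# MP_ede373, points algebraic over `ℚ(t)`, row C3: no approximations of exponent `5` in a window

Constants: `C1, mm, D9` from `zest_w hy hS C hC` (row C1), `κ` from `MJ.half hy hS` and `D10` from it for this `C1`, `Cc` from
`U2.core_gen (Pt ep h y)` (file `Pool/Agent/H22/U2/Co.lean`). For a natural number `D` put `L = log (D + 2) ≥ 1` and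
`τ = Cs D^2 L` with a natural `Cs` large enough (depending on `C1`, `Cc`): then with `Λ = Ix D`, `R = Fin (C1 * D^2)`, `W t l = W D t l`:
`log card Λ = 2 log (D + 1) ≤ τ`; `totalDegree ≤ 2 D + 2 t ≤ (2 + 2 C1) D^2 ≤ τ` (`W_deg`); `nrm ≤ (7 (2 D + 2 t))^t ≤ (14 (1 + C1) D^2)^(C1 D^2) ≤ exp τ`
(`W_nrm`; compare the proof of `MJ.not_appr_base` in `Pool/Agent/H32/MJ/J11.lean`), `Cc ≤ τ`. `X = D^4 ≥ Cc τ` for `D ≥ D0`, `U = D^3 / κ`.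

Suppose `ApprAt (Pt ep h y) t V` with `t ≥ 1`, `V ≥ q^6`, `V ≤ L0`, `t^5 ≤ V`. `appr_scale` gives `E, x, S, d` with `∑ d = V` and `φ0`, `dm = d φ0`: `V ≤ t dm`,
`dm ≤ V`. So `V^5 ≤ t^5 dm^5 ≤ V dm^5`, `V^4 ≤ dm^5`. Let `D` be the largest natural number with `3 D^4 ≤ dm` (`D = ⌊(dm/3)^(1/4)⌋₊`, or `Nat.findGreatest`), so
`dm < 3 (D + 1)^4 ≤ 48 D^4` (if `D ≥ 1`).
* `q ≤ D`: otherwise `dm < 3 q^4` (`D + 1 ≤ q`), `q^24 ≤ V^4 ≤ dm^5 < 3^5 q^20`, false for `q ≥ 4`. So `D ≥ q ≥ Q0` is as large as we like.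
* `WL y C (mm * D)`: `q ≤ mm D` and `mm D ≤ D^2 ≤ 3 D^4 ≤ dm ≤ V ≤ L0` (`D ≥ mm`), use `hwin`.
* `core_gen` with `τ, X, U`, the lower bound `zest_w`, the upper bound `half`, `∃ φ, 3 X ≤ d φ` (namely `φ0`): `∑ min U (d φ) ≤ Cc t τ`.
* `d φ ≤ dm ≤ 48 D^4 = 48 κ D U`, so `d φ ≤ 48 κ D min U (d φ)` (as `48 κ D ≥ 1`), hence `V = ∑ d φ ≤ 48 κ D Cc t τ = K t D^3 L`, `K = 48 κ Cc Cs`.
* `V^5 ≤ K^5 t^5 D^15 L^5 ≤ K^5 V D^15 L^5`, so `V^4 ≤ K^5 D^15 L^5`; but `V ≥ dm ≥ 3 D^4 ≥ D^4`: `D^16 ≤ K^5 D^15 L^5`, `D ≤ K^5 log (D + 2)^5`, false for `D ≥ D0`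
  (`isLittleO_pow_log_id_atTop`, compare `U2.Nc2_ev` in `Pool/Agent/H22/U2/Nc2.lean`).
-/

set_option autoImplicit false

namespace AK

open CZ MJ
open H32.T3 (nrm)

private theorem C3_log (K : ℕ) : ∃ D0 : ℕ, ∀ D : ℕ, D0 ≤ D →
    (K : ℝ) ^ 5 * Real.log ((D : ℝ) + 2) ^ 5 < D := by
  have h := Real.isLittleO_pow_log_id_atTop (n := 5)
  have hK : (0 : ℝ) ≤ (K : ℝ) ^ 5 := by positivity
  have hc : (0 : ℝ) < 1 / (2 * ((K : ℝ) ^ 5 + 1)) := by positivity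
  obtain ⟨x0, hx0⟩ := Filter.eventually_atTop.1 (h.def hc)
  refine ⟨⌈x0⌉₊ + 3, fun D hD => ?_⟩
  have hD' : (⌈x0⌉₊ : ℝ) + 3 ≤ D := by exact_mod_cast hD
  have hx : x0 ≤ (D : ℝ) + 2 := by
    have := Nat.le_ceil x0
    linarith
  have hc0 : (0 : ℝ) ≤ (⌈x0⌉₊ : ℝ) := Nat.cast_nonneg _
  have h1 := hx0 _ hx
  rw [id, Real.norm_of_nonneg (pow_nonneg (Real.log_nonneg (by linarith)) 5),
    Real.norm_of_nonneg (by linarith)] at h1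
  have h2 : (K : ℝ) ^ 5 * Real.log ((D : ℝ) + 2) ^ 5 ≤
      (K : ℝ) ^ 5 * (1 / (2 * ((K : ℝ) ^ 5 + 1)) * ((D : ℝ) + 2)) :=
    mul_le_mul_of_nonneg_left h1 hK
  have h3 : (K : ℝ) ^ 5 * (1 / (2 * ((K : ℝ) ^ 5 + 1)) * ((D : ℝ) + 2)) ≤ ((D : ℝ) + 2) / 2 := by
    have h4 : (K : ℝ) ^ 5 * (1 / (2 * ((K : ℝ) ^ 5 + 1))) ≤ 1 / 2 := by
      rw [mul_one_div, div_le_div_iff₀ (by positivity) (by norm_num)]
      linarith
    calc (K : ℝ) ^ 5 * (1 / (2 * ((K : ℝ) ^ 5 + 1)) * ((D : ℝ) + 2)) =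
          (K : ℝ) ^ 5 * (1 / (2 * ((K : ℝ) ^ 5 + 1))) * ((D : ℝ) + 2) := by ring
      _ ≤ 1 / 2 * ((D : ℝ) + 2) := mul_le_mul_of_nonneg_right h4 (by linarith)
      _ = ((D : ℝ) + 2) / 2 := by ring
  linarith

private theorem C3_fl {dm : ℝ} (h : 0 ≤ dm) : ∃ D : ℕ, 3 * (D : ℝ) ^ 4 ≤ dm ∧
    dm < 3 * ((D : ℝ) + 1) ^ 4 := by
  classical
  have hex : ∃ n : ℕ, dm < 3 * (n : ℝ) ^ 4 := by
    obtain ⟨n, hn⟩ := exists_nat_gt dm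
    refine ⟨n, ?_⟩
    have hn1 : 1 ≤ n := by
      rcases Nat.eq_zero_or_pos n with h0 | h0
      · rw [h0, Nat.cast_zero] at hn
        linarith
      · exact h0
    have h1 : (1 : ℝ) ≤ n := by exact_mod_cast hn1
    have h2 : (n : ℝ) ≤ (n : ℝ) ^ 4 := le_self_pow₀ h1 (by norm_num)
    linarith
  have hmin := @Nat.find_min _ _ hex
  have hsp := Nat.find_spec hex
  rcases Nat.eq_zero_or_pos (Nat.find hex) with h0 | h0
  · rw [h0] at hsp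
    norm_num at hsp
    linarith
  · refine ⟨Nat.find hex - 1, ?_, ?_⟩
    · have := hmin (m := Nat.find hex - 1) (by omega)
      exact not_lt.1 this
    · have h1 : ((Nat.find hex - 1 : ℕ) : ℝ) + 1 = (Nat.find hex : ℝ) := by
        have : Nat.find hex - 1 + 1 = Nat.find hex := by omega
        exact_mod_cast congrArg (Nat.cast (R := ℝ)) this
      rw [h1]
      exact hsp

/-- The quantity `τ`. -/
private theorem C3_tau (C1 Cc D : ℕ) (hD : 1 ≤ D) {Cs : ℕ}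
    (hCs : Cs = Cc + 2 + (2 + 2 * C1) + C1 * (14 * (1 + C1) + 2)) {L : ℝ}
    (hL : L = Real.log ((D : ℝ) + 2)) :
    1 ≤ L ∧ (Cc : ℝ) ≤ Cs * (D : ℝ) ^ 2 * L ∧
      Real.log (((D + 1) ^ 2 : ℕ) : ℝ) ≤ Cs * (D : ℝ) ^ 2 * L ∧
      ∀ t : ℕ, t < C1 * D ^ 2 → ((2 * D + 2 * t : ℕ) : ℝ) ≤ Cs * (D : ℝ) ^ 2 * L ∧
        (7 * (2 * D + 2 * t : ℝ)) ^ t ≤ Real.exp (Cs * (D : ℝ) ^ 2 * L) := by
  have hD1 : (1 : ℝ) ≤ D := by exact_mod_cast hD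
  have hD0 : (0 : ℝ) < D := by linarith
  have hL1 : 1 ≤ L := by
    rw [hL, Real.le_log_iff_exp_le (by linarith)]
    have := Real.exp_one_lt_d9
    linarith
  have hD2 : (1 : ℝ) ≤ (D : ℝ) ^ 2 := one_le_pow₀ hD1
  have hDL : 1 ≤ (D : ℝ) ^ 2 * L := one_le_mul_of_one_le_of_one_le hD2 hL1
  have hCsr : (Cs : ℝ) = Cc + 2 + (2 + 2 * C1) + C1 * (14 * (1 + C1) + 2) := by
    rw [hCs]; push_cast; ring
  have hc0 : (0 : ℝ) ≤ Cc := Nat.cast_nonneg _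
  have hC0 : (0 : ℝ) ≤ C1 := Nat.cast_nonneg _
  have hCm : (0 : ℝ) ≤ (C1 : ℝ) * (14 * (1 + C1) + 2) := by positivity
  refine ⟨hL1, ?_, ?_, ?_⟩
  · have h1 : (Cc : ℝ) ≤ Cs := by rw [hCsr]; linarith
    calc (Cc : ℝ) ≤ Cs * 1 := by linarith
      _ ≤ Cs * ((D : ℝ) ^ 2 * L) := mul_le_mul_of_nonneg_left hDL (by linarith)
      _ = Cs * (D : ℝ) ^ 2 * L := by ring
  · have h1 : Real.log (((D + 1) ^ 2 : ℕ) : ℝ) ≤ 2 * L := by
      push_cast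
      rw [Real.log_pow, hL]
      have := Real.log_le_log (by linarith) (by linarith : (D : ℝ) + 1 ≤ (D : ℝ) + 2)
      push_cast
      linarith
    have h2 : (2 : ℝ) ≤ Cs := by rw [hCsr]; linarith
    have h3 : (2 : ℝ) ≤ Cs * (D : ℝ) ^ 2 := by nlinarith
    exact h1.trans (mul_le_mul_of_nonneg_right h3 (by linarith))
  · intro t ht
    have htr : (t : ℝ) ≤ C1 * (D : ℝ) ^ 2 := by exact_mod_cast ht.le
    have hDD : (D : ℝ) ≤ (D : ℝ) ^ 2 := le_self_pow₀ hD1 (by norm_num)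
    have hs : 2 * (D : ℝ) + 2 * t ≤ (2 + 2 * C1) * (D : ℝ) ^ 2 := by linarith
    constructor
    · push_cast
      refine hs.trans ?_
      have h1 : (2 + 2 * (C1 : ℝ)) * (D : ℝ) ^ 2 ≤ Cs * (D : ℝ) ^ 2 :=
        mul_le_mul_of_nonneg_right (by rw [hCsr]; linarith) (by positivity)
      have h2 : (Cs : ℝ) * (D : ℝ) ^ 2 ≤ Cs * (D : ℝ) ^ 2 * L :=
        le_mul_of_one_le_right (by positivity) hL1
      exact h1.trans h2
    · have hB : 7 * (2 * (D : ℝ) + 2 * t) ≤ 14 * (1 + C1) * (D : ℝ) ^ 2 := by linarith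
      have hB0 : (1 : ℝ) ≤ 14 * (1 + C1) * (D : ℝ) ^ 2 := by
        have : (1 : ℝ) ≤ 14 * (1 + C1) := by linarith
        exact one_le_mul_of_one_le_of_one_le this hD2
      have hBp : (0 : ℝ) < 14 * (1 + C1) * (D : ℝ) ^ 2 := by linarith
      calc (7 * (2 * (D : ℝ) + 2 * t)) ^ t ≤ (14 * (1 + C1) * (D : ℝ) ^ 2) ^ t :=
            pow_le_pow_left₀ (by positivity) hB t
        _ ≤ (14 * (1 + C1) * (D : ℝ) ^ 2) ^ (C1 * D ^ 2) := pow_le_pow_right₀ hB0 ht.le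
        _ = Real.exp (((C1 * D ^ 2 : ℕ) : ℝ) * Real.log (14 * (1 + C1) * (D : ℝ) ^ 2)) := by
            rw [Real.exp_nat_mul, Real.exp_log hBp]
        _ ≤ Real.exp (Cs * (D : ℝ) ^ 2 * L) := by
            apply Real.exp_le_exp.2
            have hlog : Real.log (14 * (1 + C1) * (D : ℝ) ^ 2) ≤ (14 * (1 + C1) + 2) * L := by
              rw [Real.log_mul (by positivity) (by positivity), Real.log_pow]
              have h1 : Real.log (14 * (1 + (C1 : ℝ))) ≤ 14 * (1 + C1) := by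
                have := Real.log_le_sub_one_of_pos (by positivity : (0 : ℝ) < 14 * (1 + (C1 : ℝ)))
                linarith
              have h2 : Real.log (D : ℝ) ≤ L := by
                rw [hL]
                exact Real.log_le_log hD0 (by linarith)
              have h3 : 14 * (1 + (C1 : ℝ)) ≤ 14 * (1 + C1) * L :=
                le_mul_of_one_le_right (by positivity) hL1
              push_cast
              linarith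
            push_cast
            calc (C1 : ℝ) * (D : ℝ) ^ 2 * Real.log (14 * (1 + C1) * (D : ℝ) ^ 2) ≤
                  C1 * (D : ℝ) ^ 2 * ((14 * (1 + C1) + 2) * L) :=
                  mul_le_mul_of_nonneg_left hlog (by positivity)
              _ = (C1 * (14 * (1 + C1) + 2)) * ((D : ℝ) ^ 2 * L) := by ring
              _ ≤ Cs * ((D : ℝ) ^ 2 * L) :=
                  mul_le_mul_of_nonneg_right (by rw [hCsr]; linarith) (by positivity)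
              _ = Cs * (D : ℝ) ^ 2 * L := by ring

/-- `C τ ≤ D^4`. -/
private theorem C3_X (Cc Cs D : ℕ) (hD : 2 * Cc * Cs + 2 ≤ D) :
    (Cc : ℝ) * (Cs * (D : ℝ) ^ 2 * Real.log ((D : ℝ) + 2)) ≤ (D : ℝ) ^ 4 := by
  have hD' : 2 * (Cc : ℝ) * Cs + 2 ≤ D := by exact_mod_cast hD
  have h0 : (0 : ℝ) ≤ (Cc : ℝ) * Cs := by positivity
  have hD2 : (2 : ℝ) ≤ D := by linarith
  have h1 : Real.log ((D : ℝ) + 2) ≤ 2 * D := by
    have := Real.log_le_sub_one_of_pos (by linarith : (0 : ℝ) < (D : ℝ) + 2)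
    linarith
  calc (Cc : ℝ) * (Cs * (D : ℝ) ^ 2 * Real.log ((D : ℝ) + 2)) =
        ((Cc : ℝ) * Cs) * (D : ℝ) ^ 2 * Real.log ((D : ℝ) + 2) := by ring
    _ ≤ ((Cc : ℝ) * Cs) * (D : ℝ) ^ 2 * (2 * D) :=
        mul_le_mul_of_nonneg_left h1 (by positivity)
    _ = (2 * Cc * Cs) * (D : ℝ) ^ 3 := by ring
    _ ≤ D * (D : ℝ) ^ 3 := mul_le_mul_of_nonneg_right (by linarith) (by positivity)
    _ = (D : ℝ) ^ 4 := by ring

/-- The final contradiction. -/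
private theorem C3_fin {K D : ℕ} {t V L : ℝ} (hD : 1 ≤ D) (hV : 0 < V) (htV : t ^ 5 ≤ V)
    (hL : 0 ≤ L) (h1 : V ≤ K * t * (D : ℝ) ^ 3 * L) (h2 : (D : ℝ) ^ 4 ≤ V)
    (hlog : (K : ℝ) ^ 5 * L ^ 5 < D) : False := by
  have hD1 : (1 : ℝ) ≤ D := by exact_mod_cast hD
  have hD0 : (0 : ℝ) < D := by linarith
  have hK : (0 : ℝ) ≤ K := Nat.cast_nonneg _
  have a1 : V ^ 5 ≤ (K * t * (D : ℝ) ^ 3 * L) ^ 5 := pow_le_pow_left₀ hV.le h1 5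
  have a2 : (K * t * (D : ℝ) ^ 3 * L) ^ 5 = (K : ℝ) ^ 5 * L ^ 5 * (D : ℝ) ^ 15 * t ^ 5 := by ring
  have a3 : (K : ℝ) ^ 5 * L ^ 5 * (D : ℝ) ^ 15 * t ^ 5 ≤
      (K : ℝ) ^ 5 * L ^ 5 * (D : ℝ) ^ 15 * V := mul_le_mul_of_nonneg_left htV (by positivity)
  have a4 : (K : ℝ) ^ 5 * L ^ 5 * (D : ℝ) ^ 15 * V < D * (D : ℝ) ^ 15 * V :=
    mul_lt_mul_of_pos_right (mul_lt_mul_of_pos_right hlog (by positivity)) hV
  have a5 : V ^ 4 < D * (D : ℝ) ^ 15 := by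
    have h : V ^ 4 * V < D * (D : ℝ) ^ 15 * V := by
      calc V ^ 4 * V = V ^ 5 := by ring
        _ ≤ _ := a1
        _ = _ := a2
        _ ≤ _ := a3
        _ < _ := a4
    exact lt_of_mul_lt_mul_right h hV.le
  have a6 : ((D : ℝ) ^ 4) ^ 4 ≤ V ^ 4 := pow_le_pow_left₀ (by positivity) h2 4
  have a7 : ((D : ℝ) ^ 4) ^ 4 = D * (D : ℝ) ^ 15 := by ring
  linarith

/-- `q ≤ D`. -/
private theorem C3_q {q D : ℕ} {dm V : ℝ} (hq : 4 ≤ q) (hqV : (q : ℝ) ^ 6 ≤ V) (hdm : 0 ≤ dm)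
    (hV4 : V ^ 4 ≤ dm ^ 5) (hD2 : dm < 3 * ((D : ℝ) + 1) ^ 4) : q ≤ D := by
  by_contra hlt
  have h1 : D + 1 ≤ q := by omega
  have h1r : (D : ℝ) + 1 ≤ q := by exact_mod_cast h1
  have hq4 : (4 : ℝ) ≤ q := by exact_mod_cast hq
  have h2 : ((D : ℝ) + 1) ^ 4 ≤ (q : ℝ) ^ 4 := pow_le_pow_left₀ (by positivity) h1r 4
  have h3 : dm < 3 * (q : ℝ) ^ 4 := by linarith
  have h4 : dm ^ 5 < (3 * (q : ℝ) ^ 4) ^ 5 := pow_lt_pow_left₀ h3 hdm (by norm_num)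
  have h5 : ((q : ℝ) ^ 6) ^ 4 ≤ V ^ 4 := pow_le_pow_left₀ (by positivity) hqV 4
  have h6 : ((q : ℝ) ^ 6) ^ 4 = (q : ℝ) ^ 4 * (q : ℝ) ^ 20 := by ring
  have h7 : (3 * (q : ℝ) ^ 4) ^ 5 = 243 * (q : ℝ) ^ 20 := by ring
  have h8 : (4 : ℝ) ^ 4 ≤ (q : ℝ) ^ 4 := pow_le_pow_left₀ (by norm_num) hq4 4
  have h9 : (0 : ℝ) < (q : ℝ) ^ 20 := by positivity
  have h10 : (4 : ℝ) ^ 4 * (q : ℝ) ^ 20 ≤ (q : ℝ) ^ 4 * (q : ℝ) ^ 20 :=
    mul_le_mul_of_nonneg_right h8 h9.le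
  norm_num at h10
  linarith

theorem na5 {y : ℂ} (hy : 0 < y.im) {b : CZ.BaseFn y} {lam h kap ep : ℂ} {ε : ℝ}
    {Xf X1f Yf : ℂ → ℂ} (hS : CZ.BaseSys b lam h kap ep ε Xf X1f Yf) (C : ℕ) (hC : 1 ≤ C) :
    ∃ Q0 : ℕ, ∀ (q : ℕ) (L0 : ℝ), Q0 ≤ q → Win y C q L0 → ∀ t V : ℝ, 1 ≤ t → (q : ℝ) ^ 6 ≤ V →
      V ≤ L0 → t ^ 5 ≤ V → ¬ ApprAt (Pt ep h y) t V := by
  obtain ⟨C1, mm, D9, hC1, hmm, hz⟩ := zest_w hy hS C hC
  obtain ⟨κ, hκ, hhalf⟩ := half hy hS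
  obtain ⟨D10, hD10⟩ := hhalf C1
  obtain ⟨Cc, hCc, hcore⟩ := U2.core_gen (Pt ep h y)
  obtain ⟨Cs, hCs⟩ : ∃ Cs : ℕ, Cs = Cc + 2 + (2 + 2 * C1) + C1 * (14 * (1 + C1) + 2) := ⟨_, rfl⟩
  obtain ⟨D11, hD11⟩ := C3_log (48 * κ * Cc * Cs)
  refine ⟨4 + mm + D9 + D10 + D11 + (2 * Cc * Cs + 2), ?_⟩
  intro q L0 hq hwin t V ht hqV hVL htV happ
  have hq1 : (1 : ℝ) ≤ q := by
    have : 1 ≤ q := by omega
    exact_mod_cast this
  have hV : 0 < V := lt_of_lt_of_le (by positivity) hqV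
  obtain ⟨E, iF, iN, x, S, d, hf, hx, hd, hsum, φ0, hφ0, hVt, hmax, hdmV⟩ := appr_scale hV happ
  have hdm0 : 0 ≤ d φ0 := (hd φ0 hφ0).1
  have ht0 : 0 < t := by linarith
  have hV4 : V ^ 4 ≤ d φ0 ^ 5 := by
    have h1 : V ^ 5 ≤ (t * d φ0) ^ 5 := pow_le_pow_left₀ hV.le hVt 5
    have h2 : (t * d φ0) ^ 5 = t ^ 5 * d φ0 ^ 5 := by ring
    have h3 : t ^ 5 * d φ0 ^ 5 ≤ V * d φ0 ^ 5 := mul_le_mul_of_nonneg_right htV (by positivity)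
    have h4 : V * V ^ 4 ≤ V * d φ0 ^ 5 := by
      calc V * V ^ 4 = V ^ 5 := by ring
        _ ≤ _ := h1
        _ = _ := h2
        _ ≤ _ := h3
    exact le_of_mul_le_mul_left h4 hV
  obtain ⟨D, hDlo, hDhi⟩ := C3_fl hdm0
  have hqD : q ≤ D := C3_q (by omega) hqV hdm0 hV4 hDhi
  have hD1 : 1 ≤ D := by omega
  have hD1r : (1 : ℝ) ≤ D := by exact_mod_cast hD1
  have hD4V : (D : ℝ) ^ 4 ≤ V := by
    have : (0 : ℝ) ≤ (D : ℝ) ^ 4 := by positivity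
    linarith
  have hWL : WL y C (mm * D) := by
    refine hwin (mm * D) ?_ ?_
    · calc q ≤ D := hqD
        _ = 1 * D := (one_mul D).symm
        _ ≤ mm * D := Nat.mul_le_mul_right D hmm
    · refine le_trans ?_ hVL
      refine le_trans ?_ hD4V
      have h1 : mm * D ≤ D * D := Nat.mul_le_mul_right D (by omega)
      have h2 : ((mm * D : ℕ) : ℝ) ≤ ((D * D : ℕ) : ℝ) := by exact_mod_cast h1
      refine h2.trans ?_
      push_cast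
      have h3 : (1 : ℝ) ≤ (D : ℝ) ^ 2 := one_le_pow₀ hD1r
      nlinarith
  obtain ⟨L, hL⟩ : ∃ L : ℝ, L = Real.log ((D : ℝ) + 2) := ⟨_, rfl⟩
  obtain ⟨hL1, hτC, hτl, hτt⟩ := C3_tau C1 Cc D hD1 hCs hL
  have hκr : (0 : ℝ) < κ := by exact_mod_cast hκ
  have hcard : Fintype.card (Ix D) = (D + 1) ^ 2 := by
    simp only [Ix, Fintype.card_prod, Fintype.card_fin]
    ring
  have hXτ : (Cc : ℝ) * (Cs * (D : ℝ) ^ 2 * L) ≤ (D : ℝ) ^ 4 := by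
    rw [hL]
    exact C3_X Cc Cs D (by omega)
  have key := hcore (Cs * (D : ℝ) ^ 2 * L) ((D : ℝ) ^ 4) ((D : ℝ) ^ 3 / κ) hτC hXτ (by positivity)
    (Ix D) inferInstance (Fin (C1 * D ^ 2)) (fun t l => W D t l) Fintype.card_pos
    (by rw [hcard]; exact hτl)
    (fun s l => ⟨le_trans (by exact_mod_cast W_deg D s l) (hτt s s.2).1,
      (W_nrm D s l).trans (hτt s s.2).2⟩)
    (fun c hc hl => by
      obtain ⟨t', ht', hlt⟩ := hz D c (by omega) hWL hc hl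
      exact ⟨⟨t', ht'⟩, hlt⟩)
    (by
      obtain ⟨V', hV1, hV2⟩ := hD10 D (by omega)
      refine ⟨V', ?_, fun c hc hc1 t' => hV2 c hc hc1 t' t'.2⟩
      rw [hcard]
      exact hV1)
    E iF iN x S d t hf hx hd ⟨φ0, hφ0, hDlo⟩
  have h48 : ∀ φ ∈ S, d φ ≤ 48 * κ * D * min ((D : ℝ) ^ 3 / κ) (d φ) := by
    intro φ hφ
    have hdφ := (hd φ hφ).1
    have hκ1 : (1 : ℝ) ≤ κ := by exact_mod_cast hκ
    rcases le_total ((D : ℝ) ^ 3 / κ) (d φ) with hle | hle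
    · rw [min_eq_left hle]
      have h1 : 48 * (κ : ℝ) * D * ((D : ℝ) ^ 3 / κ) = 48 * (D : ℝ) ^ 4 := by
        field_simp
      rw [h1]
      have h2 : ((D : ℝ) + 1) ^ 4 ≤ (2 * D) ^ 4 :=
        pow_le_pow_left₀ (by positivity) (by linarith) 4
      have h3 : (2 * (D : ℝ)) ^ 4 = 16 * (D : ℝ) ^ 4 := by ring
      have h4 := hmax φ hφ
      linarith
    · rw [min_eq_right hle]
      have h1 : (1 : ℝ) ≤ 48 * κ * D := by
        have : (1 : ℝ) ≤ 48 * κ := by linarith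
        exact one_le_mul_of_one_le_of_one_le this hD1r
      exact le_mul_of_one_le_left hdφ h1
  have hVs : V ≤ ((48 * κ * Cc * Cs : ℕ) : ℝ) * t * (D : ℝ) ^ 3 * L := by
    calc V = ∑ φ ∈ S, d φ := hsum.symm
      _ ≤ ∑ φ ∈ S, 48 * κ * D * min ((D : ℝ) ^ 3 / κ) (d φ) := Finset.sum_le_sum h48
      _ = 48 * κ * D * ∑ φ ∈ S, min ((D : ℝ) ^ 3 / κ) (d φ) := (Finset.mul_sum _ _ _).symm
      _ ≤ 48 * κ * D * (Cc * t * (Cs * (D : ℝ) ^ 2 * L)) :=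
          mul_le_mul_of_nonneg_left key (by positivity)
      _ = ((48 * κ * Cc * Cs : ℕ) : ℝ) * t * (D : ℝ) ^ 3 * L := by
          push_cast
          ring
  refine C3_fin hD1 hV htV (by linarith) hVs hD4V ?_
  rw [hL]
  exact hD11 D (by omega)

end AK
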