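import Pool.Agent.H32.AK.C2
import Pool.Agent.H22.U2.Nc1
import Pool.Agent.H22.U2.Co2

/-!
# MP_ede373, points algebraic over `ℚ(t)`, row C4: no approximations of exponent `κ0 < 2` in a window

Put `s = 2 C + 3`, `e = 2 s + 5`, `A = 4 e + 4`, `κ0 = (4 e + 3) / (2 e + 2)` (so `1 ≤ κ0 < 2`). `Cn` from `U2.cov_or z hz` (file `Pool/Agent/H22/U2/Nc1.lean`), `C1, C2` from
`U2.sum_le P C0 hC0` (file `Pool/Agent/H22/U2/Co2.lean`). For a natural number `l` put `N = l`, `K = l * (l^s + 1)`, `Q = l^e`.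
* (COV) If `l ≥ l0` and `WL z C (Cn l^2)` then `COV z N K`: otherwise `cov_or` (with its `K` equal to `l^s`) gives `p0 ≥ 1, p1, p2` of absolute value `≤ Cn l^2` with
  `‖p0 z^2 - p1 z + p2‖ ≤ Cn l / l^s`, and `WL` (for `a = p0, b = -p1, c = p2`) gives `1 ≤ (Cn l^2)^C Cn l / l^s = Cn^(C+1) / l^2`, false for `l > Cn^(C+1)`.
* (size) `C0 N (K + N)^2 log ((K + N) N + 2) ≤ Q` for `l ≥ l0`: `K + N = l (l^s + 2) ≤ 3 l^(s+1)`, `log (3 l^(s+2) + 2) ≤ (s + 5) log l + 2`, so the left side is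
  `≤ 9 C0 l^(2 s + 3) ((s + 5) log l + 2) ≤ l^(2 s + 5)`. So `Dat P C0 N Q` by `hD`, and `Q ≥ C2` for `l ≥ l0`.

Suppose `ApprAt P t V` with `t ≥ 1`, `q^A ≤ V ≤ L0`, `t^κ0 ≤ V`, so `t^(4e+3) ≤ V^(2e+2)` (`Real.rpow_natCast`, `Real.rpow_mul`). `appr_scale` gives `E, x, S, d`, `∑ d = V`, `φ0`, `dm = d φ0` with `V ≤ t dm`,
`dm ≤ V`. So `V^(4e+3) ≤ t^(4e+3) dm^(4e+3) ≤ V^(2e+2) dm^(4e+3)`, i.e. `V^(2e+1) ≤ dm^(4e+3)`. Let `l` be the largest natural number with `C1 l^(2e+1) ≤ dm`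
(`Nat.findGreatest`, the set is bounded), so `dm < C1 (l + 1)^(2e+1)`.
* `q ≤ l`: otherwise `dm < C1 q^(2e+1)`, `V^(2e+1) < (C1 q^(2e+1))^(4e+3) ≤ (C1^3 q^(4e+3))^(2e+1)` (`C1^(4e+3) ≤ C1^(3(2e+1))`), so `q^(4e+4) ≤ V < C1^3 q^(4e+3)`: false for `q ≥ C1^3`. So `l ≥ q ≥ Q0`.
* `WL z C (Cn l^2)` from the window: `q ≤ l ≤ Cn l^2 ≤ l^3 ≤ C1 l^(2e+1) ≤ dm ≤ V ≤ L0` (`l ≥ Cn`).
* `(l + 1)^(2e+1) ≤ 64 l^(2e+1)` for `l ≥ 2 e + 1` (`(1 + 1/l)^(2e+1) ≤ exp ((2e+1)/l) ≤ exp 1`), so `sum_le` with `N = l`, `Q = l^e` (`N Q^2 = l^(2e+1)`) gives `V = ∑ d ≤ C2 t (l^e log (l^e + 2))`,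
  and `log (l^e + 2) ≤ (e + 1) log (l + 2) =: G`. So `V^(4e+3) ≤ (C2 G)^(4e+3) t^(4e+3) l^(e(4e+3)) ≤ (C2 G)^(4e+3) V^(2e+2) l^(e(4e+3))`, `V^(2e+1) ≤ (C2 G)^(4e+3) l^(e(4e+3))`. With `V ≥ dm ≥ l^(2e+1)`:
  `l^((2e+1)^2) ≤ (C2 G)^(4e+3) l^(e(4e+3))`, `(2e+1)^2 = e(4e+3) + e + 1`, so `l^(e+1) ≤ (C2 (e + 1) log (l + 2))^(4e+3)`: false for large `l` (`isLittleO_pow_log_id_atTop` or
  `Real.isLittleO_pow_log_id_atTop`, compare `U2.Nc2_ev`).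
-/

set_option autoImplicit false

namespace AK

open CZ U2

private theorem C4_cov {z : ℂ} {Cn C : ℕ} (l : ℕ) (hl : Cn ^ (C + 1) < l)
    (h : COV z l (l * (l ^ (2 * C + 3) + 1)) ∨ ∃ p0 p1 p2 : ℤ, 1 ≤ p0 ∧ |p0| ≤ (Cn * l ^ 2 : ℕ) ∧
      |p1| ≤ (Cn * l ^ 2 : ℕ) ∧ |p2| ≤ (Cn * l ^ 2 : ℕ) ∧
      ‖(p0 : ℂ) * z ^ 2 - p1 * z + p2‖ ≤ Cn * l / (l ^ (2 * C + 3) : ℕ))
    (hW : WL z C (Cn * l ^ 2)) : COV z l (l * (l ^ (2 * C + 3) + 1)) := by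
  rcases h with h | ⟨p0, p1, p2, g0, g1, g2, g3, g4⟩
  · exact h
  exfalso
  have h1 := hW p0 (-p1) p2 g1 (by rw [abs_neg]; exact g2) g3 (Or.inl (by omega))
  have e1 : (p0 : ℂ) * z ^ 2 + ((-p1 : ℤ) : ℂ) * z + p2 = (p0 : ℂ) * z ^ 2 - p1 * z + p2 := by
    push_cast
    ring
  rw [e1] at h1
  have hl0 : 0 < l := by omega
  have hlr : (0 : ℝ) < l := by exact_mod_cast hl0
  have h2 : (1 : ℝ) ≤ ((Cn * l ^ 2 : ℕ) : ℝ) ^ C * (Cn * l / (l ^ (2 * C + 3) : ℕ)) :=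
    h1.trans (mul_le_mul_of_nonneg_left g4 (by positivity))
  have h3 : ((Cn * l ^ 2 : ℕ) : ℝ) ^ C * (Cn * l / (l ^ (2 * C + 3) : ℕ)) =
      (Cn : ℝ) ^ (C + 1) / (l : ℝ) ^ 2 := by
    have e2 : ((l : ℝ)) ^ (2 * C + 3) = ((l : ℝ) ^ 2) ^ C * l * l ^ 2 := by
      rw [← pow_mul]
      ring
    push_cast
    rw [mul_pow, e2]
    field_simp
    rw [pow_succ]
  rw [h3, le_div_iff₀ (by positivity), one_mul] at h2
  have h4 : (Cn : ℝ) ^ (C + 1) < l := by exact_mod_cast hl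
  have h5 : (1 : ℝ) ≤ l := by exact_mod_cast hl0
  nlinarith

private theorem C4_size (C0 s l : ℕ) (hl : 9 * C0 * (s + 6) ≤ l) (hl1 : 1 ≤ l) :
    C0 * l * (((l * (l ^ s + 1) : ℕ) : ℝ) + l) ^ 2 *
      Real.log ((((l * (l ^ s + 1) : ℕ) : ℝ) + l) * l + 2) ≤ ((l ^ (2 * s + 5) : ℕ) : ℝ) := by
  have hlr : (1 : ℝ) ≤ (l : ℝ) := by exact_mod_cast hl1
  have d1 : ((l * (l ^ s + 1) : ℕ) : ℝ) + l = (l : ℝ) * ((l : ℝ) ^ s + 2) := by
    push_cast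
    ring
  have hlc : 9 * (C0 : ℝ) * (s + 6) ≤ (l : ℝ) := by exact_mod_cast hl
  rw [d1]
  push_cast
  generalize (l : ℝ) = L at *
  have hl0 : 0 < L := by linarith
  have hs1 : 1 ≤ L ^ s := one_le_pow₀ hlr
  have d2 : L * (L ^ s + 2) ≤ 3 * L ^ (s + 1) := by
    rw [pow_succ]
    nlinarith
  have d3 : Real.log (L * (L ^ s + 2) * L + 2) ≤ (s + 6) * L := by
    have c1 : L * (L ^ s + 2) * L + 2 ≤ 5 * L ^ (s + 2) := by
      have c2 : L * (L ^ s + 2) * L ≤ 3 * L ^ (s + 1) * L := mul_le_mul_of_nonneg_right d2 hl0.le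
      have c3 : 3 * L ^ (s + 1) * L = 3 * L ^ (s + 2) := by ring
      have c4 : 1 ≤ L ^ (s + 2) := one_le_pow₀ hlr
      linarith
    calc Real.log (L * (L ^ s + 2) * L + 2) ≤ Real.log (5 * L ^ (s + 2)) :=
          Real.log_le_log (by positivity) c1
      _ = Real.log 5 + (s + 2) * Real.log L := by
          rw [Real.log_mul (by norm_num) (by positivity), Real.log_pow]
          push_cast
          ring
      _ ≤ (s + 6) * L := by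
          have c5 : Real.log 5 ≤ 4 := by
            have := Real.log_le_sub_one_of_pos (show (0 : ℝ) < 5 by norm_num)
            linarith
          have c6 : Real.log L ≤ L := by
            have := Real.log_le_sub_one_of_pos hl0
            linarith
          have c7 : ((s : ℝ) + 2) * Real.log L ≤ (s + 2) * L :=
            mul_le_mul_of_nonneg_left c6 (by positivity)
          linarith
  have d4 : 0 ≤ Real.log (L * (L ^ s + 2) * L + 2) := by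
    apply Real.log_nonneg
    have : 0 ≤ L * (L ^ s + 2) * L := by positivity
    linarith
  calc (C0 : ℝ) * L * (L * (L ^ s + 2)) ^ 2 * Real.log (L * (L ^ s + 2) * L + 2) ≤
      (C0 : ℝ) * L * (3 * L ^ (s + 1)) ^ 2 * ((s + 6) * L) := by
        refine mul_le_mul (mul_le_mul_of_nonneg_left ?_ (by positivity)) d3 d4 (by positivity)
        exact pow_le_pow_left₀ (by positivity) d2 2
    _ = (9 * (C0 : ℝ) * (s + 6)) * L ^ (2 * s + 4) := by ring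
    _ ≤ L * L ^ (2 * s + 4) := mul_le_mul_of_nonneg_right hlc (by positivity)
    _ = L ^ (2 * s + 5) := by ring

private theorem C4_log (c : ℝ) (hc : 0 ≤ c) (m : ℕ) :
    ∃ l1 : ℕ, ∀ l : ℕ, l1 ≤ l → (c * Real.log ((l : ℝ) + 2)) ^ m < l := by
  have hε : (0 : ℝ) < 1 / (2 * (c ^ m + 1)) := by positivity
  have h1 := (Real.isLittleO_pow_log_id_atTop (n := m)).def hε
  have h2 : Filter.Tendsto (fun l : ℕ => (l : ℝ) + 2) Filter.atTop Filter.atTop :=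
    Filter.tendsto_atTop_add_const_right _ _ tendsto_natCast_atTop_atTop
  obtain ⟨l1, hl1⟩ := Filter.eventually_atTop.1 ((h2.eventually h1).and (Filter.eventually_ge_atTop 3))
  refine ⟨l1, fun l hl => ?_⟩
  obtain ⟨h3, h4⟩ := hl1 l hl
  have h5 : (3 : ℝ) ≤ l := by exact_mod_cast h4
  have hL : 0 ≤ Real.log ((l : ℝ) + 2) := Real.log_nonneg (by linarith)
  have h6 : ‖Real.log ((l : ℝ) + 2) ^ m‖ = Real.log ((l : ℝ) + 2) ^ m :=
    Real.norm_of_nonneg (by positivity)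
  have h7 : ‖id ((l : ℝ) + 2)‖ = (l : ℝ) + 2 :=
    Real.norm_of_nonneg (by simp only [id]; positivity)
  rw [h6, h7, one_div, inv_mul_eq_div, le_div_iff₀ (by positivity)] at h3
  have h8 : 0 ≤ Real.log ((l : ℝ) + 2) ^ m := by positivity
  have h9 : 0 ≤ c ^ m := by positivity
  rw [mul_pow]
  nlinarith

private theorem C4_q {C1 e q l : ℕ} {V dm : ℝ} (hV : V ^ (2 * e + 1) ≤ dm ^ (4 * e + 3)) (hdm : 0 ≤ dm)
    (hC1 : 1 ≤ C1) (hlt : dm < C1 * ((l : ℝ) + 1) ^ (2 * e + 1)) (hq : (q : ℝ) ^ (4 * e + 4) ≤ V)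
    (hqC : C1 ^ 3 ≤ q) : q ≤ l := by
  by_contra hc
  have h0 : l + 1 ≤ q := by omega
  have h0r : (l : ℝ) + 1 ≤ q := by exact_mod_cast h0
  have hl0 : (0 : ℝ) ≤ l := Nat.cast_nonneg l
  have hq0 : (0 : ℝ) < q := by linarith
  have hC1r : (1 : ℝ) ≤ C1 := by exact_mod_cast hC1
  have h1 : dm < C1 * (q : ℝ) ^ (2 * e + 1) :=
    lt_of_lt_of_le hlt (mul_le_mul_of_nonneg_left (pow_le_pow_left₀ (by positivity) h0r _) (by positivity))
  have h2 : V ^ (2 * e + 1) < ((C1 : ℝ) ^ 3 * (q : ℝ) ^ (4 * e + 3)) ^ (2 * e + 1) := by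
    calc V ^ (2 * e + 1) ≤ dm ^ (4 * e + 3) := hV
      _ < (C1 * (q : ℝ) ^ (2 * e + 1)) ^ (4 * e + 3) := pow_lt_pow_left₀ h1 hdm (by omega)
      _ = (C1 : ℝ) ^ (4 * e + 3) * (q : ℝ) ^ ((2 * e + 1) * (4 * e + 3)) := by
          rw [mul_pow, ← pow_mul]
      _ ≤ (C1 : ℝ) ^ (3 * (2 * e + 1)) * (q : ℝ) ^ ((2 * e + 1) * (4 * e + 3)) :=
          mul_le_mul_of_nonneg_right (pow_le_pow_right₀ hC1r (by omega)) (by positivity)
      _ = ((C1 : ℝ) ^ 3 * (q : ℝ) ^ (4 * e + 3)) ^ (2 * e + 1) := by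
          rw [mul_pow, ← pow_mul, ← pow_mul, mul_comm (2 * e + 1) (4 * e + 3)]
  have h3 : V < (C1 : ℝ) ^ 3 * (q : ℝ) ^ (4 * e + 3) := lt_of_pow_lt_pow_left₀ _ (by positivity) h2
  have h4 : (q : ℝ) * (q : ℝ) ^ (4 * e + 3) < (C1 : ℝ) ^ 3 * (q : ℝ) ^ (4 * e + 3) := by
    calc (q : ℝ) * (q : ℝ) ^ (4 * e + 3) = (q : ℝ) ^ (4 * e + 4) := by ring
      _ ≤ V := hq
      _ < _ := h3
  have h5 : (q : ℝ) < (C1 : ℝ) ^ 3 := lt_of_mul_lt_mul_right h4 (by positivity)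
  have h6 : ((C1 ^ 3 : ℕ) : ℝ) ≤ (q : ℝ) := by exact_mod_cast hqC
  push_cast at h6
  linarith

private theorem C4_fin {e C2 l : ℕ} {t V G : ℝ} (hV0 : 0 < V)
    (h1 : t ^ (4 * e + 3) ≤ V ^ (2 * e + 2)) (hG : 0 ≤ G) (h2 : V ≤ C2 * t * ((l : ℝ) ^ e * G))
    (h3 : (l : ℝ) ^ (2 * e + 1) ≤ V) (hl : 1 ≤ l) : (l : ℝ) ^ (e + 1) ≤ (C2 * G) ^ (4 * e + 3) := by
  have hl0 : (0 : ℝ) < l := by exact_mod_cast hl
  have h4 : V ^ (2 * e + 1) * V ^ (2 * e + 2) ≤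
      ((C2 * G) ^ (4 * e + 3) * (l : ℝ) ^ (e * (4 * e + 3))) * V ^ (2 * e + 2) := by
    calc V ^ (2 * e + 1) * V ^ (2 * e + 2) = V ^ (4 * e + 3) := by
          rw [← pow_add]
          congr 1
          omega
      _ ≤ (C2 * t * ((l : ℝ) ^ e * G)) ^ (4 * e + 3) := pow_le_pow_left₀ hV0.le h2 _
      _ = ((C2 * G) ^ (4 * e + 3) * (l : ℝ) ^ (e * (4 * e + 3))) * t ^ (4 * e + 3) := by
          rw [pow_mul, ← mul_pow, ← mul_pow]
          congr 1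
          ring
      _ ≤ _ := mul_le_mul_of_nonneg_left h1 (by positivity)
  have h5 := le_of_mul_le_mul_right h4 (by positivity)
  have h6 : (l : ℝ) ^ (e + 1) * (l : ℝ) ^ (e * (4 * e + 3)) ≤
      (C2 * G) ^ (4 * e + 3) * (l : ℝ) ^ (e * (4 * e + 3)) := by
    calc (l : ℝ) ^ (e + 1) * (l : ℝ) ^ (e * (4 * e + 3)) = ((l : ℝ) ^ (2 * e + 1)) ^ (2 * e + 1) := by
          rw [← pow_add, ← pow_mul]
          congr 1
          ring
      _ ≤ V ^ (2 * e + 1) := pow_le_pow_left₀ (by positivity) h3 _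
      _ ≤ _ := h5
  exact le_of_mul_le_mul_right h6 (by positivity)

private theorem C4_one {m l : ℕ} (hl : m ≤ l) (hl1 : 1 ≤ l) :
    ((l : ℝ) + 1) ^ m ≤ 64 * (l : ℝ) ^ m := by
  have hl0 : (0 : ℝ) < l := by exact_mod_cast hl1
  have h1 : ((l : ℝ) + 1) ^ m = (1 + 1 / (l : ℝ)) ^ m * (l : ℝ) ^ m := by
    rw [← mul_pow]
    congr 1
    field_simp
  rw [h1]
  apply mul_le_mul_of_nonneg_right _ (by positivity)
  have h2 : 1 + 1 / (l : ℝ) ≤ Real.exp (1 / (l : ℝ)) := by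
    have := Real.add_one_le_exp (1 / (l : ℝ))
    linarith
  calc (1 + 1 / (l : ℝ)) ^ m ≤ Real.exp (1 / (l : ℝ)) ^ m := pow_le_pow_left₀ (by positivity) h2 _
    _ = Real.exp (m * (1 / (l : ℝ))) := (Real.exp_nat_mul _ _).symm
    _ ≤ Real.exp 1 := by
        apply Real.exp_le_exp.2
        rw [mul_one_div, div_le_one hl0]
        exact_mod_cast hl
    _ ≤ 64 := by
        have := Real.exp_one_lt_d9
        linarith

theorem na2 (z : ℂ) (hz : 0 < z.im) {k : ℕ} (P : Fin k → ℂ) (C0 : ℕ) (hC0 : 1 ≤ C0)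
    (hD : ∀ N K Q : ℕ, 1 ≤ N → COV z N K →
      C0 * N * ((K : ℝ) + N) ^ 2 * Real.log (((K : ℝ) + N) * N + 2) ≤ Q → Dat P C0 N Q)
    (C : ℕ) (hC : 1 ≤ C) : ∃ (κ0 : ℝ) (A Q0 : ℕ), 1 ≤ κ0 ∧ κ0 < 2 ∧ ∀ (q : ℕ) (L0 : ℝ), Q0 ≤ q →
      Win z C q L0 → ∀ t V : ℝ, 1 ≤ t → (q : ℝ) ^ A ≤ V → V ≤ L0 → t ^ κ0 ≤ V →
      ¬ ApprAt P t V := by
  obtain ⟨Cn, hCn1, hCn⟩ := cov_or z hz
  obtain ⟨C1, C2, hC1, hC12, hS⟩ := sum_le P C0 hC0
  set s := 2 * C + 3 with hs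
  set e := 2 * s + 5 with he
  obtain ⟨l1, hl1⟩ := C4_log ((C2 : ℝ) * (e + 1)) (by positivity) (4 * e + 3)
  have hκ : (0 : ℝ) < 2 * (e : ℝ) + 2 := by positivity
  refine ⟨(4 * (e : ℝ) + 3) / (2 * (e : ℝ) + 2), 4 * e + 4,
    1 + C1 ^ 3 + Cn + Cn ^ (C + 1) + C2 + (2 * e + 1) + 9 * C0 * (s + 6) + l1, ?_, ?_, ?_⟩
  · rw [le_div_iff₀ hκ]
    have : (0 : ℝ) ≤ (e : ℝ) := Nat.cast_nonneg e
    linarith
  · rw [div_lt_iff₀ hκ]
    linarith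
  intro q L0 hq hWin t V ht hqV hVL htV happ
  have hq1 : 1 ≤ q := by omega
  have hq1r : (1 : ℝ) ≤ q := by exact_mod_cast hq1
  have hV1 : (1 : ℝ) ≤ V := le_trans (one_le_pow₀ hq1r) hqV
  have hV0 : 0 < V := by linarith
  have ht0 : 0 < t := by linarith
  obtain ⟨E, iE, iN, x, S, d, hE1, hE2, hE3, hE4, φ0, hφ0, hE5, hE6, hE7⟩ := appr_scale hV0 happ
  have htV' : t ^ (4 * e + 3) ≤ V ^ (2 * e + 2) := by
    have h1 : (t ^ ((4 * (e : ℝ) + 3) / (2 * (e : ℝ) + 2))) ^ (2 * e + 2) ≤ V ^ (2 * e + 2) :=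
      pow_le_pow_left₀ (by positivity) htV _
    have h2 : (t ^ ((4 * (e : ℝ) + 3) / (2 * (e : ℝ) + 2))) ^ (2 * e + 2) = t ^ (4 * e + 3) := by
      rw [← Real.rpow_natCast, ← Real.rpow_mul ht0.le, ← Real.rpow_natCast t (4 * e + 3)]
      congr 1
      push_cast
      field_simp
    rw [h2] at h1
    exact h1
  have hd0 : 0 ≤ d φ0 := (hE3 φ0 hφ0).1
  have hVd : V ^ (2 * e + 1) ≤ d φ0 ^ (4 * e + 3) := by
    have h1 : V ^ (2 * e + 1) * V ^ (2 * e + 2) ≤ d φ0 ^ (4 * e + 3) * V ^ (2 * e + 2) := by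
      calc V ^ (2 * e + 1) * V ^ (2 * e + 2) = V ^ (4 * e + 3) := by
            rw [← pow_add]
            congr 1
            omega
        _ ≤ (t * d φ0) ^ (4 * e + 3) := pow_le_pow_left₀ hV0.le hE5 _
        _ = d φ0 ^ (4 * e + 3) * t ^ (4 * e + 3) := by rw [mul_pow, mul_comm]
        _ ≤ _ := mul_le_mul_of_nonneg_left htV' (by positivity)
    exact le_of_mul_le_mul_right h1 (by positivity)
  -- the largest l
  have hex : ∃ l : ℕ, d φ0 < C1 * ((l : ℝ) + 1) ^ (2 * e + 1) := by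
    obtain ⟨l, hl⟩ := exists_nat_gt (d φ0)
    refine ⟨l, ?_⟩
    have h1 : (1 : ℝ) ≤ C1 := by exact_mod_cast hC1
    have h2 : (l : ℝ) + 1 ≤ ((l : ℝ) + 1) ^ (2 * e + 1) :=
      le_self_pow₀ (by have : (0 : ℝ) ≤ l := Nat.cast_nonneg l; linarith) (by omega)
    have h3 : ((l : ℝ) + 1) ^ (2 * e + 1) ≤ C1 * ((l : ℝ) + 1) ^ (2 * e + 1) :=
      le_mul_of_one_le_left (by positivity) h1
    linarith
  classical
  obtain ⟨l, hll, hlm⟩ : ∃ l : ℕ, d φ0 < C1 * ((l : ℝ) + 1) ^ (2 * e + 1) ∧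
      (C1 : ℝ) * (l : ℝ) ^ (2 * e + 1) ≤ d φ0 := by
    refine ⟨Nat.find hex, Nat.find_spec hex, ?_⟩
    rcases Nat.eq_zero_or_pos (Nat.find hex) with h0 | h0
    · rw [h0, Nat.cast_zero, zero_pow (by omega), mul_zero]
      exact hd0
    · have h1 := Nat.find_min hex (Nat.sub_lt h0 one_pos)
      rw [not_lt] at h1
      have h2 : ((Nat.find hex - 1 : ℕ) : ℝ) + 1 = (Nat.find hex : ℝ) := by
        rw [Nat.cast_sub h0, Nat.cast_one, sub_add_cancel]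
      rw [h2] at h1
      exact h1
  have hql : q ≤ l := C4_q hVd hd0 hC1 hll hqV (by omega)
  have hl1' : 1 ≤ l := by omega
  have hlr : (1 : ℝ) ≤ l := by exact_mod_cast hl1'
  have hC1r : (1 : ℝ) ≤ C1 := by exact_mod_cast hC1
  have hpow : (l : ℝ) ^ (2 * e + 1) ≤ d φ0 :=
    (le_mul_of_one_le_left (by positivity) hC1r).trans hlm
  have hW : WL z C (Cn * l ^ 2) := by
    apply hWin
    · calc q ≤ l := hql
        _ = 1 * (l * 1) := by ring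
        _ ≤ Cn * (l * l) := Nat.mul_le_mul hCn1 (Nat.mul_le_mul_left l hl1')
        _ = Cn * l ^ 2 := by ring
    · have h1 : Cn * l ^ 2 ≤ l ^ (2 * e + 1) := by
        calc Cn * l ^ 2 ≤ l * l ^ 2 := Nat.mul_le_mul_right _ (by omega)
          _ = l ^ 3 := by ring
          _ ≤ l ^ (2 * e + 1) := Nat.pow_le_pow_right hl1' (by omega)
      have h2 : ((Cn * l ^ 2 : ℕ) : ℝ) ≤ (l : ℝ) ^ (2 * e + 1) := by exact_mod_cast h1
      linarith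
  have hcov := C4_cov (z := z) (Cn := Cn) (C := C) l (by omega)
    (hCn l (l ^ (2 * C + 3)) hl1' (Nat.one_le_pow _ _ hl1')) hW
  have hdat : Dat P C0 l (l ^ e) :=
    hD l (l * (l ^ s + 1)) (l ^ e) hl1' hcov (C4_size C0 s l (by omega) hl1')
  have hC2Q : C2 ≤ l ^ e := by
    calc C2 ≤ l := by omega
      _ ≤ l ^ e := Nat.le_self_pow (by omega) l
  have hNQ : (C1 : ℝ) * l * ((l ^ e : ℕ) : ℝ) ^ 2 = C1 * (l : ℝ) ^ (2 * e + 1) := by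
    push_cast
    ring
  have hsum := hS l (l ^ e) hl1' hC2Q hdat E iE iN x S d t hE1 hE2 hE3
    ⟨φ0, hφ0, by rw [hNQ]; exact hlm⟩ (by
      intro φ hφ
      rw [hNQ]
      have h1 := hE6 φ hφ
      have h2 := C4_one (m := 2 * e + 1) (l := l) (by omega) hl1'
      have h3 : (C1 : ℝ) * ((l : ℝ) + 1) ^ (2 * e + 1) ≤ C1 * (64 * (l : ℝ) ^ (2 * e + 1)) :=
        mul_le_mul_of_nonneg_left h2 (by positivity)
      linarith)
  rw [hE4] at hsum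
  set G : ℝ := (e + 1) * Real.log ((l : ℝ) + 2) with hG
  have hlog2 : 0 ≤ Real.log ((l : ℝ) + 2) := Real.log_nonneg (by linarith)
  have hG0 : 0 ≤ G := by positivity
  have hlogG : Real.log (((l ^ e : ℕ) : ℝ) + 2) ≤ G := by
    have h1 : ((l ^ e : ℕ) : ℝ) + 2 ≤ ((l : ℝ) + 2) ^ (e + 1) := by
      have h2 : (l : ℝ) ^ e ≤ ((l : ℝ) + 2) ^ e := pow_le_pow_left₀ (by positivity) (by linarith) _
      have h3 : (1 : ℝ) ≤ ((l : ℝ) + 2) ^ e := one_le_pow₀ (by linarith)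
      have h4 : ((l : ℝ) + 2) ^ (e + 1) = ((l : ℝ) + 2) ^ e * l + 2 * ((l : ℝ) + 2) ^ e := by ring
      have h5 : ((l : ℝ) + 2) ^ e ≤ ((l : ℝ) + 2) ^ e * l := le_mul_of_one_le_right (by positivity) hlr
      push_cast
      linarith
    calc Real.log (((l ^ e : ℕ) : ℝ) + 2) ≤ Real.log (((l : ℝ) + 2) ^ (e + 1)) :=
          Real.log_le_log (by positivity) h1
      _ = G := by
          rw [Real.log_pow, hG]
          push_cast
          ring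
  have hV2 : V ≤ C2 * t * ((l : ℝ) ^ e * G) := by
    refine hsum.trans (mul_le_mul_of_nonneg_left ?_ (by positivity))
    push_cast at hlogG ⊢
    exact mul_le_mul_of_nonneg_left hlogG (by positivity)
  have hfin := C4_fin hV0 htV' hG0 hV2 (hpow.trans hE7) hl1'
  have h1 := hl1 l (by omega)
  have h2 : (C2 : ℝ) * (e + 1) * Real.log ((l : ℝ) + 2) = C2 * G := by
    rw [hG]
    ring
  rw [h2] at h1
  have h3 : (l : ℝ) ≤ (l : ℝ) ^ (e + 1) := le_self_pow₀ hlr (by omega)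
  linarith

end AK
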