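import Pool.Agent.H32.AK.D0
import Pool.Agent.H32.MJ.D0
import Pool.Agent.H32.CZ.Qe
import Pool.Agent.H32.AZ.Al
import Pool.Agent.H32.T3.A0
import Pool.Agent.H32.CZ.Qf

/-!
# MP_ede373, points algebraic over `ℚ(t)`, row C5: the base data

The proof of `MJ.base_arith` (file `Pool/Agent/H32/MJ/J12.lean`) without the part for `τ` itself: `m0` (`jf τ`), `mh`, `mep` are what is asked.
-/

set_option autoImplicit false

open EisensteinSeries ModularForm UpperHalfPlane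

namespace AK

open H32 H32.T3

theorem base_nc (τ : ℍ) (hcm : NCM (τ : ℂ)) :
    ∃ (b : CZ.BaseFn (τ : ℂ)) (lam h kap ep : ℂ) (ε : ℝ) (Xf X1f Yf : ℂ → ℂ),
      CZ.BaseSys b lam h kap ep ε Xf X1f Yf ∧
      IsAlgebraic (IntermediateField.adjoin ℚ (Set.range ![jf τ])) ep ∧
      IsAlgebraic (IntermediateField.adjoin ℚ (Set.range ![jf τ])) h := by
  obtain ⟨h4, h6⟩ := AZ.E_ne (τ : ℂ) hcm τ rfl
  obtain ⟨b, lam, ep, ε, Xf, X1f, Yf, hsys, -, hep⟩ := CZ.exists_base τ h4 h6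
  refine ⟨b, lam, _, _, ep, ε, Xf, X1f, Yf, hsys, ?_⟩
  generalize hFLD : IntermediateField.adjoin ℚ (Set.range ![jf τ]) = FLD
  have m0 : IsAlgebraic FLD (jf τ) := by
    have h : jf τ ∈ FLD := by
      rw [← hFLD]; exact IntermediateField.subset_adjoin _ _ ⟨0, rfl⟩
    exact isAlgebraic_algebraMap (⟨_, h⟩ : FLD)
  obtain ⟨M, hM⟩ : ∃ M : IntermediateField FLD ℂ, ∀ x, x ∈ M ↔ IsAlgebraic FLD x :=
    ⟨algebraicClosure FLD ℂ, fun x => mem_algebraicClosure_iff⟩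
  rw [← hM] at m0
  have nat_mem : ∀ n : ℕ, (n : ℂ) ∈ M := fun n => natCast_mem M n
  have i1728 : (1728 : ℂ) ∈ M := by exact_mod_cast nat_mem 1728
  have i2 : (2 : ℂ) ∈ M := by exact_mod_cast nat_mem 2
  have i27 : (27 : ℂ) ∈ M := by exact_mod_cast nat_mem 27
  have mt : E₄ τ ^ 3 / E₆ τ ^ 2 ∈ M := by
    have e : E₄ τ ^ 3 / E₆ τ ^ 2 = jf τ / (jf τ - 1728) := by
      have hd := discriminant_ne_zero τ
      rw [← jf_mul, ← jf_sub]
      exact mul_div_mul_right _ _ hd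
    rw [e]
    exact div_mem m0 (sub_mem m0 i1728)
  have mh : 27 / 2 * (E₄ τ ^ 3 / E₆ τ ^ 2) ∈ M := mul_mem (div_mem i27 i2) mt
  exact ⟨CZ.Qf_ep ((hM _).1 mh) hep, (hM _).1 mh⟩

end AK
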