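import Pool.Agent.H32.AK.D0
import Pool.Agent.H32.AO.A6

/-!
# MP_ede373, points algebraic over `ℚ(t)`, row C6: relations from approximate roots

`rel_alg`: let `w` be a root of `F ≠ 0`, `natDegree F ≤ d`, `nr F ≤ X`. `n = natDegree F ≥ 1` (a nonzero constant has no root), `G i = MvPolynomial.C (F.coeff i)` (degree `0`, `nrm = |coeff| ≤ nr F ≤ X ≤ exp X`),
`‖aeval P (G n)‖ = |leading coefficient| ≥ 1 ≥ exp (-X)`, and `∑_{i ≤ n} coeff_i y^i = F(y) = F(y) - F(w)`, of norm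
`≤ ∑ |coeff_i| i B^i ‖y - w‖ ≤ X d B^d exp (-(2 L0)) ≤ exp (-L0)`, `B = ‖y‖ + 1 ≥ ‖w‖` (`exp (-(2 L0)) ≤ 1`), if `X0` is such that `X d B^d ≤ exp X` for `X ≥ X0`, and `X ≤ L0`. Also `n ≤ d ≤ X`.

`rel_root`: `RootRel X J' w'`: `M, r, c`. `n = M`, `G i = rename`/`aeval (X 0)` of `r i` in one variable (as in the proof of `AO.rel_of_root` in `Pool/Agent/H32/AO/A6.lean`: `totalDegree ≤ natDegree`,
`nrm ≤ nr`, `aeval ![J] (G i) = Polynomial.aeval J (r i)`), leading value `c ≠ 0` of norm `≥ 1`. `∑_{i ≤ M} r_i(J) w^i = ∑ (r_i(J) w^i - r_i(J') w'^i)`; with `B = max ‖J‖ ‖w‖ + 2`, `δ = exp (-(2 L0))`: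
`‖r_i(J) - r_i(J')‖ ≤ exp X * X * B^X * δ` (a polynomial of degree `≤ X`: `CZ.aeval_sub_le` or directly), `‖r_i(J')‖ ≤ exp X * B^X`, `‖w^i - w'^i‖ ≤ i B^i δ` (`i ≤ M ≤ X`), so the sum is at most
`(X + 1) * 2 X exp X B^(2 X) δ ≤ exp (K X) exp (-(2 L0)) ≤ exp (-L0)` if `K X ≤ X ^ 2 ≤ L0` (`X ≥ X0 ≥ K`, `K` depending on `B`). (`X` is real: use `⌊X⌋₊` for the exponents.)
-/

set_option autoImplicit false

namespace AK

open CZ AO
open H32.T3 (nrm)

theorem C6_nr (f : Polynomial ℤ) :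
    nr f = ∑ i ∈ Finset.range (f.natDegree + 1), |((f.coeff i : ℤ) : ℝ)| := by
  unfold nr
  exact Polynomial.sum_over_range f (fun _ => by simp)

theorem C6_coeff (f : Polynomial ℤ) {i : ℕ} (hi : i ≤ f.natDegree) : |((f.coeff i : ℤ) : ℝ)| ≤ nr f := by
  rw [C6_nr]
  exact Finset.single_le_sum (f := fun i => |((f.coeff i : ℤ) : ℝ)|) (fun _ _ => abs_nonneg _)
    (Finset.mem_range.2 (Nat.lt_succ_of_le hi))

theorem C6_nr_nonneg (f : Polynomial ℤ) : 0 ≤ nr f := by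
  rw [C6_nr]
  exact Finset.sum_nonneg fun _ _ => abs_nonneg _

theorem C6_sub (f : Polynomial ℤ) {N : ℕ} (hN : f.natDegree ≤ N) {a b : ℂ} {B δ : ℝ} (hB : 1 ≤ B)
    (ha : ‖a‖ ≤ B) (hb : ‖b‖ ≤ B) (hab : ‖a - b‖ ≤ δ) (hδ : 0 ≤ δ) :
    ‖Polynomial.aeval a f - Polynomial.aeval b f‖ ≤ nr f * (N * B ^ N * δ) := by
  have h1 := CZ.aeval_sub_le (A6_mv (0 : Fin 1) f) N ((A6_mv_deg _ _).trans hN) (fun _ => b)
    (fun _ => a) B δ hB (fun _ => hb) (fun _ => ha) (fun _ => hab) hδ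
  rw [A6_mv_aeval, A6_mv_aeval] at h1
  refine h1.trans (mul_le_mul_of_nonneg_right (A6_mv_nrm _ _) ?_)
  have : 0 ≤ B := by linarith
  positivity

theorem C6_le (f : Polynomial ℤ) {N : ℕ} (hN : f.natDegree ≤ N) {a : ℂ} {B : ℝ} (hB : 1 ≤ B)
    (ha : ‖a‖ ≤ B) : ‖Polynomial.aeval a f‖ ≤ nr f * B ^ N := by
  rw [Polynomial.aeval_eq_sum_range, C6_nr, Finset.sum_mul]
  refine norm_sum_le_of_le _ fun i hi => ?_
  rw [zsmul_eq_mul, norm_mul, Complex.norm_intCast, norm_pow]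
  refine mul_le_mul_of_nonneg_left ?_ (abs_nonneg _)
  refine (pow_le_pow_left₀ (norm_nonneg _) ha i).trans (pow_le_pow_right₀ hB ?_)
  have := Finset.mem_range.1 hi
  omega

theorem C6_pow {a b : ℂ} {B δ : ℝ} (hB : 1 ≤ B) (ha : ‖a‖ ≤ B) (hb : ‖b‖ ≤ B) (hab : ‖a - b‖ ≤ δ)
    (i : ℕ) : ‖a ^ i - b ^ i‖ ≤ i * B ^ i * δ := by
  have hδ : 0 ≤ δ := (norm_nonneg _).trans hab
  have hB0 : 0 ≤ B := by linarith
  induction i with
  | zero => simp
  | succ i ih =>
    have e : a ^ (i + 1) - b ^ (i + 1) = a * (a ^ i - b ^ i) + (a - b) * b ^ i := by ring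
    rw [e]
    refine (norm_add_le _ _).trans ?_
    rw [norm_mul, norm_mul, norm_pow]
    have h1 : ‖a‖ * ‖a ^ i - b ^ i‖ ≤ B * (i * B ^ i * δ) := mul_le_mul ha ih (norm_nonneg _) hB0
    have h2 : ‖a - b‖ * ‖b‖ ^ i ≤ δ * B ^ i :=
      mul_le_mul hab (pow_le_pow_left₀ (norm_nonneg _) hb i) (by positivity) hδ
    have h3 : δ * B ^ i ≤ δ * B ^ (i + 1) :=
      mul_le_mul_of_nonneg_left (pow_le_pow_right₀ hB (Nat.le_succ i)) hδ
    have h4 : B * (i * B ^ i * δ) + δ * B ^ (i + 1) = ((i + 1 : ℕ) : ℝ) * B ^ (i + 1) * δ := by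
      push_cast
      ring
    linarith

theorem rel_alg {k : ℕ} (P : Fin k → ℂ) (y : ℂ) (d : ℕ) : ∃ X0 : ℝ, 1 ≤ X0 ∧
    ∀ (X L0 : ℝ) (w : ℂ), X0 ≤ X → X ≤ L0 → AlgB d X w → ‖w - y‖ ≤ Real.exp (-(2 * L0)) →
      Rel X L0 P y := by
  obtain ⟨B, hB⟩ : ∃ B : ℝ, B = ‖y‖ + 1 := ⟨_, rfl⟩
  have hy0 := norm_nonneg y
  have hB1 : 1 ≤ B := by linarith
  have hB0 : 0 ≤ B := by linarith
  have hd0 : (0 : ℝ) ≤ d := Nat.cast_nonneg d
  have hE0 : 0 ≤ 2 * d * B ^ d := by positivity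
  refine ⟨1 + d + 2 * d * B ^ d, by linarith, ?_⟩
  rintro X L0 w hX hL ⟨F, hF0, hFd, hFX, hFw⟩ hw
  have hX1 : 1 ≤ X := by linarith
  have hXE : X ≤ Real.exp X := by linarith [Real.add_one_le_exp X]
  obtain ⟨δ, hδ⟩ : ∃ δ : ℝ, δ = Real.exp (-(2 * L0)) := ⟨_, rfl⟩
  have hδ0 : 0 ≤ δ := by
    rw [hδ]
    exact (Real.exp_pos _).le
  have hδ1 : δ ≤ 1 := by
    rw [hδ, Real.exp_le_one_iff]
    linarith
  rw [← hδ] at hw
  have hwB : ‖w‖ ≤ B := by
    have e : w = (w - y) + y := by ring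
    have h1 := norm_add_le (w - y) y
    rw [← e] at h1
    linarith
  have hn : 0 < F.natDegree := by
    rw [Nat.pos_iff_ne_zero]
    intro h0
    rw [Polynomial.eq_C_of_natDegree_eq_zero h0, Polynomial.aeval_C, algebraMap_int_eq, eq_intCast,
      Int.cast_eq_zero] at hFw
    apply hF0
    rw [Polynomial.eq_C_of_natDegree_eq_zero h0, hFw, Polynomial.C_0]
  have hlc : F.coeff F.natDegree ≠ 0 := by
    rw [Polynomial.coeff_natDegree]
    exact Polynomial.leadingCoeff_ne_zero.2 hF0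
  have hnd : (F.natDegree : ℝ) ≤ d := by exact_mod_cast hFd
  refine ⟨F.natDegree, fun i => MvPolynomial.C (F.coeff i), hn, by linarith, fun j _ => ?_,
    fun j hj => ?_, ?_, ?_⟩
  · rw [MvPolynomial.totalDegree_C, Nat.cast_zero]
    linarith
  · rw [H32.T3.nrm_C]
    have := C6_coeff F hj
    linarith
  · rw [MvPolynomial.aeval_C, algebraMap_int_eq, eq_intCast, Complex.norm_intCast]
    have h1 : Real.exp (-X) ≤ 1 := by
      rw [Real.exp_le_one_iff]
      linarith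
    have h2 : (1 : ℝ) ≤ |((F.coeff F.natDegree : ℤ) : ℝ)| := by
      exact_mod_cast Int.one_le_abs hlc
    exact h1.trans h2
  · have h1 : ∑ j ∈ Finset.range (F.natDegree + 1), MvPolynomial.aeval P
        (MvPolynomial.C (F.coeff j)) * y ^ j = Polynomial.aeval y F - Polynomial.aeval w F := by
      rw [hFw, sub_zero, Polynomial.aeval_eq_sum_range]
      refine Finset.sum_congr rfl fun j _ => ?_
      rw [MvPolynomial.aeval_C, algebraMap_int_eq, eq_intCast, zsmul_eq_mul]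
    rw [h1]
    have h2 := C6_sub F hFd hB1 (by linarith : ‖y‖ ≤ B) hwB (by rw [norm_sub_rev]; exact hw) hδ0
    refine h2.trans ?_
    have h3 : nr F * (d * B ^ d * δ) ≤ X * (d * B ^ d * δ) :=
      mul_le_mul_of_nonneg_right hFX (by positivity)
    refine h3.trans ?_
    have h4 : X * (d * B ^ d) ≤ Real.exp X := by
      have h5 := Real.quadratic_le_exp_of_nonneg (by linarith : 0 ≤ X)
      have h6 : X * (2 * d * B ^ d) ≤ X * X := mul_le_mul_of_nonneg_left (by linarith) (by linarith)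
      nlinarith
    have h7 : Real.exp L0 * Real.exp (-(2 * L0)) = Real.exp (-L0) := by
      rw [← Real.exp_add]
      congr 1
      ring
    calc X * (d * B ^ d * δ) = X * (d * B ^ d) * δ := by ring
      _ ≤ Real.exp L0 * δ := mul_le_mul_of_nonneg_right
          (h4.trans (Real.exp_le_exp.2 hL)) hδ0
      _ = Real.exp (-L0) := by rw [hδ, h7]

theorem rel_root (J w : ℂ) : ∃ X0 : ℝ, 1 ≤ X0 ∧ ∀ (X L0 : ℝ) (J' w' : ℂ), X0 ≤ X →
    X ^ 2 ≤ L0 → RootRel X J' w' → ‖J' - J‖ ≤ Real.exp (-(2 * L0)) →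
    ‖w' - w‖ ≤ Real.exp (-(2 * L0)) → Rel X L0 ![J] w := by
  obtain ⟨B, hB⟩ : ∃ B : ℝ, B = ‖J‖ + ‖w‖ + 1 := ⟨_, rfl⟩
  have hJ0 := norm_nonneg J
  have hw0 := norm_nonneg w
  have hB1 : 1 ≤ B := by linarith
  have hB0 : 0 < B := by linarith
  obtain ⟨b, hb⟩ : ∃ b : ℝ, b = Real.log B := ⟨_, rfl⟩
  have hb0 : 0 ≤ b := by
    rw [hb]
    exact Real.log_nonneg hB1
  have hBb : B = Real.exp b := by rw [hb, Real.exp_log hB0]
  refine ⟨3 + 2 * b, by linarith, ?_⟩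
  rintro X L0 J' w' hX hL ⟨M, r, c, hM, hMX, hc, hrM, hd, hn, hs⟩ hJ' hw'
  have hX1 : 1 ≤ X := by linarith
  have hX0 : 0 ≤ X := by linarith
  have hL0 : 0 ≤ L0 := (sq_nonneg X).trans hL
  obtain ⟨δ, hδ⟩ : ∃ δ : ℝ, δ = Real.exp (-(2 * L0)) := ⟨_, rfl⟩
  have hδ0 : 0 ≤ δ := by
    rw [hδ]
    exact (Real.exp_pos _).le
  have hδ1 : δ ≤ 1 := by
    rw [hδ, Real.exp_le_one_iff]
    linarith
  rw [← hδ] at hw' hJ'
  have hwB : ‖w'‖ ≤ B := by
    have e : w' = (w' - w) + w := by ring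
    have h1 := norm_add_le (w' - w) w
    rw [← e] at h1
    linarith
  have hJB : ‖J'‖ ≤ B := by
    have e : J' = (J' - J) + J := by ring
    have h1 := norm_add_le (J' - J) J
    rw [← e] at h1
    linarith
  obtain ⟨N, hN⟩ : ∃ N : ℕ, N = ⌊X⌋₊ := ⟨_, rfl⟩
  have hNX : (N : ℝ) ≤ X := by
    rw [hN]
    exact Nat.floor_le hX0
  have hdN : ∀ i, (r i).natDegree ≤ N := fun i => by
    rw [hN]
    exact Nat.le_floor (hd i)
  have hMN : M ≤ N := by
    rw [hN]
    exact Nat.le_floor hMX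
  refine ⟨M, fun i => A6_mv (0 : Fin 1) (r i), hM, hMX, fun j _ => ?_, fun j _ => ?_, ?_, ?_⟩
  · have h1 : ((A6_mv (0 : Fin 1) (r j)).totalDegree : ℝ) ≤ ((r j).natDegree : ℝ) := by
      exact_mod_cast A6_mv_deg 0 (r j)
    exact h1.trans (hd j)
  · exact (A6_mv_nrm 0 (r j)).trans (hn j)
  · rw [A6_mv_aeval, hrM, Polynomial.aeval_C, algebraMap_int_eq, eq_intCast, Complex.norm_intCast]
    have h1 : Real.exp (-X) ≤ 1 := by
      rw [Real.exp_le_one_iff]
      linarith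
    have h2 : (1 : ℝ) ≤ |(c : ℝ)| := by
      exact_mod_cast Int.one_le_abs hc
    exact h1.trans h2
  · have h1 : ∑ j ∈ Finset.range (M + 1), MvPolynomial.aeval ![J] (A6_mv (0 : Fin 1) (r j)) * w ^ j =
        ∑ j ∈ Finset.range (M + 1), ((Polynomial.aeval J (r j) - Polynomial.aeval J' (r j)) * w ^ j +
          Polynomial.aeval J' (r j) * (w ^ j - w' ^ j)) := by
      rw [← sub_zero (∑ j ∈ Finset.range (M + 1), MvPolynomial.aeval ![J] (A6_mv (0 : Fin 1) (r j)) *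
        w ^ j), ← hs, ← Finset.sum_sub_distrib]
      refine Finset.sum_congr rfl fun j _ => ?_
      rw [A6_mv_aeval]
      change Polynomial.aeval J (r j) * w ^ j - _ = _
      ring
    rw [h1]
    have hBN : 0 ≤ B ^ N := by positivity
    have h2 : ∀ j ∈ Finset.range (M + 1),
        ‖(Polynomial.aeval J (r j) - Polynomial.aeval J' (r j)) * w ^ j +
          Polynomial.aeval J' (r j) * (w ^ j - w' ^ j)‖ ≤
          Real.exp X * (2 * X) * (B ^ N * B ^ N) * δ := by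
      intro j hj
      have hjM : j ≤ M := Nat.lt_succ_iff.1 (Finset.mem_range.1 hj)
      have hjN : j ≤ N := hjM.trans hMN
      have hjX : (j : ℝ) ≤ X := by
        have : (j : ℝ) ≤ N := by exact_mod_cast hjN
        linarith
      have hBj : B ^ j ≤ B ^ N := pow_le_pow_right₀ hB1 hjN
      have hBj0 : 0 ≤ B ^ j := by positivity
      have a1 : ‖Polynomial.aeval J (r j) - Polynomial.aeval J' (r j)‖ ≤
          Real.exp X * (X * B ^ N * δ) := by
        refine (C6_sub (r j) (hdN j) hB1 (by linarith : ‖J‖ ≤ B) hJB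
          (by rw [norm_sub_rev]; exact hJ') hδ0).trans ?_
        refine mul_le_mul (hn j) ?_ (by positivity) (Real.exp_pos _).le
        exact mul_le_mul_of_nonneg_right (mul_le_mul_of_nonneg_right hNX hBN) hδ0
      have a2 : ‖w‖ ^ j ≤ B ^ N := by
        have hwB' : ‖w‖ ≤ B := by linarith
        exact (pow_le_pow_left₀ (norm_nonneg _) hwB' j).trans hBj
      have a3 : ‖Polynomial.aeval J' (r j)‖ ≤ Real.exp X * B ^ N :=
        (C6_le (r j) (hdN j) hB1 hJB).trans (mul_le_mul_of_nonneg_right (hn j) hBN)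
      have a4 : ‖w ^ j - w' ^ j‖ ≤ X * B ^ N * δ := by
        have hww : ‖w - w'‖ ≤ δ := by
          rw [norm_sub_rev]
          exact hw'
        refine (C6_pow hB1 (by linarith : ‖w‖ ≤ B) hwB hww j).trans ?_
        exact mul_le_mul_of_nonneg_right (mul_le_mul hjX hBj hBj0 hX0) hδ0
      refine (norm_add_le _ _).trans ?_
      rw [norm_mul, norm_mul, norm_pow]
      have b1 := mul_le_mul a1 a2 (by positivity) (by positivity)
      have b2 := mul_le_mul a3 a4 (norm_nonneg _) (by positivity)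
      have e : Real.exp X * (2 * X) * (B ^ N * B ^ N) * δ =
          Real.exp X * (X * B ^ N * δ) * B ^ N + Real.exp X * B ^ N * (X * B ^ N * δ) := by ring
      rw [e]
      exact add_le_add b1 b2
    refine (norm_sum_le_of_le _ h2).trans ?_
    rw [Finset.sum_const, Finset.card_range, nsmul_eq_mul]
    have h3 : ((M + 1 : ℕ) : ℝ) ≤ Real.exp X := by
      push_cast
      linarith [Real.add_one_le_exp X]
    have h4 : 2 * X ≤ Real.exp X := by
      have := Real.quadratic_le_exp_of_nonneg hX0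
      nlinarith [sq_nonneg (X - 1)]
    have h5 : B ^ N * B ^ N ≤ Real.exp (2 * b * X) := by
      rw [← pow_add, hBb, ← Real.exp_nat_mul]
      apply Real.exp_le_exp.2
      push_cast
      nlinarith
    have h6 : Real.exp X * (2 * X) * (B ^ N * B ^ N) ≤
        Real.exp X * Real.exp X * Real.exp (2 * b * X) :=
      mul_le_mul (mul_le_mul_of_nonneg_left h4 (Real.exp_pos _).le) h5 (by positivity)
        (by positivity)
    calc ((M + 1 : ℕ) : ℝ) * (Real.exp X * (2 * X) * (B ^ N * B ^ N) * δ)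
        ≤ Real.exp X * (Real.exp X * Real.exp X * Real.exp (2 * b * X) * δ) :=
          mul_le_mul h3 (mul_le_mul_of_nonneg_right h6 hδ0) (by positivity) (Real.exp_pos _).le
      _ = Real.exp ((3 + 2 * b) * X + -(2 * L0)) := by
          rw [hδ, ← Real.exp_add, ← Real.exp_add, ← Real.exp_add, ← Real.exp_add]
          congr 1
          ring
      _ ≤ Real.exp (-L0) := by
          apply Real.exp_le_exp.2
          have : (3 + 2 * b) * X ≤ X * X := mul_le_mul_of_nonneg_right hX hX0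
          nlinarith

end AK
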