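import Pool.Agent.H32.AK.B3
import Pool.Agent.H32.AK.C3
import Pool.Agent.H32.AK.C5
import Pool.Agent.H32.AK.C6
import Pool.Agent.H32.AO.A5

/-!
# MP_ede373, points algebraic over `ℚ(t)`, row C7: no approximations of `j(y)` of exponent `5` in a window

`y = τ`, `J = jf τ`. `b, lam, h, kap, ep, ..` from `base_nc τ hcm`; `Cw` from `win_of_near y d A`; `Q5` from `na5` for this `Cw`; `B ≥ ‖Pt ep h y i‖ + 1, ‖J‖ + 1`; `X5` from `AO.ext_many 1 6 B`. Relations of each entry of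
`Pt ep h y = ![ep, 0, ep, 0, h, y]` over `![J]`: for `ep, 0, h`: `AO.rel_near` (file `Pool/Agent/H32/AO/A6.lean`) with `k = 1`, `r = 0` (`winf` the empty tuple, `Fin.append ![J] winf` is `![J]` up to
reindexing, its range is the range of `![J]`; `0` is algebraic), so `Rel X L0 ![J] _` for `X0 ≤ X ≤ L0` (use `Rel` with the tuple `Fin.append ![J] w : Fin (1 + 0) → ℂ`, which is `![J]` by `funext`). For `y`: `rel_alg ![J] y d`.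

Put `c = 138 (A + 1) + 7`. Given `κ`, `κ' = κ + 3`. Let `q ≥ Q0`, `w` as in the statement, `X = q^(A+1)`, `L0 = q^(κ+1)`, and `t, V` with `q^c t^5 ≤ V ≤ q^κ` and `ApprAt ![J] t V`.
(If `κ < c` there are no such `V` for `q ≥ 2`; so we may assume `A + 1 ≤ κ + 1`, i.e. `X ≤ L0`.) `exp (-q^(κ+3)) ≤ exp (-(2 L0))` and `AlgB d (q^A) w` gives `AlgB d X w`. So all entries have `Rel X L0 ![J] _`. `ApprC.of_at` (file
`Pool/Agent/H32/AO/A1.lean`) gives `ApprC ![J] t (min V L0) L0`, `min V L0 = V`. `ext_many`: `X^42 t ≤ V` holds, so `ApprC (append ![J] (Pt ..)) (X^24 t) (V / X^18) L0`, reindex (`Fin.natAdd 1`) and `ApprC.at`: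
`ApprAt (Pt ep h y) t2 V2`, `t2 = X^24 t ≥ 1`, `V2 = V / X^18`. `t2^5 = X^120 t^5 ≤ V2` because `X^138 t^5 ≤ q^c t^5 ≤ V`; `q^6 ≤ V2` because `X^18 q^6 ≤ q^c ≤ V`; `V2 ≤ V ≤ q^(κ+2)`; the window `Win y Cw q (q^(κ+2))` is
`win_of_near` for `κ + 2` (closeness `exp (-q^(κ+3))`). Contradiction with `na5`. `Q0` is the maximum of all bounds (for `X0 ≤ X` note `X ≥ q`).
-/

set_option autoImplicit false

open EisensteinSeries ModularForm UpperHalfPlane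

namespace AK

open CZ AO H32 H32.T3

private theorem C7_rel0 (J y : ℂ)
    (h : IsAlgebraic (IntermediateField.adjoin ℚ (Set.range ![J])) y) :
    ∃ X0 : ℝ, 1 ≤ X0 ∧ ∀ X L0 : ℝ, X0 ≤ X → X ≤ L0 → Rel X L0 ![J] y := by
  have e : ∀ w : Fin 0 → ℂ, (Fin.append ![J] w : Fin (1 + 0) → ℂ) = ![J] := by
    intro w
    rw [Fin.append_right_nil _ _ rfl]
    rfl
  obtain ⟨X0, hX0, hrel⟩ := rel_near ![J] (fun i : Fin 0 => i.elim0) y
    (by rw [e]; exact h)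
  refine ⟨X0, hX0, fun X L0 hX hL => ?_⟩
  have h1 := hrel X L0 (fun i : Fin 0 => i.elim0) hX hL (fun j => j.elim0)
  rw [e] at h1
  exact h1

private theorem C7_mono {d : ℕ} {X X' : ℝ} {w : ℂ} (h : AlgB d X w) (hX : X ≤ X') :
    AlgB d X' w := by
  obtain ⟨F, h1, h2, h3, h4⟩ := h
  exact ⟨F, h1, h2, h3.trans hX, h4⟩

theorem no_w (τ : ℍ) (hcm : NCM (τ : ℂ)) (d A : ℕ) : ∃ c : ℕ, ∀ κ : ℕ, ∃ κ' Q0 : ℕ,
    ∀ (q : ℕ) (w : ℂ), Q0 ≤ q → NCM w → AlgB d ((q : ℝ) ^ A) w →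
      ‖w - τ‖ ≤ Real.exp (-(q : ℝ) ^ κ') →
      ∀ t V : ℝ, 1 ≤ t → (q : ℝ) ^ c * t ^ 5 ≤ V → V ≤ (q : ℝ) ^ κ → ¬ ApprAt ![jf τ] t V := by
  obtain ⟨b, lam, h, kap, ep, ε, Xf, X1f, Yf, hsys, hep, hh⟩ := base_nc τ hcm
  obtain ⟨J, hJ⟩ : ∃ J, J = jf τ := ⟨_, rfl⟩
  rw [← hJ] at hep hh
  rw [← hJ]
  obtain ⟨Cw, hCw, hwin⟩ := win_of_near (τ : ℂ) d A
  obtain ⟨Q5, hQ5⟩ := na5 (y := (τ : ℂ)) τ.im_pos hsys Cw hCw
  -- bounds
  obtain ⟨B, hBJ, hBP⟩ : ∃ B : ℝ, (∀ i, ‖(![J] : Fin 1 → ℂ) i‖ + 1 ≤ B) ∧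
      ∀ i, ‖MJ.Pt ep h (τ : ℂ) i‖ + 1 ≤ B := by
    have h0 : 0 ≤ ∑ i, ‖(![J] : Fin 1 → ℂ) i‖ := Finset.sum_nonneg fun _ _ => norm_nonneg _
    have h1 : 0 ≤ ∑ i, ‖MJ.Pt ep h (τ : ℂ) i‖ := Finset.sum_nonneg fun _ _ => norm_nonneg _
    refine ⟨1 + ∑ i, ‖(![J] : Fin 1 → ℂ) i‖ + ∑ i, ‖MJ.Pt ep h (τ : ℂ) i‖, fun i => ?_,
      fun i => ?_⟩
    · have h2 : ‖(![J] : Fin 1 → ℂ) i‖ ≤ ∑ i, ‖(![J] : Fin 1 → ℂ) i‖ :=
        Finset.single_le_sum (f := fun i => ‖(![J] : Fin 1 → ℂ) i‖) (fun _ _ => norm_nonneg _)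
          (Finset.mem_univ i)
      linarith
    · have h2 : ‖MJ.Pt ep h (τ : ℂ) i‖ ≤ ∑ i, ‖MJ.Pt ep h (τ : ℂ) i‖ :=
        Finset.single_le_sum (f := fun i => ‖MJ.Pt ep h (τ : ℂ) i‖) (fun _ _ => norm_nonneg _)
          (Finset.mem_univ i)
      linarith
  obtain ⟨X5, hX5, hext⟩ := ext_many 1 6 B
  -- relations
  obtain ⟨Xa, hXa, hra⟩ := C7_rel0 J ep hep
  obtain ⟨Xb, hXb, hrb⟩ := C7_rel0 J 0 isAlgebraic_zero
  obtain ⟨Xc, hXc, hrc⟩ := C7_rel0 J h hh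
  obtain ⟨Xd, hXd, hrd⟩ := rel_alg ![J] (τ : ℂ) d
  refine ⟨138 * (A + 1) + 7, fun κ => ?_⟩
  obtain ⟨Qw, hQw⟩ := hwin (κ + 2)
  refine ⟨κ + 3, max (max (max 2 Q5) Qw) ⌈X5 + Xa + Xb + Xc + Xd⌉₊, ?_⟩
  intro q w hq hw hAw hwy t V ht hV hVk happ
  have hq2 : 2 ≤ q := (le_max_left 2 Q5).trans ((le_max_left _ Qw).trans ((le_max_left _ _).trans hq))
  have hq5 : Q5 ≤ q := (le_max_right 2 Q5).trans ((le_max_left _ Qw).trans ((le_max_left _ _).trans hq))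
  have hqw : Qw ≤ q := (le_max_right _ Qw).trans ((le_max_left _ _).trans hq)
  have hqx : X5 + Xa + Xb + Xc + Xd ≤ (q : ℝ) :=
    (Nat.le_ceil _).trans (by exact_mod_cast (le_max_right _ _).trans hq)
  have hq2R : (2 : ℝ) ≤ q := by exact_mod_cast hq2
  have hq1R : (1 : ℝ) ≤ q := by linarith
  have hq1s : (1 : ℝ) < q := by linarith
  have hq0R : (0 : ℝ) < q := by linarith
  have hpw : ∀ {a b : ℕ}, a ≤ b → (q : ℝ) ^ a ≤ (q : ℝ) ^ b :=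
    fun hab => pow_le_pow_right₀ hq1R hab
  have ht0 : 0 < t := by linarith
  have ht5 : 1 ≤ t ^ 5 := one_le_pow₀ ht
  have htt : t ≤ t ^ 5 := le_self_pow₀ ht (by norm_num)
  -- `c ≤ κ`
  have hcκ : 138 * (A + 1) + 7 ≤ κ := by
    have h1 : (q : ℝ) ^ (138 * (A + 1) + 7) ≤ (q : ℝ) ^ κ := by
      calc (q : ℝ) ^ (138 * (A + 1) + 7) = (q : ℝ) ^ (138 * (A + 1) + 7) * 1 := (mul_one _).symm
        _ ≤ (q : ℝ) ^ (138 * (A + 1) + 7) * t ^ 5 := mul_le_mul_of_nonneg_left ht5 (by positivity)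
        _ ≤ V := hV
        _ ≤ _ := hVk
    exact (pow_le_pow_iff_right₀ hq1s).1 h1
  obtain ⟨X, hX⟩ : ∃ X : ℝ, X = (q : ℝ) ^ (A + 1) := ⟨_, rfl⟩
  obtain ⟨L0, hL0⟩ : ∃ L0 : ℝ, L0 = (q : ℝ) ^ (κ + 1) := ⟨_, rfl⟩
  have hqX : (q : ℝ) ≤ X := by
    rw [hX]
    calc (q : ℝ) = (q : ℝ) ^ 1 := (pow_one _).symm
      _ ≤ (q : ℝ) ^ (A + 1) := hpw (by omega)
  have hX1 : 1 ≤ X := hq1R.trans hqX
  have hX0 : 0 < X := by linarith
  have hXL : X ≤ L0 := by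
    rw [hX, hL0]
    exact hpw (by omega)
  have hL0p : 0 ≤ L0 := by linarith
  have hVL : V ≤ L0 := hVk.trans (by rw [hL0]; exact hpw (by omega))
  have hXp : ∀ n : ℕ, X ^ n = (q : ℝ) ^ ((A + 1) * n) := fun n => by rw [hX, pow_mul]
  -- closeness
  have hclose : ‖w - (τ : ℂ)‖ ≤ Real.exp (-(2 * L0)) := by
    refine hwy.trans (Real.exp_le_exp.2 (neg_le_neg ?_))
    rw [hL0]
    calc 2 * (q : ℝ) ^ (κ + 1) ≤ q * (q : ℝ) ^ (κ + 1) :=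
          mul_le_mul_of_nonneg_right hq2R (by positivity)
      _ = (q : ℝ) ^ (κ + 2) := by ring
      _ ≤ (q : ℝ) ^ (κ + 3) := hpw (by omega)
  have hAX : AlgB d X w := C7_mono hAw (by rw [hX]; exact hpw (by omega))
  have ra := hra X L0 (by linarith) hXL
  have rb := hrb X L0 (by linarith) hXL
  have rc := hrc X L0 (by linarith) hXL
  have rd := hrd X L0 w (by linarith) hXL hAX hclose
  have hrel : ∀ j, Rel X L0 ![J] (MJ.Pt ep h (τ : ℂ) j) := by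
    intro j
    fin_cases j
    · exact ra
    · exact rb
    · exact ra
    · exact rb
    · exact rc
    · exact rd
  -- the approximations
  have hc0 := ApprC.of_at hL0p happ
  rw [min_eq_left hVL] at hc0
  have hV42 : X ^ (7 * 6) * t ≤ V := by
    refine le_trans ?_ hV
    rw [hXp]
    exact mul_le_mul (hpw (by omega)) htt ht0.le (by positivity)
  have hc1 := hext X (by linarith) ![J] (MJ.Pt ep h (τ : ℂ)) L0 t V hBJ hBP hrel ht hV42 hc0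
  have hc2 := hc1.reindex (Fin.natAdd 1)
  have e2 : (fun i : Fin 6 => (Fin.append ![J] (MJ.Pt ep h (τ : ℂ)) : Fin (1 + 6) → ℂ)
      (Fin.natAdd 1 i)) = MJ.Pt ep h (τ : ℂ) := by
    funext i
    exact Fin.append_right _ _ i
  rw [e2] at hc2
  have hc3 := hc2.at
  -- numbers
  have hXpos : ∀ n : ℕ, 0 < X ^ n := fun n => pow_pos hX0 n
  refine hQ5 q ((q : ℝ) ^ (κ + 2)) hq5 (hQw q w hqw hw hAw hwy) (X ^ (4 * 6) * t)
    (V / X ^ (3 * 6)) ?_ ?_ ?_ ?_ hc3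
  · exact one_le_mul_of_one_le_of_one_le (one_le_pow₀ hX1) ht
  · rw [le_div_iff₀ (hXpos _), hXp, ← pow_add]
    calc (q : ℝ) ^ (6 + (A + 1) * (3 * 6)) ≤ (q : ℝ) ^ (138 * (A + 1) + 7) := hpw (by omega)
      _ = (q : ℝ) ^ (138 * (A + 1) + 7) * 1 := (mul_one _).symm
      _ ≤ (q : ℝ) ^ (138 * (A + 1) + 7) * t ^ 5 := mul_le_mul_of_nonneg_left ht5 (by positivity)
      _ ≤ V := hV
  · have hV0 : 0 ≤ V := le_trans (by positivity) hV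
    calc V / X ^ (3 * 6) ≤ V := div_le_self hV0 (one_le_pow₀ hX1)
      _ ≤ (q : ℝ) ^ κ := hVk
      _ ≤ (q : ℝ) ^ (κ + 2) := hpw (by omega)
  · rw [le_div_iff₀ (hXpos _)]
    calc (X ^ (4 * 6) * t) ^ 5 * X ^ (3 * 6) = X ^ 138 * t ^ 5 := by ring
      _ ≤ (q : ℝ) ^ (138 * (A + 1) + 7) * t ^ 5 := by
          apply mul_le_mul_of_nonneg_right _ (by positivity)
          rw [hXp]
          exact hpw (by omega)
      _ ≤ V := hV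

end AK
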