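import Pool.Agent.H32.AK.C7
import Pool.Agent.H32.AZ.L

/-!
# MP_ede373, points algebraic over `ℚ(t)`, row C7b: the measure of `j(y)` in a window

`c` from `no_w τ hcm d A`, `κ1 = c + 7`. Given `κ`, use `no_w` with `κ_w = c + 6 + 5 (κ + 1)`. `J = jf τ`.
(1) If `J` is algebraic over `ℚ` then `ApprAt ![J] t0 V` for all `V` with a fixed `t0 ≥ 1` (`E = IntermediateField.adjoin ℚ {J}`, `x = ![J]`, `S = {inclusion}`, `d = max V 0`, see `MJ.J13_tr` in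
`Pool/Agent/H32/MJ/J13.lean`), and for large `q`: `V = q^c t0^5 ≤ q^κ_w`, a contradiction with `no_w`; so the statement is vacuous for `q ≥ Q0`.
(2) `J` transcendental. Suppose `f ≠ 0`, `natDegree f ≤ Λ`, `nr f ≤ exp Λ`, `q ≤ Λ ≤ q^κ`, and `‖aeval J f‖ < exp (-Λ^κ1)`. `CZ.good_factor f hf J (Λ^κ1) ..` (file `Pool/Agent/H32/CZ/Pj.lean`; `aeval J f ≠ 0`) gives an irreducible `r`,
`0 < natDegree r`, with `s := natDegree r + log (mah r) ≤ natDegree f + log (mah f) ≤ 2 Λ` (`mah_le_nr`), `s ≥ 1`, and `Λ^κ1 s ≤ 2 Λ (-log ‖aeval J r‖)`. `AZ.line_local J _ r` (file `Pool/Agent/H32/AZ/L.lean`) gives `ApprAt ![J] s W` with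
`W ≥ -log ‖aeval J r‖ ≥ Λ^(κ1-1) s / 2`. Put `V = q^c s^5`. `V ≤ Λ^c (2 Λ)^4 s = 16 Λ^(c+4) s ≤ Λ^(c+6) s / 2 ≤ W` for `Λ ≥ 6`, so `ApprAt ![J] s V` (smaller `V` is weaker, `le_trans`), and
`V ≤ q^c (2 Λ)^5 ≤ 32 q^(c + 5 κ) ≤ q^κ_w` for `q ≥ 2`. Contradiction with `no_w`. (Compare `MJ.meas_of_not_appr` in `Pool/Agent/H32/MJ/J13.lean`.)
-/

set_option autoImplicit false

open EisensteinSeries ModularForm UpperHalfPlane

namespace AK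

open CZ AO H32 H32.T3

theorem C7b_alg (J : ℂ) (hJ : IsAlgebraic ℚ J) : ∃ t0 : ℝ, 1 ≤ t0 ∧ ∀ V : ℝ, ApprAt ![J] t0 V := by
  have hfd : FiniteDimensional ℚ (IntermediateField.adjoin ℚ {J}) :=
    IntermediateField.adjoin.finiteDimensional hJ.isIntegral
  have : NumberField (IntermediateField.adjoin ℚ {J}) :=
    { to_charZero := inferInstance, to_finiteDimensional := hfd }
  have hmem : J ∈ IntermediateField.adjoin ℚ {J} :=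
    IntermediateField.subset_adjoin ℚ _ (Set.mem_singleton _)
  set x : IntermediateField.adjoin ℚ {J} := ⟨J, hmem⟩ with hx
  set t : ℝ := max 1 (max (Module.finrank ℚ (IntermediateField.adjoin ℚ {J})) (hE x)) with ht
  refine ⟨t, le_max_left _ _, fun V => ?_⟩
  refine ⟨IntermediateField.adjoin ℚ {J}, inferInstance,
    inferInstance, ![x], {(IntermediateField.adjoin ℚ {J}).val.toRingHom},
    fun _ => max V 0, (le_max_left _ _).trans (le_max_right _ _), ?_, ?_, ?_⟩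
  · intro i
    fin_cases i
    exact (le_max_right _ _).trans (le_max_right _ _)
  · intro φ hφ
    rw [Finset.mem_singleton] at hφ
    refine ⟨le_max_right _ _, fun i => ?_⟩
    fin_cases i
    subst hφ
    have h1 : (IntermediateField.adjoin ℚ {J}).val.toRingHom x = J := rfl
    show ‖(IntermediateField.adjoin ℚ {J}).val.toRingHom x - J‖ ≤ _
    rw [h1, sub_self, norm_zero]
    exact (Real.exp_pos _).le
  · rw [Finset.sum_singleton]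
    exact le_max_left _ _

theorem C7b_mono {J : ℂ} {t V W : ℝ} (h : ApprAt ![J] t W) (hV : V ≤ W) : ApprAt ![J] t V := by
  obtain ⟨E, i1, i2, x, S, d, h1, h2, h3, h4⟩ := h
  exact ⟨E, i1, i2, x, S, d, h1, h2, h3, hV.trans h4⟩

theorem C7b_main {J : ℂ} (hJ : Transcendental ℚ J) {c κ q : ℕ} (hq : 6 ≤ q)
    (hno : ∀ t V : ℝ, 1 ≤ t → (q : ℝ) ^ c * t ^ 5 ≤ V → V ≤ (q : ℝ) ^ (c + 6 + 5 * (κ + 1)) →
      ¬ ApprAt ![J] t V) (f : Polynomial ℤ) (Λ : ℕ) (hf : f ≠ 0) (hqΛ : q ≤ Λ)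
    (hΛκ : (Λ : ℝ) ≤ (q : ℝ) ^ κ) (hdeg : f.natDegree ≤ Λ) (hnr : CZ.nr f ≤ Real.exp Λ) :
    Real.exp (-(Λ : ℝ) ^ (c + 7)) ≤ ‖Polynomial.aeval J f‖ := by
  have hae : Polynomial.aeval J f ≠ 0 := by
    intro h
    exact hJ ((IsFractionRing.isAlgebraic_iff ℤ ℚ ℂ).1 ⟨f, hf, h⟩)
  by_contra hcon
  have hcon' := not_le.1 hcon
  have hq6 : (6 : ℝ) ≤ q := by exact_mod_cast hq
  have hq0 : (0 : ℝ) < q := by linarith
  have hq1 : (1 : ℝ) ≤ q := by linarith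
  have hqΛr : (q : ℝ) ≤ Λ := by exact_mod_cast hqΛ
  have hΛ6 : (6 : ℝ) ≤ Λ := hq6.trans hqΛr
  have hΛ0 : (0 : ℝ) < Λ := by linarith
  obtain ⟨r, hr, hn, -, hsz, hV⟩ := good_factor f hf J ((Λ : ℝ) ^ (c + 7)) (by positivity) hae hcon'.le
  obtain ⟨W, hA, hW⟩ := AZ.line_local J hJ r hr hn
  obtain ⟨s, hs⟩ : ∃ s : ℝ, s = r.natDegree + Real.log (mah r) := ⟨_, rfl⟩
  rw [← hs] at hA hsz hV
  have hmah : 1 ≤ mah r := one_le_mah hr.ne_zero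
  have hlog0 : 0 ≤ Real.log (mah r) := Real.log_nonneg hmah
  have hn1 : (1 : ℝ) ≤ r.natDegree := by exact_mod_cast hn
  have hs1 : 1 ≤ s := by linarith
  have hs0 : 0 < s := by linarith
  have hfs : (f.natDegree : ℝ) + Real.log (mah f) ≤ 2 * Λ := by
    have h1 : (f.natDegree : ℝ) ≤ Λ := by exact_mod_cast hdeg
    have h2 : Real.log (mah f) ≤ Λ := by
      have h3 : 1 ≤ mah f := one_le_mah hf
      rw [Real.log_le_iff_le_exp (by linarith)]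
      exact (mah_le_nr f).trans hnr
    linarith
  have hs2 : s ≤ 2 * Λ := hsz.trans hfs
  have hW0 : (Λ : ℝ) ^ (c + 6) * s ≤ 2 * W := by
    have h2 : 0 < -Real.log ‖Polynomial.aeval J r‖ := by
      by_contra hcon
      have h3 : -Real.log ‖Polynomial.aeval J r‖ ≤ 0 := not_lt.1 hcon
      have h4 : 0 ≤ (f.natDegree : ℝ) + Real.log (mah f) := by linarith
      have h5 := mul_nonpos_of_nonneg_of_nonpos h4 h3
      have h0 : 0 < (Λ : ℝ) ^ (c + 7) * s := by positivity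
      linarith
    have h3 : (Λ : ℝ) ^ (c + 7) * s ≤ 2 * Λ * W := by
      refine (hV.trans (mul_le_mul_of_nonneg_right hfs h2.le)).trans ?_
      exact mul_le_mul_of_nonneg_left hW (by positivity)
    have h5 : (Λ : ℝ) * ((Λ : ℝ) ^ (c + 6) * s) ≤ Λ * (2 * W) := by
      calc (Λ : ℝ) * ((Λ : ℝ) ^ (c + 6) * s) = (Λ : ℝ) ^ (c + 7) * s := by ring
        _ ≤ 2 * Λ * W := h3
        _ = Λ * (2 * W) := by ring
    exact le_of_mul_le_mul_left h5 hΛ0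
  have hqc : (q : ℝ) ^ c ≤ (Λ : ℝ) ^ c := pow_le_pow_left₀ hq0.le hqΛr c
  have hVW : (q : ℝ) ^ c * s ^ 5 ≤ W := by
    have h1 : s ^ 4 ≤ (2 * Λ) ^ 4 := pow_le_pow_left₀ hs0.le hs2 4
    have h2 : (q : ℝ) ^ c * s ^ 5 ≤ (Λ : ℝ) ^ c * ((2 * Λ) ^ 4 * s) := by
      have e : s ^ 5 = s ^ 4 * s := by ring
      rw [e]
      exact mul_le_mul hqc (mul_le_mul_of_nonneg_right h1 hs0.le) (by positivity) (by positivity)
    have h3 : (Λ : ℝ) ^ c * ((2 * Λ) ^ 4 * s) = 16 * ((Λ : ℝ) ^ (c + 4) * s) := by ring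
    have h4 : (36 : ℝ) ≤ (Λ : ℝ) ^ 2 := by nlinarith
    have h5 : 36 * ((Λ : ℝ) ^ (c + 4) * s) ≤ (Λ : ℝ) ^ 2 * ((Λ : ℝ) ^ (c + 4) * s) :=
      mul_le_mul_of_nonneg_right h4 (by positivity)
    have h6 : (Λ : ℝ) ^ 2 * ((Λ : ℝ) ^ (c + 4) * s) = (Λ : ℝ) ^ (c + 6) * s := by ring
    have h7 : 0 ≤ (Λ : ℝ) ^ (c + 4) * s := by positivity
    linarith
  refine hno s ((q : ℝ) ^ c * s ^ 5) hs1 (le_refl _) ?_ (C7b_mono hA hVW)
  have h1 : s ^ 5 ≤ (2 * (q : ℝ) ^ κ) ^ 5 := by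
    refine pow_le_pow_left₀ hs0.le (hs2.trans ?_) 5
    linarith
  have h2 : (32 : ℝ) ≤ (q : ℝ) ^ 2 := by nlinarith
  calc (q : ℝ) ^ c * s ^ 5 ≤ (q : ℝ) ^ c * (2 * (q : ℝ) ^ κ) ^ 5 :=
        mul_le_mul_of_nonneg_left h1 (by positivity)
    _ = 32 * ((q : ℝ) ^ (c + 5 * κ)) := by ring
    _ ≤ (q : ℝ) ^ 2 * ((q : ℝ) ^ (c + 5 * κ)) := mul_le_mul_of_nonneg_right h2 (by positivity)
    _ = (q : ℝ) ^ (c + 5 * κ + 2) := by ring
    _ ≤ (q : ℝ) ^ (c + 6 + 5 * (κ + 1)) := pow_le_pow_right₀ hq1 (by omega)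

theorem meas_w (τ : ℍ) (hcm : NCM (τ : ℂ)) (d A : ℕ) : ∃ κ1 : ℕ, ∀ κ : ℕ, ∃ κ' Q0 : ℕ,
    ∀ (q : ℕ) (w : ℂ), Q0 ≤ q → NCM w → AlgB d ((q : ℝ) ^ A) w →
      ‖w - τ‖ ≤ Real.exp (-(q : ℝ) ^ κ') →
      ∀ (f : Polynomial ℤ) (Λ : ℕ), f ≠ 0 → q ≤ Λ → (Λ : ℝ) ≤ (q : ℝ) ^ κ → f.natDegree ≤ Λ →
        CZ.nr f ≤ Real.exp Λ → Real.exp (-(Λ : ℝ) ^ κ1) ≤ ‖Polynomial.aeval (jf τ) f‖ := by
  obtain ⟨c, hc⟩ := no_w τ hcm d A
  refine ⟨c + 7, fun κ => ?_⟩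
  obtain ⟨κ', Q0, h0⟩ := hc (c + 6 + 5 * (κ + 1))
  by_cases hJ : IsAlgebraic ℚ (jf τ)
  · obtain ⟨t0, ht0, hA⟩ := C7b_alg (jf τ) hJ
    refine ⟨κ', max Q0 (max 1 ⌈t0 ^ 5⌉₊), ?_⟩
    intro q w hq hw hB hclose f Λ hf hqΛ hΛκ hdeg hnr
    exfalso
    have hq1 : (1 : ℝ) ≤ q := by
      exact_mod_cast ((le_max_left _ _).trans (le_max_right _ _)).trans hq
    have hqt : t0 ^ 5 ≤ q := by
      refine (Nat.le_ceil _).trans ?_
      exact_mod_cast ((le_max_right _ _).trans (le_max_right _ _)).trans hq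
    refine h0 q w ((le_max_left _ _).trans hq) hw hB hclose t0 ((q : ℝ) ^ c * t0 ^ 5) ht0 (le_refl _) ?_ (hA _)
    calc (q : ℝ) ^ c * t0 ^ 5 ≤ (q : ℝ) ^ c * q := mul_le_mul_of_nonneg_left hqt (by positivity)
      _ = (q : ℝ) ^ (c + 1) := by ring
      _ ≤ (q : ℝ) ^ (c + 6 + 5 * (κ + 1)) := pow_le_pow_right₀ hq1 (by omega)
  · refine ⟨κ', max Q0 6, ?_⟩
    intro q w hq hw hB hclose f Λ hf hqΛ hΛκ hdeg hnr
    exact C7b_main (J := jf τ) hJ ((le_max_right _ _).trans hq)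
      (h0 q w ((le_max_left _ _).trans hq) hw hB hclose) f Λ hf hqΛ hΛκ hdeg hnr

end AK
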