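import Pool.Agent.H32.AO.B4
import Pool.Agent.H32.AK.D0

/-!
# MP_ede373, points algebraic over `ℚ(t)`, row C8: Liouville inequality over `ℚ(J)`, one scale

The proof of `AO.NL` (file `Pool/Agent/H32/AO/B4.lean`), the measure of `J` is used at one scale only.
-/

set_option autoImplicit false

namespace AK

open CZ Polynomial AO
open H32.T3 (nrm)

private theorem C8_nrC (z : ℤ) : nr (C z) = |(z : ℝ)| := by
  unfold nr
  rw [Polynomial.sum_C_index (by simp)]

private theorem C8_Y {n r Dg : ℕ} {g : ℝ} (h7 : 7 ≤ n) (hD : Dg ≤ n) (hr : r ≤ n) (hg0 : 0 ≤ g)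
    (hg : g ≤ n) :
    (n : ℝ) ^ r * (max 1 (g * ((n : ℝ) * (Real.exp n * (1 + Real.exp n) ^ n) * (1 + Real.exp n) ^ r) ^ Dg) + 1) ≤
      Real.exp ((n : ℝ) ^ (r + 4)) := by
  have h7' : (7 : ℝ) ≤ n := by exact_mod_cast h7
  have hD' : (Dg : ℝ) ≤ n := by exact_mod_cast hD
  have hr' : (r : ℝ) ≤ n := by exact_mod_cast hr
  set x : ℝ := (n : ℝ) with hx
  have hx0 : 0 < x := by linarith
  have e1 : 1 + Real.exp x ≤ Real.exp (x + 1) := by
    rw [Real.exp_add]
    have h1 : 1 ≤ Real.exp x := Real.one_le_exp hx0.le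
    have h2 : (2 : ℝ) ≤ Real.exp 1 := by
      have := Real.add_one_le_exp (1 : ℝ)
      linarith
    nlinarith
  have e0 : 0 ≤ 1 + Real.exp x := by positivity
  have e2 : x ≤ Real.exp x := by
    have := Real.add_one_le_exp x
    linarith
  have e3 : (1 + Real.exp x) ^ n ≤ Real.exp ((n : ℝ) * (x + 1)) := by
    rw [Real.exp_nat_mul]
    exact pow_le_pow_left₀ e0 e1 n
  have e4 : (1 + Real.exp x) ^ r ≤ Real.exp ((r : ℝ) * (x + 1)) := by
    rw [Real.exp_nat_mul]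
    exact pow_le_pow_left₀ e0 e1 r
  have e5 : x * (Real.exp x * (1 + Real.exp x) ^ n) * (1 + Real.exp x) ^ r ≤
      Real.exp (2 * x + x * (x + 1) + r * (x + 1)) := by
    have h1 : x * (Real.exp x * (1 + Real.exp x) ^ n) * (1 + Real.exp x) ^ r ≤
        Real.exp x * (Real.exp x * Real.exp ((n : ℝ) * (x + 1))) * Real.exp ((r : ℝ) * (x + 1)) := by
      gcongr
    refine h1.trans (le_of_eq ?_)
    rw [← Real.exp_add, ← Real.exp_add, ← Real.exp_add]
    congr 1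
    rw [← hx]
    ring
  have e6 : 0 ≤ x * (Real.exp x * (1 + Real.exp x) ^ n) * (1 + Real.exp x) ^ r := by positivity
  have e7 : (x * (Real.exp x * (1 + Real.exp x) ^ n) * (1 + Real.exp x) ^ r) ^ Dg ≤
      Real.exp ((Dg : ℝ) * (2 * x + x * (x + 1) + r * (x + 1))) := by
    rw [Real.exp_nat_mul]
    exact pow_le_pow_left₀ e6 e5 Dg
  set E : ℝ := x + (Dg : ℝ) * (2 * x + x * (x + 1) + r * (x + 1)) with hE
  have hE0 : 0 ≤ E := by positivity
  have e8 : max 1 (g * (x * (Real.exp x * (1 + Real.exp x) ^ n) * (1 + Real.exp x) ^ r) ^ Dg) ≤ Real.exp E := by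
    refine max_le (Real.one_le_exp hE0) ?_
    rw [hE, Real.exp_add]
    exact mul_le_mul (hg.trans e2) e7 (pow_nonneg e6 _) (Real.exp_pos _).le
  have e9 : max 1 (g * (x * (Real.exp x * (1 + Real.exp x) ^ n) * (1 + Real.exp x) ^ r) ^ Dg) + 1 ≤
      Real.exp (E + 1) := by
    rw [Real.exp_add]
    have h1 : 1 ≤ Real.exp E := Real.one_le_exp hE0
    have h2 : (2 : ℝ) ≤ Real.exp 1 := by
      have := Real.add_one_le_exp (1 : ℝ)
      linarith
    nlinarith
  have e10 : x ^ r ≤ Real.exp (x ^ r) := by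
    have := Real.add_one_le_exp (x ^ r)
    linarith
  have e11 : x ^ r * (max 1 (g * (x * (Real.exp x * (1 + Real.exp x) ^ n) * (1 + Real.exp x) ^ r) ^ Dg) + 1) ≤
      Real.exp (x ^ r + (E + 1)) := by
    rw [Real.exp_add]
    exact mul_le_mul e10 e9 (by positivity) (Real.exp_pos _).le
  refine e11.trans (Real.exp_le_exp.2 ?_)
  have f1 : (1 : ℝ) ≤ x ^ r := one_le_pow₀ (by linarith)
  have f2 : (Dg : ℝ) * (2 * x + x * (x + 1) + r * (x + 1)) ≤ x * (2 * x + x * (x + 1) + x * (x + 1)) := by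
    gcongr
  have f3 : x ^ r + (E + 1) ≤ x ^ r * (1 + x + x * (2 * x + x * (x + 1) + x * (x + 1)) + 1) := by
    have f4 : E + 1 ≤ 1 * (x + x * (2 * x + x * (x + 1) + x * (x + 1)) + 1) := by
      rw [hE]
      linarith
    have f5 : 1 * (x + x * (2 * x + x * (x + 1) + x * (x + 1)) + 1) ≤
        x ^ r * (x + x * (2 * x + x * (x + 1) + x * (x + 1)) + 1) :=
      mul_le_mul_of_nonneg_right f1 (by positivity)
    linarith
  refine f3.trans ?_
  rw [pow_add]
  refine mul_le_mul_of_nonneg_left ?_ (by positivity)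
  have g1 : x * x * x * 7 ≤ x * x * x * x := mul_le_mul_of_nonneg_left h7' (by positivity)
  have g2 : 7 * (x * x) ≤ x * (x * x) := mul_le_mul_of_nonneg_right h7' (by positivity)
  have g3 : 7 * x ≤ x * x := mul_le_mul_of_nonneg_right h7' hx0.le
  have e : x ^ 4 = x * x * x * x := by ring
  rw [e]
  nlinarith

theorem NL_w {r : ℕ} (G : MvPolynomial (Fin r ⊕ Unit) ℤ) (B : ℝ) (κ : ℕ) :
    ∃ A X0 : ℕ, ∀ (X : ℕ) (J : ℂ) (w : Fin r → ℂ), X0 ≤ X → ‖J‖ ≤ B →
      (∀ j, RootRel (X : ℝ) J (w j)) →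
      (∀ f : ℤ[X], f ≠ 0 → f.natDegree ≤ X ^ (2 * r + 4) → nr f ≤ Real.exp ((X ^ (2 * r + 4) : ℕ) : ℝ) →
        Real.exp (-((X ^ (2 * r + 4) : ℕ) : ℝ) ^ κ) ≤ ‖aeval J f‖) →
      MvPolynomial.aeval (Sum.elim w fun _ ↦ J) G = 0 ∨
        Real.exp (-(X : ℝ) ^ A) ≤ ‖MvPolynomial.aeval (Sum.elim w fun _ ↦ J) G‖ := by
  set Dg := G.totalDegree with hDg
  set L : ℝ := Real.log (max 1 B) with hL
  have hL0 : 0 ≤ L := Real.log_nonneg (le_max_left _ _)
  have hLe : max 1 B = Real.exp L := (Real.exp_log (lt_of_lt_of_le one_pos (le_max_left _ _))).symm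
  refine ⟨(2 * r + 4) * (κ + 1) + 2, 7 + Dg + r + ⌈nrm G⌉₊ + ⌈2 + L + r * Dg⌉₊, ?_⟩
  intro X J w hX hJB hw hmeas
  by_cases hval : MvPolynomial.aeval (Sum.elim w fun _ ↦ J) G = 0
  · exact Or.inl hval
  right
  have hX7 : 7 ≤ X := by omega
  have hXD : Dg ≤ X := by omega
  have hXr : r ≤ X := by omega
  have hXg : nrm G ≤ X := (Nat.le_ceil _).trans (by exact_mod_cast (by omega : ⌈nrm G⌉₊ ≤ X))
  have hXL : 2 + L + r * Dg ≤ (X : ℝ) := (Nat.le_ceil _).trans (by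
    exact_mod_cast (by omega : ⌈2 + L + r * Dg⌉₊ ≤ X))
  have hx1 : (1 : ℝ) ≤ X := by exact_mod_cast (by omega : 1 ≤ X)
  have hx0 : (0 : ℝ) < X := by linarith
  choose R c hc0 hR hRd hRn hRs using fun j => norm_rel (hw j)
  have hcB : ∀ j, |(c j : ℝ)| ≤ Real.exp X := by
    intro j
    have h1 := hRn j X
    rwa [hR j, C8_nrC] at h1
  obtain ⟨A, v, hv, he, hAd, hAn⟩ := kron (by omega : 0 < X) J w R c hR hRs X (Real.exp X)
    (Real.one_le_exp hx0.le) hRd hRn hcB G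
  set val := MvPolynomial.aeval (Sum.elim w fun _ ↦ J) G with hvald
  set Pc : ℂ := (∏ j, (c j : ℂ)) ^ Dg with hPc
  have hPn1 : 1 ≤ ‖Pc‖ := by
    rw [hPc, norm_pow]
    refine one_le_pow₀ ?_
    have h1 : (∏ j, (c j : ℂ)) = ((∏ j, c j : ℤ) : ℂ) := by push_cast; rfl
    rw [h1, Complex.norm_intCast]
    have h2 : (∏ j, c j) ≠ 0 := Finset.prod_ne_zero_iff.2 fun j _ => hc0 j
    exact_mod_cast Int.one_le_abs h2
  have hPn2 : ‖Pc‖ ≤ Real.exp (r * Dg * X) := by
    have h1 : ‖∏ j, (c j : ℂ)‖ ≤ Real.exp X ^ r := by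
      rw [norm_prod]
      have h2 : ∀ j ∈ (Finset.univ : Finset (Fin r)), ‖(c j : ℂ)‖ ≤ Real.exp X := by
        intro j _
        rw [Complex.norm_intCast]
        exact hcB j
      refine (Finset.prod_le_prod (fun j _ => norm_nonneg _) h2).trans (le_of_eq ?_)
      rw [Finset.prod_const, Finset.card_univ, Fintype.card_fin]
    rw [hPc, norm_pow]
    refine (pow_le_pow_left₀ (norm_nonneg _) h1 Dg).trans (le_of_eq ?_)
    rw [← pow_mul, ← Real.exp_nat_mul]
    congr 1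
    push_cast
    rfl
  have hlamne : Pc * val ≠ 0 := by
    refine mul_ne_zero ?_ hval
    intro h
    rw [h, norm_zero] at hPn1
    linarith
  -- the lower bound of the value in terms of the eigenvalue
  have hvl : ‖Pc * val‖ * Real.exp (-(r * Dg * X)) ≤ ‖val‖ := by
    rw [norm_mul, Real.exp_neg]
    have h1 : ‖Pc‖ * (Real.exp (r * Dg * X))⁻¹ ≤ 1 := by
      rw [← div_eq_mul_inv, div_le_one (Real.exp_pos _)]
      exact hPn2
    calc ‖Pc‖ * ‖val‖ * (Real.exp (r * Dg * X))⁻¹ = (‖Pc‖ * (Real.exp (r * Dg * X))⁻¹) * ‖val‖ := by ring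
      _ ≤ 1 * ‖val‖ := mul_le_mul_of_nonneg_right h1 (norm_nonneg _)
      _ = ‖val‖ := one_mul _
  set P : ℝ := (X : ℝ) ^ ((2 * r + 4) * (κ + 1)) with hPd
  have hP1 : (1 : ℝ) ≤ P := one_le_pow₀ hx1
  have hXP : (X : ℝ) ≤ P := by
    rw [hPd]
    exact le_self_pow₀ hx1 (by positivity)
  have hA : (X : ℝ) ^ ((2 * r + 4) * (κ + 1) + 2) = P * (X * X) := by
    rw [pow_add, hPd]
    ring
  have hrD : 0 ≤ (r : ℝ) * Dg := by positivity
  have hxx : (X : ℝ) ≤ X * X := by nlinarith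
  by_cases hl : ‖Pc * val‖ ≤ 1
  · -- small eigenvalue
    set Rb : ℝ := max 1 (nrm G * ((X : ℝ) * (Real.exp X * (1 + Real.exp X) ^ X) * (1 + Real.exp X) ^ r) ^ Dg) with hRb
    have hRb1 : 1 ≤ Rb := le_max_left _ _
    obtain ⟨f, f0, fd, fn, fJ⟩ := eigen_lower A (Dg * (X + 1)) Rb hRb1 hAd
      (fun a b => (hAn a b).trans (le_max_right _ _)) J (Pc * val) v hv hlamne hl he
    have hcard : Fintype.card (Fin r → Fin X) = X ^ r := by simp
    rw [hcard] at fd fn fJ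
    set Λ : ℕ := X ^ (2 * r + 4) with hΛ
    have hYb := C8_Y (g := nrm G) hX7 hXD hXr (by
      unfold nrm
      exact Finset.sum_nonneg fun _ _ => abs_nonneg _) hXg
    have hbig : ((X ^ r).factorial : ℝ) * (Rb + 1) ^ (X ^ r) ≤ Real.exp Λ := by
      have h1 : ((X ^ r).factorial : ℝ) ≤ ((X : ℝ) ^ r) ^ (X ^ r) := by
        have := Nat.factorial_le_pow (X ^ r)
        have h2 : (((X ^ r).factorial : ℕ) : ℝ) ≤ (((X ^ r) ^ (X ^ r) : ℕ) : ℝ) := by exact_mod_cast this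
        refine h2.trans (le_of_eq ?_)
        push_cast
        rfl
      have h2 : ((X ^ r).factorial : ℝ) * (Rb + 1) ^ (X ^ r) ≤ ((X : ℝ) ^ r * (Rb + 1)) ^ (X ^ r) := by
        rw [mul_pow]
        exact mul_le_mul_of_nonneg_right h1 (by positivity)
      refine h2.trans ?_
      have h3 : ((X : ℝ) ^ r * (Rb + 1)) ^ (X ^ r) ≤ Real.exp ((X : ℝ) ^ (r + 4)) ^ (X ^ r) :=
        pow_le_pow_left₀ (by positivity) hYb _
      refine h3.trans (le_of_eq ?_)
      rw [← Real.exp_nat_mul]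
      congr 1
      rw [hΛ]
      push_cast
      rw [← pow_add]
      congr 1
      ring
    have hdeg : X ^ r * (Dg * (X + 1)) ≤ Λ := by
      have h1 : Dg * (X + 1) ≤ X ^ 4 := by
        have h2 : Dg * (X + 1) ≤ X * (X + 1) := Nat.mul_le_mul_right _ hXD
        have h3 : X + 1 ≤ X * X := by nlinarith
        calc Dg * (X + 1) ≤ X * (X + 1) := h2
          _ ≤ X * (X * X) := Nat.mul_le_mul_left _ h3
          _ ≤ X * (X * X) * X := Nat.le_mul_of_pos_right _ (by omega)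
          _ = X ^ 4 := by ring
      calc X ^ r * (Dg * (X + 1)) ≤ X ^ r * X ^ 4 := Nat.mul_le_mul_left _ h1
        _ = X ^ (r + 4) := by rw [pow_add]
        _ ≤ Λ := Nat.pow_le_pow_right (by omega) (by omega)
    have hm := hmeas f f0 (fd.trans hdeg) (fn.trans hbig)
    have hJp : (max 1 ‖J‖) ^ (X ^ r * (Dg * (X + 1))) ≤ Real.exp (Λ * L) := by
      refine (pow_le_pow_right₀ (le_max_left _ _) hdeg).trans ?_
      refine (pow_le_pow_left₀ (by positivity) (max_le_max le_rfl hJB) _).trans (le_of_eq ?_)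
      rw [hLe, ← Real.exp_nat_mul]
    have hlow : Real.exp (-(Λ : ℝ) ^ κ) ≤ ‖Pc * val‖ * Real.exp (Λ + Λ * L) := by
      refine (hm.trans fJ).trans ?_
      rw [Real.exp_add]
      refine mul_le_mul_of_nonneg_left ?_ (norm_nonneg _)
      exact mul_le_mul hbig hJp (by positivity) (Real.exp_pos _).le
    have hlow2 : Real.exp (-(Λ : ℝ) ^ κ - (Λ + Λ * L)) ≤ ‖Pc * val‖ := by
      rw [Real.exp_sub, div_le_iff₀ (Real.exp_pos _)]
      exact hlow
    refine le_trans ?_ hvl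
    have h1 : Real.exp (-(Λ : ℝ) ^ κ - (Λ + Λ * L)) * Real.exp (-(r * Dg * X)) ≤
        ‖Pc * val‖ * Real.exp (-(r * Dg * X)) := mul_le_mul_of_nonneg_right hlow2 (Real.exp_pos _).le
    refine le_trans ?_ h1
    rw [← Real.exp_add]
    refine Real.exp_le_exp.2 ?_
    rw [hA]
    have hΛr : (Λ : ℝ) = (X : ℝ) ^ (2 * r + 4) := by
      rw [hΛ]
      push_cast
      rfl
    have k1 : (Λ : ℝ) ^ κ ≤ P := by
      rw [hΛr, ← pow_mul, hPd]
      exact pow_le_pow_right₀ hx1 (Nat.mul_le_mul_left _ (by omega))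
    have k2 : (Λ : ℝ) ≤ P := by
      rw [hΛr, hPd]
      exact pow_le_pow_right₀ hx1 (Nat.le_mul_of_pos_right _ (by omega))
    have k3 : (Λ : ℝ) * L ≤ P * L := mul_le_mul_of_nonneg_right k2 hL0
    have k4 : (r : ℝ) * Dg * X ≤ (r : ℝ) * Dg * P := mul_le_mul_of_nonneg_left hXP hrD
    have k5 : P * (2 + L + r * Dg) ≤ P * (X * X) :=
      mul_le_mul_of_nonneg_left (hXL.trans hxx) (by linarith)
    nlinarith
  · -- large eigenvalue
    push Not at hl
    refine le_trans ?_ hvl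
    have h1 : 1 * Real.exp (-(r * Dg * X)) ≤ ‖Pc * val‖ * Real.exp (-(r * Dg * X)) :=
      mul_le_mul_of_nonneg_right hl.le (Real.exp_pos _).le
    refine le_trans ?_ h1
    rw [one_mul]
    refine Real.exp_le_exp.2 ?_
    rw [hA]
    have k1 : (r : ℝ) * Dg * X ≤ X * X := mul_le_mul_of_nonneg_right (by linarith) hx0.le
    have k2 : (X : ℝ) * X ≤ P * (X * X) := by
      have : 1 * ((X : ℝ) * X) ≤ P * (X * X) := mul_le_mul_of_nonneg_right hP1 (by positivity)
      linarith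
    linarith

end AK
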