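import Pool.Agent.H32.AK.D0
import Pool.Agent.H32.AO.A5
import Pool.Agent.H32.AO.A6

/-!
# MP_ede373, points algebraic over `ℚ(t)`, row C9: the chain of approximations

As the proof of `AO.chain` (file `Pool/Agent/H32/AO/A10.lean`), with the relations of `winf` given at the limit point. `B ≥ ‖J‖ + 1, ‖winf j‖ + 1, ‖P i‖ + 1`; `X1` from `ext_many 1 r B`, `X2` from `ext_many (1 + r) k B`, `X3 i` from
`rel_near ![J] winf (P i)` (used with `w = winf`: the distance is `0`). `c = (A + 1) (7 r + 7 k + 1) + A`. `hsc c` gives `Bs, N0`. `e = 2 (c + Bs) + c + A + 2`. Take `Q ≥ N0, X1, X2, X3 i, 2` and `q` from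
`hnear e Q`. `X = q^(A+1)`, `L0 = q^e` (`X ≤ L0`). `(t, V)` from the scale property with `N = q`, `V' = min V L0`. As in `AO.chain`:
* `(q^c t)^κ0 q^c ≤ V'` (`≤ V` given; `≤ (q^(c+Bs))^2 q^c ≤ q^e`), `ApprC ![J] t V' L0` (`ApprC.of_at`).
* `Rel X L0 ![J] (winf j)` from `hnear` and `Rel.mono` (`q^A ≤ X`). `ext_many 1 r B`: `ApprC (append ![J] winf) (X^(4r) t) (V' / X^(3r)) L0`.
* `Rel X L0 (append ![J] winf) (P i)` (`rel_near`). `ext_many (1 + r) k B`: `ApprC (append (append ![J] winf) P) (X^(4k+4r) t) (V' / X^(3r+3k)) L0`, so `ApprAt P t2 V2`, `t2 = X^(4k+4r) t`, `V2 = V' / X^(3r+3k)`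
  (`ApprC.reindex (Fin.natAdd _)`, `ApprC.at`).
* `t2^κ0 ≤ (q^c t)^κ0 ≤ V' / q^c ≤ V2`; `V2 ≥ q^A` because `X^(3r+3k) q^A ≤ q^c ≤ V'`; `V2 ≤ V' ≤ q^e`. This contradicts the second part of `hnear`.
-/

set_option autoImplicit false

namespace AK

open CZ AO
open H32.T3 (nrm)

theorem chain_w {k r : ℕ} (P : Fin k → ℂ) (J : ℂ) (winf : Fin r → ℂ)
    (κ0 : ℝ) (h1 : 1 ≤ κ0) (h2 : κ0 ≤ 2) (A : ℕ) (hsc : ScAppr ![J] κ0)
    (hnear : ∀ κ Q : ℕ, ∃ q : ℕ, Q ≤ q ∧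
      (∀ j, Rel ((q : ℝ) ^ A) ((q : ℝ) ^ κ) ![J] (winf j)) ∧
      ∀ t V : ℝ, 1 ≤ t → (q : ℝ) ^ A ≤ V → V ≤ (q : ℝ) ^ κ → t ^ κ0 ≤ V → ¬ ApprAt P t V)
    (halg : ∀ i, IsAlgebraic (IntermediateField.adjoin ℚ
      (Set.range (Fin.append ![J] winf : Fin (1 + r) → ℂ))) (P i)) : False := by
  obtain ⟨P0, hP0⟩ : ∃ P0 : Fin 1 → ℂ, P0 = ![J] := ⟨_, rfl⟩
  rw [← hP0] at hsc hnear halg
  obtain ⟨B, hBP0, hBP, hBw⟩ : ∃ B : ℝ, (∀ i, ‖P0 i‖ + 1 ≤ B) ∧ (∀ i, ‖P i‖ + 1 ≤ B) ∧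
      (∀ j, ‖winf j‖ + 1 ≤ B) := by
    have s0 : 0 ≤ ∑ i, ‖P0 i‖ := Finset.sum_nonneg fun i _ ↦ norm_nonneg _
    have s1 : 0 ≤ ∑ i, ‖P i‖ := Finset.sum_nonneg fun i _ ↦ norm_nonneg _
    have s2 : 0 ≤ ∑ j, ‖winf j‖ := Finset.sum_nonneg fun i _ ↦ norm_nonneg _
    refine ⟨∑ i, ‖P0 i‖ + ∑ i, ‖P i‖ + ∑ j, ‖winf j‖ + 1, fun i ↦ ?_, fun i ↦ ?_, fun j ↦ ?_⟩
    · have := Finset.single_le_sum (f := fun i ↦ ‖P0 i‖) (fun i _ ↦ norm_nonneg _)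
        (Finset.mem_univ i)
      linarith
    · have := Finset.single_le_sum (f := fun i ↦ ‖P i‖) (fun i _ ↦ norm_nonneg _)
        (Finset.mem_univ i)
      linarith
    · have := Finset.single_le_sum (f := fun i ↦ ‖winf i‖) (fun i _ ↦ norm_nonneg _)
        (Finset.mem_univ j)
      linarith
  obtain ⟨X1, hX11, hX1⟩ := ext_many 1 r B
  obtain ⟨X2, hX21, hX2⟩ := ext_many (1 + r) k B
  choose X3 hX31 hX3 using fun i ↦ rel_near P0 winf (P i) (halg i)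
  have hX3s : ∀ i, X3 i ≤ ∑ i, X3 i := fun i ↦
    Finset.single_le_sum (f := X3) (fun i _ ↦ by linarith [hX31 i]) (Finset.mem_univ i)
  obtain ⟨c, hc⟩ : ∃ c : ℕ, c = (A + 1) * (7 * r + 7 * k + 1) + A := ⟨_, rfl⟩
  obtain ⟨Bs, N0, hsc⟩ := hsc c
  obtain ⟨e, he⟩ : ∃ e : ℕ, e = 2 * (c + Bs) + c + A + 2 := ⟨_, rfl⟩
  obtain ⟨q, hQq, hrelw, hno⟩ :=
    hnear e (N0 + ⌈X1⌉₊ + ⌈X2⌉₊ + ⌈∑ i, X3 i⌉₊ + 2)
  have hqN0 : N0 ≤ q := by omega
  have hqX1 : X1 ≤ (q : ℝ) := (Nat.le_ceil _).trans (by exact_mod_cast (by omega : ⌈X1⌉₊ ≤ q))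
  have hqX2 : X2 ≤ (q : ℝ) := (Nat.le_ceil _).trans (by exact_mod_cast (by omega : ⌈X2⌉₊ ≤ q))
  have hqX3 : ∑ i, X3 i ≤ (q : ℝ) :=
    (Nat.le_ceil _).trans (by exact_mod_cast (by omega : ⌈∑ i, X3 i⌉₊ ≤ q))
  have hq2 : (2 : ℝ) ≤ q := by exact_mod_cast (by omega : 2 ≤ q)
  have hq1 : (1 : ℝ) ≤ q := by linarith
  have hq0 : (0 : ℝ) < q := by linarith
  clear hQq
  obtain ⟨t, V, ht1, htq, hV, hAt⟩ := hsc q hqN0
  obtain ⟨X, hXdef⟩ : ∃ X : ℝ, X = (q : ℝ) ^ (A + 1) := ⟨_, rfl⟩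
  obtain ⟨L0, hL0⟩ : ∃ L0 : ℝ, L0 = (q : ℝ) ^ e := ⟨_, rfl⟩
  obtain ⟨V', hV'⟩ : ∃ V' : ℝ, V' = min V L0 := ⟨_, rfl⟩
  have hmono : ∀ {a b : ℕ}, a ≤ b → (q : ℝ) ^ a ≤ (q : ℝ) ^ b := fun h ↦
    pow_le_pow_right₀ hq1 h
  have hone : ∀ a : ℕ, (1 : ℝ) ≤ (q : ℝ) ^ a := fun a ↦ one_le_pow₀ hq1
  have hXpow : ∀ a : ℕ, X ^ a = (q : ℝ) ^ ((A + 1) * a) := fun a ↦ by rw [hXdef, ← pow_mul]
  have hqX : (q : ℝ) ≤ X := by
    rw [hXdef]
    calc (q : ℝ) = (q : ℝ) ^ 1 := (pow_one _).symm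
      _ ≤ _ := hmono (by omega)
  have hX0 : 0 < X := by linarith
  have hL00 : 0 ≤ L0 := by rw [hL0]; positivity
  have hqt1 : 1 ≤ (q : ℝ) ^ c * t := one_le_mul_of_one_le_of_one_le (hone c) ht1
  have hqt0 : 0 < (q : ℝ) ^ c * t := by linarith
  obtain ⟨W, hW⟩ : ∃ W : ℝ, W = ((q : ℝ) ^ c * t) ^ κ0 := ⟨_, rfl⟩
  have hWge : (q : ℝ) ^ c * t ≤ W := by
    rw [hW]
    calc (q : ℝ) ^ c * t = ((q : ℝ) ^ c * t) ^ (1 : ℝ) := (Real.rpow_one _).symm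
      _ ≤ _ := Real.rpow_le_rpow_of_exponent_le hqt1 h1
  have hW1 : 1 ≤ W := hqt1.trans hWge
  have hWV : W * (q : ℝ) ^ c ≤ V' := by
    rw [hV']
    refine le_min (by rw [hW]; exact hV) ?_
    have a1 : W ≤ ((q : ℝ) ^ c * t) ^ 2 := by
      rw [hW]
      calc ((q : ℝ) ^ c * t) ^ κ0 ≤ ((q : ℝ) ^ c * t) ^ (2 : ℝ) :=
            Real.rpow_le_rpow_of_exponent_le hqt1 h2
        _ = _ := Real.rpow_two _
    have a2 : (q : ℝ) ^ c * t ≤ (q : ℝ) ^ (c + Bs) := by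
      rw [pow_add]
      exact mul_le_mul_of_nonneg_left htq (by positivity)
    have a3 : ((q : ℝ) ^ c * t) ^ 2 ≤ (q : ℝ) ^ (2 * (c + Bs)) := by
      rw [mul_comm 2, pow_mul]
      exact pow_le_pow_left₀ hqt0.le a2 2
    calc W * (q : ℝ) ^ c ≤ (q : ℝ) ^ (2 * (c + Bs)) * (q : ℝ) ^ c :=
          mul_le_mul_of_nonneg_right (a1.trans a3) (by positivity)
      _ = (q : ℝ) ^ (2 * (c + Bs) + c) := (pow_add _ _ _).symm
      _ ≤ L0 := by rw [hL0]; exact hmono (by omega)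
  have hWV' : W ≤ V' := le_trans (le_mul_of_one_le_right (by linarith) (hone c)) hWV
  have hqtV : (q : ℝ) ^ c * t ≤ V' := hWge.trans hWV'
  have hV'0 : 0 < V' := by linarith
  have hV'L : V' ≤ L0 := by rw [hV']; exact min_le_right _ _
  have hC0 : ApprC P0 t V' L0 := by rw [hV']; exact ApprC.of_at hL00 hAt
  have hcl : ∀ j, ‖winf j - winf j‖ ≤ Real.exp (-(2 * L0)) := fun j ↦ by
    rw [sub_self, norm_zero]
    exact (Real.exp_pos _).le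
  have hXL : X ≤ L0 := by
    rw [hXdef, hL0]
    refine hmono ?_
    omega
  have hrelw' : ∀ j, Rel X L0 P0 (winf j) := fun j ↦ by
    have a1 := hrelw j
    rw [← hL0] at a1
    exact a1.mono (by rw [hXdef]; exact hmono (by omega)) le_rfl
  have hXt : ∀ a : ℕ, a ≤ 7 * r + 7 * k → X ^ a * t ≤ V' := fun a ha ↦ by
    refine le_trans (mul_le_mul_of_nonneg_right ?_ (by linarith)) hqtV
    rw [hXpow]
    refine hmono ?_
    rw [hc]
    exact (Nat.mul_le_mul_left _ (by omega)).trans (Nat.le_add_right _ _)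
  have hC1 := hX1 X (hqX1.trans hqX) P0 winf L0 t V' hBP0 hBw hrelw' ht1 (hXt _ (by omega)) hC0
  have hrelP : ∀ i, Rel X L0 (Fin.append P0 winf : Fin (1 + r) → ℂ) (P i) := fun i ↦
    hX3 i X L0 winf (((hX3s i).trans hqX3).trans hqX) hXL hcl
  have hX1le : 1 ≤ X := hq1.trans hqX
  have ht2 : 1 ≤ X ^ (4 * r) * t :=
    one_le_mul_of_one_le_of_one_le (one_le_pow₀ hX1le) ht1
  have hBapp : ∀ i, ‖(Fin.append P0 winf : Fin (1 + r) → ℂ) i‖ + 1 ≤ B := fun i ↦ by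
    refine Fin.addCases (fun a ↦ ?_) (fun a ↦ ?_) i
    · rw [Fin.append_left]; exact hBP0 a
    · rw [Fin.append_right]; exact hBw a
  have hC2 := hX2 X (hqX2.trans hqX) (Fin.append P0 winf) P L0 (X ^ (4 * r) * t)
    (V' / X ^ (3 * r)) hBapp hBP hrelP ht2 (by
      rw [le_div_iff₀ (by positivity)]
      calc X ^ (7 * k) * (X ^ (4 * r) * t) * X ^ (3 * r)
          = X ^ (7 * k + 4 * r + 3 * r) * t := by rw [pow_add, pow_add]; ring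
        _ ≤ V' := hXt _ (by omega)) hC1
  have hC3 := (hC2.reindex (Fin.natAdd (1 + r))).at
  have hfun : (fun i ↦ (Fin.append (Fin.append P0 winf) P : Fin (1 + r + k) → ℂ)
      (Fin.natAdd (1 + r) i)) = P := by
    funext i
    rw [Fin.append_right]
  rw [hfun] at hC3
  have hD : 0 < X ^ (3 * r) * X ^ (3 * k) := by positivity
  have hD1 : 1 ≤ X ^ (3 * r) * X ^ (3 * k) :=
    one_le_mul_of_one_le_of_one_le (one_le_pow₀ hX1le) (one_le_pow₀ hX1le)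
  have hVV : W ≤ V' / X ^ (3 * r) / X ^ (3 * k) := by
    rw [div_div, le_div_iff₀ hD]
    refine le_trans (mul_le_mul_of_nonneg_left ?_ (by linarith)) hWV
    rw [← pow_add, hXpow]
    refine hmono ?_
    rw [hc]
    exact (Nat.mul_le_mul_left _ (by omega)).trans (Nat.le_add_right _ _)
  refine hno (X ^ (4 * k) * (X ^ (4 * r) * t)) (V' / X ^ (3 * r) / X ^ (3 * k))
    (one_le_mul_of_one_le_of_one_le (one_le_pow₀ hX1le) ht2) ?_ ?_ ?_ hC3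
  · rw [div_div, le_div_iff₀ hD]
    refine le_trans ?_ (le_trans (le_mul_of_one_le_left (by positivity) hW1) hWV)
    calc (q : ℝ) ^ A * (X ^ (3 * r) * X ^ (3 * k))
        = (q : ℝ) ^ ((A + 1) * (3 * r + 3 * k) + A) := by
          rw [← pow_add, hXpow, ← pow_add, add_comm]
      _ ≤ (q : ℝ) ^ c := by
          refine hmono ?_
          rw [hc]
          exact Nat.add_le_add_right (Nat.mul_le_mul_left _ (by omega)) _
  · rw [div_div]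
    refine le_trans (div_le_self hV'0.le hD1) ?_
    rw [← hL0]
    exact hV'L
  · refine le_trans ?_ hVV
    rw [hW]
    refine Real.rpow_le_rpow (by positivity) ?_ (by linarith)
    calc X ^ (4 * k) * (X ^ (4 * r) * t) = X ^ (4 * k + 4 * r) * t := by rw [pow_add]; ring
      _ ≤ (q : ℝ) ^ c * t := by
          refine mul_le_mul_of_nonneg_right ?_ (by linarith)
          rw [hXpow]
          refine hmono ?_
          rw [hc]
          exact (Nat.mul_le_mul_left _ (by omega)).trans (Nat.le_add_right _ _)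

end AK
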