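import Pool.Agent.H32.AO.Cu

/-!
# MP_ede373, points algebraic over `ℚ(t)`: points of a cubic extension of `k`
-/

set_option autoImplicit false

namespace AK

open IntermediateField AO

theorem cubic_orbit2 {m : ℕ} (t : Fin m → ℝ) (y z : ℂ) (hy : 0 < y.im) (hz : 0 < z.im)
    (hyi : IsIntegral (IntermediateField.adjoin ℚ (Set.range fun s ↦ ((t s : ℝ) : ℂ))) y)
    (hdeg : (minpoly (IntermediateField.adjoin ℚ
      (Set.range fun s ↦ ((t s : ℝ) : ℂ))) y).natDegree ≤ 3)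
    (hzk : z ∈ IntermediateField.adjoin ℚ ((Set.range fun s ↦ ((t s : ℝ) : ℂ)) ∪ {y})) :
    ∃ A ∈ IntermediateField.adjoin ℚ (Set.range t),
      ∃ B ∈ IntermediateField.adjoin ℚ (Set.range t),
      ∃ C ∈ IntermediateField.adjoin ℚ (Set.range t),
      ∃ D ∈ IntermediateField.adjoin ℚ (Set.range t), 0 < A * D - B * C ∧
        z = ((A : ℂ) * y + (B : ℂ)) / ((C : ℂ) * y + (D : ℂ)) := by
  obtain ⟨k, hk⟩ : ∃ k : IntermediateField ℚ ℂ,
    k = IntermediateField.adjoin ℚ (Set.range fun s ↦ ((t s : ℝ) : ℂ)) := ⟨_, rfl⟩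
  have hyk : IsIntegral k y := by rw [hk]; exact hyi
  have hfin : FiniteDimensional k k⟮y⟯ := IntermediateField.adjoin.finiteDimensional hyk
  have hrank : Module.finrank k k⟮y⟯ ≤ 3 := by
    rw [IntermediateField.adjoin.finrank hyk, hk]
    exact hdeg
  have hzk2 : z ∈ k⟮y⟯ := by
    have h2 := IntermediateField.adjoin_adjoin_left ℚ (Set.range fun s ↦ ((t s : ℝ) : ℂ)) {y}
    rw [← h2] at hzk
    rw [hk]
    exact hzk
  have hyk2 : y ∈ k⟮y⟯ := IntermediateField.mem_adjoin_simple_self k y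
  set v : Fin 4 → k⟮y⟯ := ![1, ⟨y, hyk2⟩, ⟨z, hzk2⟩, ⟨z, hzk2⟩ * ⟨y, hyk2⟩] with hv
  have hdep : ¬ LinearIndependent k v := by
    intro hli
    have := hli.fintype_card_le_finrank
    rw [Fintype.card_fin] at this
    omega
  rw [Fintype.not_linearIndependent_iff] at hdep
  obtain ⟨g, hg, i0, hi0⟩ := hdep
  have hg2 : (g 0 : ℂ) + g 1 * y + g 2 * z + g 3 * (z * y) = 0 := by
    have h3 := congrArg (fun x : k⟮y⟯ ↦ (x : ℂ)) hg
    simp only [Fin.sum_univ_four, hv] at h3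
    simpa [Algebra.smul_def] using h3
  have hreal : ∀ i, ∃ b ∈ IntermediateField.adjoin ℚ (Set.range t), (g i : ℂ) = (b : ℂ) := by
    intro i
    exact Cu_ofReal t _ (by rw [← hk]; exact (g i).2)
  choose b hb hgb using hreal
  rw [hgb 0, hgb 1, hgb 2, hgb 3] at hg2
  have key : ∀ p q : ℝ, (p : ℂ) + q * y = 0 → p = 0 ∧ q = 0 := by
    intro p q h
    have h1 := congrArg Complex.im h
    have h2 := congrArg Complex.re h
    simp only [Complex.add_im, Complex.ofReal_im, Complex.mul_im, Complex.ofReal_re, zero_mul,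
      add_zero, Complex.zero_im, zero_add] at h1
    have hq : q = 0 := by
      rcases mul_eq_zero.1 h1 with h3 | h3
      · exact h3
      · exact absurd h3 hy.ne'
    subst hq
    simp only [Complex.add_re, Complex.ofReal_re, Complex.ofReal_zero, zero_mul, Complex.zero_re,
      add_zero] at h2
    exact ⟨h2, rfl⟩
  have hden : ((b 3 : ℝ) : ℂ) * y + (b 2 : ℝ) ≠ 0 := by
    intro h0
    obtain ⟨h2, h3⟩ := key (b 2) (b 3) (by rw [← h0]; ring)
    have h4 : ((b 0 : ℝ) : ℂ) + (b 1 : ℝ) * y = 0 := by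
      have : ((b 0 : ℝ) : ℂ) + (b 1 : ℝ) * y + z * (((b 3 : ℝ) : ℂ) * y + (b 2 : ℝ)) = 0 := by
        rw [← hg2]; ring
      rwa [h0, mul_zero, add_zero] at this
    obtain ⟨h5, h6⟩ := key _ _ h4
    apply hi0
    have h7 : (g i0 : ℂ) = 0 := by
      rw [hgb i0]
      fin_cases i0
      · simp [h5]
      · simp [h6]
      · simp [h2]
      · simp [h3]
    exact_mod_cast h7
  have hzeq : z = (((-(b 1) : ℝ) : ℂ) * y + ((-(b 0) : ℝ) : ℂ)) / ((b 3 : ℂ) * y + (b 2 : ℂ)) := by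
    rw [eq_div_iff hden]
    push_cast
    linear_combination hg2
  refine ⟨-(b 1), neg_mem (hb 1), -(b 0), neg_mem (hb 0), b 3, hb 3, b 2, hb 2, ?_, hzeq⟩
  have him : z.im * Complex.normSq (((b 3 : ℝ) : ℂ) * y + (b 2 : ℝ)) =
      (-(b 1) * b 2 - -(b 0) * b 3) * y.im := by
    have h8 : z * (((b 3 : ℝ) : ℂ) * y + (b 2 : ℝ)) = ((-(b 1) : ℝ) : ℂ) * y + ((-(b 0) : ℝ) : ℂ) := by
      rw [hzeq, div_mul_cancel₀ _ hden]
    have h9 := congrArg Complex.re h8
    have h10 := congrArg Complex.im h8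
    simp only [Complex.mul_re, Complex.mul_im, Complex.add_re, Complex.add_im, Complex.ofReal_re,
      Complex.ofReal_im, zero_mul, sub_zero, add_zero] at h9 h10
    rw [Complex.normSq_apply]
    simp only [Complex.mul_re, Complex.mul_im, Complex.add_re, Complex.add_im, Complex.ofReal_re,
      Complex.ofReal_im, zero_mul, sub_zero, add_zero]
    linear_combination (b 3 * y.re + b 2) * h10 - (b 3 * y.im) * h9
  have hpos : 0 < z.im * Complex.normSq (((b 3 : ℝ) : ℂ) * y + (b 2 : ℝ)) :=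
    mul_pos hz (Complex.normSq_pos.2 hden)
  rw [him] at hpos
  exact (pos_iff_pos_of_mul_pos hpos).2 hy

end AK
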