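import Pool.Agent.H32.AK.MO

/-!
# MP_ede373, points algebraic over `ℚ(t)`, row D1: analyticity of the family

`e2, e4, e6` composed with an analytic germ with value in the upper half-plane: `AnalyticAt.fun_comp`, `H32.analytic_E4` etc. (see the proof of `AO.diff_WF` in
`Pool/Agent/H32/AO/C3.lean`, or `H32.T4.analytic_ee`). `dlt (Y x) ≠ 0` (`dlt_ne S.im0`), `den i x ≠ 0` (`S.den_x`), `π ≠ 0`. `RW` is a vector of quotients of these (`fin_cases` on the index).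
`jc w = 1728 e4^3/(e4^3 - e6^2)`, `e4^3 - e6^2 = 1728 dlt ≠ 0`.

`near_MO`: an analytic function is differentiable, so `f s - f x = O(s - x)` (`DifferentiableAt.isBigO_sub` or `HasFDerivAt.isBigO_sub`); take the maximum of the finitely many constants
(compare `AO.near_WF` in `Pool/Agent/H32/AO/C5.lean`).
-/

set_option autoImplicit false

open UpperHalfPlane hiding I
open Complex EisensteinSeries ModularForm MatrixGroups Manifold
open scoped Real Topology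
open MvPolynomial Filter

namespace AK

open H32 H32.T3 H32.T4 AO

namespace MO

variable {M n : ℕ} (S : MO M n)

theorem an_WF (j : (Fin n × Fin 3) ⊕ Fin M) : AnalyticAt ℂ (fun s ↦ S.WF s j) S.x := by
  have hP : ∀ p : MvPolynomial (Fin M) ℤ,
      AnalyticAt ℂ (fun s : Fin M → ℂ ↦ aeval s p) S.x := fun p ↦ an_aeval p S.x
  have hden : ∀ i, AnalyticAt ℂ (S.den i) S.x := fun i ↦ S.an_den i
  have y4 : AnalyticAt ℂ (fun s ↦ e4 (S.Y s)) S.x :=
    AnalyticAt.fun_comp (g := fun w ↦ e4 w) (f := S.Y) (analytic_E4 _ S.im0) S.an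
  have y6 : AnalyticAt ℂ (fun s ↦ e6 (S.Y s)) S.x :=
    AnalyticAt.fun_comp (g := fun w ↦ e6 w) (f := S.Y) (analytic_E6 _ S.im0) S.an
  have y2 : AnalyticAt ℂ (fun s ↦ e2 (S.Y s)) S.x :=
    AnalyticAt.fun_comp (g := fun w ↦ e2 w) (f := S.Y) (analytic_E2 _ S.im0) S.an
  have yD : AnalyticAt ℂ (fun s ↦ dlt (S.Y s)) S.x :=
    AnalyticAt.fun_div ((y4.fun_pow 3).fun_sub (y6.fun_pow 2)) analyticAt_const (by norm_num)
  have hD : dlt (S.Y S.x) ≠ 0 := dlt_ne S.im0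
  rcases j with ⟨i, l⟩ | s
  · have d4 : AnalyticAt ℂ (fun s ↦ e4 (S.φ i s)) S.x :=
      AnalyticAt.fun_comp (g := fun w ↦ e4 w) (f := S.φ i) (analytic_E4 _ (S.im_φ i)) (S.an_φ i)
    have d6 : AnalyticAt ℂ (fun s ↦ e6 (S.φ i s)) S.x :=
      AnalyticAt.fun_comp (g := fun w ↦ e6 w) (f := S.φ i) (analytic_E6 _ (S.im_φ i)) (S.an_φ i)
    have d2 : AnalyticAt ℂ (fun s ↦ e2 (S.φ i s)) S.x :=
      AnalyticAt.fun_comp (g := fun w ↦ e2 w) (f := S.φ i) (analytic_E2 _ (S.im_φ i)) (S.an_φ i)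
    have hq : AnalyticAt ℂ (fun s : Fin M → ℂ ↦ aeval s (S.dt i) / S.den i s) S.x :=
      AnalyticAt.fun_div (hP _) (hden i) (S.den_x i)
    have hpi : (π : ℂ) ≠ 0 := by exact_mod_cast Real.pi_ne_zero
    fin_cases l
    · have h1 : AnalyticAt ℂ (fun s ↦ (aeval s (S.dt i) / S.den i s) ^ 4 * e4 (S.φ i s) *
          e4 (S.Y s) ^ 2 / dlt (S.Y s)) S.x :=
        ((((hq.fun_pow 4).fun_mul d4).fun_mul (y4.fun_pow 2)).fun_div yD hD)
      exact h1
    · have h1 : AnalyticAt ℂ (fun s ↦ (aeval s (S.dt i) / S.den i s) ^ 6 * e6 (S.φ i s) *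
          e6 (S.Y s) / dlt (S.Y s)) S.x :=
        ((((hq.fun_pow 6).fun_mul d6).fun_mul y6).fun_div yD hD)
      exact h1
    · have h1 : AnalyticAt ℂ (fun s ↦ ((aeval s (S.dt i) / S.den i s) ^ 2 * e2 (S.φ i s) -
          aeval s (S.dt i) * e2 (S.Y s) +
          6 * Complex.I * aeval s (S.dt i) * aeval s (S.pC i) / (π * S.den i s)) *
          (e4 (S.Y s) * e6 (S.Y s)) / dlt (S.Y s)) S.x :=
        ((((((hq.fun_pow 2).fun_mul d2).fun_sub ((hP _).fun_mul y2)).fun_add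
          (AnalyticAt.fun_div ((analyticAt_const.fun_mul (hP _)).fun_mul (hP _))
            (analyticAt_const.fun_mul (hden i)) (mul_ne_zero hpi (S.den_x i)))).fun_mul
          (y4.fun_mul y6)).fun_div yD hD)
      exact h1
  · exact (ContinuousLinearMap.proj (R := ℂ) (φ := fun _ : Fin M ↦ ℂ) s).analyticAt S.x

theorem an_J : AnalyticAt ℂ (fun s ↦ jc (S.Y s)) S.x := by
  have y4 : AnalyticAt ℂ (fun s ↦ e4 (S.Y s)) S.x :=
    AnalyticAt.fun_comp (g := fun w ↦ e4 w) (f := S.Y) (analytic_E4 _ S.im0) S.an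
  have y6 : AnalyticAt ℂ (fun s ↦ e6 (S.Y s)) S.x :=
    AnalyticAt.fun_comp (g := fun w ↦ e6 w) (f := S.Y) (analytic_E6 _ S.im0) S.an
  have hD : e4 (S.Y S.x) ^ 3 - e6 (S.Y S.x) ^ 2 ≠ 0 := by
    have h := dlt_ne S.im0
    rw [dlt] at h
    intro h0
    rw [h0, zero_div] at h
    exact h rfl
  exact AnalyticAt.fun_div (analyticAt_const.fun_mul (y4.fun_pow 3))
    ((y4.fun_pow 3).fun_sub (y6.fun_pow 2)) hD

private theorem D1_near {m : ℕ} {x : Fin m → ℂ} {f : (Fin m → ℂ) → ℂ}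
    (h : DifferentiableAt ℂ f x) : ∃ K : ℝ, 0 < K ∧ ∀ᶠ s in 𝓝 x, ‖f s - f x‖ ≤ K * ‖s - x‖ := by
  obtain ⟨K, hK0, hK⟩ := h.isBigO_sub.exists_pos
  rw [Asymptotics.IsBigOWith] at hK
  exact ⟨K, hK0, hK⟩

theorem near_MO : ∃ K : ℝ, 0 < K ∧ ∀ᶠ s in 𝓝 S.x,
    (∀ j, ‖S.WF s j - S.WF S.x j‖ ≤ K * ‖s - S.x‖) ∧
    ‖jc (S.Y s) - jc (S.Y S.x)‖ ≤ K * ‖s - S.x‖ ∧ (∀ i, ‖S.ψ i s - S.ψ i S.x‖ ≤ K * ‖s - S.x‖) ∧
    ‖S.Y s - S.Y S.x‖ ≤ K * ‖s - S.x‖ := by
  choose c hc0 hc using fun j => D1_near (S.an_WF j).differentiableAt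
  choose c' hc0' hc' using fun i => D1_near (S.an_ψ i).differentiableAt
  obtain ⟨a, ha0, ha⟩ := D1_near S.an_J.differentiableAt
  obtain ⟨b, hb0, hb⟩ := D1_near S.an.differentiableAt
  have s1 : 0 ≤ ∑ j, c j := Finset.sum_nonneg fun j _ => (hc0 j).le
  have s2 : 0 ≤ ∑ i, c' i := Finset.sum_nonneg fun i _ => (hc0' i).le
  refine ⟨∑ j, c j + ∑ i, c' i + a + b, by linarith, ?_⟩
  filter_upwards [eventually_all.2 hc, eventually_all.2 hc', ha, hb] with s h1 h2 h3 h4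
  refine ⟨fun j => (h1 j).trans ?_, h3.trans ?_, fun i => (h2 i).trans ?_, h4.trans ?_⟩
  · refine mul_le_mul_of_nonneg_right ?_ (norm_nonneg _)
    have := Finset.single_le_sum (f := c) (fun i _ => (hc0 i).le) (Finset.mem_univ j)
    linarith
  · exact mul_le_mul_of_nonneg_right (by linarith) (norm_nonneg _)
  · refine mul_le_mul_of_nonneg_right ?_ (norm_nonneg _)
    have := Finset.single_le_sum (f := c') (fun i _ => (hc0' i).le) (Finset.mem_univ i)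
    linarith
  · exact mul_le_mul_of_nonneg_right (by linarith) (norm_nonneg _)

end MO

end AK
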