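import Pool.Agent.H32.AO.A1
import Pool.Agent.H32.AO.A6
import Pool.Agent.H32.AO.Ob

/-!
# MP_ede373, points algebraic over `ℚ(t)`, row D2: roots over `ℤ[j(τ)]`, uniform in `τ`

`KP` from `H32.T3.rel_PQ` (`Pool/Agent/H32/T3/A5.lean`), `KT` from `H32.T3.rel_all` (`Pool/Agent/H32/T3/A3.lean`): they do not depend on `τ`. `rat_eval` (`Pool/Agent/H32/AO/Ob.lean`) gives `s ∈ SN N` with
`xP N (toM s) τ = (N/(cτ+d))^4 E₄ τ' E₄ τ^2` etc., so `w0 q^(4D) = xP / discriminant` is a root of `∑ rP_i(jf τ) u^i = M! ∏_s (u - xP_s / discriminant)`, `M = card (SN N)` (a factor vanishes), in the same way `w1` and `w2` (with `xT`, `rT`).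
Copy `C2_scale` from `Pool/Agent/H32/AO/C2.lean` (name it `D2_scale`): it gives `RootRel X (jf τ) w` for `X ≥ 2 M + e M log q + K N^26`, `e ∈ {4 D, 6 D, 2 D}`. As `M ≤ N^2 ≤ N^26` (`card_SN_le`) and `log q ≤ q`, `1 ≤ q`:
`2 M + e M log q + K N^26 ≤ (2 + 6 + KP + KT) N^26 (D + 1) q`. Take `K ≥ 8 + KP + KT` natural.
-/

set_option autoImplicit false

open UpperHalfPlane hiding I
open Complex EisensteinSeries ModularForm MatrixGroups Manifold
open scoped Real Topology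

namespace AK

open H32 H32.T3 H32.T4 AO

private theorem D2_scale {X Y : ℝ} {J w : ℂ} {M e q : ℕ} {f : ℤ} (hM : 0 < M) (hf : f ≠ 0) (hq : 1 ≤ q)
    (rr : ℕ → Polynomial ℤ) (h1 : rr M = Polynomial.C f) (h2 : ∀ i, (rr i).natDegree ≤ 2 * M)
    (h3 : ∀ i, H32.T3.nr (rr i) ≤ Real.exp Y)
    (h4 : ∑ i ∈ Finset.range (M + 1), Polynomial.aeval J (rr i) * (w * (q : ℂ) ^ e) ^ i = 0)
    (hX : 2 * (M : ℝ) + e * M * Real.log q + Y ≤ X) (hY : 0 ≤ Y) : RootRel X J w := by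
  have hq0 : (0 : ℝ) < q := by exact_mod_cast hq
  have hq1 : (1 : ℝ) ≤ q := by exact_mod_cast hq
  have hlog : 0 ≤ Real.log q := Real.log_nonneg hq1
  have hM0 : (0 : ℝ) ≤ M := Nat.cast_nonneg M
  have he0 : (0 : ℝ) ≤ e := Nat.cast_nonneg e
  have hp : 0 ≤ (e : ℝ) * M * Real.log q := by positivity
  refine ⟨M, fun i ↦ if i ≤ M then Polynomial.C ((q : ℤ) ^ (e * i)) * rr i else 0,
    (q : ℤ) ^ (e * M) * f, hM, by linarith, ?_, ?_, ?_, ?_, ?_⟩
  · refine mul_ne_zero (pow_ne_zero _ ?_) hf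
    have : q ≠ 0 := by omega
    exact_mod_cast this
  · simp only [le_refl, if_true]
    rw [h1, ← Polynomial.C_mul]
  · intro i
    simp only
    split_ifs with hi
    · have h5 : (Polynomial.C ((q : ℤ) ^ (e * i)) * rr i).natDegree ≤ 2 * M :=
        (Polynomial.natDegree_C_mul_le _ _).trans (h2 i)
      have h6 : ((Polynomial.C ((q : ℤ) ^ (e * i)) * rr i).natDegree : ℝ) ≤ 2 * M := by
        exact_mod_cast h5
      linarith
    · rw [Polynomial.natDegree_zero, Nat.cast_zero]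
      linarith
  · intro i
    change H32.T3.nr (if i ≤ M then Polynomial.C ((q : ℤ) ^ (e * i)) * rr i else 0) ≤ _
    split_ifs with hi
    · have h5 : H32.T3.nr (Polynomial.C ((q : ℤ) ^ (e * i)) * rr i) ≤
          |(((q : ℤ) ^ (e * i) : ℤ) : ℝ)| * H32.T3.nr (rr i) :=
        H32.T3.nr_monomial_mul 0 ((q : ℤ) ^ (e * i)) (rr i)
      refine h5.trans ?_
      push_cast
      rw [abs_of_nonneg (by positivity)]
      have h6 : (q : ℝ) ^ (e * i) ≤ (q : ℝ) ^ (e * M) :=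
        pow_le_pow_right₀ hq1 (Nat.mul_le_mul_left e hi)
      have h7 : (q : ℝ) ^ (e * M) = Real.exp (e * M * Real.log q) := by
        rw [← Real.rpow_natCast, Real.rpow_def_of_pos hq0]
        push_cast
        ring_nf
      calc (q : ℝ) ^ (e * i) * H32.T3.nr (rr i) ≤ (q : ℝ) ^ (e * M) * Real.exp Y :=
            mul_le_mul h6 (h3 i) (H32.T3.nr_nonneg _) (by positivity)
        _ = Real.exp (e * M * Real.log q + Y) := by rw [h7, ← Real.exp_add]
        _ ≤ Real.exp X := Real.exp_le_exp.2 (by linarith)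
    · rw [H32.T3.nr_zero]
      exact (Real.exp_pos _).le
  · rw [← h4]
    refine Finset.sum_congr rfl fun i hi ↦ ?_
    have hi' : i ≤ M := by
      have := Finset.mem_range.1 hi
      omega
    simp only [hi', if_true]
    rw [map_mul, Polynomial.aeval_C, mul_pow, ← pow_mul]
    simp only [algebraMap_int_eq, eq_intCast, Int.cast_pow, Int.cast_natCast]
    ring

private theorem D2_size {D N M e q : ℕ} {K KN : ℝ} (hK : 0 ≤ K) (hq : 1 ≤ q) (hN : 0 < N)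
    (hM : M ≤ N ^ 2) (he : e ≤ 6 * D) (hKN : 8 + K ≤ KN) :
    2 * (M : ℝ) + e * M * Real.log q + K * (N : ℝ) ^ 26 ≤ KN * (N : ℝ) ^ 26 * (D + 1) * q := by
  have hq1 : (1 : ℝ) ≤ q := by exact_mod_cast hq
  have hq0 : (0 : ℝ) < q := by linarith
  have hlog0 : 0 ≤ Real.log q := Real.log_nonneg hq1
  have hlog : Real.log q ≤ q := (Real.log_le_sub_one_of_pos hq0).trans (by linarith)
  have hN1 : (1 : ℝ) ≤ N := by exact_mod_cast hN
  have hN2 : (N : ℝ) ^ 2 ≤ (N : ℝ) ^ 26 := pow_le_pow_right₀ hN1 (by norm_num)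
  have hM1 : (M : ℝ) ≤ (N : ℝ) ^ 26 := by
    have h : (M : ℝ) ≤ (N : ℝ) ^ 2 := by exact_mod_cast hM
    exact h.trans hN2
  have he' : (e : ℝ) ≤ 6 * D := by exact_mod_cast he
  have hM0 : (0 : ℝ) ≤ M := Nat.cast_nonneg M
  have hD0 : (0 : ℝ) ≤ D := Nat.cast_nonneg D
  have hP0 : (0 : ℝ) ≤ (N : ℝ) ^ 26 := by positivity
  set P : ℝ := (N : ℝ) ^ 26 with hP
  have hDq : (1 : ℝ) ≤ (D + 1) * q := by nlinarith
  have t1 : 2 * (M : ℝ) ≤ 2 * P * ((D + 1) * q) := by nlinarith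
  have t2 : (e : ℝ) * M * Real.log q ≤ 6 * P * ((D + 1) * q) := by
    calc (e : ℝ) * M * Real.log q ≤ (6 * D) * P * q := by gcongr
      _ ≤ 6 * P * ((D + 1) * q) := by
        have h : 0 ≤ 6 * P * q := by positivity
        nlinarith
  have t3 : K * P ≤ K * P * ((D + 1) * q) := by
    have h : 0 ≤ K * P := by positivity
    nlinarith
  have t4 : (8 + K) * (P * ((D + 1) * q)) ≤ KN * (P * ((D + 1) * q)) := by
    have h : 0 ≤ P * ((D + 1) * q) := by positivity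
    exact mul_le_mul_of_nonneg_right hKN h
  calc 2 * (M : ℝ) + e * M * Real.log q + K * P ≤ (8 + K) * (P * ((D + 1) * q)) := by linarith
    _ ≤ KN * (P * ((D + 1) * q)) := t4
    _ = KN * P * (D + 1) * q := by ring

theorem rootRel_pt : ∃ K : ℕ, 1 ≤ K ∧ ∀ (τ τ' : ℍ) (a b c d : ℤ) (N q D : ℕ) (w0 w1 w2 : ℂ),
    0 < N → (N : ℤ) = a * d - b * c → (τ' : ℂ) = (a * (τ : ℂ) + b) / (c * (τ : ℂ) + d) → 1 ≤ q →
    w0 * (q : ℂ) ^ (4 * D) =
      ((N : ℂ) / (c * (τ : ℂ) + d)) ^ 4 * E₄ τ' * E₄ τ ^ 2 / discriminant τ →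
    w1 * (q : ℂ) ^ (6 * D) =
      ((N : ℂ) / (c * (τ : ℂ) + d)) ^ 6 * E₆ τ' * E₆ τ / discriminant τ →
    w2 * (q : ℂ) ^ (2 * D) =
      (((N : ℂ) / (c * (τ : ℂ) + d)) ^ 2 * E2s τ' - N * E2s τ) * (E₄ τ * E₆ τ) / discriminant τ →
    RootRel ((K : ℝ) * (N : ℝ) ^ 26 * (D + 1) * q) (jf τ) w0 ∧
    RootRel ((K : ℝ) * (N : ℝ) ^ 26 * (D + 1) * q) (jf τ) w1 ∧
    RootRel ((K : ℝ) * (N : ℝ) ^ 26 * (D + 1) * q) (jf τ) w2 := by
  obtain ⟨KP, hKP, hP⟩ := H32.T3.rel_PQ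
  obtain ⟨KT, hKT, hT⟩ := H32.T3.rel_all
  obtain ⟨K, hK⟩ := exists_nat_ge (8 + KP + KT)
  refine ⟨K, ?_, ?_⟩
  · have h : (1 : ℝ) ≤ K := by linarith
    exact_mod_cast h
  intro τ τ' a b c d N q D w0 w1 w2 hN hdet hτ hq e0 e1 e2
  obtain ⟨s, hs, x0, x1, x2⟩ := rat_eval hN hdet τ τ' hτ
  obtain ⟨rP, rQ, a1, a2, a3, a4, a5, a6, a7, a8⟩ := hP N hN
  obtain ⟨rD, rT, -, b2, -, b4, -, b6, -, b8⟩ := hT N hN
  have hM : 0 < (SN N).card := H32.T3.one_le_card_SN hN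
  have hM2 : (SN N).card ≤ N ^ 2 := H32.T3.card_SN_le hN
  have hf : (((SN N).card).factorial : ℤ) ≠ 0 := by
    exact_mod_cast (Nat.factorial_pos _).ne'
  refine ⟨?_, ?_, ?_⟩
  · have hz : ∑ i' ∈ Finset.range ((SN N).card + 1), Polynomial.aeval (jf τ) (rP i') *
        (w0 * (q : ℂ) ^ (4 * D)) ^ i' = 0 := by
      rw [a7, Finset.prod_eq_zero hs, mul_zero]
      rw [e0, x0, pow_one, sub_self]
    exact D2_scale hM hf hq rP a1 a3 a5 hz
      (D2_size (by linarith) hq hN hM2 (by omega) (by linarith)) (by positivity)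
  · have hz : ∑ i' ∈ Finset.range ((SN N).card + 1), Polynomial.aeval (jf τ) (rQ i') *
        (w1 * (q : ℂ) ^ (6 * D)) ^ i' = 0 := by
      rw [a8, Finset.prod_eq_zero hs, mul_zero]
      rw [e1, x1, pow_one, sub_self]
    exact D2_scale hM hf hq rQ a2 a4 a6 hz
      (D2_size (by linarith) hq hN hM2 (by omega) (by linarith)) (by positivity)
  · have hz : ∑ i' ∈ Finset.range ((SN N).card + 1), Polynomial.aeval (jf τ) (rT i') *
        (w2 * (q : ℂ) ^ (2 * D)) ^ i' = 0 := by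
      rw [b8, Finset.prod_eq_zero hs, mul_zero]
      rw [e2, x2, pow_one, sub_self]
    exact D2_scale hM hf hq rT b2 b4 b6 hz
      (D2_size (by linarith) hq hN hM2 (by omega) (by linarith)) (by positivity)

end AK
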