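import Pool.Agent.H32.AK.MO
import Pool.Agent.H32.AK.D2

/-!
# MP_ede373, points algebraic over `ℚ(t)`, row D3: the family at good parameters consists of roots

`τ = ⟨Y r, _⟩ : ℍ`, `jc (S.Y r) = jf τ` (`jc_coe`). Let `i` be an index, `a, b, c, d` from `Good`, `N = a d - b c > 0` (as a natural number), so `(N : ℂ) = q^(2A) dt_i(r)`, `c τ + d = q^A den_i(r) ≠ 0` and
`τ' = (a τ + b)/(c τ + d) = φ_i(r)` has positive imaginary part (`AO.im_mobC` with the real entries `a, b, c, d`). The three formulas of `rootRel_pt` with `D = A`, `w0, w1, w2 = S.RW r (i, 0..2)`: exactly as in the private lemma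
`C1_formulas` of `Pool/Agent/H32/AO/C1.lean` (there the base point is `S.y 0`, here `τ`; `e4 (Y r) = E₄ τ` by `ofComplex_apply`, `dlt (Y r) = discriminant τ` by `dlt_coe`; third formula with `im_key`). `N ≤ 2 q^(2A+2)`, so the size
`K N^26 (A + 1) q ≤ K 2^26 (A + 1) q^(52 A + 53) ≤ q^A'` with `A' = 52 A + 60` for `q ≥ Q0` (`RootRel.mono`).
`Sum.inr s`: `S.WF r (inr s) = r s`, a root of `F ≠ 0`, `natDegree F ≤ A`, `nr F ≤ q^A`: `RootRel` with `M = natDegree F ≥ 1` (a nonzero constant has no root), `r_i = C (F.coeff i)`, `c` = leading coefficient, `M ≤ A ≤ q^A'`,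
`nr (C a) = |a| ≤ nr F ≤ q^A ≤ exp (q^A')`.
-/

set_option autoImplicit false

open UpperHalfPlane hiding I
open Complex EisensteinSeries ModularForm MatrixGroups Manifold
open scoped Real Topology
open MvPolynomial Filter

namespace AK

open H32 H32.T3 H32.T4 AO

private lemma D3_formulas {m n : ℕ} (S : MO m n) (i : Fin n) (σ : Fin m → ℂ) {q D : ℕ}
    (hq : (q : ℂ) ≠ 0) {a b c d : ℤ} {N : ℕ} (hN : 0 < N) (hdet : (N : ℤ) = a * d - b * c)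
    (τ τ' : ℍ) (hY : (τ : ℂ) = S.Y σ) (hτ : (τ' : ℂ) = S.φ i σ)
    (ha : (a : ℂ) = (q : ℂ) ^ D * aeval σ (S.pA i)) (hb : (b : ℂ) = (q : ℂ) ^ D * aeval σ (S.pB i))
    (hc : (c : ℂ) = (q : ℂ) ^ D * aeval σ (S.pC i))
    (hd : (d : ℂ) = (q : ℂ) ^ D * aeval σ (S.pD i)) :
    (τ' : ℂ) = (a * (τ : ℂ) + b) / (c * (τ : ℂ) + d) ∧
        S.RW σ (i, 0) * (q : ℂ) ^ (4 * D) =
          ((N : ℂ) / (c * (τ : ℂ) + d)) ^ 4 * E₄ τ' * E₄ τ ^ 2 / discriminant τ ∧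
        S.RW σ (i, 1) * (q : ℂ) ^ (6 * D) =
          ((N : ℂ) / (c * (τ : ℂ) + d)) ^ 6 * E₆ τ' * E₆ τ / discriminant τ ∧
        S.RW σ (i, 2) * (q : ℂ) ^ (2 * D) =
          (((N : ℂ) / (c * (τ : ℂ) + d)) ^ 2 * E2s τ' - N * E2s τ) *
            (E₄ τ * E₆ τ) / discriminant τ := by
  have hQ : (q : ℂ) ^ D ≠ 0 := pow_ne_zero _ hq
  have h1 : (τ' : ℂ) = (a * (τ : ℂ) + b) / (c * (τ : ℂ) + d) := by
    rw [hτ, ha, hb, hc, hd, MO.φ, mob, ← hY, mul_assoc, mul_assoc, ← mul_add, ← mul_add,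
      mul_div_mul_left _ _ hQ]
  obtain ⟨hcd, hkey⟩ := im_key hN hdet τ τ' h1
  have hden : (c : ℂ) * (τ : ℂ) + d = (q : ℂ) ^ D * S.den i σ := by
    rw [hc, hd, MO.den, ← hY]
    ring
  have hden0 : S.den i σ ≠ 0 := by
    intro h0
    rw [hden, h0, mul_zero] at hcd
    exact hcd rfl
  have hNc : (N : ℂ) = ((q : ℂ) ^ D) ^ 2 * aeval σ (S.dt i) := by
    have h2 := congrArg (fun z : ℤ ↦ (z : ℂ)) hdet
    push_cast at h2
    rw [h2, ha, hb, hc, hd, MO.dt, map_sub, map_mul, map_mul]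
    ring
  have hfrac : (N : ℂ) / (c * (τ : ℂ) + d) =
      (q : ℂ) ^ D * (aeval σ (S.dt i) / S.den i σ) := by
    rw [hNc, hden]
    field_simp
  have g2 : e2 τ' = E2 τ' := by rw [e2, ofComplex_apply]
  have g4 : e4 τ' = E₄ τ' := by rw [e4, ofComplex_apply]
  have g6 : e6 τ' = E₆ τ' := by rw [e6, ofComplex_apply]
  have k2 : e2 τ = E2 τ := by rw [e2, ofComplex_apply]
  have k4 : e4 τ = E₄ τ := by rw [e4, ofComplex_apply]
  have k6 : e6 τ = E₆ τ := by rw [e6, ofComplex_apply]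
  have kd : dlt (τ : ℂ) = discriminant τ := dlt_coe τ
  refine ⟨h1, ?_, ?_, ?_⟩
  · have e : S.RW σ (i, 0) = (aeval σ (S.dt i) / S.den i σ) ^ 4 * e4 (S.φ i σ) *
        e4 (S.Y σ) ^ 2 / dlt (S.Y σ) := rfl
    rw [e, hfrac, ← hτ, ← hY, g4, k4, kd]
    ring
  · have e : S.RW σ (i, 1) = (aeval σ (S.dt i) / S.den i σ) ^ 6 * e6 (S.φ i σ) *
        e6 (S.Y σ) / dlt (S.Y σ) := rfl
    rw [e, hfrac, ← hτ, ← hY, g6, k6, kd]
    ring
  · have e : S.RW σ (i, 2) = ((aeval σ (S.dt i) / S.den i σ) ^ 2 * e2 (S.φ i σ) -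
        aeval σ (S.dt i) * e2 (S.Y σ) +
        6 * Complex.I * aeval σ (S.dt i) * aeval σ (S.pC i) / (π * S.den i σ)) *
      (e4 (S.Y σ) * e6 (S.Y σ)) / dlt (S.Y σ) := rfl
    have hpi : (π : ℂ) ≠ 0 := by exact_mod_cast Real.pi_ne_zero
    have e1 : (((N : ℂ) / (c * (τ : ℂ) + d)) ^ 2 * E2s τ' - N * E2s τ) =
        ((N : ℂ) / (c * (τ : ℂ) + d)) ^ 2 * E2 τ' - N * E2 τ +
          6 * Complex.I * N * c / (π * (c * (τ : ℂ) + d)) := by
      rw [E2s, E2s]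
      linear_combination -hkey
    have e2' : 6 * Complex.I * N * c / (π * (c * (τ : ℂ) + d)) =
        ((q : ℂ) ^ D) ^ 2 * (6 * Complex.I * aeval σ (S.dt i) * aeval σ (S.pC i) /
          (π * S.den i σ)) := by
      rw [hden, hNc, hc]
      field_simp
    rw [e1, e2', e, hfrac, ← hτ, ← hY, g2, k2, k4, k6, kd, hNc]
    ring

private lemma D3_size {K A N q : ℕ} (hq : 1 ≤ q) (hN : (N : ℝ) ≤ 2 * (q : ℝ) ^ (2 * A + 2))
    (hQ : (K : ℝ) * 2 ^ 26 * (A + 1) ≤ q) :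
    (K : ℝ) * (N : ℝ) ^ 26 * (A + 1) * q ≤ (q : ℝ) ^ (52 * A + 60) := by
  have hq1 : (1 : ℝ) ≤ q := by exact_mod_cast hq
  have hN0 : (0 : ℝ) ≤ N := Nat.cast_nonneg N
  have hN2 : (N : ℝ) ^ 26 ≤ 2 ^ 26 * (q : ℝ) ^ (52 * A + 52) := by
    calc (N : ℝ) ^ 26 ≤ (2 * (q : ℝ) ^ (2 * A + 2)) ^ 26 := pow_le_pow_left₀ hN0 hN 26
      _ = 2 ^ 26 * (q : ℝ) ^ (52 * A + 52) := by rw [mul_pow, ← pow_mul]; ring_nf
  calc (K : ℝ) * (N : ℝ) ^ 26 * (A + 1) * q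
      ≤ K * (2 ^ 26 * (q : ℝ) ^ (52 * A + 52)) * (A + 1) * q := by gcongr
    _ = (K * 2 ^ 26 * (A + 1)) * ((q : ℝ) ^ (52 * A + 52) * q) := by ring
    _ ≤ q * ((q : ℝ) ^ (52 * A + 52) * q) := by gcongr
    _ = (q : ℝ) ^ (52 * A + 54) := by ring
    _ ≤ (q : ℝ) ^ (52 * A + 60) := pow_le_pow_right₀ hq1 (by omega)

private lemma D3_nr_coeff (F : Polynomial ℤ) (i : ℕ) : |(F.coeff i : ℝ)| ≤ CZ.nr F := by
  by_cases h : F.coeff i = 0
  · rw [h, Int.cast_zero, abs_zero]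
    exact Finset.sum_nonneg fun _ _ ↦ abs_nonneg _
  · have h1 : i ∈ F.support := Polynomial.mem_support_iff.2 h
    exact Finset.single_le_sum (f := fun i ↦ |(F.coeff i : ℝ)|) (fun _ _ ↦ abs_nonneg _) h1

private lemma D3_alg {J w : ℂ} {A : ℕ} {Z T : ℝ} (h : AlgB A Z w) (hA : (A : ℝ) ≤ T)
    (hT : 0 ≤ T) (hZ : Z ≤ Real.exp T) : RootRel T J w := by
  obtain ⟨F, hF, hdeg, hnr, h0⟩ := h
  have hpos : 0 < F.natDegree := by
    rcases Nat.eq_zero_or_pos F.natDegree with h1 | h1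
    · exfalso
      rw [Polynomial.eq_C_of_natDegree_eq_zero h1, Polynomial.aeval_C] at h0
      have h2 : F.coeff 0 = 0 := by
        simpa using h0
      apply hF
      rw [Polynomial.eq_C_of_natDegree_eq_zero h1, h2, map_zero]
    · exact h1
  refine ⟨F.natDegree, fun i ↦ Polynomial.C (F.coeff i), F.leadingCoeff, hpos, ?_, ?_, rfl, ?_, ?_,
    ?_⟩
  · have : (F.natDegree : ℝ) ≤ A := by exact_mod_cast hdeg
    exact this.trans hA
  · exact Polynomial.leadingCoeff_ne_zero.2 hF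
  · intro i
    rw [Polynomial.natDegree_C, Nat.cast_zero]
    exact hT
  · intro i
    rw [A6_nr_C]
    exact (D3_nr_coeff F i).trans (hnr.trans hZ)
  · rw [Polynomial.aeval_eq_sum_range] at h0
    rw [← h0]
    refine Finset.sum_congr rfl fun i _ ↦ ?_
    rw [Polynomial.aeval_C, zsmul_eq_mul]
    rfl

theorem rootRel_good {M n : ℕ} (S : MO M n) (A : ℕ) : ∃ A' Q0 : ℕ, ∀ (q : ℕ) (r : Fin M → ℂ),
    Q0 ≤ q → S.Good A q r → ∀ j, RootRel ((q : ℝ) ^ A') (jc (S.Y r)) (S.WF r j) := by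
  obtain ⟨K, hK1, hK⟩ := rootRel_pt
  refine ⟨52 * A + 60, K * 2 ^ 26 * (A + 1) + A + 1, fun q r hqQ hr j ↦ ?_⟩
  have hq : 1 ≤ q := by omega
  have hq1 : (1 : ℝ) ≤ q := by exact_mod_cast hq
  have hqc : (q : ℂ) ≠ 0 := by
    have : q ≠ 0 := by omega
    exact_mod_cast this
  have hQ : (K : ℝ) * 2 ^ 26 * (A + 1) ≤ q := by
    have : K * 2 ^ 26 * (A + 1) ≤ q := by omega
    exact_mod_cast this
  obtain ⟨hY, hs, -, hi⟩ := hr
  set τ : ℍ := ⟨S.Y r, hY⟩ with hτdef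
  have hτ : (τ : ℂ) = S.Y r := rfl
  have hJ : jc (S.Y r) = jf τ := jc_coe τ
  rcases j with ⟨i, k⟩ | s
  · obtain ⟨a, b, c, d, hpos, ⟨ha, hb, hc, hd⟩, ea, eb, ec, ed⟩ := hi i
    obtain ⟨N, hNe⟩ := Int.eq_ofNat_of_zero_le hpos.le
    have hN0 : 0 < N := by
      rw [hNe] at hpos
      exact_mod_cast hpos
    have hdet : (N : ℤ) = a * d - b * c := hNe.symm
    have hNr : (N : ℝ) = a * d - b * c := by exact_mod_cast congrArg (fun z : ℤ ↦ (z : ℝ)) hdet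
    have hposr : (0 : ℝ) < (a : ℝ) * d - b * c := by
      rw [← hNr]
      exact_mod_cast hN0
    have hNle : (N : ℝ) ≤ 2 * (q : ℝ) ^ (2 * A + 2) := by
      have hQ0 : (0 : ℝ) ≤ (q : ℝ) ^ (A + 1) := by positivity
      have h3 : |(a : ℝ) * d| ≤ (q : ℝ) ^ (A + 1) * (q : ℝ) ^ (A + 1) := by
        rw [abs_mul]
        exact mul_le_mul ha hd (abs_nonneg _) hQ0
      have h4 : |(b : ℝ) * c| ≤ (q : ℝ) ^ (A + 1) * (q : ℝ) ^ (A + 1) := by
        rw [abs_mul]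
        exact mul_le_mul hb hc (abs_nonneg _) hQ0
      have h5 := (abs_le.1 h3).2
      have h6 := (abs_le.1 h4).1
      have h7 : 2 * (q : ℝ) ^ (2 * A + 2) = 2 * ((q : ℝ) ^ (A + 1) * (q : ℝ) ^ (A + 1)) := by
        ring
      rw [h7, hNr]
      linarith
    obtain ⟨-, -, him⟩ := im_mobC (a := a) (b := b) (c := c) (d := d) hY hposr
    have hφ : mob ((a : ℝ) : ℂ) ((b : ℝ) : ℂ) ((c : ℝ) : ℂ) ((d : ℝ) : ℂ) (S.Y r) = S.φ i r := by
      have hQ' : (q : ℂ) ^ A ≠ 0 := pow_ne_zero _ hqc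
      simp only [Complex.ofReal_intCast]
      rw [ea, eb, ec, ed, MO.φ, mob, mob, mul_assoc, mul_assoc, ← mul_add, ← mul_add,
        mul_div_mul_left _ _ hQ']
    rw [hφ] at him
    obtain ⟨f1, f2, f3, f4⟩ := D3_formulas S i r hqc hN0 hdet τ ⟨S.φ i r, him⟩ rfl rfl ea eb ec ed
    obtain ⟨r0, r1, r2⟩ := hK τ ⟨S.φ i r, him⟩ a b c d N q A _ _ _ hN0 hdet f1 hq f2 f3 f4
    have hsz := D3_size (K := K) (A := A) (N := N) hq hNle hQ
    rw [hJ]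
    fin_cases k
    · exact r0.mono hsz
    · exact r1.mono hsz
    · exact r2.mono hsz
  · change RootRel _ _ (r s)
    have hAq : (A : ℝ) ≤ q := by
      have : A ≤ q := by omega
      exact_mod_cast this
    have h1 : (q : ℝ) ≤ (q : ℝ) ^ (52 * A + 60) := by
      calc (q : ℝ) = (q : ℝ) ^ 1 := (pow_one _).symm
        _ ≤ (q : ℝ) ^ (52 * A + 60) := pow_le_pow_right₀ hq1 (by omega)
    have h2 : (q : ℝ) ^ A ≤ (q : ℝ) ^ (52 * A + 60) := pow_le_pow_right₀ hq1 (by omega)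
    have h3 : (q : ℝ) ^ (52 * A + 60) ≤ Real.exp ((q : ℝ) ^ (52 * A + 60)) := by
      have := Real.add_one_le_exp ((q : ℝ) ^ (52 * A + 60))
      linarith
    exact D3_alg (hs s) (hAq.trans h1) (by positivity) (h2.trans h3)

end AK
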