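import Pool.Agent.H32.AK.MO

/-!
# MP_ede373, points algebraic over `ℚ(t)`, row D5: rank of the family along sequences

Adapt the proof of `AO.rank_WF` (file `Pool/Agent/H32/AO/C3.lean`). Consider the larger family
`VS : ((Fin n × Fin 3) ⊕ Fin M) ⊕ Fin 3 → Ult`, `VS (inl j) = mkU (fun k ↦ S.WF (r k) j)`, `VS (inr 0) = J = mkU (jc (Y (r k)))`, `VS (inr 1) = a = mkU (e4 (Y (r k)))`, `VS (inr 2) = mkU (e2 (Y (r k)))`, and `D = Algebra.adjoin ℂ (range VS)`.
The elements `mkU (r k s)`, `mkU (aeval (r k) p)`, constants are algebraic over `D`, `a ≠ 0`, `b = mkU (e6 (Y (r k))) ≠ 0` (limits `h4`, `h6`: `S.an` and continuity of `e4, e6` at `Y x`), `mkU (dlt (Y (r k))) = (a^3 - b^2)/1728 ≠ 0`. `J (a^3 - b^2) = 1728 a^3`, `J ≠ 0`, so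
`b^2 = a^3 - 1728 a^3 J⁻¹` is algebraic over `D` and so is `b` (`IsAlgebraic` of a power: `IsAlgebraic.of_pow`), and `mkU (dlt ..)`. For `dn = mkU (den i (r k)) = mkU (pC) * mkU (Y (r k)) + mkU (pD)` we need that `mkU (Y (r k))` is algebraic over `D`: this follows from the hypothesis `hY`, as
`Algebra.adjoin ℂ (range (fun s ↦ mkU (fun k ↦ r k s))) ≤ D`.
Then as in `rank_WF`: `g4 i = VS (inl (inl (i,0))) dn^4 dltY (dd^4 a^2)⁻¹`, `g6 i` from `(i, 1)` with `b`, `g2 i` from `(i, 2)` are algebraic over `D`. So all members of the independent family `et` of `hX` (size `3 (n+1) + M`; `ψ 0 = Y`,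
`ψ (i+1) = φ i`: `Fin.cases`) are in the closure of `range VS`, whose index type has `3 n + M + 3` elements, so `VS` is algebraically independent (`extract_indep'`, `AO.indep_of_card`). Restrict to the
indices `inl j` and `inr 0` (`AlgebraicIndependent.comp` with an injective map).
-/

set_option autoImplicit false
set_option linter.unusedSimpArgs false

open UpperHalfPlane hiding I
open Complex EisensteinSeries ModularForm MatrixGroups Manifold
open scoped Real Topology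
open MvPolynomial Filter

namespace AK

open H32 H32.T3 H32.T4 AO

private theorem D5_mono {A B : Subalgebra ℂ Ult} (h : A ≤ B) {x : Ult} (hx : IsAlgebraic A x) :
    IsAlgebraic B x := by
  let _ : Algebra A B := (Subalgebra.inclusion h).toAlgebra
  have : IsScalarTower A B Ult := IsScalarTower.of_algebraMap_eq (fun _ => rfl)
  exact hx.extendScalars (Subalgebra.inclusion_injective h)

theorem rank_MO {M n : ℕ} (S : MO M n) (h4 : e4 (S.Y S.x) ≠ 0) (h6 : e6 (S.Y S.x) ≠ 0)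
    (r : ℕ → Fin M → ℂ) (hr : Tendsto r atTop (𝓝 S.x))
    (hY : IsAlgebraic (Algebra.adjoin ℂ (Set.range fun s : Fin M ↦ mkU (fun k ↦ r k s)))
      (mkU (fun k ↦ S.Y (r k))))
    (hX : AlgebraicIndependent ℂ (Sum.elim
      (fun p : Fin (n + 1) × Fin 3 ↦ mkU (fun k ↦ ee (S.ψ p.1 (r k)) p.2))
      (fun s : Fin M ↦ mkU (fun k ↦ r k s)))) :
    AlgebraicIndependent ℂ (Sum.elim (fun j ↦ mkU (fun k ↦ S.WF (r k) j))
      (fun _ : Unit ↦ mkU (fun k ↦ jc (S.Y (r k))))) := by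
  classical
  set MM := AlgebraicIndependent.matroid ℂ Ult with hM
  set J : Ult := mkU (fun k ↦ jc (S.Y (r k))) with hJ
  set a : Ult := mkU (fun k ↦ e4 (S.Y (r k))) with ha
  set b : Ult := mkU (fun k ↦ e6 (S.Y (r k))) with hb
  set c2 : Ult := mkU (fun k ↦ e2 (S.Y (r k))) with hc2
  set dY : Ult := mkU (fun k ↦ dlt (S.Y (r k))) with hdY
  set VS : ((Fin n × Fin 3) ⊕ Fin M) ⊕ Fin 3 → Ult :=
    Sum.elim (fun j ↦ mkU (fun k ↦ S.WF (r k) j)) ![J, a, c2] with hVS
  set D : Subalgebra ℂ Ult := Algebra.adjoin ℂ (Set.range VS) with hD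
  have hgen : ∀ v ∈ Set.range VS, IsAlgebraic D v := by
    intro v hv
    exact isAlgebraic_algebraMap (⟨v, Algebra.subset_adjoin hv⟩ : D)
  have aR : ∀ r : ℂ, IsAlgebraic D (algebraMap ℂ Ult r) := fun r ↦ by
    rw [IsScalarTower.algebraMap_apply ℂ D Ult]
    exact isAlgebraic_algebraMap _
  have ar : ∀ s, IsAlgebraic D (mkU (fun k ↦ r k s)) := fun s ↦ hgen _ ⟨Sum.inl (Sum.inr s), rfl⟩
  have aJ : IsAlgebraic D J := hgen _ ⟨Sum.inr 0, rfl⟩
  have aa : IsAlgebraic D a := hgen _ ⟨Sum.inr 1, rfl⟩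
  have ac2 : IsAlgebraic D c2 := hgen _ ⟨Sum.inr 2, rfl⟩
  have aP : ∀ p : MvPolynomial (Fin M) ℤ, IsAlgebraic D (mkU (fun k ↦ aeval (r k) p)) := by
    intro p
    induction p using MvPolynomial.induction_on with
    | C c =>
      have e : (fun k ↦ aeval (r k) (C c : MvPolynomial (Fin M) ℤ)) = fun _ : ℕ ↦ (c : ℂ) := by
        ext k
        simp
      rw [e]
      exact aR c
    | add p q hp hq =>
      have e : (fun k ↦ aeval (r k) (p + q)) = (fun k ↦ aeval (r k) p) + fun k ↦ aeval (r k) q := by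
        ext k
        simp
      rw [e, map_add]
      exact hp.add hq
    | mul_X p s hp =>
      have e : (fun k ↦ aeval (r k) (p * X s)) = (fun k ↦ aeval (r k) p) * fun k ↦ r k s := by
        ext k
        simp
      rw [e, map_mul]
      exact hp.mul (ar s)
  have aY : IsAlgebraic D (mkU (fun k ↦ S.Y (r k))) := by
    refine D5_mono ?_ hY
    apply Algebra.adjoin_le
    rintro _ ⟨s, rfl⟩
    exact Algebra.subset_adjoin ⟨Sum.inl (Sum.inr s), rfl⟩
  -- eventually nonzero quantities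
  have hYt : Tendsto (fun k ↦ S.Y (r k)) atTop (𝓝 (S.Y S.x)) :=
    S.an.continuousAt.tendsto.comp hr
  have hdenE : ∀ i, ∀ᶠ k in atTop, S.den i (r k) ≠ 0 := fun i ↦
    ((S.an_den i).continuousAt.tendsto.comp hr).eventually_ne (S.den_x i)
  have hdtE : ∀ i, ∀ᶠ k in atTop, aeval (r k) (S.dt i) ≠ 0 := fun i ↦
    ((an_aeval (S.dt i) S.x).continuousAt.tendsto.comp hr).eventually_ne (S.dt_x i)
  have h4E : ∀ᶠ k in atTop, e4 (S.Y (r k)) ≠ 0 :=
    (((analytic_E4 _ S.im0).continuousAt.tendsto).comp hYt).eventually_ne h4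
  have h6E : ∀ᶠ k in atTop, e6 (S.Y (r k)) ≠ 0 :=
    (((analytic_E6 _ S.im0).continuousAt.tendsto).comp hYt).eventually_ne h6
  have himE : ∀ᶠ k in atTop, 0 < (S.Y (r k)).im :=
    (Complex.continuous_im.continuousAt.tendsto.comp hYt).eventually (lt_mem_nhds S.im0)
  have hdlE : ∀ᶠ k in atTop, dlt (S.Y (r k)) ≠ 0 := himE.mono fun k hk ↦ dlt_ne hk
  have ha0 : a ≠ 0 := by
    intro h0
    obtain ⟨k, h1, h2⟩ := ((freq_of_mkU_zero h0).and_eventually h4E).exists
    exact h2 h1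
  have hb0 : b ≠ 0 := by
    intro h0
    obtain ⟨k, h1, h2⟩ := ((freq_of_mkU_zero h0).and_eventually h6E).exists
    exact h2 h1
  have hdY0 : dY ≠ 0 := by
    intro h0
    obtain ⟨k, h1, h2⟩ := ((freq_of_mkU_zero h0).and_eventually hdlE).exists
    exact h2 h1
  have hJr : J * dY = a ^ 3 := by
    rw [hJ, hdY, ha, ← map_pow, ← map_mul, ← sub_eq_zero, ← map_sub]
    refine mkU_zero_of_ev (hdlE.mono fun k k2 ↦ ?_)
    simp only [Pi.sub_apply, Pi.mul_apply, Pi.pow_apply]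
    rw [dlt] at k2 ⊢
    have k3 : e4 (S.Y (r k)) ^ 3 - e6 (S.Y (r k)) ^ 2 ≠ 0 := by
      intro h
      rw [h, zero_div] at k2
      exact k2 rfl
    rw [jc]
    field_simp
    ring
  have hJ0 : J ≠ 0 := by
    intro h
    rw [h, zero_mul] at hJr
    exact pow_ne_zero 3 ha0 hJr.symm
  have hbr : b ^ 2 = a ^ 3 - algebraMap ℂ Ult 1728 * dY := by
    rw [algebraMap_Ult, hdY, ha, hb, ← map_pow, ← map_pow, ← map_mul, ← map_sub]
    congr 1
    funext k
    simp only [Pi.sub_apply, Pi.mul_apply, Pi.pow_apply]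
    rw [dlt]
    ring
  have adY : IsAlgebraic D dY := by
    have e : dY = a ^ 3 * J⁻¹ := by
      rw [← hJr]
      field_simp
    rw [e]
    exact (aa.pow 3).mul aJ.inv
  have ab : IsAlgebraic D b := by
    apply IsAlgebraic.of_pow (n := 2) (by norm_num)
    rw [hbr]
    exact (aa.pow 3).sub ((aR _).mul adY)
  set g2 : Fin n → Ult := fun i ↦ mkU (fun k ↦ e2 (S.φ i (r k))) with hg2
  set g4 : Fin n → Ult := fun i ↦ mkU (fun k ↦ e4 (S.φ i (r k))) with hg4
  set g6 : Fin n → Ult := fun i ↦ mkU (fun k ↦ e6 (S.φ i (r k))) with hg6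
  have hpi : (π : ℂ) ≠ 0 := by exact_mod_cast Real.pi_ne_zero
  have key : ∀ i, IsAlgebraic D (g2 i) ∧ IsAlgebraic D (g4 i) ∧ IsAlgebraic D (g6 i) := by
    intro i
    set dn : Ult := mkU (fun k ↦ S.den i (r k)) with hdn
    set dd : Ult := mkU (fun k ↦ aeval (r k) (S.dt i)) with hdd
    have hdn0 : dn ≠ 0 := by
      intro h0
      obtain ⟨k, h1, h2⟩ := ((freq_of_mkU_zero h0).and_eventually (hdenE i)).exists
      exact h2 h1
    have hdd0 : dd ≠ 0 := by
      intro h0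
      obtain ⟨k, h1, h2⟩ := ((freq_of_mkU_zero h0).and_eventually (hdtE i)).exists
      exact h2 h1
    have adn : IsAlgebraic D dn := by
      have e : dn = mkU (fun k ↦ aeval (r k) (S.pC i)) * mkU (fun k ↦ S.Y (r k)) +
          mkU (fun k ↦ aeval (r k) (S.pD i)) := by
        rw [← map_mul, ← map_add]
        rfl
      rw [e]
      exact ((aP _).mul aY).add (aP _)
    have add' : IsAlgebraic D dd := aP _
    have a0 : IsAlgebraic D (VS (Sum.inl (Sum.inl (i, 0)))) := hgen _ ⟨_, rfl⟩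
    have a1 : IsAlgebraic D (VS (Sum.inl (Sum.inl (i, 1)))) := hgen _ ⟨_, rfl⟩
    have a2 : IsAlgebraic D (VS (Sum.inl (Sum.inl (i, 2)))) := hgen _ ⟨_, rfl⟩
    -- relations
    have r0 : VS (Sum.inl (Sum.inl (i, 0))) * dn ^ 4 * dY = dd ^ 4 * g4 i * a ^ 2 := by
      rw [hdn, hdd, hVS, hg4, ha, hdY]
      simp only [Sum.elim_inl]
      rw [← map_pow, ← map_pow, ← map_pow, ← map_mul, ← map_mul, ← map_mul, ← map_mul,
        ← sub_eq_zero, ← map_sub]
      refine mkU_zero_of_ev (((hdenE i).and hdlE).mono fun k k2 ↦ ?_)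
      obtain ⟨k2, k3⟩ := k2
      simp only [Pi.sub_apply, Pi.mul_apply, Pi.pow_apply]
      change (aeval (r k) (S.dt i) / S.den i (r k)) ^ 4 * e4 (S.φ i (r k)) * e4 (S.Y (r k)) ^ 2 /
        dlt (S.Y (r k)) * _ * _ - _ = 0
      field_simp
      ring
    have r1 : VS (Sum.inl (Sum.inl (i, 1))) * dn ^ 6 * dY = dd ^ 6 * g6 i * b := by
      rw [hdn, hdd, hVS, hg6, hb, hdY]
      simp only [Sum.elim_inl]
      rw [← map_pow, ← map_pow, ← map_mul, ← map_mul, ← map_mul, ← map_mul, ← sub_eq_zero,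
        ← map_sub]
      refine mkU_zero_of_ev (((hdenE i).and hdlE).mono fun k k2 ↦ ?_)
      obtain ⟨k2, k3⟩ := k2
      simp only [Pi.sub_apply, Pi.mul_apply, Pi.pow_apply]
      change (aeval (r k) (S.dt i) / S.den i (r k)) ^ 6 * e6 (S.φ i (r k)) * e6 (S.Y (r k)) /
        dlt (S.Y (r k)) * _ * _ - _ = 0
      field_simp
      ring
    have r2 : VS (Sum.inl (Sum.inl (i, 2))) * dY * dn ^ 2 =
        (dd ^ 2 * g2 i - dd * c2 * dn ^ 2 +
          algebraMap ℂ Ult (6 * Complex.I / π) * dd * mkU (fun k ↦ aeval (r k) (S.pC i)) * dn) *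
          (a * b) := by
      rw [algebraMap_Ult, hdn, hdd, hVS, hg2, ha, hb, hc2, hdY]
      simp only [Sum.elim_inl]
      rw [← map_pow, ← map_pow, ← map_mul, ← map_mul, ← map_mul, ← map_mul, ← map_mul, ← map_mul,
        ← map_mul, ← map_mul, ← map_mul, ← map_sub, ← map_add, ← map_mul, ← sub_eq_zero, ← map_sub]
      refine mkU_zero_of_ev (((hdenE i).and hdlE).mono fun k k2 ↦ ?_)
      obtain ⟨k2, k3⟩ := k2
      simp only [Pi.sub_apply, Pi.mul_apply, Pi.pow_apply, Pi.add_apply]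
      change ((aeval (r k) (S.dt i) / S.den i (r k)) ^ 2 * e2 (S.φ i (r k)) -
        aeval (r k) (S.dt i) * e2 (S.Y (r k)) +
        6 * Complex.I * aeval (r k) (S.dt i) * aeval (r k) (S.pC i) / (π * S.den i (r k))) *
        (e4 (S.Y (r k)) * e6 (S.Y (r k))) / dlt (S.Y (r k)) * _ * _ - _ = 0
      field_simp
      ring
    refine ⟨?_, ?_, ?_⟩
    · have e : g2 i = (VS (Sum.inl (Sum.inl (i, 2))) * dY * dn ^ 2 *
          (a * b)⁻¹ +
          (dd * c2 * dn ^ 2 -
          algebraMap ℂ Ult (6 * Complex.I / π) * dd * mkU (fun k ↦ aeval (r k) (S.pC i)) * dn)) *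
          (dd ^ 2)⁻¹ := by
        rw [eq_mul_inv_iff_mul_eq₀ (pow_ne_zero 2 hdd0), r2,
          mul_inv_cancel_right₀ (mul_ne_zero ha0 hb0)]
        ring
      rw [e]
      exact ((((a2.mul adY).mul (adn.pow 2)).mul (aa.mul ab).inv).add
        (((add'.mul ac2).mul (adn.pow 2)).sub
          ((((aR _).mul add').mul (aP _)).mul adn))).mul (add'.pow 2).inv
    · have e : g4 i = VS (Sum.inl (Sum.inl (i, 0))) * dn ^ 4 * dY *
          (dd ^ 4 * a ^ 2)⁻¹ := by
        rw [eq_mul_inv_iff_mul_eq₀ (mul_ne_zero (pow_ne_zero 4 hdd0) (pow_ne_zero 2 ha0)), r0]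
        ring
      rw [e]
      exact ((a0.mul (adn.pow 4)).mul adY).mul ((add'.pow 4).mul (aa.pow 2)).inv
    · have e : g6 i = VS (Sum.inl (Sum.inl (i, 1))) * dn ^ 6 * dY *
          (dd ^ 6 * b)⁻¹ := by
        rw [eq_mul_inv_iff_mul_eq₀ (mul_ne_zero (pow_ne_zero 6 hdd0) hb0), r1]
        ring
      rw [e]
      exact ((a1.mul (adn.pow 6)).mul adY).mul ((add'.pow 6).mul ab).inv
  set et : (Fin (n + 1) × Fin 3) ⊕ Fin M → Ult :=
    Sum.elim (fun p : Fin (n + 1) × Fin 3 ↦ mkU (fun k ↦ ee (S.ψ p.1 (r k)) p.2))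
      (fun s : Fin M ↦ mkU (fun k ↦ r k s)) with het
  have hind : MM.Indep (Set.range et) := by
    rw [hM, AlgebraicIndependent.matroid_indep_iff]
    exact hX.to_subtype_range
  have hcardE : Fintype.card ((Fin (n + 1) × Fin 3) ⊕ Fin M) = 3 * (n + 1) + M := by
    rw [Fintype.card_sum, Fintype.card_prod, Fintype.card_fin, Fintype.card_fin, Fintype.card_fin,
      mul_comm (n + 1) 3]
  have hcardI : Fintype.card (((Fin n × Fin 3) ⊕ Fin M) ⊕ Fin 3) = 3 * (n + 1) + M := by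
    rw [Fintype.card_sum, Fintype.card_sum, Fintype.card_prod, Fintype.card_fin, Fintype.card_fin,
      Fintype.card_fin]
    ring
  have hcard : (Set.range et).encard = ((3 * (n + 1) + M : ℕ) : ℕ∞) := by
    rw [← Set.image_univ, hX.injective.encard_image, Set.encard_univ, ENat.card_eq_coe_fintype_card,
      hcardE]
  have hsub : Set.range et ⊆ MM.closure (Set.range VS) := by
    rw [hM, AlgebraicIndependent.matroid_closure_eq]
    rintro _ ⟨u, rfl⟩
    change IsAlgebraic D (et u)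
    rcases u with ⟨i, l⟩ | s
    · refine Fin.cases ?_ (fun i ↦ ?_) i
      · fin_cases l
        · exact ac2
        · exact aa
        · exact ab
      · fin_cases l
        · exact (key i).1
        · exact (key i).2.1
        · exact (key i).2.2
    · exact ar s
  obtain ⟨B, hB'⟩ := MM.exists_isBasis (Set.range VS) (by rw [hM]; exact Set.subset_univ _)
  have h1 : ((3 * (n + 1) + M : ℕ) : ℕ∞) ≤ B.encard := by
    rw [hB'.encard_eq_eRk, ← MM.eRk_closure_eq, ← hcard]
    exact hind.encard_le_eRk_of_subset hsub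
  have hBi := hB'.indep
  rw [hM, AlgebraicIndependent.matroid_indep_iff] at hBi
  obtain ⟨f, hf⟩ := extract_indep' VS (B := B) hBi hB'.subset h1
  have hVi : AlgebraicIndependent ℂ VS := indep_of_card VS hcardI hf
  have hinj : Function.Injective (Sum.map id (fun _ : Unit ↦ (0 : Fin 3)) :
      ((Fin n × Fin 3) ⊕ Fin M) ⊕ Unit → ((Fin n × Fin 3) ⊕ Fin M) ⊕ Fin 3) :=
    Sum.map_injective.2 ⟨Function.injective_id, fun _ _ _ ↦ rfl⟩
  have h2 := hVi.comp _ hinj
  have h3 : VS ∘ (Sum.map id (fun _ : Unit ↦ (0 : Fin 3))) =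
      Sum.elim (fun j ↦ mkU (fun k ↦ S.WF (r k) j)) (fun _ : Unit ↦ J) := by
    funext u
    rcases u with u | u
    · rfl
    · rfl
  rw [h3] at h2
  exact h2

end AK
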