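import Pool.Agent.H32.AK.C7b
import Pool.Agent.H32.AK.C8
import Pool.Agent.H32.AK.D1
import Pool.Agent.H32.AK.D3
import Pool.Agent.H32.AK.D5

/-!
# MP_ede373, points algebraic over `ℚ(t)`, row D6: independence of the family and `j(y)`

As `AO.indep1` (file `Pool/Agent/H32/AO/C5.lean`), simpler at the end. `τ = ⟨Y x, S.im0⟩ : ℍ`, `J = jc (Y x) = jf τ` (`jc_coe`). `AZ.E_ne` (file `Pool/Agent/H32/AZ/Al.lean`) gives `e4 (Y x) ≠ 0`, `e6 (Y x) ≠ 0`.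
It suffices over `ℤ` (`AlgebraicIndependent.extendScalars ℚ`, `IsLocalization.isAlgebraic`, as in `AO.indep1`). Let `G : MvPolynomial (((Fin n × Fin 3) ⊕ Fin M) ⊕ Unit) ℤ` with value `0` at `(WF x, J)`. `N = 3 n + M`,
`e : Fin N ≃ (Fin n × Fin 3) ⊕ Fin M`, `G1 = rename (Sum.map e.symm id) G`.

Constants, in this order: `A', Q3` from `rootRel_good S A` (we may replace `A'` by `A' + 1` so `A' ≥ 1`, `RootRel.mono`); `κ1` from `meas_w τ hcm A A`; `B = ‖J‖ + 1`; `A1, X0` from `NL_w G1 B (κ1 + 1)`; `Λ(q) = (q^A')^(2 N + 4)`; `κ2 = A' (2 N + 4)`;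
`κ3, Q4` from `meas_w` for `κ := κ2`; `κ = max κ3 (A' A1) + κ2 (κ1 + 1) + 2`; the sequences `q, r` from `S.Seq A` for this `κ`. `K` from `near_MO` (valid along `r` for large `k`).
For large `k`, `X = (q k)^A'`, `J_k = jc (Y (r k))`, `Λ = X^(2 N + 4) = (q k)^κ2`: `‖J_k - J‖ ≤ K exp (-q^κ) ≤ 1`; `RootRel X J_k (WF (r k) j)`. Measure of `J_k` at `Λ`: let `f ≠ 0`, `natDegree f ≤ Λ`, `nr f ≤ exp Λ`. `meas_w` with `w = Y (r k)` (it is `NCM`, `AlgB A (q^A) w` from `Good`,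
`‖w - τ‖ ≤ K exp (-q^κ) ≤ exp (-q^κ3)`): `exp (-Λ^κ1) ≤ ‖f(J)‖`. `‖f(J_k) - f(J)‖ ≤ exp Λ * Λ * B^Λ * ‖J_k - J‖ ≤ exp (C Λ) K exp (-q^κ) ≤ exp (-Λ^κ1) / 2` because `q^κ ≥ q^2 Λ^(κ1+1)`. So `‖f(J_k)‖ ≥ exp (-Λ^κ1) / 2 ≥ exp (-Λ^(κ1+1))`.
`NL_w`: `v_k = G(WF (r k), J_k)` is `0` or `‖v_k‖ ≥ exp (-q^(A' A1))`. But `s ↦ G(WF s, jc (Y s))` is analytic at `x` with value `0` (`an_WF`, `an_J`, `AnalyticAt.aeval_mvPolynomial`), so
`‖v_k‖ ≤ K' ‖r k - x‖ ≤ K' exp (-q^κ) < exp (-q^(A' A1))` for large `k`. So `v_k = 0` eventually, hence `G` (mapped to `ℂ`) vanishes at the family of `rank_MO` in the ultrapower (`AO.aeval_mkUZ'`, `mkU_zero_of_ev`); `rank_MO` gives `G = 0`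
(`MvPolynomial.map_injective`).
-/

set_option autoImplicit false

open UpperHalfPlane hiding I
open Complex EisensteinSeries ModularForm MatrixGroups Manifold
open scoped Real Topology
open MvPolynomial Filter

namespace AK

open H32 H32.T3 H32.T4 AO

private theorem D6_near {m : ℕ} {x : Fin m → ℂ} {f : (Fin m → ℂ) → ℂ}
    (h : DifferentiableAt ℂ f x) : ∃ K : ℝ, 0 < K ∧ ∀ᶠ s in 𝓝 x, ‖f s - f x‖ ≤ K * ‖s - x‖ := by
  obtain ⟨K, hK0, hK⟩ := h.isBigO_sub.exists_pos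
  rw [Asymptotics.IsBigOWith] at hK
  exact ⟨K, hK0, hK⟩

private theorem D6_pow {a b : ℂ} {B δ : ℝ} (hB : 1 ≤ B) (ha : ‖a‖ ≤ B) (hb : ‖b‖ ≤ B)
    (hab : ‖a - b‖ ≤ δ) (i : ℕ) : ‖a ^ i - b ^ i‖ ≤ i * B ^ i * δ := by
  have hδ : 0 ≤ δ := (norm_nonneg _).trans hab
  have hB0 : 0 ≤ B := by linarith
  induction i with
  | zero => simp
  | succ i ih =>
    have e : a ^ (i + 1) - b ^ (i + 1) = a * (a ^ i - b ^ i) + (a - b) * b ^ i := by ring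
    rw [e]
    refine (norm_add_le _ _).trans ?_
    rw [norm_mul, norm_mul, norm_pow]
    have h1 : ‖a‖ * ‖a ^ i - b ^ i‖ ≤ B * (i * B ^ i * δ) := mul_le_mul ha ih (norm_nonneg _) hB0
    have h2 : ‖a - b‖ * ‖b‖ ^ i ≤ δ * B ^ i :=
      mul_le_mul hab (pow_le_pow_left₀ (norm_nonneg _) hb i) (by positivity) hδ
    have h3 : δ * B ^ i ≤ δ * B ^ (i + 1) :=
      mul_le_mul_of_nonneg_left (pow_le_pow_right₀ hB (Nat.le_succ i)) hδ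
    have h4 : B * (i * B ^ i * δ) + δ * B ^ (i + 1) = ((i + 1 : ℕ) : ℝ) * B ^ (i + 1) * δ := by
      push_cast
      ring
    linarith

private theorem D6_sub (f : Polynomial ℤ) {N : ℕ} (hN : f.natDegree ≤ N) {a b : ℂ} {B δ : ℝ}
    (hB : 1 ≤ B) (ha : ‖a‖ ≤ B) (hb : ‖b‖ ≤ B) (hab : ‖a - b‖ ≤ δ) :
    ‖Polynomial.aeval a f - Polynomial.aeval b f‖ ≤ CZ.nr f * (N * B ^ N * δ) := by
  have hδ : 0 ≤ δ := (norm_nonneg _).trans hab
  have hB0 : 0 ≤ B := by linarith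
  have hnr : CZ.nr f = ∑ i ∈ Finset.range (f.natDegree + 1), |((f.coeff i : ℤ) : ℝ)| := by
    unfold CZ.nr
    exact Polynomial.sum_over_range f (fun _ => by simp)
  rw [Polynomial.aeval_eq_sum_range, Polynomial.aeval_eq_sum_range, ← Finset.sum_sub_distrib, hnr,
    Finset.sum_mul]
  refine norm_sum_le_of_le _ fun i hi => ?_
  have hi' : i ≤ N := by
    have := Finset.mem_range.1 hi
    omega
  rw [← smul_sub, zsmul_eq_mul, norm_mul, Complex.norm_intCast]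
  refine mul_le_mul_of_nonneg_left ?_ (abs_nonneg _)
  refine (D6_pow hB ha hb hab i).trans ?_
  refine mul_le_mul_of_nonneg_right ?_ hδ
  have h1 : (i : ℝ) ≤ N := by exact_mod_cast hi'
  exact mul_le_mul h1 (pow_le_pow_right₀ hB hi') (by positivity) (Nat.cast_nonneg _)

private theorem D6_cmp {c : ℝ} (hc : 0 ≤ c) {q a κ : ℕ} (hq : c + 2 ≤ q) (ha : a + 1 ≤ κ) :
    c * Real.exp (-(q : ℝ) ^ κ) < Real.exp (-(q : ℝ) ^ a) := by
  have hq1 : (1 : ℝ) ≤ q := by linarith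
  have h1 : (1 : ℝ) ≤ (q : ℝ) ^ a := one_le_pow₀ hq1
  have h2 : (q : ℝ) ^ (a + 1) ≤ (q : ℝ) ^ κ := pow_le_pow_right₀ hq1 ha
  have h3 : c < Real.exp c := by
    have := Real.add_one_le_exp c
    linarith
  have h4 : c * Real.exp (-(q : ℝ) ^ κ) < Real.exp c * Real.exp (-(q : ℝ) ^ κ) :=
    mul_lt_mul_of_pos_right h3 (Real.exp_pos _)
  rw [← Real.exp_add] at h4
  refine h4.trans_le (Real.exp_le_exp.2 ?_)
  have h5 : (q : ℝ) ^ a * (c + 2) ≤ (q : ℝ) ^ (a + 1) := by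
    rw [pow_succ]
    exact mul_le_mul_of_nonneg_left hq (by linarith)
  have h6 : c * 1 ≤ c * (q : ℝ) ^ a := mul_le_mul_of_nonneg_left h1 hc
  nlinarith

private theorem D6_num {κ1 κ2 κ q : ℕ} {B K : ℝ} (hB : 1 ≤ B) (hK : 0 ≤ K)
    (hq : 4 + Real.log B + K ≤ q) (hκ : κ2 * (κ1 + 1) + 1 ≤ κ) :
    Real.exp ((q ^ κ2 : ℕ) : ℝ) * (((q ^ κ2 : ℕ) : ℝ) * B ^ (q ^ κ2) * (K * Real.exp (-(q : ℝ) ^ κ))) ≤
      Real.exp (-((q ^ κ2 : ℕ) : ℝ) ^ κ1 - 1) := by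
  have hL0 : 0 ≤ Real.log B := Real.log_nonneg hB
  have hq1 : (1 : ℝ) ≤ q := by linarith
  obtain ⟨Λ, hΛ⟩ : ∃ Λ : ℕ, Λ = q ^ κ2 := ⟨_, rfl⟩
  rw [← hΛ]
  have hΛr : (Λ : ℝ) = (q : ℝ) ^ κ2 := by
    rw [hΛ]
    push_cast
    rfl
  have hΛ1 : (1 : ℝ) ≤ Λ := by
    rw [hΛr]
    exact one_le_pow₀ hq1
  have e1 : (Λ : ℝ) ≤ Real.exp Λ := by
    have := Real.add_one_le_exp (Λ : ℝ)
    linarith
  have e2 : B ^ Λ = Real.exp (Λ * Real.log B) := by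
    rw [Real.exp_nat_mul, Real.exp_log (by linarith)]
  have e3 : K ≤ Real.exp K := by
    have := Real.add_one_le_exp K
    linarith
  have e4 : (Λ : ℝ) * B ^ Λ * (K * Real.exp (-(q : ℝ) ^ κ)) ≤
      Real.exp Λ * Real.exp (Λ * Real.log B) * (Real.exp K * Real.exp (-(q : ℝ) ^ κ)) := by
    rw [e2]
    have := Real.exp_pos (Λ * Real.log B)
    have := Real.exp_pos (-(q : ℝ) ^ κ)
    gcongr
  have e5 : Real.exp (Λ : ℝ) * ((Λ : ℝ) * B ^ Λ * (K * Real.exp (-(q : ℝ) ^ κ))) ≤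
      Real.exp ((Λ : ℝ) + (Λ + Λ * Real.log B + (K + -(q : ℝ) ^ κ))) := by
    rw [Real.exp_add, Real.exp_add, Real.exp_add, Real.exp_add]
    exact mul_le_mul_of_nonneg_left e4 (Real.exp_pos _).le
  refine e5.trans (Real.exp_le_exp.2 ?_)
  obtain ⟨P, hP⟩ : ∃ P : ℝ, P = (Λ : ℝ) ^ (κ1 + 1) := ⟨_, rfl⟩
  have hP1 : 1 ≤ P := by
    rw [hP]
    exact one_le_pow₀ hΛ1
  have hP2 : (Λ : ℝ) ≤ P := by
    rw [hP]
    exact le_self_pow₀ hΛ1 (Nat.succ_ne_zero _)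
  have hP3 : (Λ : ℝ) ^ κ1 ≤ P := by
    rw [hP]
    exact pow_le_pow_right₀ hΛ1 (Nat.le_succ _)
  have hP4 : (q : ℝ) * P ≤ (q : ℝ) ^ κ := by
    have h1 : (q : ℝ) * P = (q : ℝ) ^ (κ2 * (κ1 + 1) + 1) := by
      rw [hP, hΛr, ← pow_mul, pow_succ]
      ring
    rw [h1]
    exact pow_le_pow_right₀ hq1 hκ
  have hP5 : (4 + Real.log B + K) * P ≤ q * P := mul_le_mul_of_nonneg_right hq (by linarith)
  have hP6 : (Λ : ℝ) * Real.log B ≤ P * Real.log B := mul_le_mul_of_nonneg_right hP2 hL0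
  have hP7 : K * 1 ≤ K * P := mul_le_mul_of_nonneg_left hP1 hK
  nlinarith

private theorem D6_meas {κ1 κ2 κ q : ℕ} {B K : ℝ} {J J' : ℂ} (hB : 1 ≤ B) (hK : 0 ≤ K)
    (hq : 4 + Real.log B + K ≤ q) (hκ : κ2 * (κ1 + 1) + 1 ≤ κ) (hκ2 : 1 ≤ κ2)
    (hJ : ‖J‖ ≤ B) (hJ' : ‖J'‖ ≤ B) (hJJ : ‖J' - J‖ ≤ K * Real.exp (-(q : ℝ) ^ κ))
    (f : Polynomial ℤ) (hfd : f.natDegree ≤ q ^ κ2) (hfn : CZ.nr f ≤ Real.exp ((q ^ κ2 : ℕ) : ℝ))
    (hm : Real.exp (-((q ^ κ2 : ℕ) : ℝ) ^ κ1) ≤ ‖Polynomial.aeval J f‖) :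
    Real.exp (-((q ^ κ2 : ℕ) : ℝ) ^ (κ1 + 1)) ≤ ‖Polynomial.aeval J' f‖ := by
  have hL0 : 0 ≤ Real.log B := Real.log_nonneg hB
  have hq1 : (4 : ℝ) ≤ q := by linarith
  have h1 := D6_sub f hfd hB hJ' hJ hJJ
  have h2 : CZ.nr f * (((q ^ κ2 : ℕ) : ℝ) * B ^ (q ^ κ2) * (K * Real.exp (-(q : ℝ) ^ κ))) ≤
      Real.exp ((q ^ κ2 : ℕ) : ℝ) *
        (((q ^ κ2 : ℕ) : ℝ) * B ^ (q ^ κ2) * (K * Real.exp (-(q : ℝ) ^ κ))) := by
    refine mul_le_mul_of_nonneg_right hfn ?_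
    have : 0 ≤ B := by linarith
    positivity
  have h3 := h1.trans (h2.trans (D6_num hB hK hq hκ))
  obtain ⟨Λ, hΛ⟩ : ∃ Λ : ℕ, Λ = q ^ κ2 := ⟨_, rfl⟩
  rw [← hΛ] at h3 hm ⊢
  have hΛ4 : (4 : ℝ) ≤ Λ := by
    rw [hΛ]
    push_cast
    exact hq1.trans (le_self_pow₀ (by linarith) (by omega))
  have h4 : ‖Polynomial.aeval J f‖ ≤ ‖Polynomial.aeval J' f‖ +
      ‖Polynomial.aeval J' f - Polynomial.aeval J f‖ := by
    have e : Polynomial.aeval J f = Polynomial.aeval J' f -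
        (Polynomial.aeval J' f - Polynomial.aeval J f) := by ring
    rw [e]
    exact (norm_sub_le _ _).trans (le_of_eq (by rw [← e]))
  have h5 : 2 * Real.exp (-(Λ : ℝ) ^ κ1 - 1) ≤ Real.exp (-(Λ : ℝ) ^ κ1) := by
    have e : Real.exp (-(Λ : ℝ) ^ κ1) = Real.exp 1 * Real.exp (-(Λ : ℝ) ^ κ1 - 1) := by
      rw [← Real.exp_add]
      congr 1
      ring
    rw [e]
    refine mul_le_mul_of_nonneg_right ?_ (Real.exp_pos _).le
    have := Real.add_one_le_exp (1 : ℝ)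
    linarith
  have h6 : Real.exp (-(Λ : ℝ) ^ (κ1 + 1)) ≤ Real.exp (-(Λ : ℝ) ^ κ1 - 1) := by
    refine Real.exp_le_exp.2 ?_
    have h7 : (1 : ℝ) ≤ (Λ : ℝ) ^ κ1 := one_le_pow₀ (by linarith)
    rw [pow_succ]
    nlinarith
  linarith

theorem indep1_MO {M n : ℕ} (S : MO M n) {A : ℕ} (hS : S.Seq A) (hcm : NCM (S.Y S.x)) :
    AlgebraicIndependent ℚ (Sum.elim (S.WF S.x) (fun _ : Unit ↦ jc (S.Y S.x))) := by
  classical
  obtain ⟨τ, hτ⟩ : ∃ τ : ℍ, (τ : ℂ) = S.Y S.x := ⟨⟨S.Y S.x, S.im0⟩, rfl⟩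
  have hE := AZ.E_ne (S.Y S.x) hcm τ hτ
  have h4 : e4 (S.Y S.x) ≠ 0 := by
    rw [← hτ, e4, ofComplex_apply]
    exact hE.1
  have h6 : e6 (S.Y S.x) ≠ 0 := by
    rw [← hτ, e6, ofComplex_apply]
    exact hE.2
  have hcm' : NCM (τ : ℂ) := by
    rw [hτ]
    exact hcm
  obtain ⟨J, hJ⟩ : ∃ J, J = jc (S.Y S.x) := ⟨_, rfl⟩
  have hJτ : jf τ = J := by rw [hJ, ← hτ, jc_coe]
  have : Algebra.IsAlgebraic ℤ ℚ := IsLocalization.isAlgebraic ℚ (nonZeroDivisors ℤ)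
  suffices hZ : AlgebraicIndependent ℤ (Sum.elim (S.WF S.x) (fun _ : Unit ↦ jc (S.Y S.x))) from
    hZ.extendScalars ℚ
  rw [algebraicIndependent_iff]
  intro G hG
  -- the function
  obtain ⟨F, hF⟩ : ∃ F : (Fin M → ℂ) → ℂ, ∀ s, F s =
      aeval (Sum.elim (S.WF s) (fun _ : Unit ↦ jc (S.Y s))) G := ⟨_, fun _ => rfl⟩
  have hFa : AnalyticAt ℂ F S.x := by
    have h1 : AnalyticAt ℂ (fun s ↦ aeval (Sum.elim (S.WF s) (fun _ : Unit ↦ jc (S.Y s))) G) S.x := by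
      refine AnalyticAt.aeval_mvPolynomial (𝕜 := ℂ)
        (f := fun s ↦ Sum.elim (S.WF s) (fun _ : Unit ↦ jc (S.Y s))) ?_ G
      rintro (j | u)
      · exact S.an_WF j
      · exact S.an_J
    have h2 : F = fun s ↦ aeval (Sum.elim (S.WF s) (fun _ : Unit ↦ jc (S.Y s))) G := funext hF
    rw [h2]
    exact h1
  have hFx : F S.x = 0 := by
    rw [hF]
    exact hG
  obtain ⟨K1, hK10, hK1⟩ := D6_near hFa.differentiableAt
  rw [hFx] at hK1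
  simp only [sub_zero] at hK1
  obtain ⟨K2, hK20, hK2⟩ := S.near_MO
  -- the renamed polynomial
  obtain ⟨N, e⟩ : ∃ N : ℕ, Nonempty (((Fin n × Fin 3) ⊕ Fin M) ≃ Fin N) :=
    ⟨_, ⟨Fintype.equivFin _⟩⟩
  obtain ⟨e⟩ := e
  have hren : ∀ s, aeval (Sum.elim (fun a ↦ S.WF s (e.symm a)) (fun _ : Unit ↦ jc (S.Y s)))
      (rename (Sum.map e id) G) = F s := by
    intro s
    rw [aeval_rename, hF]
    congr 2
    funext a
    rcases a with a | u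
    · show S.WF s (e.symm (e a)) = S.WF s a
      rw [Equiv.symm_apply_apply]
    · rfl
  -- the constants
  obtain ⟨A', Q3, hQ3⟩ := rootRel_good S A
  obtain ⟨κ1, hκ1⟩ := meas_w τ hcm' A A
  obtain ⟨B, hB⟩ : ∃ B : ℝ, B = ‖J‖ + 1 := ⟨_, rfl⟩
  have hB1 : 1 ≤ B := by
    rw [hB]
    linarith [norm_nonneg J]
  obtain ⟨A1, X0, hNL⟩ := NL_w (rename (Sum.map e id) G) B (κ1 + 1)
  obtain ⟨κ2, hκ2⟩ : ∃ κ2, κ2 = (A' + 1) * (2 * N + 4) := ⟨_, rfl⟩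
  have hκ21 : 1 ≤ κ2 := by
    rw [hκ2]
    exact Nat.mul_pos (Nat.succ_pos _) (by omega)
  obtain ⟨κ3, Q4, hQ4⟩ := hκ1 κ2
  obtain ⟨κ, hκ⟩ : ∃ κ, κ = κ3 + (A' + 1) * A1 + κ2 * (κ1 + 1) + 2 := ⟨_, rfl⟩
  obtain ⟨q, r, hq, hgood, hb, hr, hYalg, hX⟩ := hS κ
  have hrank := rank_MO S h4 h6 r hr hYalg hX
  -- vanishing
  have hlarge : ∀ᶠ k : ℕ in atTop, (4 : ℝ) + Real.log B + K1 + K2 ≤ (k : ℝ) :=
    tendsto_natCast_atTop_atTop.eventually_ge_atTop _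
  have hL0 : 0 ≤ Real.log B := Real.log_nonneg hB1
  have hv : ∀ᶠ k in atTop, F (r k) = 0 := by
    filter_upwards [hr.eventually hK1, hr.eventually hK2, hlarge,
      eventually_ge_atTop (X0 + Q3 + Q4)] with k h1 h2 h3 h3'
    by_contra hne0
    obtain ⟨_, hJk, _, hYk⟩ := h2
    have hqk : k + 2 ≤ q k := hq k
    have hq1 : 1 ≤ q k := by omega
    have hqr : (4 : ℝ) + Real.log B + K1 + K2 ≤ (q k : ℝ) := by
      refine h3.trans ?_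
      exact_mod_cast (by omega : k ≤ q k)
    have hq1r : (1 : ℝ) ≤ q k := by exact_mod_cast hq1
    rw [← hJ] at hJk
    have hbk := hb k
    -- the value of `j`
    have hJk' : ‖jc (S.Y (r k)) - J‖ ≤ K2 * Real.exp (-(q k : ℝ) ^ κ) :=
      hJk.trans (mul_le_mul_of_nonneg_left hbk hK20.le)
    have hYk' : ‖S.Y (r k) - (τ : ℂ)‖ ≤ Real.exp (-(q k : ℝ) ^ κ3) := by
      rw [hτ]
      refine (hYk.trans (mul_le_mul_of_nonneg_left hbk hK20.le)).trans ?_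
      exact (D6_cmp hK20.le (by linarith) (by omega)).le
    have hJk1 : ‖jc (S.Y (r k))‖ ≤ B := by
      have h5 : K2 * Real.exp (-(q k : ℝ) ^ κ) < Real.exp (-(q k : ℝ) ^ 0) :=
        D6_cmp hK20.le (by linarith) (by omega)
      have h6' : Real.exp (-(q k : ℝ) ^ 0) ≤ 1 := by
        rw [Real.exp_le_one_iff, pow_zero]
        norm_num
      have h7 : ‖jc (S.Y (r k))‖ ≤ ‖jc (S.Y (r k)) - J‖ + ‖J‖ := by
        have e1 : jc (S.Y (r k)) = (jc (S.Y (r k)) - J) + J := by ring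
        conv_lhs => rw [e1]
        exact norm_add_le _ _
      rw [hB]
      linarith
    -- the measure
    have hXk : X0 ≤ q k ^ (A' + 1) := by
      have h5 : q k ≤ q k ^ (A' + 1) := Nat.le_self_pow (by omega) _
      omega
    have hRR : ∀ a : Fin N, RootRel ((q k ^ (A' + 1) : ℕ) : ℝ) (jc (S.Y (r k)))
        (S.WF (r k) (e.symm a)) := by
      intro a
      refine (hQ3 (q k) (r k) (by omega) (hgood k).1 (e.symm a)).mono ?_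
      push_cast
      exact pow_le_pow_right₀ hq1r (by omega)
    have hpow : (q k ^ (A' + 1)) ^ (2 * N + 4) = q k ^ κ2 := by
      rw [← pow_mul, hκ2]
    have hmeas : ∀ f : Polynomial ℤ, f ≠ 0 → f.natDegree ≤ (q k ^ (A' + 1)) ^ (2 * N + 4) →
        CZ.nr f ≤ Real.exp (((q k ^ (A' + 1)) ^ (2 * N + 4) : ℕ) : ℝ) →
        Real.exp (-(((q k ^ (A' + 1)) ^ (2 * N + 4) : ℕ) : ℝ) ^ (κ1 + 1)) ≤
          ‖Polynomial.aeval (jc (S.Y (r k))) f‖ := by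
      intro f hf0 hfd hfn
      rw [hpow] at hfd hfn ⊢
      refine D6_meas (K := K2) (J := J) (κ := κ) hB1 hK20.le (by linarith) (by omega) hκ21
        (by rw [hB]; linarith) hJk1 hJk' f hfd hfn ?_
      have h5 := hQ4 (q k) (S.Y (r k)) (by omega) (hgood k).2 (hgood k).1.2.2.1 hYk' f (q k ^ κ2) hf0
        (Nat.le_self_pow (by omega) _) (by push_cast; exact le_rfl) hfd hfn
      rw [hJτ] at h5
      exact h5
    rcases hNL (q k ^ (A' + 1)) (jc (S.Y (r k))) (fun a ↦ S.WF (r k) (e.symm a)) hXk hJk1 hRR hmeas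
      with h5 | h5
    · rw [hren] at h5
      exact hne0 h5
    · rw [hren] at h5
      have h6' : ‖F (r k)‖ ≤ K1 * Real.exp (-(q k : ℝ) ^ κ) :=
        h1.trans (mul_le_mul_of_nonneg_left hbk hK10.le)
      have h7 : K1 * Real.exp (-(q k : ℝ) ^ κ) < Real.exp (-(q k : ℝ) ^ ((A' + 1) * A1)) :=
        D6_cmp hK10.le (by linarith) (by omega)
      have h8 : (((q k ^ (A' + 1) : ℕ) : ℝ)) ^ A1 = (q k : ℝ) ^ ((A' + 1) * A1) := by
        push_cast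
        rw [← pow_mul]
      rw [h8] at h5
      linarith
  -- the polynomial
  have hZ := hrank.restrictScalars (R := ℤ) (K := ℂ) (by
    intro a b hab
    have : ((a : ℤ) : ℂ) = ((b : ℤ) : ℂ) := hab
    exact_mod_cast this)
  refine (algebraicIndependent_iff.mp hZ) G ?_
  have h9 : (Sum.elim (fun j ↦ mkU (fun k ↦ S.WF (r k) j))
      (fun _ : Unit ↦ mkU (fun k ↦ jc (S.Y (r k))))) =
      fun i ↦ mkU ((Sum.elim (fun (j : (Fin n × Fin 3) ⊕ Fin M) (k : ℕ) ↦ S.WF (r k) j)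
        (fun (_ : Unit) (k : ℕ) ↦ jc (S.Y (r k))) : ((Fin n × Fin 3) ⊕ Fin M) ⊕ Unit → ℕ → ℂ) i) := by
    funext i
    rcases i with i | i <;> rfl
  rw [h9, AO.aeval_mkUZ']
  refine mkU_zero_of_ev ?_
  filter_upwards [hv] with k hk
  rw [← hk, hF]
  congr 2
  funext i
  rcases i with i | i <;> rfl

end AK
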