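import Pool.Agent.H32.AK.D6
import Pool.Agent.H32.AK.C4
import Pool.Agent.H32.AK.C9
import Pool.Agent.H32.AO.A8

/-!
# MP_ede373, points algebraic over `ℚ(t)`, row D7: one more independent number

`not_all_MO`: suppose all `P i` are algebraic over `ℚ(WF x, J)`, `J = jc (Y x)`. `J` is transcendental over `ℚ` (a member of the independent family of `indep1_MO`). `τ = ⟨Y x, S.im0⟩`. `Cw` from `win_of_near (Y x) A A` (row B3), `κ0, A0, Q0` from
`na2 (Y x) S.im0 P C0 hC0 hD Cw`; `line_sc J _ κ0 (κ0 < 2)` (file `Pool/Agent/H32/AO/A8.lean`). `A', Q3` from `rootRel_good S A`. `N = 3 n + M`, `e : Fin N ≃ (Fin n × Fin 3) ⊕ Fin M`, `winf = fun l ↦ WF x (e l)`. Apply `chain_w P J winf κ0 _ _ (max A0 A')`: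
given `κ, Q` (we may enlarge `κ` so that `κ ≥ 2 A' + 1`; the statement for a larger `κ` implies the one for `κ`, for the relations by `Rel.mono` and for the non-approximation trivially), take the sequences of `S.Seq A` for `κ + 3` and `k` large, `q = q k ≥ Q, Q0, Q3, ..`:
* `Rel (q^A') (q^κ) ![J] (winf l)`: `rel_root J (winf l)` (row C6) with `X = q^A'` (`≥ X0`: if `A' = 0` use `A' + 1`), `X^2 ≤ q^κ`, `J' = jc (Y (r k))`, `w' = WF (r k) (e l)`: `rootRel_good`, and `near_MO`: `‖..‖ ≤ K exp (-q^(κ+3)) ≤ exp (-(2 q^κ))`.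
* for `q^(max A0 A') ≤ V ≤ q^κ`, `t^κ0 ≤ V`: `na2` with `L0 = q^κ`, the window from `win_of_near` with `w = Y (r k)` (`‖w - Y x‖ ≤ K exp (-q^(κ+3)) ≤ exp (-q^(κ+1))`).
The range of `Fin.append ![J] winf` is the range of `Sum.elim (WF x) (fun _ ↦ J)` (see `C6_range` in `Pool/Agent/H32/AO/C6.lean`).

`indep2_MO`: as `AO.indep2` (file `Pool/Agent/H32/AO/C6.lean`): if both `θ1, θ2` were algebraic over `L = ℚ(WF x, J)`, then so were all `P i`, because `Y x` is algebraic over `ℚ(x) ≤ L` (the coordinates `x s = WF x (inr s)`), a contradiction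
with `not_all_MO`. So one of them, `θ`, is transcendental over `L` and the family extends.
-/

set_option autoImplicit false

open UpperHalfPlane hiding I
open Complex EisensteinSeries ModularForm MatrixGroups Manifold
open scoped Real Topology
open MvPolynomial Filter

namespace AK

open H32 H32.T3 H32.T4 AO

private theorem D7_num (K : ℝ) (κ q : ℕ) (hq : 1 ≤ q) (hK : K ≤ q) (x : ℝ)
    (hK0 : 0 < K) (hx : x ≤ Real.exp (-(q : ℝ) ^ (κ + 1))) :
    K * x ≤ Real.exp (-(q : ℝ) ^ κ) := by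
  have hq1 : (1 : ℝ) ≤ q := by exact_mod_cast hq
  have h1 : (q : ℝ) ≤ Real.exp ((q : ℝ) - 1) := by
    have := Real.add_one_le_exp ((q : ℝ) - 1)
    linarith
  have h2 : K * x ≤ Real.exp ((q : ℝ) - 1) * Real.exp (-(q : ℝ) ^ (κ + 1)) := by
    refine (mul_le_mul_of_nonneg_left hx hK0.le).trans ?_
    exact mul_le_mul_of_nonneg_right (hK.trans h1) (Real.exp_pos _).le
  refine h2.trans ?_
  rw [← Real.exp_add]
  apply Real.exp_le_exp.2
  have h3 : (1 : ℝ) ≤ (q : ℝ) ^ κ := one_le_pow₀ hq1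
  have h4 : (1 : ℝ) * ((q : ℝ) - 1) ≤ (q : ℝ) ^ κ * ((q : ℝ) - 1) :=
    mul_le_mul_of_nonneg_right h3 (by linarith)
  have h5 : (q : ℝ) ^ (κ + 1) = (q : ℝ) ^ κ * q := pow_succ _ _
  rw [h5]
  linarith

private theorem D7_range {ι : Type} {N : ℕ} (e : Fin N ≃ ι) (f : ι → ℂ) (J : ℂ) :
    Set.range (Fin.append ![J] (fun l ↦ f (e l)) : Fin (1 + N) → ℂ) =
      Set.range (Sum.elim f (fun _ : Unit ↦ J)) := by
  ext z
  constructor
  · rintro ⟨i, rfl⟩
    induction i using Fin.addCases with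
    | left a =>
      rw [Fin.append_left]
      refine ⟨Sum.inr (), ?_⟩
      have : a = 0 := Subsingleton.elim _ _
      rw [this]
      rfl
    | right b =>
      rw [Fin.append_right]
      exact ⟨Sum.inl (e b), rfl⟩
  · rintro ⟨i, rfl⟩
    rcases i with i | i
    · refine ⟨Fin.natAdd 1 (e.symm i), ?_⟩
      rw [Fin.append_right]
      simp
    · refine ⟨Fin.castAdd N 0, ?_⟩
      rw [Fin.append_left]
      rfl

private theorem D7_up {S T : Set ℂ} (x : ℂ)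
    (hT : ∀ θ ∈ T, IsAlgebraic (IntermediateField.adjoin ℚ S) θ)
    (hx : IsAlgebraic (IntermediateField.adjoin ℚ T) x) :
    IsAlgebraic (IntermediateField.adjoin ℚ S) x := by
  set L := IntermediateField.adjoin ℚ S with hL
  have hle : IntermediateField.adjoin ℚ T ≤ (algebraicClosure L ℂ).restrictScalars ℚ := by
    rw [IntermediateField.adjoin_le_iff]
    intro θ hθ
    exact mem_algebraicClosure_iff.2 (hT θ hθ)
  have h1 : IsAlgebraic (algebraicClosure L ℂ) x := by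
    have h2 := hx.ringHom_of_comp_eq
      (S := algebraicClosure L ℂ) (B := ℂ)
      ((IntermediateField.inclusion hle : _ →+* ((algebraicClosure L ℂ).restrictScalars ℚ)) :
        IntermediateField.adjoin ℚ T →+* algebraicClosure L ℂ) (RingHom.id ℂ)
      (RingHom.injective _) (by ext z; rfl)
    exact h2
  exact h1.restrictScalars L

open scoped IntermediateField.algebraAdjoinAdjoin in
private theorem D7_frac {S : Set ℂ} {x : ℂ} (hx : IsAlgebraic (Algebra.adjoin ℚ S) x) :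
    IsAlgebraic (IntermediateField.adjoin ℚ S) x :=
  (IsFractionRing.isAlgebraic_iff (Algebra.adjoin ℚ S) (IntermediateField.adjoin ℚ S) ℂ).1 hx

private theorem D7_mem {S : Set ℂ} {x : ℂ} (hx : x ∈ S) : IsAlgebraic (IntermediateField.adjoin ℚ S) x :=
  isAlgebraic_algebraMap (⟨x, IntermediateField.subset_adjoin _ _ hx⟩ : IntermediateField.adjoin ℚ S)

theorem not_all_MO {M n : ℕ} (S : MO M n) {A : ℕ} (hS : S.Seq A) (hcm : NCM (S.Y S.x))
    {k : ℕ} (P : Fin k → ℂ) (C0 : ℕ) (hC0 : 1 ≤ C0)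
    (hD : ∀ N K Q : ℕ, 1 ≤ N → U2.COV (S.Y S.x) N K →
      C0 * N * ((K : ℝ) + N) ^ 2 * Real.log (((K : ℝ) + N) * N + 2) ≤ Q → U2.Dat P C0 N Q) :
    ¬ ∀ i, IsAlgebraic (IntermediateField.adjoin ℚ
      (Set.range (Sum.elim (S.WF S.x) (fun _ : Unit ↦ jc (S.Y S.x))))) (P i) := by
  intro halg
  have hindep := indep1_MO S hS hcm
  have hJt : Transcendental ℚ (jc (S.Y S.x)) := hindep.transcendental (Sum.inr ())
  obtain ⟨Cw, hCw1, hCw⟩ := win_of_near (S.Y S.x) A A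
  obtain ⟨κ0, A0, Q0, hκ1, hκ2, hna⟩ := na2 (S.Y S.x) S.im0 P C0 hC0 hD Cw hCw1
  have hsc : ScAppr ![jc (S.Y S.x)] κ0 := line_sc _ hJt κ0 hκ2
  obtain ⟨A', Q3, hA'⟩ := rootRel_good S A
  obtain ⟨K, hK0, hK⟩ := S.near_MO
  choose X0 hX01 hX0 using fun l : Fin (Fintype.card ((Fin n × Fin 3) ⊕ Fin M)) ↦
    rel_root (jc (S.Y S.x)) (S.WF S.x ((Fintype.equivFin ((Fin n × Fin 3) ⊕ Fin M)).symm l))
  refine chain_w P (jc (S.Y S.x))
    (fun l ↦ S.WF S.x ((Fintype.equivFin ((Fin n × Fin 3) ⊕ Fin M)).symm l)) κ0 hκ1 hκ2.le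
    (max A0 (A' + 1)) hsc ?_ ?_
  · intro κ Q
    obtain ⟨κ', hκ'⟩ : ∃ κ' : ℕ, κ' = κ + 2 * (A' + 1) := ⟨_, rfl⟩
    obtain ⟨q, r, hq, hgood, hr, hlim, -, -⟩ := hS (κ' + 3)
    obtain ⟨Q1, hQ1⟩ := hCw κ'
    obtain ⟨k, hk1, hk2⟩ := ((hlim.eventually hK).and
      (eventually_ge_atTop (Q + ⌈K⌉₊ + Q0 + Q1 + Q3 + ∑ l, ⌈X0 l⌉₊ + 2))).exists
    obtain ⟨n1, n2, -, n4⟩ := hk1
    have hqk := hq k
    have hrk := hr k
    obtain ⟨g1, g2⟩ := hgood k
    generalize q k = qk at *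
    generalize r k = rk at *
    have hq2 : (2 : ℝ) ≤ qk := by exact_mod_cast (by omega : 2 ≤ qk)
    have hq1 : (1 : ℝ) ≤ qk := by linarith
    have hKq : K ≤ (qk : ℝ) := (Nat.le_ceil K).trans (by exact_mod_cast (by omega : ⌈K⌉₊ ≤ qk))
    have hnum : K * ‖rk - S.x‖ ≤ Real.exp (-(qk : ℝ) ^ (κ' + 2)) :=
      D7_num K (κ' + 2) qk (by omega) hKq _ hK0 hrk
    have hnum1 : K * ‖rk - S.x‖ ≤ Real.exp (-(qk : ℝ) ^ (κ' + 1)) :=
      hnum.trans (Real.exp_le_exp.2 (neg_le_neg (pow_le_pow_right₀ hq1 (by omega))))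
    have hnum2 : K * ‖rk - S.x‖ ≤ Real.exp (-(2 * (qk : ℝ) ^ κ')) := by
      refine hnum1.trans (Real.exp_le_exp.2 (neg_le_neg ?_))
      rw [pow_succ, mul_comm]
      exact mul_le_mul_of_nonneg_left hq2 (by positivity)
    refine ⟨qk, by omega, ?_, ?_⟩
    · intro l
      have h1 : RootRel ((qk : ℝ) ^ (A' + 1)) (jc (S.Y rk))
          (S.WF rk ((Fintype.equivFin ((Fin n × Fin 3) ⊕ Fin M)).symm l)) :=
        (hA' qk rk (by omega) g1 _).mono (pow_le_pow_right₀ hq1 (by omega))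
      have h2 : X0 l ≤ (qk : ℝ) ^ (A' + 1) := by
        have a1 : ⌈X0 l⌉₊ ≤ ∑ l, ⌈X0 l⌉₊ :=
          Finset.single_le_sum (f := fun l ↦ ⌈X0 l⌉₊) (fun _ _ ↦ Nat.zero_le _) (Finset.mem_univ l)
        have a2 : X0 l ≤ (qk : ℝ) :=
          (Nat.le_ceil _).trans (by exact_mod_cast (by omega : ⌈X0 l⌉₊ ≤ qk))
        exact a2.trans (le_self_pow₀ hq1 (by omega))
      have h3 : ((qk : ℝ) ^ (A' + 1)) ^ 2 ≤ (qk : ℝ) ^ κ' := by
        rw [← pow_mul]
        exact pow_le_pow_right₀ hq1 (by omega)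
      have h4 := hX0 l ((qk : ℝ) ^ (A' + 1)) ((qk : ℝ) ^ κ') _ _ h2 h3 h1 (n2.trans hnum2)
        ((n1 _).trans hnum2)
      exact h4.mono (pow_le_pow_right₀ hq1 (le_max_right _ _)) (pow_le_pow_right₀ hq1 (by omega))
    · intro t V ht hqV hVq htV
      have hwin : Win (S.Y S.x) Cw qk ((qk : ℝ) ^ κ') :=
        hQ1 qk (S.Y rk) (by omega) g2 g1.2.2.1 (n4.trans hnum1)
      exact hna qk ((qk : ℝ) ^ κ') (by omega) hwin t V ht
        ((pow_le_pow_right₀ hq1 (le_max_left _ _)).trans hqV)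
        (hVq.trans (pow_le_pow_right₀ hq1 (by omega))) htV
  · intro i
    rw [D7_range]
    exact halg i

theorem indep2_MO {M n : ℕ} (S : MO M n) {A : ℕ} (hS : S.Seq A) (hcm : NCM (S.Y S.x))
    (hya : IsAlgebraic (IntermediateField.adjoin ℚ (Set.range S.x)) (S.Y S.x))
    {k : ℕ} (P : Fin k → ℂ) (C0 : ℕ) (hC0 : 1 ≤ C0)
    (hD : ∀ N K Q : ℕ, 1 ≤ N → U2.COV (S.Y S.x) N K →
      C0 * N * ((K : ℝ) + N) ^ 2 * Real.log (((K : ℝ) + N) * N + 2) ≤ Q → U2.Dat P C0 N Q)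
    (θ1 θ2 : ℂ) (halg : ∀ i, IsAlgebraic (IntermediateField.adjoin ℚ
      (Set.range (![S.Y S.x, jc (S.Y S.x), θ1, θ2] : Fin 4 → ℂ))) (P i)) :
    ∃ θ : ℂ, (θ = θ1 ∨ θ = θ2) ∧ AlgebraicIndependent ℚ
      (Sum.elim (fun _ : Unit ↦ θ) (Sum.elim (S.WF S.x) (fun _ : Unit ↦ jc (S.Y S.x)))) := by
  have hF := indep1_MO S hS hcm
  have hnot := not_all_MO S hS hcm P C0 hC0 hD
  by_contra hcon
  push Not at hcon
  have key : ∀ θ : ℂ, (θ = θ1 ∨ θ = θ2) → IsAlgebraic (IntermediateField.adjoin ℚ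
      (Set.range (Sum.elim (S.WF S.x) (fun _ : Unit ↦ jc (S.Y S.x))))) θ := by
    intro θ hθ
    by_contra ht
    refine hcon θ hθ ?_
    rw [AlgebraicIndependent.sumElim_iff]
    refine ⟨hF, ?_⟩
    rw [algebraicIndependent_unique_type_iff]
    exact fun h ↦ ht (D7_frac h)
  refine hnot fun i ↦ D7_up (P i) ?_ (halg i)
  rintro θ ⟨i, rfl⟩
  fin_cases i
  · refine D7_up _ ?_ hya
    rintro θ ⟨s, rfl⟩
    exact D7_mem ⟨Sum.inl (Sum.inr s), rfl⟩
  · exact D7_mem ⟨Sum.inr (), rfl⟩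
  · exact key _ (Or.inl rfl)
  · exact key _ (Or.inr rfl)

end AK
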