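import Mathlib

/-!
# MP_ede373, points algebraic over `ℚ(t)`, row E0: translates of a CM point

`y` is a root of `a0 X^2 + b0 X + c0`, `a0 > 0`, `0 < im y`. Put `s = 2 a0 y + b0` and `d0 = (4 a0 c0 - b0^2).toNat`. `s^2 = b0^2 - 4 a0 c0` (`linear_combination (4 a0) * h`), and `s` has a positive imaginary part, so
`4 a0 c0 - b0^2 > 0` (otherwise `s^2` is a real number `≥ 0` and `s` is real: compare imaginary and real parts of `s^2`, `(s^2).im = 2 re s im s = 0` gives `re s = 0`, then `(s^2).re = -(im s)^2 < 0`). So `s^2 = -d0` and `d0 ≤ 4 B^2` (as `a0 c0 ≤ B^2`).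

For the matrix: `P = 2 a0 b - a b0`, `R = 2 a0 d - c b0`, `N = a d - b c > 0`: `2 a0 (a y + b) = P + a s`, `2 a0 (c y + d) = R + c s`, and `(P + a s)(R - c s) = P R + a c d0 + (a R - c P) s`, `a R - c P = 2 a0 N`, `(R + c s)(R - c s) = R^2 + c^2 d0`.
So `u = P R + a c d0`, `v = (2 a0 N).toNat`, `w = (R^2 + c^2 d0).toNat`, `w > 0` (if `c = 0` then `d ≠ 0`, `R = 2 a0 d ≠ 0`). `(a y + b) / (c y + d) = (u + v s) / w`: `c y + d ≠ 0` (imaginary part `c im y`, if `c = 0` then `d ≠ 0`), `div_eq_div_iff`.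
Bounds (`|P|, |R| ≤ 3 B^2`): `|u| ≤ 9 B^4 + 4 B^4`, `v ≤ 2 B * 2 B^2 ≤ 13 B^4`, `w ≤ 9 B^4 + 4 B^4`.
-/

set_option autoImplicit false

namespace AK

private theorem E0_mul {x y X Y : ℤ} (hx : |x| ≤ X) (hy : |y| ≤ Y) : |x * y| ≤ X * Y :=
  (abs_mul x y).le.trans (mul_le_mul hx hy (abs_nonneg _) ((abs_nonneg _).trans hx))

theorem cm_rep {B : ℕ} (hB : 1 ≤ B) {y : ℂ} (hy : 0 < y.im) {a0 b0 c0 : ℤ} (ha0 : 0 < a0)
    (h1 : |a0| ≤ B) (h2 : |b0| ≤ B) (h3 : |c0| ≤ B)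
    (h : (a0 : ℂ) * y ^ 2 + b0 * y + c0 = 0) :
    ∃ (d0 : ℕ) (s : ℂ), d0 ≤ 13 * B ^ 4 ∧ s ^ 2 = -(d0 : ℂ) ∧
      ∀ a b c d : ℤ, 0 < a * d - b * c → |a| ≤ B → |b| ≤ B → |c| ≤ B → |d| ≤ B →
        ∃ (w : ℕ) (u : ℤ) (v : ℕ), 1 ≤ w ∧ w ≤ 13 * B ^ 4 ∧ |u| ≤ 13 * (B : ℤ) ^ 4 ∧ 1 ≤ v ∧
          v ≤ 13 * B ^ 4 ∧ (c : ℂ) * y + d ≠ 0 ∧
          ((a : ℂ) * y + b) / ((c : ℂ) * y + d) = (u + v * s) / w := by
  have hBz : (1 : ℤ) ≤ (B : ℤ) := by exact_mod_cast hB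
  set Z : ℤ := (B : ℤ) with hZ
  have hZ2 : (1 : ℤ) ≤ Z ^ 2 := one_le_pow₀ hBz
  have hZ24 : Z ^ 2 ≤ Z ^ 4 := pow_le_pow_right₀ hBz (by norm_num)
  have hZ34 : Z ^ 3 ≤ Z ^ 4 := pow_le_pow_right₀ hBz (by norm_num)
  set s : ℂ := 2 * a0 * y + b0 with hs
  have hs2 : s ^ 2 = ((b0 ^ 2 - 4 * a0 * c0 : ℤ) : ℂ) := by
    rw [hs]
    push_cast
    linear_combination (4 * (a0 : ℂ)) * h
  have hsim : 0 < s.im := by
    have e : s.im = 2 * (a0 : ℝ) * y.im := by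
      rw [hs]
      simp [Complex.add_im, Complex.mul_im, Complex.mul_re]
    rw [e]
    have : (0 : ℝ) < (a0 : ℝ) := by exact_mod_cast ha0
    positivity
  have hsre : s.re = 0 := by
    have e := congrArg Complex.im hs2
    rw [pow_two, Complex.mul_im, Complex.intCast_im] at e
    have e2 : s.re * s.im = 0 := by linarith
    rcases mul_eq_zero.1 e2 with h0 | h0
    · exact h0
    · exact absurd h0 hsim.ne'
  have hneg : b0 ^ 2 - 4 * a0 * c0 < 0 := by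
    have e := congrArg Complex.re hs2
    rw [pow_two, Complex.mul_re, Complex.intCast_re, hsre] at e
    have e2 : ((b0 ^ 2 - 4 * a0 * c0 : ℤ) : ℝ) < 0 := by
      rw [← e]
      nlinarith
    exact_mod_cast e2
  obtain ⟨d0, hd0⟩ : ∃ d0 : ℕ, (d0 : ℤ) = 4 * a0 * c0 - b0 ^ 2 :=
    ⟨(4 * a0 * c0 - b0 ^ 2).toNat, Int.toNat_of_nonneg (by linarith)⟩
  have hd0C : (d0 : ℂ) = 4 * a0 * c0 - b0 ^ 2 := by
    have := congrArg (fun z : ℤ => (z : ℂ)) hd0
    push_cast at this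
    exact this
  have hd0pos : 0 < (d0 : ℤ) := by rw [hd0]; linarith
  have hac := abs_le.1 (E0_mul h1 h3)
  have hd04 : (d0 : ℤ) ≤ 4 * Z ^ 2 := by
    rw [hd0]
    nlinarith [sq_nonneg b0, hac.2]
  refine ⟨d0, s, ?_, ?_, ?_⟩
  · have : (d0 : ℤ) ≤ 13 * Z ^ 4 := by linarith
    rw [hZ] at this
    exact_mod_cast this
  · rw [hs2, hd0C]
    push_cast
    ring
  intro a b c d hN ha hb hc hd
  set P : ℤ := 2 * a0 * b - a * b0 with hP
  set R : ℤ := 2 * a0 * d - c * b0 with hR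
  have hPb : |P| ≤ 3 * Z ^ 2 := by
    have e1 := E0_mul h1 hb
    have e2 := E0_mul ha h2
    rw [abs_le] at e1 e2 ⊢
    constructor <;> rw [hP] <;> nlinarith [e1.1, e1.2, e2.1, e2.2]
  have hRb : |R| ≤ 3 * Z ^ 2 := by
    have e1 := E0_mul h1 hd
    have e2 := E0_mul hc h2
    rw [abs_le] at e1 e2 ⊢
    constructor <;> rw [hR] <;> nlinarith [e1.1, e1.2, e2.1, e2.2]
  have hd0b : |(d0 : ℤ)| ≤ 4 * Z ^ 2 := by
    rw [abs_of_pos hd0pos]; exact hd04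
  have hwpos : 0 < R ^ 2 + c ^ 2 * d0 := by
    by_cases hc0 : c = 0
    · have hd1 : d ≠ 0 := by
        rintro rfl
        rw [hc0] at hN
        simp at hN
      have hR0 : R ≠ 0 := by
        rw [hR, hc0]
        have : 2 * a0 * d ≠ 0 := mul_ne_zero (mul_ne_zero two_ne_zero ha0.ne') hd1
        simpa using this
      have : 0 < R ^ 2 := by positivity
      rw [hc0]
      simpa using this
    · have h4 : 0 < c ^ 2 * (d0 : ℤ) := mul_pos (by positivity) hd0pos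
      have h5 := sq_nonneg R
      linarith
  obtain ⟨w, hw⟩ : ∃ w : ℕ, (w : ℤ) = R ^ 2 + c ^ 2 * d0 :=
    ⟨(R ^ 2 + c ^ 2 * d0).toNat, Int.toNat_of_nonneg hwpos.le⟩
  have hvpos : 0 < 2 * a0 * (a * d - b * c) := by positivity
  obtain ⟨v, hv⟩ : ∃ v : ℕ, (v : ℤ) = 2 * a0 * (a * d - b * c) :=
    ⟨(2 * a0 * (a * d - b * c)).toNat, Int.toNat_of_nonneg hvpos.le⟩
  have hwC : (w : ℂ) = R ^ 2 + c ^ 2 * d0 := by
    have := congrArg (fun z : ℤ => (z : ℂ)) hw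
    push_cast at this
    exact this
  have hvC : (v : ℂ) = 2 * a0 * (a * d - b * c) := by
    have := congrArg (fun z : ℤ => (z : ℂ)) hv
    push_cast at this
    exact this
  have hw0 : (w : ℂ) ≠ 0 := by
    have : w ≠ 0 := by
      rintro rfl
      rw [← hw] at hwpos
      simp at hwpos
    exact_mod_cast this
  have hcy : (c : ℂ) * y + d ≠ 0 := by
    intro h0
    have e1 := congrArg Complex.im h0
    have e2 := congrArg Complex.re h0
    simp only [Complex.add_im, Complex.mul_im, Complex.intCast_im, Complex.intCast_re,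
      Complex.zero_im, Complex.add_re, Complex.mul_re, Complex.zero_re, zero_mul, add_zero,
      sub_zero] at e1 e2
    have hc0 : (c : ℝ) = 0 := by
      rcases mul_eq_zero.1 e1 with h4 | h4
      · exact h4
      · exact absurd h4 hy.ne'
    rw [hc0, zero_mul, zero_add] at e2
    have hc0' : c = 0 := by exact_mod_cast hc0
    have hd0' : d = 0 := by exact_mod_cast e2
    rw [hc0', hd0'] at hN
    simp at hN
  refine ⟨w, P * R + a * c * d0, v, ?_, ?_, ?_, ?_, ?_, hcy, ?_⟩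
  · have : 0 < (w : ℤ) := by rw [hw]; exact hwpos
    exact_mod_cast this
  · have e1 := (abs_le.1 (E0_mul hRb hRb)).2
    have e2 := (abs_le.1 (E0_mul (E0_mul hc hc) hd0b)).2
    have : (w : ℤ) ≤ 13 * Z ^ 4 := by
      have e3 : R ^ 2 + c ^ 2 * d0 = R * R + c * c * d0 := by ring
      have e4 : 3 * Z ^ 2 * (3 * Z ^ 2) = 9 * Z ^ 4 := by ring
      have e5 : Z * Z * (4 * Z ^ 2) = 4 * Z ^ 4 := by ring
      rw [e4] at e1
      rw [e5] at e2
      rw [hw, e3]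
      linarith
    rw [hZ] at this
    exact_mod_cast this
  · have e1 := abs_le.1 (E0_mul hPb hRb)
    have e2 := abs_le.1 (E0_mul (E0_mul ha hc) hd0b)
    have e4 : 3 * Z ^ 2 * (3 * Z ^ 2) = 9 * Z ^ 4 := by ring
    have e5 : Z * Z * (4 * Z ^ 2) = 4 * Z ^ 4 := by ring
    rw [e4] at e1
    rw [e5] at e2
    rw [abs_le]
    constructor
    · linarith [e1.1, e2.1]
    · linarith [e1.2, e2.2]
  · have : 0 < (v : ℤ) := by rw [hv]; exact hvpos
    exact_mod_cast this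
  · have e1 := abs_le.1 (E0_mul h1 (E0_mul ha hd))
    have e2 := abs_le.1 (E0_mul h1 (E0_mul hb hc))
    have : (v : ℤ) ≤ 13 * Z ^ 4 := by
      have e3 : 2 * a0 * (a * d - b * c) = 2 * (a0 * (a * d)) - 2 * (a0 * (b * c)) := by ring
      have e4 : Z * (Z * Z) = Z ^ 3 := by ring
      rw [e4] at e1 e2
      rw [hv, e3]
      linarith [e1.1, e1.2, e2.1, e2.2]
    rw [hZ] at this
    exact_mod_cast this
  · rw [div_eq_div_iff hcy hw0, hwC, hvC, hd0C, hP, hR, hs]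
    push_cast
    linear_combination (-4 * (a0 : ℂ) * (a * d - b * c) * c) * h -
      ((a : ℂ) * c * (c * y + d)) * hd0C

end AK
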