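import Pool.Agent.H32.AK.A5
import Pool.Agent.H32.AK.B4
import Pool.Agent.H32.AK.D1
import Pool.Agent.H32.AK.E0
import Pool.Agent.H32.T4.B4

/-!
# MP_ede373, points algebraic over `ℚ(t)`, row E1: tuples of CM points

Adapt `Dat.step` in `Pool/Agent/H32/T4/B4.lean` (and `exp_cmp`, `ext`, `exr`, `toNat_spec` in `T4/B3.lean`, `T4/B4.lean`). `r = fun s ↦ (p s : ℂ) / q`. `A, Q0, ε` from `good_MO`; `K` and the neighbourhood from `near_MO` (pull back to: `|t s - p s / q| < ε'` for all `s` implies the four bounds at `r`; the norm of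
`ℂ^M` is the sup norm, `‖r - S.x‖ ≤ δ` if `|t s - p s / q| ≤ δ` for all `s`, `δ ≥ 0`). `T` a natural number with `|t s| + 1 ≤ T` for all `s`. `C = 208 + T`, `E = 4 A + 4`, `H = C * q ^ E`, `κ' = E κ + 1`, and `Q0'` so large that `(C : ℝ) ^ κ + (K + 1) + 1 ≤ q`, `|log ε|, |log ε'| < q`, `Q0 ≤ q`, `1 ≤ q`.
`Good A q r`: `AlgB A (q^A) (Y r)`; with `¬ NCM (Y r)` and `0 < im (Y r)`: `quad_of_cm` gives `a0 > 0, b0, c0` with `|..| ≤ 2 q^A ≤ B`, `B = 2 q^(A+1)`, and the matrices have integral entries `a_i, .., d_i` with `|..| ≤ q^(A+1) ≤ B` and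
`φ_i r = mob (..) (Y r) = (a_i Y + b_i) / (c_i Y + d_i)` (multiply numerator and denominator by `q^A`, `mul_div_mul_left`). `cm_rep` gives `d0, s` and for each `i` numbers `w, u, v ≤ 13 B^4 = 208 q^(4A+4) ≤ H`. For `ψ 0 = Y` use the matrix `1, 0, 0, 1`. For the last `M` indices: `d = 1`, `s = I`,
`u = p s`, `v = q`, `w = q` (`|p s| ≤ T q ≤ H`). All first indices have the same `d0`, `s` (`exr M (fun _ ↦ 0)` maps `castAdd i` to `castAdd 0`, and `natAdd s` to itself). Positivity of the imaginary parts of `τ j`: if `w t = u + v s`, `s^2 = -d`, the imaginary part of `s` has the sign of that of `2 a0 Y + b0`; easier: use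
`0 < im (ψ i r)`: for `ψ 0` it is part of `Good`; for `φ i r` use that `(a Y + b) / (c Y + d)` with `a d - b c > 0` has a positive imaginary part (`AO.im_mobC` in `AO/Ob.lean`). The last inequality: `near_MO` and `exp_cmp`.
-/

/-!
# MP_ede373, points algebraic over `ℚ(t)`, row E1: tuples of CM points

Adapt `Dat.step` in `Pool/Agent/H32/T4/B4.lean` (and `exp_cmp`, `ext`, `exr`, `toNat_spec` in `T4/B3.lean`, `T4/B4.lean`). `r = fun s ↦ (p s : ℂ) / q`. `A, Q0, ε` from `good_MO`; `K` and the neighbourhood from `near_MO` (pull back to: `|t s - p s / q| < ε'` for all `s` implies the four bounds at `r`; the norm of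
`ℂ^M` is the sup norm, `‖r - S.x‖ ≤ δ` if `|t s - p s / q| ≤ δ` for all `s`, `δ ≥ 0`). `T` a natural number with `|t s| + 1 ≤ T` for all `s`. `C = 208 + T`, `E = 4 A + 4`, `H = C * q ^ E`, `κ' = E κ + 1`, and `Q0'` so large that `(C : ℝ) ^ κ + (K + 1) + 1 ≤ q`, `|log ε|, |log ε'| < q`, `Q0 ≤ q`, `1 ≤ q`.
`Good A q r`: `AlgB A (q^A) (Y r)`; with `¬ NCM (Y r)` and `0 < im (Y r)`: `quad_of_cm` gives `a0 > 0, b0, c0` with `|..| ≤ 2 q^A ≤ B`, `B = 2 q^(A+1)`, and the matrices have integral entries `a_i, .., d_i` with `|..| ≤ q^(A+1) ≤ B` and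
`φ_i r = mob (..) (Y r) = (a_i Y + b_i) / (c_i Y + d_i)` (multiply numerator and denominator by `q^A`, `mul_div_mul_left`). `cm_rep` gives `d0, s` and for each `i` numbers `w, u, v ≤ 13 B^4 = 208 q^(4A+4) ≤ H`. For `ψ 0 = Y` use the matrix `1, 0, 0, 1`. For the last `M` indices: `d = 1`, `s = I`,
`u = p s`, `v = q`, `w = q` (`|p s| ≤ T q ≤ H`). All first indices have the same `d0`, `s` (`exr M (fun _ ↦ 0)` maps `castAdd i` to `castAdd 0`, and `natAdd s` to itself). Positivity of the imaginary parts of `τ j`: if `w t = u + v s`, `s^2 = -d`, the imaginary part of `s` has the sign of that of `2 a0 Y + b0`; easier: use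
`0 < im (ψ i r)`: for `ψ 0` it is part of `Good`; for `φ i r` use that `(a Y + b) / (c Y + d)` with `a d - b c > 0` has a positive imaginary part (`AO.im_mobC` in `AO/Ob.lean`). The last inequality: `near_MO` and `exp_cmp`.
-/

set_option autoImplicit false

open UpperHalfPlane hiding I
open Complex EisensteinSeries ModularForm MatrixGroups Manifold
open scoped Real Topology
open MvPolynomial Filter

namespace AK

open H32 H32.T3 H32.T4 AO

private theorem E1_exp {δ : ℝ} (hδ : 0 < δ) {q k : ℕ} (hq : 1 ≤ q) (h : |Real.log δ| < q) :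
    Real.exp (-(q : ℝ) ^ (k + 1)) ≤ δ := by
  rw [← Real.le_log_iff_exp_le hδ]
  have h1 : (q : ℝ) ≤ (q : ℝ) ^ (k + 1) := le_self_pow₀ (by exact_mod_cast hq) (by omega)
  have h2 := neg_abs_le (Real.log δ)
  linarith

/-- all points of the tuple coming from the base point -/
private theorem E1_rep {M n : ℕ} (S : MO M n) {A q : ℕ} (hq : 1 ≤ q) {r : Fin M → ℂ}
    (hg : S.Good A q r) (hcm : ¬ NCM (S.Y r)) :
    ∃ (d0 : ℕ) (s : ℂ), d0 ≤ 208 * q ^ (4 * A + 4) ∧ s ^ 2 = -(d0 : ℂ) ∧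
      ∀ i, ∃ (w : ℕ) (u : ℤ) (v : ℕ), 1 ≤ w ∧ w ≤ 208 * q ^ (4 * A + 4) ∧
        |u| ≤ ((208 * q ^ (4 * A + 4) : ℕ) : ℤ) ∧ 1 ≤ v ∧ v ≤ 208 * q ^ (4 * A + 4) ∧
        S.ψ i r = (u + v * s) / w ∧ 0 < (S.ψ i r).im := by
  obtain ⟨him, -, halg, hmat⟩ := hg
  obtain ⟨a0, b0, c0, ha0, ⟨k1, k2, k3⟩, hroot⟩ := quad_of_cm halg him.ne' hcm
  obtain ⟨B, hB⟩ : ∃ B : ℕ, B = 2 * q ^ (A + 1) := ⟨_, rfl⟩
  have hqR : (1 : ℝ) ≤ q := by exact_mod_cast hq
  have hBR : (B : ℝ) = 2 * (q : ℝ) ^ (A + 1) := by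
    rw [hB]
    push_cast
    ring
  have hqA : (q : ℝ) ^ A ≤ (q : ℝ) ^ (A + 1) := pow_le_pow_right₀ hqR (by omega)
  have hqA1 : (0 : ℝ) < (q : ℝ) ^ (A + 1) := by positivity
  have hB1 : 1 ≤ B := by
    have h1 : 1 ≤ q ^ (A + 1) := Nat.one_le_pow _ _ hq
    omega
  have e1 : |a0| ≤ (B : ℤ) := by
    have : |(a0 : ℝ)| ≤ (B : ℝ) := by
      rw [hBR]
      linarith
    exact_mod_cast this
  have e2 : |b0| ≤ (B : ℤ) := by
    have : |(b0 : ℝ)| ≤ (B : ℝ) := by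
      rw [hBR]
      linarith
    exact_mod_cast this
  have e3 : |c0| ≤ (B : ℤ) := by
    have : |(c0 : ℝ)| ≤ (B : ℝ) := by
      rw [hBR]
      linarith
    exact_mod_cast this
  obtain ⟨d0, s, hd0, hs, hrep⟩ := cm_rep hB1 him ha0 e1 e2 e3 hroot
  have hB4 : 13 * B ^ 4 = 208 * q ^ (4 * A + 4) := by
    rw [hB]
    ring
  have hB4' : 13 * (B : ℤ) ^ 4 = ((208 * q ^ (4 * A + 4) : ℕ) : ℤ) := by
    rw [← hB4]
    push_cast
    ring
  rw [hB4] at hd0
  refine ⟨d0, s, hd0, hs, fun i ↦ ?_⟩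
  refine Fin.cases ?_ (fun i ↦ ?_) i
  · obtain ⟨w, u, v, g1, g2, g3, g4, g5, -, g7⟩ := hrep 1 0 0 1 (by norm_num)
      (by rw [abs_one]; exact_mod_cast hB1) (by rw [abs_zero]; exact Int.natCast_nonneg _)
      (by rw [abs_zero]; exact Int.natCast_nonneg _) (by rw [abs_one]; exact_mod_cast hB1)
    rw [hB4] at g2 g5
    rw [hB4'] at g3
    have h0 : S.ψ 0 r = S.Y r := rfl
    refine ⟨w, u, v, g1, g2, g3, g4, g5, ?_, ?_⟩
    · rw [h0, ← g7]
      push_cast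
      rw [zero_mul, zero_add, div_one, one_mul, add_zero]
    · rw [h0]
      exact him
  · obtain ⟨a, b, c, e, hdet, ⟨l1, l2, l3, l4⟩, m1, m2, m3, m4⟩ := hmat i
    have hle : ∀ z : ℤ, |(z : ℝ)| ≤ (q : ℝ) ^ (A + 1) → |z| ≤ (B : ℤ) := by
      intro z hz
      have : |(z : ℝ)| ≤ (B : ℝ) := by
        rw [hBR]
        linarith
      exact_mod_cast this
    obtain ⟨w, u, v, g1, g2, g3, g4, g5, -, g7⟩ := hrep a b c e hdet (hle a l1) (hle b l2)
      (hle c l3) (hle e l4)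
    rw [hB4] at g2 g5
    rw [hB4'] at g3
    have h0 : S.ψ i.succ r = S.φ i r := rfl
    have hqC : (q : ℂ) ^ A ≠ 0 := by
      apply pow_ne_zero
      have : q ≠ 0 := by omega
      exact_mod_cast this
    have h1 : S.φ i r = ((a : ℂ) * S.Y r + b) / ((c : ℂ) * S.Y r + e) := by
      rw [MO.φ, mob, m1, m2, m3, m4]
      have f1 : (q : ℂ) ^ A * aeval r (S.pA i) * S.Y r + (q : ℂ) ^ A * aeval r (S.pB i) =
          (q : ℂ) ^ A * (aeval r (S.pA i) * S.Y r + aeval r (S.pB i)) := by ring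
      have f2 : (q : ℂ) ^ A * aeval r (S.pC i) * S.Y r + (q : ℂ) ^ A * aeval r (S.pD i) =
          (q : ℂ) ^ A * (aeval r (S.pC i) * S.Y r + aeval r (S.pD i)) := by ring
      rw [f1, f2, mul_div_mul_left _ _ hqC]
    refine ⟨w, u, v, g1, g2, g3, g4, g5, ?_, ?_⟩
    · rw [h0, h1, g7]
    · have h2 := (im_mobC (a := (a : ℝ)) (b := (b : ℝ)) (c := (c : ℝ)) (d := (e : ℝ)) him
        (by exact_mod_cast hdet)).2.2
      rw [h0, h1]
      rw [mob] at h2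
      push_cast at h2
      exact h2

theorem step_MO {M n : ℕ} (S : MO M n) (t : Fin M → ℝ) (hx : S.x = fun s ↦ (t s : ℂ))
    (hdet : ∀ i, 0 < (aeval t (S.dt i) : ℝ)) (d : ℕ) (G : ℕ → MvPolynomial (Fin M) ℤ)
    (hd : aeval S.x (G d) ≠ 0)
    (hG : ∀ᶠ s in 𝓝 S.x, ∑ j ∈ Finset.range (d + 1), aeval s (G j) * S.Y s ^ j = 0) (κ : ℕ) :
    ∃ (κ' : ℕ) (Q0 : ℕ), ∀ (q : ℕ) (p : Fin M → ℤ), Q0 ≤ q →
      (∀ s, |t s - p s / q| < Real.exp (-(q : ℝ) ^ κ')) →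
      ¬ NCM (S.Y (fun s ↦ (p s : ℂ) / q)) →
      ∃ (H : ℕ) (τ : Fin (n + 1 + M) → ℍ), q ≤ H ∧
        Tup (n + 1 + M) H (exr M (fun _ : Fin (n + 1) ↦ (0 : Fin (n + 1)))) τ ∧
        (∀ j, (τ j : ℂ) = H32.T4.ext (fun i ↦ S.ψ i (fun s ↦ (p s : ℂ) / q))
          (fun s ↦ (p s : ℂ) / q) j) ∧
        ∀ j, ‖H32.T4.ext (fun i ↦ S.ψ i S.x) S.x j - τ j‖ < Real.exp (-(H : ℝ) ^ κ) := by
  classical
  obtain ⟨A, Q1, ε, hε, hgood⟩ := good_MO S t hx hdet d G hd hG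
  obtain ⟨K, hK, hnear⟩ := S.near_MO
  obtain ⟨ε', hε', hball⟩ := Metric.eventually_nhds_iff_ball.mp hnear
  obtain ⟨T, hT⟩ : ∃ T : ℕ, ∀ s, |t s| + 1 ≤ (T : ℝ) := by
    refine ⟨⌈∑ s, |t s| + 1⌉₊, fun s ↦ le_trans ?_ (Nat.le_ceil _)⟩
    have := Finset.single_le_sum (f := fun s ↦ |t s|) (fun _ _ ↦ abs_nonneg _) (Finset.mem_univ s)
    linarith
  obtain ⟨C, hC⟩ : ∃ C : ℕ, C = 208 + T := ⟨_, rfl⟩
  obtain ⟨E, hE⟩ : ∃ E : ℕ, E = 4 * A + 4 := ⟨_, rfl⟩
  refine ⟨E * κ + 1, ⌈(C : ℝ) ^ κ + (K + 1) + 1⌉₊ + ⌈|Real.log ε|⌉₊ + ⌈|Real.log ε'|⌉₊ + Q1 + 1,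
    fun q p hq hp hcm ↦ ?_⟩
  have hqC : (C : ℝ) ^ κ + (K + 1) + 1 ≤ q := by
    refine (Nat.le_ceil _).trans ?_
    exact_mod_cast (by omega : ⌈(C : ℝ) ^ κ + (K + 1) + 1⌉₊ ≤ q)
  have hqε : |Real.log ε| < q := by
    refine lt_of_le_of_lt (Nat.le_ceil _) ?_
    exact_mod_cast (by omega : ⌈|Real.log ε|⌉₊ < q)
  have hqε' : |Real.log ε'| < q := by
    refine lt_of_le_of_lt (Nat.le_ceil _) ?_
    exact_mod_cast (by omega : ⌈|Real.log ε'|⌉₊ < q)
  have hq1 : 1 ≤ q := by omega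
  have hqr : (1 : ℝ) ≤ q := by exact_mod_cast hq1
  obtain ⟨r, hr⟩ : ∃ r : Fin M → ℂ, r = fun s ↦ (p s : ℂ) / q := ⟨_, rfl⟩
  have hgd : S.Good A q r := by
    rw [hr]
    exact hgood q p (by omega) fun s ↦ (hp s).trans_le (E1_exp hε hq1 hqε)
  rw [← hr] at hcm ⊢
  have hdist : ∀ s, ‖S.x s - r s‖ = |t s - p s / q| := by
    intro s
    rw [hx, hr]
    have h1 : (t s : ℂ) - (p s : ℂ) / q = ((t s - p s / q : ℝ) : ℂ) := by push_cast; ring
    simp only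
    rw [h1, Complex.norm_real, Real.norm_eq_abs]
  have hrb : r ∈ Metric.ball S.x ε' := by
    rw [Metric.mem_ball, dist_pi_lt_iff hε']
    intro s
    rw [dist_comm, dist_eq_norm, hdist s]
    exact (hp s).trans_le (E1_exp hε' hq1 hqε')
  obtain ⟨-, -, hψ, -⟩ := hball r hrb
  have hexp := Real.exp_pos (-(q : ℝ) ^ (E * κ + 1))
  have hnorm : ‖r - S.x‖ ≤ Real.exp (-(q : ℝ) ^ (E * κ + 1)) := by
    rw [norm_sub_rev, pi_norm_le_iff_of_nonneg hexp.le]
    intro s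
    rw [Pi.sub_apply, hdist s]
    exact (hp s).le
  obtain ⟨d0, s0, hd0, hs0, hrep⟩ := E1_rep S hq1 hgd hcm
  choose w' u' v' hw using hrep
  have hHle : 208 * q ^ (4 * A + 4) ≤ C * q ^ E := by
    rw [hE, hC]
    exact Nat.mul_le_mul (by omega) le_rfl
  have hqE : q ≤ q ^ E := by
    calc q = q ^ 1 := (pow_one q).symm
      _ ≤ q ^ E := Nat.pow_le_pow_right hq1 (by omega)
  have hHq : q ≤ C * q ^ E := by
    calc q = 1 * q := (one_mul q).symm
      _ ≤ C * q ^ E := Nat.mul_le_mul (by omega) hqE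
  have hH1 : 208 ≤ C * q ^ E := by
    calc 208 = 208 * 1 := rfl
      _ ≤ C * q ^ E := Nat.mul_le_mul (by omega) (Nat.one_le_pow _ _ hq1)
  have hps : ∀ s, |p s| ≤ ((C * q ^ E : ℕ) : ℤ) := by
    intro s
    have h1 : |t s - p s / q| ≤ 1 := by
      refine (hp s).le.trans ?_
      rw [← Real.exp_zero]
      apply Real.exp_le_exp.2
      have : (0 : ℝ) ≤ (q : ℝ) ^ (E * κ + 1) := by positivity
      linarith
    have h2 : |(p s : ℝ) / q| ≤ T := by
      have h3 := abs_sub_abs_le_abs_sub ((p s : ℝ) / q) (t s)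
      rw [abs_sub_comm] at h3
      have := hT s
      linarith
    rw [abs_div, abs_of_nonneg (by positivity : (0 : ℝ) ≤ q), div_le_iff₀ (by positivity)] at h2
    have h4 : (T : ℝ) * q ≤ ((C * q ^ E : ℕ) : ℝ) := by
      exact_mod_cast (Nat.mul_le_mul (by omega) hqE : T * q ≤ C * q ^ E)
    have h5 := h2.trans h4
    exact_mod_cast h5
  obtain ⟨dd, hdd⟩ : ∃ dd : Fin (n + 1 + M) → ℕ, dd = Fin.append (fun _ ↦ d0) (fun _ ↦ 1) := ⟨_, rfl⟩
  obtain ⟨w, hwd⟩ : ∃ w : Fin (n + 1 + M) → ℕ, w = Fin.append w' (fun _ ↦ q) := ⟨_, rfl⟩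
  obtain ⟨u, hud⟩ : ∃ u : Fin (n + 1 + M) → ℤ, u = Fin.append u' p := ⟨_, rfl⟩
  obtain ⟨v, hvd⟩ : ∃ v : Fin (n + 1 + M) → ℕ, v = Fin.append v' (fun _ ↦ q) := ⟨_, rfl⟩
  obtain ⟨ss, hss⟩ : ∃ ss : Fin (n + 1 + M) → ℂ, ss = Fin.append (fun _ ↦ s0) (fun _ ↦ Complex.I) :=
    ⟨_, rfl⟩
  obtain ⟨τ, hτ⟩ : ∃ τ : Fin (n + 1 + M) → ℂ, τ = H32.T4.ext (fun i ↦ S.ψ i r) r := ⟨_, rfl⟩
  have key : ∀ j, (dd j ≤ C * q ^ E ∧ 1 ≤ w j ∧ w j ≤ C * q ^ E ∧ |u j| ≤ ((C * q ^ E : ℕ) : ℤ) ∧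
      1 ≤ v j ∧ v j ≤ C * q ^ E ∧ ss j ^ 2 = -(dd j : ℂ) ∧ τ j = (u j + v j * ss j) / w j) ∧
      0 < (τ j).im := by
    intro j
    refine Fin.addCases (fun i ↦ ?_) (fun s ↦ ?_) j
    · obtain ⟨g1, g2, g3, g4, g5, g6, g7⟩ := hw i
      have ed : dd (Fin.castAdd M i) = d0 := by rw [hdd]; exact Fin.append_left _ _ _
      have ew : w (Fin.castAdd M i) = w' i := by rw [hwd]; exact Fin.append_left _ _ _
      have eu : u (Fin.castAdd M i) = u' i := by rw [hud]; exact Fin.append_left _ _ _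
      have ev : v (Fin.castAdd M i) = v' i := by rw [hvd]; exact Fin.append_left _ _ _
      have es : ss (Fin.castAdd M i) = s0 := by rw [hss]; exact Fin.append_left _ _ _
      have eτ : τ (Fin.castAdd M i) = S.ψ i r := by rw [hτ]; exact Fin.append_left _ _ _
      rw [ed, ew, eu, ev, es, eτ]
      refine ⟨⟨hd0.trans hHle, g1, g2.trans hHle, g3.trans (by exact_mod_cast hHle), g4,
        g5.trans hHle, hs0, g6⟩, g7⟩
    · have ed : dd (Fin.natAdd (n + 1) s) = 1 := by rw [hdd]; exact Fin.append_right _ _ _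
      have ew : w (Fin.natAdd (n + 1) s) = q := by rw [hwd]; exact Fin.append_right _ _ _
      have eu : u (Fin.natAdd (n + 1) s) = p s := by rw [hud]; exact Fin.append_right _ _ _
      have ev : v (Fin.natAdd (n + 1) s) = q := by rw [hvd]; exact Fin.append_right _ _ _
      have es : ss (Fin.natAdd (n + 1) s) = Complex.I := by
        rw [hss]; exact Fin.append_right _ _ _
      have eτ : τ (Fin.natAdd (n + 1) s) = r s + Complex.I := by
        rw [hτ]; exact Fin.append_right _ _ _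
      have hqc : (q : ℂ) ≠ 0 := by
        have : q ≠ 0 := by omega
        exact_mod_cast this
      rw [ed, ew, eu, ev, es, eτ]
      refine ⟨⟨by omega, hq1, hHq, hps s, hq1, hHq, ?_, ?_⟩, ?_⟩
      · rw [Complex.I_sq]
        push_cast
        rfl
      · rw [hr]
        simp only
        field_simp
      · have h1 : r s = ((p s / q : ℝ) : ℂ) := by
          rw [hr]
          push_cast
          rfl
        rw [Complex.add_im, h1, Complex.ofReal_im, Complex.I_im, zero_add]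
        exact one_pos
  refine ⟨C * q ^ E, fun j ↦ ⟨τ j, (key j).2⟩, hHq, ⟨by omega, dd, w, u, v, ss,
    fun j ↦ ?_, fun j ↦ ?_⟩, fun j ↦ ?_, fun j ↦ ?_⟩
  · exact (key j).1
  · refine Fin.addCases (fun i ↦ ?_) (fun s ↦ ?_) j
    · rw [exr, Fin.append_left, hdd, hss, Fin.append_left, Fin.append_left, Fin.append_left,
        Fin.append_left]
      exact ⟨rfl, rfl⟩
    · rw [exr, Fin.append_right]
      exact ⟨rfl, rfl⟩
  · change τ j = _
    rw [hτ]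
  · have hlt : (K + 1) * Real.exp (-(q : ℝ) ^ (E * κ + 1)) <
        Real.exp (-((C * q ^ E : ℕ) : ℝ) ^ κ) := H32.T4.exp_cmp (by linarith) (by omega) hqC
    refine lt_of_le_of_lt ?_ hlt
    change ‖H32.T4.ext (fun i ↦ S.ψ i S.x) S.x j - τ j‖ ≤ _
    refine Fin.addCases (fun i ↦ ?_) (fun s ↦ ?_) j
    · rw [hτ, H32.T4.ext, H32.T4.ext, Fin.append_left, Fin.append_left, norm_sub_rev]
      refine (hψ i).trans ?_
      calc K * ‖r - S.x‖ ≤ K * Real.exp (-(q : ℝ) ^ (E * κ + 1)) :=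
            mul_le_mul_of_nonneg_left hnorm hK.le
        _ ≤ (K + 1) * Real.exp (-(q : ℝ) ^ (E * κ + 1)) := by
            apply mul_le_mul_of_nonneg_right _ hexp.le
            linarith
    · rw [hτ, H32.T4.ext, H32.T4.ext, Fin.append_right, Fin.append_right,
        add_sub_add_right_eq_sub, hdist s]
      refine (hp s).le.trans ?_
      nlinarith

end AK
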