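import Pool.Agent.H32.AK.A4
import Pool.Agent.H32.AK.A6
import Pool.Agent.H32.AK.E1
import Pool.Agent.H32.T4.B6

/-!
# MP_ede373, points algebraic over `ℚ(t)`, row E2: independence, CM case

Adapt `Dat.V_indep` in `Pool/Agent/H32/T4/B6.lean`, with `n + 1` points `S.ψ i`, `r = fun _ ↦ 0`, `a = 0` (`(Finset.univ.image r).erase a = ∅`, so the number is `3 (n + 1) + M`; `rank_V` gives a family of size `3 * (n + 1) + M - card ((univ.image r).erase a)`, rewrite the cardinality), `S.step` replaced by `step_MO`, the sequence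
taken from `hP κ'` (`SHierP`: in addition `¬ NCM (Y (p/q))`), `y k s = (p k s : ℂ) / q k`. `hne`: for the first indices: `Tup.quad` gives a quadratic relation of `τ j = ψ i (..)`; if `τ j = ψ i x`, then `ψ i x` is algebraic over `ℚ`: contradiction with `htr i`. For the last indices as there. The second part of the conclusion
of `V_indep` (transcendence) is not needed here. Independence `hX`: `ult_ind S.x S.ψ S.an_ψ S.im_ψ (nonvan_MO S d G hd hG htr hrel) y hyt σ ..` exactly as there.
-/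

set_option autoImplicit false

open UpperHalfPlane hiding I
open Complex EisensteinSeries ModularForm MatrixGroups Manifold
open scoped Real Topology
open MvPolynomial Filter

namespace AK

open H32 H32.T3 H32.T4 AO

theorem V_MO {M n : ℕ} (S : MO M n) (t : Fin M → ℝ) (hx : S.x = fun s ↦ (t s : ℂ))
    (hdet : ∀ i, 0 < (aeval t (S.dt i) : ℝ)) (d : ℕ) (G : ℕ → MvPolynomial (Fin M) ℤ)
    (hd : aeval S.x (G d) ≠ 0)
    (hG : ∀ᶠ s in 𝓝 S.x, ∑ j ∈ Finset.range (d + 1), aeval s (G j) * S.Y s ^ j = 0)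
    (htr : ∀ i, Transcendental ℚ (S.ψ i S.x))
    (hrel : ∀ i j, i ≠ j → ¬ ∃ a b c d : ℚ, 0 < a * d - b * c ∧
      S.ψ j S.x = ((a : ℂ) * S.ψ i S.x + b) / ((c : ℂ) * S.ψ i S.x + d))
    (hP : SHierP t (fun q p ↦ ¬ NCM (S.Y (fun s ↦ (p s : ℂ) / q)))) :
    Gd (fun i ↦ S.ψ i S.x) ∧
    ∃ f : Fin (3 * (n + 1) + M) → (Fin (n + 1) × Fin 5) ⊕ Fin M,
      AlgebraicIndependent ℤ (fun j ↦
        VV (fun _ : Fin (n + 1) ↦ (0 : Fin (n + 1))) 0 (fun i ↦ S.ψ i S.x) S.x (f j)) := by
  classical
  obtain ⟨A, hA⟩ := transfer_U (n + 1 + M)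
  set κ : ℕ := A + 1 with hκ
  obtain ⟨κ', Q0, hstep⟩ := step_MO S t hx hdet d G hd hG κ
  obtain ⟨σ, hσ⟩ := hP κ'
  choose q hq p hp1 hp2 hncm using fun k : ℕ ↦ hσ (Q0 + k + 2)
  choose H τ hH hT hτ hlt using fun k ↦ hstep (q k) (p k) (le_trans (by omega) (hq k))
    (fun s ↦ (hp1 k s).2) (hncm k)
  set r : Fin (n + 1) → Fin (n + 1) := fun _ ↦ 0 with hr
  set z' : Fin (n + 1 + M) → ℂ := H32.T4.ext (fun i ↦ S.ψ i S.x) S.x with hz'
  set y : ℕ → Fin M → ℂ := fun k s ↦ (p k s : ℂ) / q k with hy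
  have hq1 : ∀ k, 1 ≤ q k := fun k ↦ le_trans (by omega) (hq k)
  have him : ∀ j, 0 < (z' j).im := by
    intro j
    refine Fin.addCases (fun i ↦ ?_) (fun s ↦ ?_) j
    · rw [hz', H32.T4.ext, Fin.append_left]
      exact S.im_ψ i
    · rw [hz', H32.T4.ext, Fin.append_right, hx]
      simp
  have hynorm : ∀ k s, ‖y k s - S.x s‖ = |t s - p k s / q k| := fun k s ↦ by
    have e1 : y k s - S.x s = (((p k s : ℝ) / q k - t s : ℝ) : ℂ) := by
      rw [hy, hx]
      push_cast
      rfl
    rw [e1, Complex.norm_real, Real.norm_eq_abs, abs_sub_comm]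
  set W : ApxN κ (n + 1 + M) (exr M r) z' :=
    { H := H
      t := τ
      hH := fun k ↦ le_trans (by omega) ((hq k).trans (hH k))
      hT := hT
      hlt := hlt
      hne := fun k j ↦ by
        refine Fin.addCases (fun i ↦ ?_) (fun s ↦ ?_) j
        · intro h0
          obtain ⟨a, b, c, ha, h1⟩ := Tup.quad (hT k) (Fin.castAdd M i)
          rw [h0, hz', H32.T4.ext, Fin.append_left] at h1
          refine htr i ?_
          refine ⟨Polynomial.C (a : ℚ) * Polynomial.X ^ 2 + Polynomial.C (b : ℚ) * Polynomial.X +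
            Polynomial.C (c : ℚ), ?_, ?_⟩
          · intro h2
            have h3 := congrArg (fun P : Polynomial ℚ ↦ P.coeff 2) h2
            simp only [Polynomial.coeff_add, Polynomial.coeff_C_mul, Polynomial.coeff_X_pow,
              Polynomial.coeff_X, Polynomial.coeff_C, Polynomial.coeff_zero] at h3
            norm_num at h3
            exact ha h3
          · rw [← h1]
            simp
        · intro h0
          rw [hτ k, hz', H32.T4.ext, H32.T4.ext, Fin.append_right, Fin.append_right,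
            add_left_inj] at h0
          have h1 := (hp1 k s).1
          rw [← hynorm] at h1
          have h2 : y k s = S.x s := h0
          rw [h2, sub_self, norm_zero] at h1
          exact lt_irrefl _ h1 } with hW
  obtain ⟨hGz, hG1, htr1⟩ := hA κ (by omega) (exr M r) (Fin.castAdd M 0) z' W him
  have hτe : ∀ k, (fun j ↦ (W.t k j : ℂ)) = H32.T4.ext (fun i ↦ S.ψ i (y k)) (y k) := fun k ↦ by
    ext j
    exact hτ k j
  have hGz' : Gd (fun i ↦ S.ψ i S.x) := fun i ↦ by
    have h1 := hGz (Fin.castAdd M i)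
    rwa [hz', H32.T4.ext, Fin.append_left] at h1
  have hG' : ∀ᶠ k in atTop, Gd (fun i ↦ S.ψ i (y k)) := by
    filter_upwards [hG1] with k hk i
    have h1 := hk (Fin.castAdd M i)
    have e1 : (W.t k (Fin.castAdd M i) : ℂ) = S.ψ i (y k) := by
      have := congrFun (hτe k) (Fin.castAdd M i)
      rwa [H32.T4.ext, Fin.append_left] at this
    simp only [e1] at h1
    exact h1
  -- the sequence of parameters
  have hle : ∀ k s, |t s - p k s / q k| ≤ Real.exp (-(q k : ℝ) ^ κ') := fun k s ↦ (hp1 k s).2.le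
  have hle1 : ∀ k s, |t s - p k s / q k| ≤ 1 := fun k s ↦ by
    refine (hle k s).trans (Real.exp_le_one_iff.mpr ?_)
    have : (0 : ℝ) ≤ (q k : ℝ) ^ κ' := by positivity
    linarith
  have hyt : Tendsto y atTop (𝓝 S.x) := by
    have h1 := W.tendsto (by omega)
    rw [tendsto_pi_nhds] at h1 ⊢
    intro s
    have h2 := (h1 (Fin.natAdd (n + 1) s)).sub_const Complex.I
    have e1 : ∀ k, (W.t k (Fin.natAdd (n + 1) s) : ℂ) - Complex.I = y k s := fun k ↦ by
      have := congrFun (hτe k) (Fin.natAdd (n + 1) s)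
      rw [H32.T4.ext, Fin.append_right] at this
      rw [this]
      ring
    have e2 : z' (Fin.natAdd (n + 1) s) - Complex.I = S.x s := by
      rw [hz', H32.T4.ext, Fin.append_right]
      ring
    rw [e2] at h2
    exact h2.congr e1
  have hX := AO.ult_ind S.x S.ψ S.an_ψ S.im_ψ (nonvan_MO S d G hd hG htr hrel) y hyt σ
    (Eventually.of_forall fun k s ↦ by
      rw [hynorm]
      exact (hp1 k s).1) (fun C ↦ by
      filter_upwards [eventually_ge_atTop C] with k hk a b hab
      rw [hynorm, hynorm]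
      refine (hp2 k a b hab).le.trans ?_
      exact pow_le_pow_of_le_one (abs_nonneg _) (hle1 k _) (by omega))
  obtain ⟨f0, hf0⟩ := rank_V (fun k i ↦ S.ψ i (y k)) y hG' r 0 (fun _ ↦ rfl) hX
  have hcard : 3 * (n + 1) + M - ((Finset.univ.image r).erase 0).card = 3 * (n + 1) + M := by
    have h1 : (Finset.univ.image r).erase 0 = ∅ := by
      ext i
      simp only [hr, Finset.mem_erase, Finset.mem_image, Finset.mem_univ, true_and,
        Finset.notMem_empty, iff_false, not_and, not_exists]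
      intro h1 h2 h3
      exact h1 h3.symm
    rw [h1, Finset.card_empty, Nat.sub_zero]
  obtain ⟨f, hf⟩ : ∃ f : Fin (3 * (n + 1) + M) → (Fin (n + 1) × Fin 5) ⊕ Fin M,
      AlgebraicIndependent ℂ (fun j ↦ mkU (fun k ↦ VV r 0 (fun i ↦ S.ψ i (y k)) (y k) (f j))) :=
    ⟨f0 ∘ Fin.cast hcard.symm, hf0.comp _ (Fin.cast_injective _)⟩
  refine ⟨hGz', f, ?_⟩
  rw [algebraicIndependent_iff]
  intro P hP
  have h1 : MvPolynomial.aeval (H32.T3.UU (exr M r) (Fin.castAdd M 0) z')
      (MvPolynomial.rename (sel ∘ f) P) = 0 := by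
    rw [MvPolynomial.aeval_rename, ← hP]
    congr 2
    ext j
    exact UU_ext r 0 (fun i ↦ S.ψ i S.x) S.x (f j)
  have h2 := htr1 _ h1
  have h3 : MvPolynomial.aeval
      (fun j ↦ mkU (fun k ↦ VV r 0 (fun i ↦ S.ψ i (y k)) (y k) (f j))) P = 0 := by
    rw [AO.aeval_mkUZ']
    refine mkU_zero_of_ev (h2.mono fun k hk ↦ ?_)
    rw [MvPolynomial.aeval_rename] at hk
    rw [← hk]
    congr 2
    ext j
    rw [Function.comp_apply, Function.comp_apply, hτe k]
    exact (UU_ext r 0 (fun i ↦ S.ψ i (y k)) (y k) (f j)).symm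
  have h4 : MvPolynomial.aeval (fun j ↦ mkU (fun k ↦ VV r 0 (fun i ↦ S.ψ i (y k)) (y k) (f j)))
      (MvPolynomial.map (Int.castRingHom ℂ) P) = 0 := by
    rw [← h3, ← algebraMap_int_eq, MvPolynomial.aeval_map_algebraMap]
  have h5 := (algebraicIndependent_iff.mp hf) _ h4
  exact (MvPolynomial.map_injective _ (RingHom.injective_int _)) (by rw [h5, map_zero])

end AK
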