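import Pool.Agent.H32.AK.MO
import Pool.Agent.H32.T4.B7

/-!
# MP_ede373, points algebraic over `ℚ(t)`, row E3: the numbers of the problem, CM case

`D = Algebra.adjoin ℚ (range S.x)`. (a) `y = Y x` is algebraic over `IntermediateField.adjoin ℚ (range S.x)`, which is the fraction field of `D` (every element of the field is algebraic over `D`: `IntermediateField.adjoin_induction`; then transitivity `IsAlgebraic.trans` / `isAlgebraic_adjoin..`; compare with how
`AK/F2` or `AO/F2` pass from the field to the algebra), so `y` is algebraic over `D`. (b) `ψ 0 x = y`, `ψ (i+1) x = (A y + B) / (C y + D')` with `A = aeval x (pA i) ∈ D` etc. is algebraic over `D` (`Algebra.IsAlgebraic`-free: `IsAlgebraic.add, mul, inv`, as `alg_z` in `T4/B8.lean`).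
(c) conjugation: all elements of `D` are real (`Algebra.adjoin_induction`, `S.x s = t s`), so if `F(w) = 0`, `F ∈ D[X]`, then `F(conj w) = conj (F(w)) = 0` (`Polynomial.eval₂_hom`/`Polynomial.aeval_def`, `Polynomial.hom_eval₂` with `starRingEnd ℂ`, and `(starRingEnd ℂ).comp (algebraMap D ℂ) = algebraMap D ℂ`).
(d) `final_V h4 h6 hJ (fun _ ↦ 0) 0 (fun i ↦ S.ψ i S.x) S.x hGd hz hconj f (hf.extendScalars ℚ) g hg` (as in `main_Q` of `T4/B8.lean`), `N = 3 (n + 1) + M`, `N + ρ - M = 3 (n + 1) + ρ`.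
-/

set_option autoImplicit false

open UpperHalfPlane hiding I
open Complex EisensteinSeries ModularForm MatrixGroups Manifold
open scoped Real Topology
open MvPolynomial Filter

namespace AK

open H32 H32.T3 H32.T4 AO

/-- Passing from the field to the ring generated by a set. -/
private theorem E3_adj {T : Set ℂ} {z : ℂ} (h : IsAlgebraic (IntermediateField.adjoin ℚ T) z) :
    IsAlgebraic (Algebra.adjoin ℚ T) z := by
  open scoped IntermediateField.algebraAdjoinAdjoin in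
  exact (IsFractionRing.isAlgebraic_iff (Algebra.adjoin ℚ T) (IntermediateField.adjoin ℚ T) ℂ).2 h

/-- Conjugates of numbers algebraic over a real ring. -/
private theorem E3_conj {T : Set ℂ} (hT : ∀ v ∈ T, (starRingEnd ℂ) v = v) {z : ℂ}
    (h : IsAlgebraic (Algebra.adjoin ℚ T) z) :
    IsAlgebraic (Algebra.adjoin ℚ T) ((starRingEnd ℂ) z) := by
  have hreal : ∀ d ∈ Algebra.adjoin ℚ T, (starRingEnd ℂ) d = d := by
    intro d hd
    induction hd using Algebra.adjoin_induction with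
    | mem x hx => exact hT x hx
    | algebraMap r => simp
    | add x y _ _ hx hy => rw [map_add, hx, hy]
    | mul x y _ _ hx hy => rw [map_mul, hx, hy]
  obtain ⟨p, hp0, hp⟩ := h
  refine ⟨p, hp0, ?_⟩
  have hc : (starRingEnd ℂ).comp (algebraMap (Algebra.adjoin ℚ T) ℂ) =
      algebraMap (Algebra.adjoin ℚ T) ℂ := by
    ext d
    exact hreal _ d.2
  rw [Polynomial.aeval_def] at hp ⊢
  have h1 := Polynomial.hom_eval₂ p (algebraMap (Algebra.adjoin ℚ T) ℂ) (starRingEnd ℂ) z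
  rw [hp, map_zero, hc] at h1
  exact h1.symm

theorem final_cm {E4 E6 J : ℂ → ℂ}
    (h4 : ∀ τ : ℂ, E4 τ = 1 + 240 * ∑' m : ℕ, ((ArithmeticFunction.sigma 3 (m + 1) : ℕ) : ℂ) *
      Complex.exp (2 * (Real.pi : ℂ) * Complex.I * ((m : ℂ) + 1) * τ))
    (h6 : ∀ τ : ℂ, E6 τ = 1 - 504 * ∑' m : ℕ, ((ArithmeticFunction.sigma 5 (m + 1) : ℕ) : ℂ) *
      Complex.exp (2 * (Real.pi : ℂ) * Complex.I * ((m : ℂ) + 1) * τ))
    (hJ : ∀ τ : ℂ, J τ = 1728 * E4 τ ^ 3 / (E4 τ ^ 3 - E6 τ ^ 2))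
    {M n : ℕ} (S : MO M n) (t : Fin M → ℝ) (hx : S.x = fun s ↦ (t s : ℂ))
    (hya : IsAlgebraic (IntermediateField.adjoin ℚ (Set.range S.x)) (S.Y S.x))
    (hGd : Gd (fun i ↦ S.ψ i S.x))
    (hf : ∃ f : Fin (3 * (n + 1) + M) → (Fin (n + 1) × Fin 5) ⊕ Fin M,
      AlgebraicIndependent ℤ (fun j ↦
        VV (fun _ : Fin (n + 1) ↦ (0 : Fin (n + 1))) 0 (fun i ↦ S.ψ i S.x) S.x (f j)))
    {ρ : ℕ} (g : Fin ρ → Fin (n + 1))
    (hg : AlgebraicIndependent ℚ (fun k ↦ S.ψ (g k) S.x)) :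
    ∃ f : Fin (3 * (n + 1) + ρ) → Fin (n + 1) × Fin 4, AlgebraicIndependent ℚ (fun k ↦
      (![S.ψ (f k).1 S.x, J (S.ψ (f k).1 S.x), deriv J (S.ψ (f k).1 S.x),
        deriv (deriv J) (S.ψ (f k).1 S.x)] : Fin 4 → ℂ) (f k).2) := by
  have aQ : ∀ q : ℚ, IsAlgebraic (Algebra.adjoin ℚ (Set.range S.x)) (q : ℂ) := fun q ↦ by
    have : (q : ℂ) = algebraMap (Algebra.adjoin ℚ (Set.range S.x)) ℂ (algebraMap ℚ _ q) := by
      rw [← IsScalarTower.algebraMap_apply]; rfl
    rw [this]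
    exact isAlgebraic_algebraMap _
  have aP : ∀ p : MvPolynomial (Fin M) ℤ,
      IsAlgebraic (Algebra.adjoin ℚ (Set.range S.x)) (aeval S.x p) := by
    intro p
    induction p using MvPolynomial.induction_on with
    | C c =>
      rw [aeval_C]
      have := aQ (c : ℚ)
      simpa using this
    | add p q hp hq =>
      rw [map_add]
      exact hp.add hq
    | mul_X p s hp =>
      rw [map_mul, aeval_X]
      exact hp.mul (isAlgebraic_algebraMap
        (⟨S.x s, Algebra.subset_adjoin ⟨s, rfl⟩⟩ : Algebra.adjoin ℚ (Set.range S.x)))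
  have aY : IsAlgebraic (Algebra.adjoin ℚ (Set.range S.x)) (S.Y S.x) := E3_adj hya
  have hz : ∀ i, IsAlgebraic (Algebra.adjoin ℚ (Set.range S.x)) (S.ψ i S.x) := by
    intro i
    refine Fin.cases ?_ (fun i ↦ ?_) i
    · exact aY
    · change IsAlgebraic (Algebra.adjoin ℚ (Set.range S.x))
        ((aeval S.x (S.pA i) * S.Y S.x + aeval S.x (S.pB i)) /
          (aeval S.x (S.pC i) * S.Y S.x + aeval S.x (S.pD i)))
      rw [div_eq_mul_inv]
      exact (((aP _).mul aY).add (aP _)).mul (((aP _).mul aY).add (aP _)).inv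
  have hreal : ∀ v ∈ Set.range S.x, (starRingEnd ℂ) v = v := by
    rintro _ ⟨s, rfl⟩
    rw [hx]
    exact Complex.conj_ofReal _
  obtain ⟨f, hf⟩ := hf
  have halgZQ : Algebra.IsAlgebraic ℤ ℚ := IsLocalization.isAlgebraic ℚ (nonZeroDivisors ℤ)
  obtain ⟨f', hf'⟩ := final_V h4 h6 hJ (fun _ ↦ 0) 0 (fun i ↦ S.ψ i S.x) S.x hGd hz
    (fun i ↦ E3_conj hreal (hz i)) f (hf.extendScalars ℚ) g hg
  have hle : 3 * (n + 1) + ρ ≤ 3 * (n + 1) + M + ρ - M := by omega
  exact ⟨f' ∘ Fin.castLE hle, hf'.comp _ (Fin.castLE_injective hle)⟩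

end AK
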