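import Pool.Agent.H32.AK.MO
import Pool.Agent.H32.T3.A6

/-!
# MP_ede373, points algebraic over `ℚ(t)`, row F1: the family is algebraic over the numbers of the problem

Copy the proof of `AO.alg_WF` (file `Pool/Agent/H32/AO/F1.lean`, private lemmas `F1_..` renamed) with `S.y 0` replaced by `Y = S.Y S.x`: `J(Y) = jc Y = 1728 e4^3/(e4^3 - e6^2) = e4^3/dlt` (`J_values`), `J - 1728 = e6^2/dlt`, `den i x = pC Y + pD` is algebraic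
over `D`, and `S.RW S.x (i, l)` has the same formulas with `e4 (Y)`, `dlt (Y)` in place of `E₄ (S.y 0)`, `discriminant (S.y 0)` (`dlt_ne S.im0`).
-/

set_option autoImplicit false
set_option linter.unusedSimpArgs false

open UpperHalfPlane hiding I
open Complex EisensteinSeries ModularForm MatrixGroups Manifold
open scoped Real Topology
open MvPolynomial Filter

namespace AK

open H32 H32.T3 H32.T4 AO

lemma F1_psi {Jv J1v J2v A2 B C : ℂ} (hB : B ≠ 0) (hC : C ≠ 0) (hD : B ^ 3 - C ^ 2 ≠ 0)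
    (hJ : Jv = 1728 * B ^ 3 / (B ^ 3 - C ^ 2))
    (hJ1 : J1v = -1728 * (2 * π * Complex.I) * (B ^ 2 * C) / (B ^ 3 - C ^ 2))
    (hJ2 : J2v = -1728 * (2 * π * Complex.I) ^ 2 * ((1 / 6) * A2 * B ^ 2 * C - (2 / 3) * B * C ^ 2 -
      (1 / 2) * B ^ 4) / (B ^ 3 - C ^ 2)) :
    2 * π * Complex.I * C / B = -J1v * Jv⁻¹ ∧
    A2 * B / C = ((6 : ℚ) : ℂ) * (((2 / 3 : ℚ) : ℂ) + ((1 / 2 : ℚ) : ℂ) * (Jv *
      (Jv - ((1728 : ℚ) : ℂ))⁻¹) - J2v * (Jv * (J1v * Jv⁻¹) ^ 2)⁻¹) := by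
  have hpi : (π : ℂ) ≠ 0 := by exact_mod_cast Real.pi_ne_zero
  have hI0 : (Complex.I : ℂ) ≠ 0 := Complex.I_ne_zero
  constructor
  · rw [hJ, hJ1]
    field_simp
  · have e1 : Jv - ((1728 : ℚ) : ℂ) = 1728 * C ^ 2 / (B ^ 3 - C ^ 2) := by
      rw [hJ]
      push_cast
      field_simp
      ring
    rw [e1, hJ, hJ1, hJ2]
    push_cast
    field_simp
    ring

lemma F1_Q (D : Subalgebra ℚ ℂ) (q : ℚ) : IsAlgebraic D (q : ℂ) :=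
  (isAlgebraic_algebraMap (R := ℚ) (A := ℂ) q).extendScalars (algebraMap ℚ D).injective

lemma F1_wp {E4 E6 J : ℂ → ℂ}
    (h4 : ∀ τ : ℂ, E4 τ = 1 + 240 * ∑' m : ℕ, ((ArithmeticFunction.sigma 3 (m + 1) : ℕ) : ℂ) *
      Complex.exp (2 * (Real.pi : ℂ) * Complex.I * ((m : ℂ) + 1) * τ))
    (h6 : ∀ τ : ℂ, E6 τ = 1 - 504 * ∑' m : ℕ, ((ArithmeticFunction.sigma 5 (m + 1) : ℕ) : ℂ) *
      Complex.exp (2 * (Real.pi : ℂ) * Complex.I * ((m : ℂ) + 1) * τ))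
    (hJ : ∀ τ : ℂ, J τ = 1728 * E4 τ ^ 3 / (E4 τ ^ 3 - E6 τ ^ 2)) (D : Subalgebra ℚ ℂ)
    (w : ℂ) (h0 : 0 < w.im) (hB : e4 w ≠ 0) (hC : e6 w ≠ 0) (aJ : IsAlgebraic D (J w))
    (aJ1 : IsAlgebraic D (deriv J w)) (aJ2 : IsAlgebraic D (deriv (deriv J) w)) :
    IsAlgebraic D (Wf w) ∧ IsAlgebraic D (ps w) := by
  obtain ⟨v0, v1, v2⟩ := J_values h4 h6 hJ h0
  obtain ⟨f1, f2⟩ := F1_psi hB hC disc_ne v0 v1 v2
  constructor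
  · have e1 : Wf w = -deriv J w * (J w)⁻¹ := f1
    rw [e1]
    exact aJ1.neg.mul aJ.inv
  · have e1 : ps w = ((6 : ℚ) : ℂ) * (((2 / 3 : ℚ) : ℂ) + ((1 / 2 : ℚ) : ℂ) * (J w *
      (J w - ((1728 : ℚ) : ℂ))⁻¹) - deriv (deriv J) w *
        (J w * (deriv J w * (J w)⁻¹) ^ 2)⁻¹) := f2
    rw [e1]
    exact (F1_Q D _).mul (((F1_Q D _).add ((F1_Q D _).mul (aJ.mul (aJ.sub (F1_Q D _)).inv))).sub
      (aJ2.mul (aJ.mul ((aJ1.mul aJ.inv).pow 2)).inv))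

lemma F1_poly {m : ℕ} (D : Subalgebra ℚ ℂ) (x : Fin m → ℂ) (hD : ∀ s, IsAlgebraic D (x s))
    (p : MvPolynomial (Fin m) ℤ) : IsAlgebraic D (MvPolynomial.aeval x p) := by
  induction p using MvPolynomial.induction_on with
  | C c =>
    rw [MvPolynomial.aeval_C]
    have : algebraMap ℤ ℂ c = algebraMap ℚ ℂ (c : ℚ) := by simp
    rw [this]
    exact (isAlgebraic_algebraMap (R := ℚ) (A := ℂ) _).extendScalars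
      (algebraMap ℚ D).injective
  | add p q hp hq =>
    rw [map_add]
    exact hp.add hq
  | mul_X p s hp =>
    rw [map_mul, MvPolynomial.aeval_X]
    exact hp.mul (hD s)

lemma F1_quot (z y : ℂ) (k1 : e4 z ≠ 0) (k2 : e6 z ≠ 0) (k3 : e4 y ≠ 0) (k4 : e6 y ≠ 0) :
    e6 z / e4 z * (e4 y / e6 y) = Wf z * (Wf y)⁻¹ := by
  have hpi : (π : ℂ) ≠ 0 := by exact_mod_cast Real.pi_ne_zero
  have hI := Complex.I_ne_zero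
  rw [Wf, Wf]
  field_simp

lemma F1_r0 {A4 A6 B4 B6 Δ d h : ℂ} (hA4 : A4 ≠ 0) (hA6 : A6 ≠ 0) (hB4 : B4 ≠ 0) (hB6 : B6 ≠ 0)
    (hΔ : Δ ≠ 0) (hd : d ≠ 0) (hh : h ≠ 0) :
    (d / h) ^ 4 * A4 * B4 ^ 2 / Δ = (A4 ^ 3 / A6 ^ 2 * ((B4 ^ 3 / Δ) ^ 2 * (B6 ^ 2 / Δ)⁻¹)) *
      ((d * h⁻¹) ^ 2 * (A6 / A4 * (B4 / B6)) * (B6 ^ 2 / Δ * (B4 ^ 3 / Δ)⁻¹)) ^ 2 := by
  field_simp

lemma F1_r1 {A4 A6 B4 B6 Δ d h : ℂ} (hA4 : A4 ≠ 0) (hA6 : A6 ≠ 0) (hB4 : B4 ≠ 0) (hB6 : B6 ≠ 0)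
    (hΔ : Δ ≠ 0) (hd : d ≠ 0) (hh : h ≠ 0) :
    (d / h) ^ 6 * A6 * B6 / Δ = ((d / h) ^ 4 * A4 * B4 ^ 2 / Δ) *
      ((d * h⁻¹) ^ 2 * (A6 / A4 * (B4 / B6)) * (B6 ^ 2 / Δ * (B4 ^ 3 / Δ)⁻¹)) := by
  field_simp

lemma F1_r2 {A2 A4 A6 B2 B4 B6 Δ d h c p i : ℂ} (hA4 : A4 ≠ 0) (hA6 : A6 ≠ 0) (hB4 : B4 ≠ 0)
    (hB6 : B6 ≠ 0) (hΔ : Δ ≠ 0) (hd : d ≠ 0) (hh : h ≠ 0) (hp : p ≠ 0) (hi : i ≠ 0)
    (hi2 : i ^ 2 = -1) :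
    ((d / h) ^ 2 * A2 - d * B2 + 6 * i * d * c / (p * h)) * (B4 * B6) / Δ =
      (B6 ^ 2 / Δ) * ((d * h⁻¹) ^ 2 * (A2 * A4 / A6 * (A6 / A4 * (B4 / B6))) -
        d * (B2 * B4 / B6) - 12 * (d * c * (h * (2 * p * i * B6 / B4))⁻¹)) := by
  have e : (h * (2 * p * i * B6 / B4))⁻¹ = -(i * B4) / (2 * p * h * B6) := by
    rw [inv_eq_iff_eq_inv, inv_div, eq_div_iff (by
      apply neg_ne_zero.2
      exact mul_ne_zero hi hB4)]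
    field_simp
    linear_combination (-1 : ℂ) * hi2
  rw [e]
  field_simp
  ring

theorem alg_RW {E4 E6 J : ℂ → ℂ}
    (h4 : ∀ τ : ℂ, E4 τ = 1 + 240 * ∑' m : ℕ, ((ArithmeticFunction.sigma 3 (m + 1) : ℕ) : ℂ) *
      Complex.exp (2 * (Real.pi : ℂ) * Complex.I * ((m : ℂ) + 1) * τ))
    (h6 : ∀ τ : ℂ, E6 τ = 1 - 504 * ∑' m : ℕ, ((ArithmeticFunction.sigma 5 (m + 1) : ℕ) : ℂ) *
      Complex.exp (2 * (Real.pi : ℂ) * Complex.I * ((m : ℂ) + 1) * τ))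
    (hJ : ∀ τ : ℂ, J τ = 1728 * E4 τ ^ 3 / (E4 τ ^ 3 - E6 τ ^ 2))
    {M n : ℕ} (S : MO M n) (y4 : e4 (S.Y S.x) ≠ 0) (y6 : e6 (S.Y S.x) ≠ 0) (i : Fin n)
    (z4 : e4 (S.φ i S.x) ≠ 0) (z6 : e6 (S.φ i S.x) ≠ 0) (D : Subalgebra ℚ ℂ)
    (ax : ∀ s, IsAlgebraic D (S.x s)) (ay : IsAlgebraic D (S.Y S.x))
    (ay0 : IsAlgebraic D (J (S.Y S.x))) (ay1 : IsAlgebraic D (deriv J (S.Y S.x)))
    (ay2 : IsAlgebraic D (deriv (deriv J) (S.Y S.x)))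
    (az0 : IsAlgebraic D (J (S.φ i S.x))) (az1 : IsAlgebraic D (deriv J (S.φ i S.x)))
    (az2 : IsAlgebraic D (deriv (deriv J) (S.φ i S.x))) (l : Fin 3) :
    IsAlgebraic D (S.RW S.x (i, l)) := by
  have g0 : 0 < (S.Y S.x).im := S.im0
  have g4 : e4 (S.Y S.x) ≠ 0 := y4
  have g6 : e6 (S.Y S.x) ≠ 0 := y6
  have hΔ : dlt (S.Y S.x) ≠ 0 := dlt_ne S.im0
  have hd : aeval S.x (S.dt i) ≠ 0 := S.dt_x i
  have hη : S.den i S.x ≠ 0 := S.den_x i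
  obtain ⟨aYW, aYp⟩ := F1_wp h4 h6 hJ D _ g0 g4 g6 ay0 ay1 ay2
  obtain ⟨aZW, aZp⟩ := F1_wp h4 h6 hJ D _ (S.im_φ i) z4 z6 az0 az1 az2
  have aP := F1_poly D S.x ax
  have ad : IsAlgebraic D (aeval S.x (S.dt i)) := aP _
  have aη : IsAlgebraic D (S.den i S.x) := by
    have e : S.den i S.x = aeval S.x (S.pC i) * (S.Y S.x) + aeval S.x (S.pD i) := rfl
    rw [e]
    exact ((aP _).mul ay).add (aP _)
  -- the values of `j`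
  have hdy := disc_ne (w := S.Y S.x)
  have hj : J (S.Y S.x) = e4 (S.Y S.x) ^ 3 / dlt (S.Y S.x) := by
    rw [(J_values h4 h6 hJ g0).1, dlt]
    field_simp
  have hj' : J (S.Y S.x) - ((1728 : ℚ) : ℂ) = e6 (S.Y S.x) ^ 2 / dlt (S.Y S.x) := by
    rw [(J_values h4 h6 hJ g0).1, dlt]
    push_cast
    field_simp
    ring
  have hz : e4 (S.φ i S.x) ^ 3 / e6 (S.φ i S.x) ^ 2 =
      J (S.φ i S.x) * (J (S.φ i S.x) - ((1728 : ℚ) : ℂ))⁻¹ := by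
    have hdz := disc_ne (w := S.φ i S.x)
    have e1 : J (S.φ i S.x) - ((1728 : ℚ) : ℂ) = 1728 * e6 (S.φ i S.x) ^ 2 /
        (e4 (S.φ i S.x) ^ 3 - e6 (S.φ i S.x) ^ 2) := by
      rw [(J_values h4 h6 hJ (S.im_φ i)).1]
      push_cast
      field_simp
      ring
    rw [e1, (J_values h4 h6 hJ (S.im_φ i)).1]
    field_simp
  have aq : IsAlgebraic D (e4 (S.φ i S.x) ^ 3 / e6 (S.φ i S.x) ^ 2) := by
    rw [hz]
    exact az0.mul (az0.sub (F1_Q D _)).inv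
  have aj : IsAlgebraic D (e4 (S.Y S.x) ^ 3 / dlt (S.Y S.x)) := by
    rw [← hj]
    exact ay0
  have aj' : IsAlgebraic D (e6 (S.Y S.x) ^ 2 / dlt (S.Y S.x)) := by
    rw [← hj']
    exact ay0.sub (F1_Q D _)
  have aw : IsAlgebraic D (e6 (S.φ i S.x) / e4 (S.φ i S.x) *
      (e4 (S.Y S.x) / e6 (S.Y S.x))) := by
    rw [F1_quot _ _ z4 z6 g4 g6]
    exact aZW.mul aYW.inv
  have aPP : IsAlgebraic D ((aeval S.x (S.dt i) * (S.den i S.x)⁻¹) ^ 2 *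
      (e6 (S.φ i S.x) / e4 (S.φ i S.x) * (e4 (S.Y S.x) / e6 (S.Y S.x))) *
      (e6 (S.Y S.x) ^ 2 / dlt (S.Y S.x) *
        (e4 (S.Y S.x) ^ 3 / dlt (S.Y S.x))⁻¹)) :=
    (((ad.mul aη.inv).pow 2).mul aw).mul (aj'.mul aj.inv)
  have aR0 : IsAlgebraic D ((aeval S.x (S.dt i) / S.den i S.x) ^ 4 * e4 (S.φ i S.x) *
      e4 (S.Y S.x) ^ 2 / dlt (S.Y S.x)) := by
    rw [F1_r0 z4 z6 g4 g6 hΔ hd hη]
    exact (aq.mul ((aj.pow 2).mul aj'.inv)).mul (aPP.pow 2)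
  fin_cases l
  · exact aR0
  · change IsAlgebraic D ((aeval S.x (S.dt i) / S.den i S.x) ^ 6 * e6 (S.φ i S.x) *
      e6 (S.Y S.x) / dlt (S.Y S.x))
    rw [F1_r1 z4 z6 g4 g6 hΔ hd hη]
    exact aR0.mul aPP
  · change IsAlgebraic D (((aeval S.x (S.dt i) / S.den i S.x) ^ 2 * e2 (S.φ i S.x) -
      aeval S.x (S.dt i) * e2 (S.Y S.x) +
        6 * Complex.I * aeval S.x (S.dt i) * aeval S.x (S.pC i) / (π * S.den i S.x)) *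
      (e4 (S.Y S.x) * e6 (S.Y S.x)) / dlt (S.Y S.x))
    have hpi : (π : ℂ) ≠ 0 := by exact_mod_cast Real.pi_ne_zero
    rw [F1_r2 z4 z6 g4 g6 hΔ hd hη hpi Complex.I_ne_zero Complex.I_sq]
    have e12 : (12 : ℂ) = ((12 : ℚ) : ℂ) := by norm_num
    rw [e12]
    exact aj'.mul (((((ad.mul aη.inv).pow 2).mul (aZp.mul aw)).sub (ad.mul aYp)).sub
      ((F1_Q D _).mul ((ad.mul (aP _)).mul (aη.mul aYW).inv)))

end AK
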