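import Pool.Agent.H32.AK.F1

/-!
# MP_ede373, points algebraic over `ℚ(t)`, row F2: the final count

Adapt the proof of `AO.final_count` (file `Pool/Agent/H32/AO/F2.lean`), case where the base point is one of the points. `J (Y x) = jc (Y x)` (`J_values`). From `hind`: `RW x (i, 0)`, `RW x (i, 1)` are nonzero, so `e4 (φ_i x) ≠ 0`, `e6 (φ_i x) ≠ 0`.
`M'` = matroid of algebraic independence over `ℚ`. `S4 u = ![pt, J pt, J' pt, J'' pt]` for `u : Fin (n + 1) × Fin 4`, `pt = S.ψ u.1 S.x` (`ψ 0 = Y`, `ψ (i+1) = φ i`). `T = range S.x`. `D = Algebra.adjoin ℚ (range S4 ∪ T)`. The whole family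
`F = Sum.elim θ (Sum.elim (WF x) (jc (Y x)))` (size `3 n + M + 2`) is algebraic over `D` (`alg_RW`; `inr s`: `S.x s`; `θ` and `jc (Y x)` are in `range S4`), so `M'.eRk (range S4 ∪ T) ≥ 3 n + M + 2`. `Z` = the points `ψ i x`: `Z ⊆ M'.closure T` (`Y x` by `hya`,
`φ_i x` is a quotient of polynomials in `x, Y x`). `M'.eRk T ≤ M`. Submodularity as in `final_count` (`Z ⊆ closure (range S4) ∩ closure T`): `ρ + (3 n + M + 2) ≤ M'.eRk (range S4) + M`, so `3 n + 2 + ρ = 3 (n + 1) + ρ - 1 ≤ M'.eRk (range S4)` and `extract_indep'`.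
-/

set_option autoImplicit false

open UpperHalfPlane hiding I
open Complex EisensteinSeries ModularForm MatrixGroups Manifold
open scoped Real Topology
open MvPolynomial Filter

namespace AK

open H32 H32.T3 H32.T4 AO

/-- Passing from the field to the ring generated by a set. -/
private theorem F2_adj {T : Set ℂ} {z : ℂ} (h : IsAlgebraic (IntermediateField.adjoin ℚ T) z) :
    IsAlgebraic (Algebra.adjoin ℚ T) z := by
  open scoped IntermediateField.algebraAdjoinAdjoin in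
  exact (IsFractionRing.isAlgebraic_iff (Algebra.adjoin ℚ T) (IntermediateField.adjoin ℚ T) ℂ).2 h

theorem final_MO {E4 E6 J : ℂ → ℂ}
    (h4 : ∀ τ : ℂ, E4 τ = 1 + 240 * ∑' m : ℕ, ((ArithmeticFunction.sigma 3 (m + 1) : ℕ) : ℂ) *
      Complex.exp (2 * (Real.pi : ℂ) * Complex.I * ((m : ℂ) + 1) * τ))
    (h6 : ∀ τ : ℂ, E6 τ = 1 - 504 * ∑' m : ℕ, ((ArithmeticFunction.sigma 5 (m + 1) : ℕ) : ℂ) *
      Complex.exp (2 * (Real.pi : ℂ) * Complex.I * ((m : ℂ) + 1) * τ))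
    (hJ : ∀ τ : ℂ, J τ = 1728 * E4 τ ^ 3 / (E4 τ ^ 3 - E6 τ ^ 2))
    {M n : ℕ} (S : MO M n) (y4 : e4 (S.Y S.x) ≠ 0) (y6 : e6 (S.Y S.x) ≠ 0)
    (hya : IsAlgebraic (IntermediateField.adjoin ℚ (Set.range S.x)) (S.Y S.x)) (θ : ℂ)
    (hθ : θ = deriv J (S.Y S.x) ∨ θ = deriv (deriv J) (S.Y S.x))
    (hind : AlgebraicIndependent ℚ
      (Sum.elim (fun _ : Unit ↦ θ) (Sum.elim (S.WF S.x) (fun _ : Unit ↦ jc (S.Y S.x)))))
    {ρ : ℕ} (g : Fin ρ → Fin (n + 1))
    (hg : AlgebraicIndependent ℚ (fun k ↦ S.ψ (g k) S.x)) :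
    ∃ f : Fin (3 * (n + 1) + ρ - 1) → Fin (n + 1) × Fin 4, AlgebraicIndependent ℚ (fun k ↦
      (![S.ψ (f k).1 S.x, J (S.ψ (f k).1 S.x), deriv J (S.ψ (f k).1 S.x),
        deriv (deriv J) (S.ψ (f k).1 S.x)] : Fin 4 → ℂ) (f k).2) := by
  classical
  set N := AlgebraicIndependent.matroid ℚ ℂ with hN
  set S4 : Fin (n + 1) × Fin 4 → ℂ := fun u ↦
    (![S.ψ u.1 S.x, J (S.ψ u.1 S.x), deriv J (S.ψ u.1 S.x), deriv (deriv J) (S.ψ u.1 S.x)] :
      Fin 4 → ℂ) u.2 with hS4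
  set T : Set ℂ := Set.range S.x with hT
  set D : Subalgebra ℚ ℂ := Algebra.adjoin ℚ (Set.range S4 ∪ T) with hD
  have hgen : ∀ v ∈ Set.range S4 ∪ T, IsAlgebraic D v := by
    intro v hv
    exact isAlgebraic_algebraMap (⟨v, Algebra.subset_adjoin hv⟩ : D)
  have hψ0 : S.ψ 0 = S.Y := rfl
  have hψs : ∀ i : Fin n, S.ψ i.succ = S.φ i := fun i ↦ rfl
  have ayJ : IsAlgebraic D (S.Y S.x) ∧ IsAlgebraic D (J (S.Y S.x)) ∧
      IsAlgebraic D (deriv J (S.Y S.x)) ∧ IsAlgebraic D (deriv (deriv J) (S.Y S.x)) :=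
    ⟨hgen _ (Or.inl ⟨(0, 0), rfl⟩), hgen _ (Or.inl ⟨(0, 1), rfl⟩),
      hgen _ (Or.inl ⟨(0, 2), rfl⟩), hgen _ (Or.inl ⟨(0, 3), rfl⟩)⟩
  have hφ : ∀ i, e4 (S.φ i S.x) ≠ 0 ∧ e6 (S.φ i S.x) ≠ 0 := by
    intro i
    constructor
    · intro h0
      have h1 : S.RW S.x (i, 0) ≠ 0 := hind.ne_zero (Sum.inr (Sum.inl (Sum.inl (i, 0))))
      apply h1
      simp [MO.RW, h0]
    · intro h0
      have h1 : S.RW S.x (i, 1) ≠ 0 := hind.ne_zero (Sum.inr (Sum.inl (Sum.inl (i, 1))))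
      apply h1
      simp [MO.RW, h0]
  have ax : ∀ s, IsAlgebraic D (S.x s) := fun s ↦ hgen _ (Or.inr ⟨s, rfl⟩)
  have aRW : ∀ p, IsAlgebraic D (S.RW S.x p) := by
    rintro ⟨i, l⟩
    exact alg_RW h4 h6 hJ S y4 y6 i (hφ i).1 (hφ i).2 D ax ayJ.1 ayJ.2.1 ayJ.2.2.1 ayJ.2.2.2
      (hgen _ (Or.inl ⟨(i.succ, 1), rfl⟩)) (hgen _ (Or.inl ⟨(i.succ, 2), rfl⟩))
      (hgen _ (Or.inl ⟨(i.succ, 3), rfl⟩)) l
  -- the rank of the numbers
  set F : Unit ⊕ (((Fin n × Fin 3) ⊕ Fin M) ⊕ Unit) → ℂ :=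
    Sum.elim (fun _ : Unit ↦ θ) (Sum.elim (S.WF S.x) (fun _ : Unit ↦ jc (S.Y S.x))) with hF
  have hindM : N.Indep (Set.range F) := by
    rw [hN, AlgebraicIndependent.matroid_indep_iff]
    exact hind.to_subtype_range
  have hcardI : Fintype.card (Unit ⊕ (((Fin n × Fin 3) ⊕ Fin M) ⊕ Unit)) = 3 * n + M + 2 := by
    simp only [Fintype.card_sum, Fintype.card_prod, Fintype.card_fin, Fintype.card_unit]
    ring
  have hcard : (Set.range F).encard = ((3 * n + M + 2 : ℕ) : ℕ∞) := by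
    rw [← Set.image_univ, hind.injective.encard_image, Set.encard_univ,
      ENat.card_eq_coe_fintype_card, hcardI]
  have hsub : Set.range F ⊆ N.closure (Set.range S4 ∪ T) := by
    rw [hN, AlgebraicIndependent.matroid_closure_eq]
    rintro _ ⟨u, rfl⟩
    change IsAlgebraic D (F u)
    rcases u with u | (u | s) | u
    · change IsAlgebraic D θ
      rcases hθ with h | h
      · rw [h]
        exact ayJ.2.2.1
      · rw [h]
        exact ayJ.2.2.2
    · exact aRW u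
    · exact ax s
    · change IsAlgebraic D (jc (S.Y S.x))
      have hjy : jc (S.Y S.x) = J (S.Y S.x) := (J_values h4 h6 hJ S.im0).1.symm
      rw [hjy]
      exact ayJ.2.1
  have h1 : ((3 * n + M + 2 : ℕ) : ℕ∞) ≤ N.eRk (Set.range S4 ∪ T) := by
    rw [← N.eRk_closure_eq, ← hcard]
    exact hindM.encard_le_eRk_of_subset hsub
  -- the rank of the points
  set Z : Set ℂ := Set.range (fun u : Fin (n + 1) ↦ S4 (u, 0)) with hZ
  have hY : N.Indep (Set.range (fun k ↦ S4 (g k, 0))) := by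
    rw [hN, AlgebraicIndependent.matroid_indep_iff]
    exact (show AlgebraicIndependent ℚ (fun k ↦ S4 (g k, 0)) from hg).to_subtype_range
  have hYcard : (Set.range (fun k ↦ S4 (g k, 0))).encard = (ρ : ℕ) := by
    rw [← Set.image_univ, (show AlgebraicIndependent ℚ (fun k ↦ S4 (g k, 0)) from
      hg).injective.encard_image, Set.encard_univ]
    simp
  have h2 : (ρ : ℕ∞) ≤ N.eRk (Set.range S4 ∩ (Z ∪ T)) := by
    rw [← hYcard]
    refine hY.encard_le_eRk_of_subset ?_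
    rintro _ ⟨k, rfl⟩
    exact ⟨⟨(g k, 0), rfl⟩, Or.inl ⟨g k, rfl⟩⟩
  have aP0 : ∀ (D' : Subalgebra ℚ ℂ) (_ : ∀ s, IsAlgebraic D' (S.x s))
      (p : MvPolynomial (Fin M) ℤ), IsAlgebraic D' (MvPolynomial.aeval S.x p) := by
    intro D' hD' p
    induction p using MvPolynomial.induction_on with
    | C c =>
      rw [MvPolynomial.aeval_C]
      have : algebraMap ℤ ℂ c = algebraMap ℚ ℂ (c : ℚ) := by simp
      rw [this]
      exact (isAlgebraic_algebraMap (R := ℚ) (A := ℂ) _).extendScalars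
        (algebraMap ℚ D').injective
    | add p q hp hq =>
      rw [map_add]
      exact hp.add hq
    | mul_X p s hp =>
      rw [map_mul, MvPolynomial.aeval_X]
      exact hp.mul (hD' s)
  have hZT : Z ⊆ N.closure T := by
    rw [hN, AlgebraicIndependent.matroid_closure_eq]
    rintro _ ⟨u, rfl⟩
    set DT : Subalgebra ℚ ℂ := Algebra.adjoin ℚ T with hDT
    have hgT : ∀ v ∈ T, IsAlgebraic DT v := by
      intro v hv
      exact isAlgebraic_algebraMap (⟨v, Algebra.subset_adjoin hv⟩ : DT)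
    have ayT : IsAlgebraic DT (S.Y S.x) := F2_adj hya
    have aPT := aP0 DT (fun s ↦ hgT _ ⟨s, rfl⟩)
    change IsAlgebraic DT (S.ψ u S.x)
    refine Fin.cases ?_ (fun i ↦ ?_) u
    · exact ayT
    · change IsAlgebraic DT (S.φ i S.x)
      rw [MO.φ, mob, div_eq_mul_inv]
      exact (((aPT _).mul ayT).add (aPT _)).mul (((aPT _).mul ayT).add (aPT _)).inv
  have hTr : N.eRk T ≤ ((M : ℕ) : ℕ∞) := by
    calc N.eRk (Set.range S.x) ≤ (Set.range S.x).encard := N.eRk_le_encard _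
      _ ≤ (Set.univ : Set (Fin M)).encard := by
        rw [← Set.image_univ]
        exact Set.encard_image_le _ _
      _ = M := by simp
  have h3 : N.eRk (Z ∪ T) ≤ ((M : ℕ) : ℕ∞) := by
    calc N.eRk (Z ∪ T) ≤ N.eRk (N.closure T) := by
          refine N.eRk_mono (Set.union_subset hZT ?_)
          refine N.subset_closure _ ?_
          rw [hN]
          exact Set.subset_univ _
      _ = N.eRk T := N.eRk_closure_eq _
      _ ≤ _ := hTr
  have h5 := N.eRk_submod (Set.range S4) (Z ∪ T)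
  have h7 : N.eRk (Set.range S4 ∪ T) ≤ N.eRk (Set.range S4 ∪ (Z ∪ T)) :=
    N.eRk_mono (Set.union_subset_union_right _ Set.subset_union_right)
  have h8 : (ρ : ℕ∞) + ((3 * n + M + 2 : ℕ) : ℕ∞) ≤
      N.eRk (Set.range S4) + ((M : ℕ) : ℕ∞) :=
    (add_le_add h2 (h1.trans h7)).trans (h5.trans (add_le_add le_rfl h3))
  obtain ⟨B', hB'⟩ := N.exists_isBasis (Set.range S4) (by rw [hN]; exact Set.subset_univ _)
  have hBsub : B' ⊆ Set.range S4 := hB'.subset
  have hBfin : B'.Finite := (Set.finite_range S4).subset hBsub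
  rw [← hB'.encard_eq_eRk] at h8
  refine extract_indep' S4 (B := B') ?_ hBsub ?_
  · have := hB'.indep
    rw [hN, AlgebraicIndependent.matroid_indep_iff] at this
    exact this
  · rw [hBfin.encard_eq_coe_toFinset_card] at h8 ⊢
    have h9 : ρ + (3 * n + M + 2) ≤ hBfin.toFinset.card + M := by
      exact_mod_cast h8
    have h10 : 3 * (n + 1) + ρ - 1 ≤ hBfin.toFinset.card := by omega
    exact_mod_cast h10

end AK
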