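import Pool.Agent.H32.AK.C7b

/-!
# MP_ede373, points algebraic over `ℚ(t)`, row M1: the transcendence measure for an algebraic point

`algB_of`: an integral polynomial `F ≠ 0` with root `w` (`IsAlgebraic ℚ w` to `IsAlgebraic ℤ w`: `IsFractionRing.isAlgebraic_iff ℤ ℚ ℂ`), `d = natDegree F`, `X0` a natural number `≥ nr F`, `1 ≤ X0`; then for `q ≥ X0`: `nr F ≤ q = q^1`.

`meas_alg`: `d, X0` from `algB_of`, `κ1` from `meas_w τ hcm d 1`, for `κ = 1`: `κ', Q0`. Take `q = Λ` (`Λ ≥ max Q0 X0`), `w = τ`: `‖τ - τ‖ = 0 ≤ exp (..)`, `Λ ≤ q^1`. So `Meas (jf τ)` holds with `κ1` and `Λ0 = max Q0 X0`.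
-/

set_option autoImplicit false

open UpperHalfPlane hiding I
open Complex EisensteinSeries ModularForm MatrixGroups Manifold
open scoped Real Topology
open Filter

namespace AK

open H32 H32.T3 AO

theorem algB_of {w : ℂ} (h : IsAlgebraic ℚ w) :
    ∃ d X0 : ℕ, 1 ≤ X0 ∧ ∀ q : ℕ, X0 ≤ q → AlgB d ((q : ℝ) ^ 1) w := by
  obtain ⟨F, hF0, hF⟩ := (IsFractionRing.isAlgebraic_iff ℤ ℚ ℂ).mpr h
  obtain ⟨X, hX⟩ := exists_nat_ge (CZ.nr F)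
  refine ⟨F.natDegree, max 1 X, le_max_left _ _, fun q hq => ⟨F, hF0, le_rfl, ?_, hF⟩⟩
  rw [pow_one]
  exact hX.trans (Nat.cast_le.2 ((le_max_right _ _).trans hq))

theorem meas_alg (τ : ℍ) (halg : IsAlgebraic ℚ (τ : ℂ)) (hcm : NCM (τ : ℂ)) : Meas (jf τ) := by
  obtain ⟨d, X0, _, hX⟩ := algB_of halg
  obtain ⟨κ1, h1⟩ := meas_w τ hcm d 1
  obtain ⟨κ', Q0, h2⟩ := h1 1
  refine ⟨κ1, max Q0 X0, fun f Λ hf hΛ hdeg hnr => ?_⟩
  refine h2 Λ (τ : ℂ) ((le_max_left _ _).trans hΛ) hcm (hX Λ ((le_max_right _ _).trans hΛ)) ?_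
    f Λ hf le_rfl (by rw [pow_one]) hdeg hnr
  rw [sub_self, norm_zero]
  exact (Real.exp_pos _).le

end AK
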