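import Pool.Agent.H32.AK.B3
import Pool.Agent.H32.AK.C4
import Pool.Agent.H32.AK.M1

/-!
# MP_ede373, points algebraic over `ℚ(t)`, row M2: an algebraic point has no approximations of exponent `κ0 < 2`

`d, X0` from `algB_of`, `C` from `win_of_near z d 1`, `κ0, A, Q1` from `na2 z hz P C0 hC0 hD C hC`. `A' = A + 1`. `win_of_near` for `κ = A' + 1` gives `Q2` with `Win z C q (q^(A'+1))` for `q ≥ Q2` (`w = z`, distance `0`). Suppose `Appr P κ0`. Put `Q = max (max Q1 Q2) (max X0 (2^A'))`, `U0 = (Q + 1)^A'`: there are `t, V` with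
`1 ≤ t`, `U0 ≤ V`, `t^κ0 ≤ V`, `ApprAt P t V`. Let `q = ⌊V^(1/A')⌋₊` (`Real.rpow`): `q ≤ V^(1/A') < q + 1`, so `q^A' ≤ V < (q+1)^A'`, and `q ≥ Q` since `(Q+1)^A' ≤ V` (or take the greatest `q` with `q^A' ≤ V`: `Nat.findGreatest` or `Nat.find` of the first `q` with `V < (q+1)^A'`). Then `q^A ≤ q^A' ≤ V` and
`V ≤ (q+1)^A' ≤ (2 q)^A' = 2^A' q^A' ≤ q^(A'+1)`. `na2` for `q`, `L0 = q^(A'+1)`: `¬ ApprAt P t V`. Contradiction.
-/

set_option autoImplicit false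

open UpperHalfPlane hiding I
open scoped Real Topology
open Filter

namespace AK

open CZ U2

theorem nap_alg (z : ℂ) (hz : 0 < z.im) (halg : IsAlgebraic ℚ z) (hcm : NCM z) {k : ℕ}
    (P : Fin k → ℂ) (C0 : ℕ) (hC0 : 1 ≤ C0)
    (hD : ∀ N K Q : ℕ, 1 ≤ N → COV z N K →
      C0 * N * ((K : ℝ) + N) ^ 2 * Real.log (((K : ℝ) + N) * N + 2) ≤ Q → Dat P C0 N Q) :
    ∃ κ0 : ℝ, 1 ≤ κ0 ∧ κ0 < 2 ∧ ¬ Appr P κ0 := by
  obtain ⟨d, X0, hX0, hB⟩ := algB_of halg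
  obtain ⟨C, hC, hW⟩ := win_of_near z d 1
  obtain ⟨κ0, A, Q1, hκ1, hκ2, hna⟩ := na2 z hz P C0 hC0 hD C hC
  obtain ⟨Q2, hQ2⟩ := hW (A + 2)
  refine ⟨κ0, hκ1, hκ2, ?_⟩
  intro hA
  obtain ⟨Q, hQ⟩ : ∃ Q : ℕ, Q = max (max Q1 Q2) (max X0 (2 ^ (A + 1))) := ⟨_, rfl⟩
  have hQQ1 : Q1 ≤ Q := by rw [hQ]; exact (le_max_left _ _).trans (le_max_left _ _)
  have hQQ2 : Q2 ≤ Q := by rw [hQ]; exact (le_max_right _ _).trans (le_max_left _ _)
  have hQX0 : X0 ≤ Q := by rw [hQ]; exact (le_max_left _ _).trans (le_max_right _ _)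
  have hQA : 2 ^ (A + 1) ≤ Q := by rw [hQ]; exact (le_max_right _ _).trans (le_max_right _ _)
  obtain ⟨t, V, ht, hU, htV, hap⟩ := hA (((Q : ℝ) + 1) ^ (A + 1))
  have hV0 : 0 ≤ V := le_trans (by positivity) hU
  have hex : ∃ n : ℕ, V < ((n : ℝ) + 1) ^ (A + 1) := by
    obtain ⟨n, hn⟩ := exists_nat_gt V
    refine ⟨n, hn.trans_le ?_⟩
    have h1 : (1 : ℝ) ≤ (n : ℝ) + 1 := by
      have : (0 : ℝ) ≤ n := Nat.cast_nonneg n
      linarith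
    calc (n : ℝ) ≤ (n : ℝ) + 1 := by linarith
      _ = ((n : ℝ) + 1) ^ 1 := (pow_one _).symm
      _ ≤ ((n : ℝ) + 1) ^ (A + 1) := pow_le_pow_right₀ h1 (by omega)
  obtain ⟨q, hq1, hq2⟩ : ∃ q : ℕ, V < ((q : ℝ) + 1) ^ (A + 1) ∧ (q : ℝ) ^ (A + 1) ≤ V := by
    classical
    refine ⟨Nat.find hex, Nat.find_spec hex, ?_⟩
    by_cases h0 : Nat.find hex = 0
    · rw [h0, Nat.cast_zero, zero_pow (by omega)]
      exact hV0
    · have h1 := Nat.find_min hex (m := Nat.find hex - 1) (by omega)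
      rw [not_lt] at h1
      have h2 : (((Nat.find hex - 1 : ℕ) : ℝ) + 1) = (Nat.find hex : ℝ) := by
        rw [Nat.cast_sub (by omega)]
        push_cast
        ring
      rwa [h2] at h1
  have hQq : Q ≤ q := by
    by_contra hlt
    rw [not_le] at hlt
    have h1 : (q : ℝ) + 1 ≤ (Q : ℝ) + 1 := by
      have : (q : ℝ) ≤ Q := by exact_mod_cast hlt.le
      linarith
    have h2 : ((q : ℝ) + 1) ^ (A + 1) ≤ ((Q : ℝ) + 1) ^ (A + 1) :=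
      pow_le_pow_left₀ (by positivity) h1 _
    linarith
  have h2q : 2 ^ (A + 1) ≤ q := hQA.trans hQq
  have hq1' : 1 ≤ q := le_trans (Nat.one_le_two_pow) h2q
  have hqR : (1 : ℝ) ≤ q := by exact_mod_cast hq1'
  have h2qR : (2 : ℝ) ^ (A + 1) ≤ q := by exact_mod_cast h2q
  refine hna q ((q : ℝ) ^ (A + 2)) (hQQ1.trans hQq)
    (hQ2 q z (hQQ2.trans hQq) hcm (hB q (hQX0.trans hQq)) ?_) t V ht ?_ ?_ htV hap
  · rw [sub_self, norm_zero]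
    positivity
  · exact (pow_le_pow_right₀ hqR (by omega)).trans hq2
  · calc V ≤ ((q : ℝ) + 1) ^ (A + 1) := hq1.le
      _ ≤ (2 * (q : ℝ)) ^ (A + 1) := pow_le_pow_left₀ (by positivity) (by linarith) _
      _ = 2 ^ (A + 1) * (q : ℝ) ^ (A + 1) := mul_pow _ _ _
      _ ≤ (q : ℝ) * (q : ℝ) ^ (A + 1) := mul_le_mul_of_nonneg_right h2qR (by positivity)
      _ = (q : ℝ) ^ (A + 2) := by ring

end AK
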