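import Pool.Agent.H32.AK.M2
import Pool.Agent.H22.U2.Dta
import Pool.Agent.H32.AO.F3

/-!
# MP_ede373, points algebraic over `ℚ(t)`, row M3: the hypotheses of `AO.main_AO`

`AK.NCM` and `AO.NCM` are the same proposition (definitional). `meas_alg`; `AZ.E_ne (τ : ℂ) hcm τ rfl` (file `Pool/Agent/H32/AZ/Al.lean`); `U2.dat_u2 (τ : ℂ) τ.im_pos hcm E4 E6 J h4 h6 hJ` gives `P : Fin 7 → ℂ`, `C`, and `nap_alg` gives `κ0`. It remains to see that `P i`, algebraic over `ℚ(z, J z, J' z, J'' z)`, is algebraic over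
`F = ℚ({J z, J' z, J'' z})`, as `z` is algebraic over `ℚ`: every generator `z, J z, ..` is algebraic over `F`, so every element of `ℚ(z, J z, ..)` is algebraic over `F` (`IntermediateField.adjoin_induction`, `IsAlgebraic.add, mul, inv`; or `IntermediateField.algebraicClosure`-type argument: `IntermediateField.adjoin ℚ (range ..) ≤
(algebraicClosure F ℂ).restrictScalars ℚ`), and then `P i` is algebraic over `F` (compare `U2.alg_tower` in `Pool/Agent/H22/U2/Bs.lean` and `AZ` lemmas of this kind).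
-/

set_option autoImplicit false

open UpperHalfPlane hiding I
open Complex EisensteinSeries ModularForm MatrixGroups Manifold
open scoped Real Topology
open Filter

namespace AK

open H32 H32.T3 AO

private theorem M3_clo (X : Set ℂ) (x : ℂ) : x ∈ (AlgebraicIndependent.matroid ℚ ℂ).closure X ↔
    IsAlgebraic (IntermediateField.adjoin ℚ X) x := by
  rw [AlgebraicIndependent.matroid_closure_eq, SetLike.mem_coe, Subalgebra.mem_algebraicClosure,
    ← IntermediateField.isAlgebraic_adjoin_iff]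

private theorem M3_drop {z a b c : ℂ} (hz : IsAlgebraic ℚ z) {w : ℂ}
    (hw : IsAlgebraic (IntermediateField.adjoin ℚ (Set.range (![z, a, b, c] : Fin 4 → ℂ))) w) :
    IsAlgebraic (IntermediateField.adjoin ℚ ({a, b, c} : Set ℂ)) w := by
  have hr : Set.range (![z, a, b, c] : Fin 4 → ℂ) = insert z {a, b, c} := by
    ext x
    simp only [Matrix.range_cons, Matrix.range_empty, Set.union_empty, Set.mem_union,
      Set.mem_singleton_iff, Set.mem_insert_iff]
  rw [hr, ← M3_clo] at hw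
  have hz' : z ∈ (AlgebraicIndependent.matroid ℚ ℂ).closure ({a, b, c} : Set ℂ) := by
    rw [M3_clo]
    exact hz.extendScalars (algebraMap ℚ (IntermediateField.adjoin ℚ ({a, b, c} : Set ℂ))).injective
  rw [Matroid.closure_insert_eq_of_mem_closure hz', M3_clo] at hw
  exact hw

theorem hG2 {E4 E6 J : ℂ → ℂ}
    (h4 : ∀ τ : ℂ, E4 τ = 1 + 240 * ∑' m : ℕ, ((ArithmeticFunction.sigma 3 (m + 1) : ℕ) : ℂ) *
      Complex.exp (2 * (Real.pi : ℂ) * Complex.I * ((m : ℂ) + 1) * τ))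
    (h6 : ∀ τ : ℂ, E6 τ = 1 - 504 * ∑' m : ℕ, ((ArithmeticFunction.sigma 5 (m + 1) : ℕ) : ℂ) *
      Complex.exp (2 * (Real.pi : ℂ) * Complex.I * ((m : ℂ) + 1) * τ))
    (hJ : ∀ τ : ℂ, J τ = 1728 * E4 τ ^ 3 / (E4 τ ^ 3 - E6 τ ^ 2)) (τ : ℍ)
    (halg : IsAlgebraic ℚ (τ : ℂ)) (hcm : AO.NCM (τ : ℂ)) :
    Meas (jf τ) ∧ E₄ τ ≠ 0 ∧ E₆ τ ≠ 0 ∧ NAp J τ := by
  obtain ⟨e4, e6⟩ := AZ.E_ne (τ : ℂ) hcm τ rfl
  refine ⟨meas_alg τ halg hcm, e4, e6, ?_⟩
  obtain ⟨P, C, hC, hP, hD⟩ := U2.dat_u2 (τ : ℂ) τ.im_pos hcm E4 E6 J h4 h6 hJ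
  obtain ⟨κ0, h1, h2, h3⟩ := nap_alg (τ : ℂ) τ.im_pos halg hcm P C hC hD
  exact ⟨7, P, κ0, h1, h2, h3, fun i => M3_drop halg (hP i)⟩

end AK
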