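import Pool.Agent.H32.AO.Ob
import Pool.Agent.H32.AK.D0

/-!
# MP_ede373, points algebraic over `ℚ(t)`: orbits with a moving base point

`MO M n`: parameters `x ∈ ℂ^M`, matrices `(pA i, pB i; pC i, pD i)` of integer polynomials in the parameters, and an analytic germ
`Y` at `x` (the base point). `φ i s` is the translate of `Y s`. `ψ 0 = Y`, `ψ (i+1) = φ i`. `RW`, `WF`: as in `AO/C0`, with `Y s` in place of the
fixed base point. `Good A q r`: all coordinates of `r` and `Y r` are algebraic of degree `≤ A` and height `≤ q^A`, and the values of the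
matrices at `r`, multiplied by `q^A`, are integral, of size `≤ q^(A+1)`, with positive determinant. `Seq A`: good approximations of
`x` of every order, with `Y r` not CM, along which the functions are algebraically independent over `ℂ`.
-/

set_option autoImplicit false

open UpperHalfPlane hiding I
open Complex EisensteinSeries ModularForm MatrixGroups Manifold
open scoped Real Topology
open MvPolynomial Filter

namespace AK

open H32 H32.T3 H32.T4 AO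

/-- The discriminant as a function on `ℂ`. -/
noncomputable def dlt (w : ℂ) : ℂ := (e4 w ^ 3 - e6 w ^ 2) / 1728

lemma dlt_coe (τ : ℍ) : dlt τ = discriminant τ := by
  rw [dlt, e4, e6, ofComplex_apply, discriminant_eq_E₄_cube_sub_E₆_sq]

lemma dlt_ne {w : ℂ} (hw : 0 < w.im) : dlt w ≠ 0 := by
  have h := dlt_coe ⟨w, hw⟩
  have h2 : dlt w = discriminant ⟨w, hw⟩ := h
  rw [h2]
  exact discriminant_ne_zero _

/-- The data. -/
structure MO (M n : ℕ) where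
  /-- constructor -/
  of ::
  /-- the parameters -/
  x : Fin M → ℂ
  /-- entries -/
  pA : Fin n → MvPolynomial (Fin M) ℤ
  /-- entries -/
  pB : Fin n → MvPolynomial (Fin M) ℤ
  /-- entries -/
  pC : Fin n → MvPolynomial (Fin M) ℤ
  /-- entries -/
  pD : Fin n → MvPolynomial (Fin M) ℤ
  /-- the base point -/
  Y : (Fin M → ℂ) → ℂ
  an : AnalyticAt ℂ Y x
  im0 : 0 < (Y x).im
  dn : ∀ i, aeval x (pC i) * Y x + aeval x (pD i) ≠ 0
  dt0 : ∀ i, aeval x (pA i * pD i - pB i * pC i) ≠ 0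
  imφ : ∀ i, 0 < (mob (aeval x (pA i)) (aeval x (pB i)) (aeval x (pC i)) (aeval x (pD i)) (Y x)).im

namespace MO

variable {M n : ℕ} (S : MO M n)

/-- The translates. -/
noncomputable def φ (i : Fin n) (s : Fin M → ℂ) : ℂ :=
  mob (aeval s (S.pA i)) (aeval s (S.pB i)) (aeval s (S.pC i)) (aeval s (S.pD i)) (S.Y s)

/-- The denominators. -/
noncomputable def den (i : Fin n) (s : Fin M → ℂ) : ℂ :=
  aeval s (S.pC i) * S.Y s + aeval s (S.pD i)

/-- The determinants. -/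
noncomputable def dt (i : Fin n) : MvPolynomial (Fin M) ℤ := S.pA i * S.pD i - S.pB i * S.pC i

/-- All points. -/
noncomputable def ψ : Fin (n + 1) → (Fin M → ℂ) → ℂ := Fin.cons S.Y S.φ

/-- The three numbers attached to each translate. -/
noncomputable def RW (s : Fin M → ℂ) (p : Fin n × Fin 3) : ℂ :=
  (![(aeval s (S.dt p.1) / S.den p.1 s) ^ 4 * e4 (S.φ p.1 s) * e4 (S.Y s) ^ 2 / dlt (S.Y s),
    (aeval s (S.dt p.1) / S.den p.1 s) ^ 6 * e6 (S.φ p.1 s) * e6 (S.Y s) / dlt (S.Y s),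
    ((aeval s (S.dt p.1) / S.den p.1 s) ^ 2 * e2 (S.φ p.1 s) - aeval s (S.dt p.1) * e2 (S.Y s) +
        6 * Complex.I * aeval s (S.dt p.1) * aeval s (S.pC p.1) / (π * S.den p.1 s)) *
      (e4 (S.Y s) * e6 (S.Y s)) / dlt (S.Y s)] : Fin 3 → ℂ) p.2

/-- The family with the parameters. -/
noncomputable def WF (s : Fin M → ℂ) : (Fin n × Fin 3) ⊕ Fin M → ℂ := Sum.elim (S.RW s) s

/-- Good parameters. -/
def Good (A q : ℕ) (r : Fin M → ℂ) : Prop :=
  0 < (S.Y r).im ∧ (∀ s, AlgB A ((q : ℝ) ^ A) (r s)) ∧ AlgB A ((q : ℝ) ^ A) (S.Y r) ∧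
  ∀ i, ∃ a b c d : ℤ, 0 < a * d - b * c ∧
    (|(a : ℝ)| ≤ (q : ℝ) ^ (A + 1) ∧ |(b : ℝ)| ≤ (q : ℝ) ^ (A + 1) ∧
      |(c : ℝ)| ≤ (q : ℝ) ^ (A + 1) ∧ |(d : ℝ)| ≤ (q : ℝ) ^ (A + 1)) ∧
    (a : ℂ) = (q : ℂ) ^ A * aeval r (S.pA i) ∧ (b : ℂ) = (q : ℂ) ^ A * aeval r (S.pB i) ∧
    (c : ℂ) = (q : ℂ) ^ A * aeval r (S.pC i) ∧ (d : ℂ) = (q : ℂ) ^ A * aeval r (S.pD i)

/-- Good approximations of every order. -/
def Seq (A : ℕ) : Prop :=
  ∀ κ : ℕ, ∃ (q : ℕ → ℕ) (r : ℕ → Fin M → ℂ), (∀ k, k + 2 ≤ q k) ∧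
    (∀ k, S.Good A (q k) (r k) ∧ NCM (S.Y (r k))) ∧
    (∀ k, ‖r k - S.x‖ ≤ Real.exp (-(q k : ℝ) ^ κ)) ∧ Tendsto r atTop (𝓝 S.x) ∧
    IsAlgebraic (Algebra.adjoin ℂ (Set.range fun s : Fin M ↦ mkU (fun k ↦ r k s)))
      (mkU (fun k ↦ S.Y (r k))) ∧
    AlgebraicIndependent ℂ (Sum.elim
      (fun p : Fin (n + 1) × Fin 3 ↦ mkU (fun k ↦ ee (S.ψ p.1 (r k)) p.2))
      (fun s : Fin M ↦ mkU (fun k ↦ r k s)))

lemma den_x (i : Fin n) : S.den i S.x ≠ 0 := S.dn i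

lemma dt_x (i : Fin n) : aeval S.x (S.dt i) ≠ 0 := S.dt0 i

lemma im_φ (i : Fin n) : 0 < (S.φ i S.x).im := S.imφ i

lemma im_ψ (i : Fin (n + 1)) : 0 < (S.ψ i S.x).im := by
  refine Fin.cases ?_ (fun i ↦ ?_) i
  · exact S.im0
  · exact S.im_φ i

lemma an_den (i : Fin n) : AnalyticAt ℂ (S.den i) S.x :=
  ((an_aeval _ _).fun_mul S.an).fun_add (an_aeval _ _)

lemma an_φ (i : Fin n) : AnalyticAt ℂ (S.φ i) S.x :=
  AnalyticAt.fun_div (((an_aeval _ _).fun_mul S.an).fun_add (an_aeval _ _))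
    (S.an_den i) (S.den_x i)

lemma an_ψ (i : Fin (n + 1)) : AnalyticAt ℂ (S.ψ i) S.x := by
  refine Fin.cases ?_ (fun i ↦ ?_) i
  · exact S.an
  · exact S.an_φ i

end MO

end AK
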