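import Pool.Agent.H32.AK.D7
import Pool.Agent.H32.AK.F2
import Pool.Agent.H22.U2.Dta
import Pool.Agent.H32.AZ.Al

/-!
# MP_ede373, points algebraic over `ℚ(t)`: the tuple from a sequence of non CM points
-/

set_option autoImplicit false

open UpperHalfPlane hiding I
open Complex EisensteinSeries ModularForm MatrixGroups Manifold
open scoped Real Topology
open MvPolynomial Filter

namespace AK

open H32 H32.T3 H32.T4 AO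

theorem core_ncm {E4 E6 J : ℂ → ℂ}
    (h4 : ∀ τ : ℂ, E4 τ = 1 + 240 * ∑' m : ℕ, ((ArithmeticFunction.sigma 3 (m + 1) : ℕ) : ℂ) *
      Complex.exp (2 * (Real.pi : ℂ) * Complex.I * ((m : ℂ) + 1) * τ))
    (h6 : ∀ τ : ℂ, E6 τ = 1 - 504 * ∑' m : ℕ, ((ArithmeticFunction.sigma 5 (m + 1) : ℕ) : ℂ) *
      Complex.exp (2 * (Real.pi : ℂ) * Complex.I * ((m : ℂ) + 1) * τ))
    (hJ : ∀ τ : ℂ, J τ = 1728 * E4 τ ^ 3 / (E4 τ ^ 3 - E6 τ ^ 2))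
    {M n : ℕ} (S : MO M n) {A : ℕ} (hS : S.Seq A) (hcm : NCM (S.Y S.x))
    (hya : IsAlgebraic (IntermediateField.adjoin ℚ (Set.range S.x)) (S.Y S.x))
    {ρ : ℕ} (g : Fin ρ → Fin (n + 1))
    (hg : AlgebraicIndependent ℚ (fun k ↦ S.ψ (g k) S.x)) :
    ∃ f : Fin (3 * (n + 1) + ρ - 1) → Fin (n + 1) × Fin 4, AlgebraicIndependent ℚ (fun k ↦
      (![S.ψ (f k).1 S.x, J (S.ψ (f k).1 S.x), deriv J (S.ψ (f k).1 S.x),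
        deriv (deriv J) (S.ψ (f k).1 S.x)] : Fin 4 → ℂ) (f k).2) := by
  obtain ⟨n4, n6⟩ := AZ.E_ne (S.Y S.x) hcm ⟨S.Y S.x, S.im0⟩ rfl
  have y4 : e4 (S.Y S.x) ≠ 0 := by
    have h : e4 (((⟨S.Y S.x, S.im0⟩ : ℍ)) : ℂ) = E₄ ⟨S.Y S.x, S.im0⟩ := by
      rw [e4, ofComplex_apply]
    change e4 (((⟨S.Y S.x, S.im0⟩ : ℍ)) : ℂ) ≠ 0
    rw [h]
    exact n4
  have y6 : e6 (S.Y S.x) ≠ 0 := by
    have h : e6 (((⟨S.Y S.x, S.im0⟩ : ℍ)) : ℂ) = E₆ ⟨S.Y S.x, S.im0⟩ := by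
      rw [e6, ofComplex_apply]
    change e6 (((⟨S.Y S.x, S.im0⟩ : ℍ)) : ℂ) ≠ 0
    rw [h]
    exact n6
  have hJy : J (S.Y S.x) = jc (S.Y S.x) := (J_values h4 h6 hJ S.im0).1
  obtain ⟨P, C, hC, hP, hD⟩ := U2.dat_u2 (S.Y S.x) S.im0 hcm E4 E6 J h4 h6 hJ
  obtain ⟨θ, hθ, hind⟩ := indep2_MO S hS hcm hya P C hC hD (deriv J (S.Y S.x))
    (deriv (deriv J) (S.Y S.x)) (fun i ↦ by rw [← hJy]; exact hP i)
  exact final_MO h4 h6 hJ S y4 y6 hya θ hθ hind g hg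

end AK
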