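import Pool.Agent.H32.AK.X1
import Pool.Agent.H32.AK.A7
import Pool.Agent.H32.AK.A8
import Pool.Agent.H32.AK.E2
import Pool.Agent.H32.AK.E3

/-!
# MP_ede373, points algebraic over `ℚ(t)`: tuples of transcendental points
-/

set_option autoImplicit false

open UpperHalfPlane hiding I
open Complex EisensteinSeries ModularForm MatrixGroups Manifold
open scoped Real Topology
open MvPolynomial Filter

namespace AK

open H32 H32.T3 H32.T4 AO

lemma ncm_of_tr {w : ℂ} (h : Transcendental ℚ w) : NCM w := by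
  rintro ⟨a, b, c, hne, he⟩
  apply h
  have halg : IsAlgebraic ℤ w := by
    refine ⟨Polynomial.C a * Polynomial.X ^ 2 + Polynomial.C b * Polynomial.X + Polynomial.C c,
      ?_, ?_⟩
    · intro h0
      have e0 := congrArg (fun p ↦ Polynomial.coeff p 0) h0
      have e1 := congrArg (fun p ↦ Polynomial.coeff p 1) h0
      have e2 := congrArg (fun p ↦ Polynomial.coeff p 2) h0
      simp only [Polynomial.coeff_add, Polynomial.coeff_C_mul, Polynomial.coeff_X_pow,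
        Polynomial.coeff_X, Polynomial.coeff_C, Polynomial.coeff_zero] at e0 e1 e2
      norm_num at e0 e1 e2
      rcases hne with h | h | h
      · exact h e2
      · exact h e1
      · exact h e0
    · simp only [map_add, map_mul, Polynomial.aeval_C, Polynomial.aeval_X, map_pow]
      simpa using he
  exact (IsFractionRing.isAlgebraic_iff ℤ ℚ ℂ).mp halg

/-- The tuple `y, z 0, ..., z (n-1)`, all transcendental. -/
theorem core_tr {E4 E6 J : ℂ → ℂ}
    (h4 : ∀ τ : ℂ, E4 τ = 1 + 240 * ∑' m : ℕ, ((ArithmeticFunction.sigma 3 (m + 1) : ℕ) : ℂ) *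
      Complex.exp (2 * (Real.pi : ℂ) * Complex.I * ((m : ℂ) + 1) * τ))
    (h6 : ∀ τ : ℂ, E6 τ = 1 - 504 * ∑' m : ℕ, ((ArithmeticFunction.sigma 5 (m + 1) : ℕ) : ℂ) *
      Complex.exp (2 * (Real.pi : ℂ) * Complex.I * ((m : ℂ) + 1) * τ))
    (hJ : ∀ τ : ℂ, J τ = 1728 * E4 τ ^ 3 / (E4 τ ^ 3 - E6 τ ^ 2))
    {m n : ℕ} (t : Fin m → ℝ) (ht : AO.SHier t)
    (y : ℂ) (hy : 0 < y.im)
    (hya : IsAlgebraic (IntermediateField.adjoin ℚ (Set.range fun s ↦ (t s : ℂ))) y)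
    (z : Fin n → ℂ)
    (hz : ∀ i, ∃ A ∈ IntermediateField.adjoin ℚ (Set.range t),
      ∃ B ∈ IntermediateField.adjoin ℚ (Set.range t),
      ∃ C ∈ IntermediateField.adjoin ℚ (Set.range t),
      ∃ D ∈ IntermediateField.adjoin ℚ (Set.range t), 0 < A * D - B * C ∧
        z i = ((A : ℂ) * y + (B : ℂ)) / ((C : ℂ) * y + (D : ℂ)))
    (htr : ∀ i : Fin (n + 1), Transcendental ℚ ((Fin.cons y z : Fin (n + 1) → ℂ) i))
    (hrel : ∀ i k : Fin (n + 1), i ≠ k → ¬ ∃ a b c d : ℚ, 0 < a * d - b * c ∧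
      (Fin.cons y z : Fin (n + 1) → ℂ) k = ((a : ℂ) * (Fin.cons y z : Fin (n + 1) → ℂ) i + b) /
        ((c : ℂ) * (Fin.cons y z : Fin (n + 1) → ℂ) i + d))
    {ρ : ℕ} (g : Fin ρ → Fin (n + 1))
    (hg : AlgebraicIndependent ℚ (fun k ↦ (Fin.cons y z : Fin (n + 1) → ℂ) (g k))) :
    ∃ f : Fin (3 * (n + 1) + ρ - 1) → Fin (n + 1) × Fin 4, AlgebraicIndependent ℚ (fun k ↦
      (![(Fin.cons y z : Fin (n + 1) → ℂ) (f k).1, J ((Fin.cons y z : Fin (n + 1) → ℂ) (f k).1),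
        deriv J ((Fin.cons y z : Fin (n + 1) → ℂ) (f k).1),
        deriv (deriv J) ((Fin.cons y z : Fin (n + 1) → ℂ) (f k).1)] : Fin 4 → ℂ) (f k).2) := by
  obtain ⟨S, d, G, hx, hY, hφ, hdet, hd, hG⟩ := exists_MO t y hy hya z hz
  have hψ : (fun i ↦ S.ψ i S.x) = (Fin.cons y z : Fin (n + 1) → ℂ) := by
    funext i
    refine Fin.cases ?_ (fun i ↦ ?_) i
    · exact hY
    · exact hφ i
  have hψ' : ∀ i, S.ψ i S.x = (Fin.cons y z : Fin (n + 1) → ℂ) i := fun i ↦ congrFun hψ i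
  have hya' : IsAlgebraic (IntermediateField.adjoin ℚ (Set.range S.x)) (S.Y S.x) := by
    rw [hY, hx]
    exact hya
  have htr' : ∀ i, Transcendental ℚ (S.ψ i S.x) := fun i ↦ by rw [hψ']; exact htr i
  have hrel' : ∀ i j, i ≠ j → ¬ ∃ a b c d : ℚ, 0 < a * d - b * c ∧
      S.ψ j S.x = ((a : ℂ) * S.ψ i S.x + b) / ((c : ℂ) * S.ψ i S.x + d) := by
    intro i j hij
    rw [hψ', hψ']
    exact hrel i j hij
  have hg' : AlgebraicIndependent ℚ (fun k ↦ S.ψ (g k) S.x) := by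
    simp only [hψ']
    exact hg
  have key : ∃ f : Fin (3 * (n + 1) + ρ - 1) → Fin (n + 1) × Fin 4,
      AlgebraicIndependent ℚ (fun k ↦
      (![S.ψ (f k).1 S.x, J (S.ψ (f k).1 S.x), deriv J (S.ψ (f k).1 S.x),
        deriv (deriv J) (S.ψ (f k).1 S.x)] : Fin 4 → ℂ) (f k).2) := by
    rcases dich ht (fun q p ↦ NCM (S.Y (fun s ↦ (p s : ℂ) / q))) with hP | hP
    · obtain ⟨A, hS⟩ := seq_MO S t hx hdet d G hd hG htr' hrel' hP
      exact core_ncm h4 h6 hJ S hS (ncm_of_tr (htr' 0)) hya' g hg'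
    · obtain ⟨hGd, hf⟩ := V_MO S t hx hdet d G hd hG htr' hrel' hP
      obtain ⟨f, hf'⟩ := final_cm h4 h6 hJ S t hx hya' hGd hf g hg'
      have hle : 3 * (n + 1) + ρ - 1 ≤ 3 * (n + 1) + ρ := by omega
      exact ⟨f ∘ Fin.castLE hle, hf'.comp _ (Fin.castLE_injective hle)⟩
  simp only [hψ'] at key
  exact key

end AK
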