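import Pool.Agent.H32.AK.X2
import Pool.Agent.H32.AK.M3
import Pool.Agent.H32.AO.F6

/-!
# MP_ede373, points algebraic over `ℚ(t)`: the main theorem
-/

set_option autoImplicit false

open UpperHalfPlane hiding I
open Complex EisensteinSeries ModularForm MatrixGroups Manifold
open scoped Real Topology
open Filter

namespace AK

open H32 H32.T3 H32.T4 AO

/-- Change of the base point. -/
lemma mob_change {a b c d A B C D : ℝ} {y : ℂ} (hy : 0 < y.im)
    (h : 0 < a * d - b * c) (hA : 0 < A * D - B * C) :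
    ((A : ℂ) * y + (B : ℂ)) / ((C : ℂ) * y + (D : ℂ)) =
      (((A * d - B * c : ℝ) : ℂ) * (((a : ℂ) * y + b) / ((c : ℂ) * y + d)) +
        ((B * a - A * b : ℝ) : ℂ)) /
      (((C * d - D * c : ℝ) : ℂ) * (((a : ℂ) * y + b) / ((c : ℂ) * y + d)) +
        ((D * a - C * b : ℝ) : ℂ)) := by
  have hw := (im_mobC hy h).1
  have hδ : ((a : ℂ) * d - b * c) ≠ 0 := by exact_mod_cast h.ne'
  have e1 : ((A * d - B * c : ℝ) : ℂ) * (((a : ℂ) * y + b) / ((c : ℂ) * y + d)) +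
        ((B * a - A * b : ℝ) : ℂ) =
      (((a : ℂ) * d - b * c) / ((c : ℂ) * y + d)) * ((A : ℂ) * y + B) := by
    push_cast
    field_simp
    ring
  have e2 : ((C * d - D * c : ℝ) : ℂ) * (((a : ℂ) * y + b) / ((c : ℂ) * y + d)) +
        ((D * a - C * b : ℝ) : ℂ) =
      (((a : ℂ) * d - b * c) / ((c : ℂ) * y + d)) * ((C : ℂ) * y + D) := by
    push_cast
    field_simp
    ring
  rw [e1, e2, mul_div_mul_left _ _ (div_ne_zero hδ hw)]

/-- The points have this form over each of them. -/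
lemma change_base {m n : ℕ} (t : Fin m → ℝ) (y : ℂ) (hy : 0 < y.im) (z : Fin n → ℂ)
    (hz : ∀ i, ∃ A ∈ IntermediateField.adjoin ℚ (Set.range t),
      ∃ B ∈ IntermediateField.adjoin ℚ (Set.range t),
      ∃ C ∈ IntermediateField.adjoin ℚ (Set.range t),
      ∃ D ∈ IntermediateField.adjoin ℚ (Set.range t), 0 < A * D - B * C ∧
        z i = ((A : ℂ) * y + (B : ℂ)) / ((C : ℂ) * y + (D : ℂ))) (i0 : Fin n) :
    0 < (z i0).im ∧ ∀ i, ∃ A ∈ IntermediateField.adjoin ℚ (Set.range t),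
      ∃ B ∈ IntermediateField.adjoin ℚ (Set.range t),
      ∃ C ∈ IntermediateField.adjoin ℚ (Set.range t),
      ∃ D ∈ IntermediateField.adjoin ℚ (Set.range t), 0 < A * D - B * C ∧
        z i = ((A : ℂ) * z i0 + (B : ℂ)) / ((C : ℂ) * z i0 + (D : ℂ)) := by
  obtain ⟨a, ha, b, hb, c, hc, d, hd, hpos, h0⟩ := hz i0
  refine ⟨by rw [h0]; exact (im_mobC hy hpos).2.2, fun i ↦ ?_⟩
  obtain ⟨A, hA, B, hB, C, hC, D, hD, hdet, he⟩ := hz i
  refine ⟨A * d - B * c, sub_mem (mul_mem hA hd) (mul_mem hB hc),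
    B * a - A * b, sub_mem (mul_mem hB ha) (mul_mem hA hb),
    C * d - D * c, sub_mem (mul_mem hC hd) (mul_mem hD hc),
    D * a - C * b, sub_mem (mul_mem hD ha) (mul_mem hC hb), ?_, ?_⟩
  · have e : (A * d - B * c) * (D * a - C * b) - (B * a - A * b) * (C * d - D * c) =
      (A * D - B * C) * (a * d - b * c) := by ring
    rw [e]
    exact mul_pos hdet hpos
  · rw [he, h0]
    exact mob_change hy hpos hdet

lemma mem_ofReal {m : ℕ} {t : Fin m → ℝ} {a : ℝ}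
    (ha : a ∈ IntermediateField.adjoin ℚ (Set.range t)) :
    (a : ℂ) ∈ IntermediateField.adjoin ℚ (Set.range fun s ↦ (t s : ℂ)) := by
  have h1 : (IntermediateField.adjoin ℚ (Set.range t)).map (Complex.ofRealAm.restrictScalars ℚ) =
      IntermediateField.adjoin ℚ (Set.range fun s ↦ ((t s : ℝ) : ℂ)) := by
    rw [IntermediateField.adjoin_map]
    congr 1
    rw [← Set.range_comp]
    rfl
  rw [← h1]
  exact ⟨a, ha, rfl⟩

theorem main_AK {E4 E6 J : ℂ → ℂ}
    (h4 : ∀ τ : ℂ, E4 τ = 1 + 240 * ∑' m : ℕ, ((ArithmeticFunction.sigma 3 (m + 1) : ℕ) : ℂ) *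
      Complex.exp (2 * (Real.pi : ℂ) * Complex.I * ((m : ℂ) + 1) * τ))
    (h6 : ∀ τ : ℂ, E6 τ = 1 - 504 * ∑' m : ℕ, ((ArithmeticFunction.sigma 5 (m + 1) : ℕ) : ℂ) *
      Complex.exp (2 * (Real.pi : ℂ) * Complex.I * ((m : ℂ) + 1) * τ))
    (hJ : ∀ τ : ℂ, J τ = 1728 * E4 τ ^ 3 / (E4 τ ^ 3 - E6 τ ^ 2))
    {m n : ℕ} (t : Fin m → ℝ) (ht : ∀ κ : ℝ, ∀ K : ℕ, ∃ q : ℕ, K ≤ q ∧ ∃ p : Fin m → ℤ,
      (∀ s, 0 < |t s - p s / q| ∧ |t s - p s / q| < Real.exp (-(q : ℝ) ^ κ)) ∧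
      ∀ r s, r ≠ s → |t r - p r / q| < |t s - p s / q| ^ K ∨
        |t s - p s / q| < |t r - p r / q| ^ K)
    (y : ℂ) (hy : 0 < y.im)
    (hya : IsAlgebraic (IntermediateField.adjoin ℚ (Set.range fun s ↦ (t s : ℂ))) y)
    (z : Fin n → ℂ)
    (hz : ∀ i, ∃ A ∈ IntermediateField.adjoin ℚ (Set.range t),
      ∃ B ∈ IntermediateField.adjoin ℚ (Set.range t),
      ∃ C ∈ IntermediateField.adjoin ℚ (Set.range t),
      ∃ D ∈ IntermediateField.adjoin ℚ (Set.range t), 0 < A * D - B * C ∧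
        z i = ((A : ℂ) * y + (B : ℂ)) / ((C : ℂ) * y + (D : ℂ)))
    (hcm : ∀ i, NCM (z i))
    (hrel : ∀ i k, i ≠ k → ¬ ∃ a b c d : ℚ, 0 < a * d - b * c ∧
      z k = ((a : ℂ) * z i + (b : ℂ)) / ((c : ℂ) * z i + (d : ℂ)))
    (ρ : ℕ) (g : Fin ρ → Fin n) (hg : AlgebraicIndependent ℚ (fun k ↦ z (g k))) :
    ∃ f : Fin (3 * n + ρ - 1) → Fin n × Fin 4, AlgebraicIndependent ℚ (fun k ↦
      (![z (f k).1, J (z (f k).1), deriv J (z (f k).1), deriv (deriv J) (z (f k).1)] :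
        Fin 4 → ℂ) (f k).2) := by
  by_cases halg : ∃ i0, IsAlgebraic ℚ (z i0)
  · obtain ⟨i0, hi0⟩ := halg
    obtain ⟨him, hz'⟩ := change_base t y hy z hz i0
    exact (AO.main_AO h4 h6 hJ (hG2 h4 h6 hJ) t ht (z i0) him hi0 (hcm i0) z hz' hrel).2 ρ g hg
  · push Not at halg
    rcases Nat.eq_zero_or_pos n with hn | hn
    · subst hn
      have hρ : ρ = 0 := by
        by_contra h
        exact (g ⟨0, Nat.pos_of_ne_zero h⟩).elim0
      subst hρ
      have h0 : 3 * 0 + 0 - 1 = 0 := by omega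
      rw [h0]
      refine ⟨fun i ↦ i.elim0, ?_⟩
      have : IsEmpty (Fin 0) := inferInstance
      exact algebraicIndependent_empty_type_iff.mpr (algebraMap ℚ ℂ).injective
    · obtain ⟨n', rfl⟩ : ∃ n', n = n' + 1 := ⟨n - 1, by omega⟩
      obtain ⟨him, hz'⟩ := change_base t y hy z hz 0
      have hcons : (Fin.cons (z 0) (fun i : Fin n' ↦ z i.succ) : Fin (n' + 1) → ℂ) = z := by
        funext i
        refine Fin.cases ?_ (fun i ↦ ?_) i
        · rfl
        · rfl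
      have hya' : IsAlgebraic (IntermediateField.adjoin ℚ (Set.range fun s ↦ (t s : ℂ))) (z 0) := by
        obtain ⟨a, ha, b, hb, c, hc, d, hd, -, h0⟩ := hz 0
        have hm : ∀ x : ℝ, x ∈ IntermediateField.adjoin ℚ (Set.range t) →
            IsAlgebraic (IntermediateField.adjoin ℚ (Set.range fun s ↦ (t s : ℂ))) (x : ℂ) := by
          intro x hx
          exact isAlgebraic_algebraMap (⟨(x : ℂ), mem_ofReal hx⟩ :
            IntermediateField.adjoin ℚ (Set.range fun s ↦ (t s : ℂ)))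
        rw [h0, div_eq_mul_inv]
        exact (((hm a ha).mul hya).add (hm b hb)).mul (((hm c hc).mul hya).add (hm d hd)).inv
      have h := core_tr h4 h6 hJ t (shier_of ht) (z 0) him hya' (fun i : Fin n' ↦ z i.succ)
        (fun i ↦ hz' i.succ) (fun i ↦ by rw [hcons]; exact halg i)
        (fun i k hik ↦ by rw [hcons]; exact hrel i k hik) g (by rw [hcons]; exact hg)
      rw [hcons] at h
      exact h

end AK
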